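import Pool.Agent.Lib_MP_1858fb_g.Defs

/-!
# MP_1858fb_ag, line G: general index types, the embedding of `V# = (Y × (A² \ 0)^r) / T`
-/

set_option autoImplicit false

namespace Pool.Agent.VFG

open MvPolynomial Pool.Agent.VF

section General

variable {k : Type} [Field k]

/-- `LocClosed` for a general index type. -/
def LocClosedS {σ : Type} (C : Set (σ → k)) : Prop :=
  ∃ I J : Set (MvPolynomial σ k), (∀ E ∈ I ∪ J, ∃ e : ℕ, E.IsHomogeneous e) ∧
    C = {x | x ≠ 0 ∧ (∀ E ∈ I, aeval x E = 0) ∧ ∃ G ∈ J, aeval x G ≠ 0}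

/-- `IsCurve` for a general index type. -/
def IsCurveS {σ : Type} {d : ℕ} (C : Set (σ → k)) (F : Fin (d + 1) → σ → k) : Prop :=
  ∀ p q : k, (p ≠ 0 ∨ q ≠ 0) → val F p q ∈ C

/-- `VeryFree` for a general index type. -/
def VeryFreeS {σ : Type} [Fintype σ] {d : ℕ} (C : Set (σ → k)) (F : Fin (d + 1) → σ → k) :
    Prop :=
  ∀ p q p' q' : k, p * q' - p' * q ≠ 0 →
    ∀ w ∈ Tan C (val F p q), ∀ w' ∈ Tan C (val F p' q'),
      ∃ G : Fin (d + 1) → σ → k, (∀ a b : k, val G a b ∈ Tan C (val F a b)) ∧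
        (∃ a : k, val G p q = w + a • val F p q) ∧
        (∃ a' : k, val G p' q' = w' + a' • val F p' q')

variable (k) in
/-- The statement of the main theorem for quasi-projective varieties (line F). -/
def QPTheorem : Prop :=
  ∀ (N c d m : ℕ) (V : Set (Fin (N + 1) → k)) (F : Fin (d + 1) → Fin (N + 1) → k)
    (v : Fin m → Fin (N + 1) → k), c < N →
    LocClosed V → Irred V → (∀ x ∈ V, SmoothAt c V x) → IsCurve V F → VeryFree V F →
    (∀ i, v i ∈ V) →
    ∃ (d' : ℕ) (F' : Fin (d' + 1) → Fin (N + 1) → k) (a : Fin m → k),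
      Function.Injective a ∧ IsCurve V F' ∧ VeryFree V F' ∧
      ∀ i, ∃ b : k, b ≠ 0 ∧ val F' 1 (a i) = b • v i

end General

section Emb

variable {M r : ℕ}

/-- The monomial of multidegree `N` in the pairs of variables `y l`, with the exponent `b l`
of the second member of the `l`-th pair. -/
def mon {R : Type} [CommRing R] (N : Fin r → ℕ) (b : ∀ l, Fin (N l + 1)) (y : Fin r → Fin 2 → R) :
    R :=
  ∏ l, (y l 0 ^ (N l - (b l : ℕ)) * y l 1 ^ (b l : ℕ))

/-- The coordinates of the space that contains the cone over `V#`. -/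
abbrev Idx (D : ℕ) (n : Fin M → Fin r → ℕ) : Type :=
  (∀ _ : Fin r, Fin (D + 1)) ⊕ (Σ i : Fin M, ∀ l : Fin r, Fin (n i l + 1))

/-- The embedding: the monomials of multidegree `(D, …, D)` in `y`, and `x i` times the
monomials of multidegree `n i` in `y`. -/
def emb {R : Type} [CommRing R] (D : ℕ) (n : Fin M → Fin r → ℕ) (x : Fin M → R)
    (y : Fin r → Fin 2 → R) : Idx D n → R :=
  Sum.elim (fun a => mon (fun _ => D) a y) (fun s => x s.1 * mon (n s.1) s.2 y)

/-- The cone over `V#`. -/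
def cone {k : Type} [Field k] (D : ℕ) (n : Fin M → Fin r → ℕ) (Y : Set (Fin M → k)) :
    Set (Idx D n → k) :=
  {u | ∃ x ∈ Y, ∃ y : Fin r → Fin 2 → k, (∀ l, y l ≠ 0) ∧ emb D n x y = u}

/-- The corner: the exponent vector of `∏ l, (y l (ε l)) ^ (N l)`. -/
def cor (N : Fin r → ℕ) (ε : Fin r → Fin 2) : ∀ l, Fin (N l + 1) :=
  fun l => if ε l = 0 then 0 else Fin.last (N l)

/-- The corner coordinate `∏ l, (y l (ε l)) ^ D`. -/
def cor0 (D : ℕ) (n : Fin M → Fin r → ℕ) (ε : Fin r → Fin 2) : Idx D n :=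
  Sum.inl (cor (fun _ => D) ε)

/-- The derivative of the embedding at `(x, y)` applied to `(ξ, η)` (dual numbers). -/
noncomputable def demb {k : Type} [Field k] (D : ℕ) (n : Fin M → Fin r → ℕ) (x : Fin M → k)
    (y : Fin r → Fin 2 → k) (ξ : Fin M → k) (η : Fin r → Fin 2 → k) : Idx D n → k :=
  fun j => TrivSqZeroExt.snd (emb D n
    (fun i => (TrivSqZeroExt.inl (x i) + TrivSqZeroExt.inr (ξ i) : TrivSqZeroExt k k))
    (fun l e => (TrivSqZeroExt.inl (y l e) + TrivSqZeroExt.inr (η l e) : TrivSqZeroExt k k)) j)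

end Emb

end Pool.Agent.VFG
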