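import Pool.Agent.Lib_MP_1858fb_g.Defs2

/-!
# MP_1858fb_ag, line G, piece G1: the torus action and the embedding
-/

set_option autoImplicit false

namespace Pool.Agent.VFG

open MvPolynomial Pool.Agent.VF

variable {k : Type} [Field k]

section

variable {M r D : ℕ} {w : Fin M → Fin r → ℤ} {n : Fin M → Fin r → ℕ} {c : ℕ} {Y : Set (Fin M → k)}

theorem mon_act {R : Type} [CommRing R] (N : Fin r → ℕ) (b : ∀ l, Fin (N l + 1)) (t : Fin r → R)
    (y : Fin r → Fin 2 → R) :
    mon N b (fun l e => t l * y l e) = (∏ l, t l ^ N l) * mon N b y := by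
  unfold mon
  rw [← Finset.prod_mul_distrib]
  refine Finset.prod_congr rfl fun l _ => ?_
  have h : N l = (N l - (b l : ℕ)) + (b l : ℕ) := by
    have := (b l).2
    omega
  have h2 : t l ^ N l = t l ^ (N l - (b l : ℕ)) * t l ^ (b l : ℕ) := by
    rw [← pow_add, ← h]
  rw [h2, mul_pow, mul_pow]
  ring

theorem emb_act {R : Type} [CommRing R] (hn : ∀ i l, w i l = (D : ℤ) - n i l) (t : Fin r → Rˣ)
    (x : Fin M → R) (y : Fin r → Fin 2 → R) :
    emb D n (act w t x) (fun l e => (t l : R) * y l e) =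
      fun j => ((∏ l, t l ^ D : Rˣ) : R) * emb D n x y j := by
  funext j
  rcases j with a | s
  · have e1 : emb D n (act w t x) (fun l e => (t l : R) * y l e) (Sum.inl a) =
        mon (fun _ => D) a (fun l e => (t l : R) * y l e) := rfl
    have e2 : emb D n x y (Sum.inl a) = mon (fun _ => D) a y := rfl
    rw [e1, mon_act]
    simp only [e2]
    congr 1
    push_cast
    rfl
  · have e1 : emb D n (act w t x) (fun l e => (t l : R) * y l e) (Sum.inr s) =
        act w t x s.1 * mon (n s.1) s.2 (fun l e => (t l : R) * y l e) := rfl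
    have e2 : emb D n x y (Sum.inr s) = x s.1 * mon (n s.1) s.2 y := rfl
    rw [e1, mon_act]
    simp only [e2]
    have h1 : (∏ l, (t l : R) ^ n s.1 l) = ((∏ l, t l ^ n s.1 l : Rˣ) : R) := by
      push_cast
      rfl
    have h2 : (∏ l, t l ^ D : Rˣ) = (∏ l, t l ^ w s.1 l) * ∏ l, t l ^ n s.1 l := by
      rw [← Finset.prod_mul_distrib]
      refine Finset.prod_congr rfl fun l _ => ?_
      rw [← zpow_natCast (t l) (n s.1 l), ← zpow_add, hn, sub_add_cancel, zpow_natCast]
    rw [h1, h2]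
    unfold act
    push_cast
    ring

theorem prod_zpow_sum {G ι : Type*} [CommGroup G] [Fintype ι] (a : G) (f : ι → ℤ) :
    ∏ i, a ^ f i = a ^ ∑ i, f i := by
  classical
  have h : ∀ s : Finset ι, ∏ i ∈ s, a ^ f i = a ^ ∑ i ∈ s, f i := by
    intro s
    induction s using Finset.induction_on with
    | empty => simp
    | insert i s hi ih => rw [Finset.prod_insert hi, Finset.sum_insert hi, ih, zpow_add]
  exact h Finset.univ

/-- a semi-invariant polynomial at `t x` -/
theorem semiInv_aeval {R : Type} [CommRing R] [Algebra k R] (t : Fin r → Rˣ) (x : Fin M → R)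
    (E : MvPolynomial (Fin M) k) (e : Fin r → ℤ)
    (hE : ∀ μ ∈ E.support, ∀ l, ∑ i, (μ i : ℤ) * w i l = e l) :
    aeval (act w t x) E = ((∏ l, t l ^ e l : Rˣ) : R) * aeval x E := by
  rw [aeval_def, aeval_def, eval₂_eq', eval₂_eq', Finset.mul_sum]
  refine Finset.sum_congr rfl fun μ hμ => ?_
  have h1 : (∏ i, act w t x i ^ μ i) = ((∏ l, t l ^ e l : Rˣ) : R) * ∏ i, x i ^ μ i := by
    have h2 : ∀ i, act w t x i ^ μ i = (((∏ l, t l ^ w i l) ^ μ i : Rˣ) : R) * x i ^ μ i := by
      intro i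
      unfold act
      rw [mul_pow]
      push_cast
      rfl
    simp only [h2]
    rw [Finset.prod_mul_distrib]
    congr 1
    have h3 : (∏ l, t l ^ e l : Rˣ) = ∏ i, (∏ l, t l ^ w i l) ^ μ i := by
      have h4 : ∀ i, (∏ l, t l ^ w i l) ^ μ i = ∏ l, t l ^ ((μ i : ℤ) * w i l) := by
        intro i
        rw [← Finset.prod_pow]
        refine Finset.prod_congr rfl fun l _ => ?_
        rw [mul_comm, zpow_mul, zpow_natCast]
      simp only [h4]
      rw [Finset.prod_comm]
      refine Finset.prod_congr rfl fun l _ => ?_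
      rw [← hE μ hμ l]
      exact (prod_zpow_sum (t l) _).symm
    rw [h3]
    push_cast
    rfl
  rw [h1]
  ring

theorem act_mem (hY : IsTorsor w c Y) (t : Fin r → kˣ) {x : Fin M → k} (hx : x ∈ Y) :
    act w t x ∈ Y := by
  obtain ⟨I, J, hIJ, hYe⟩ := hY.closed
  rw [hYe] at hx ⊢
  obtain ⟨h1, G, hG, h2⟩ := hx
  refine ⟨fun E hE => ?_, G, hG, ?_⟩
  · obtain ⟨e, he⟩ := hIJ E (Or.inl hE)
    rw [semiInv_aeval t x E e he, h1 E hE, mul_zero]
  · obtain ⟨e, he⟩ := hIJ G (Or.inr hG)
    rw [semiInv_aeval t x G e he]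
    exact mul_ne_zero (Units.ne_zero _) h2

/-- the weight of a monomial -/
def wt (w : Fin M → Fin r → ℤ) (μ : Fin M →₀ ℕ) : Fin r → ℤ := fun l => ∑ i, (μ i : ℤ) * w i l

open Classical in
/-- the weight component -/
noncomputable def wcomp (w : Fin M → Fin r → ℤ) (E : MvPolynomial (Fin M) k) (e : Fin r → ℤ) :
    MvPolynomial (Fin M) k :=
  ∑ μ ∈ E.support.filter (fun μ => wt w μ = e), monomial μ (E.coeff μ)

open Classical in
theorem sum_wcomp (w : Fin M → Fin r → ℤ) (E : MvPolynomial (Fin M) k) :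
    E = ∑ e ∈ E.support.image (wt w), wcomp w E e := by
  conv_lhs => rw [E.as_sum]
  unfold wcomp
  exact (Finset.sum_fiberwise_of_maps_to (fun μ hμ => Finset.mem_image_of_mem _ hμ) _).symm

theorem wcomp_aeval {R : Type} [CommRing R] [Algebra k R] (t : Fin r → Rˣ) (x : Fin M → R)
    (E : MvPolynomial (Fin M) k) (e : Fin r → ℤ) :
    aeval (act w t x) (wcomp w E e) = ((∏ l, t l ^ e l : Rˣ) : R) * aeval x (wcomp w E e) := by
  classical
  refine semiInv_aeval t x _ e fun μ hμ l => ?_
  have h1 : μ ∈ E.support.filter (fun μ => wt w μ = e) := by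
    by_contra h2
    rw [mem_support_iff] at hμ
    apply hμ
    unfold wcomp
    rw [coeff_sum]
    refine Finset.sum_eq_zero fun ν hν => ?_
    rw [coeff_monomial, if_neg]
    rintro rfl
    exact h2 hν
  have h3 := (Finset.mem_filter.1 h1).2
  exact congrFun h3 l

/-- the character of the torus -/
def chr (k : Type) [Field k] (r : ℕ) (e : Fin r → ℤ) : (Fin r → kˣ) →* k where
  toFun t := ((∏ l, t l ^ e l : kˣ) : k)
  map_one' := by simp
  map_mul' s t := by
    simp [mul_zpow, Finset.prod_mul_distrib]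

theorem chr_injective (k : Type) [Field k] [Infinite k] (r : ℕ) : Function.Injective (chr k r) := by
  intro e e' h
  funext l
  by_contra hne
  have h1 : ∀ a : kˣ, a ^ (e l - e' l) = 1 := by
    intro a
    have h2 := DFunLike.congr_fun h (Pi.mulSingle l a)
    have h3 : ∀ f : Fin r → ℤ, chr k r f (Pi.mulSingle l a) = ((a ^ f l : kˣ) : k) := by
      intro f
      show ((∏ l', (Pi.mulSingle l a : Fin r → kˣ) l' ^ f l' : kˣ) : k) = _
      rw [Finset.prod_eq_single l]
      · rw [Pi.mulSingle_eq_same]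
      · intro l' _ hl'
        rw [Pi.mulSingle_eq_of_ne hl', one_zpow]
      · intro h4
        exact absurd (Finset.mem_univ _) h4
    rw [h3, h3] at h2
    have h4 : a ^ e l = a ^ e' l := Units.ext h2
    rw [zpow_sub, h4, mul_inv_cancel]
  have h5 : e l - e' l ≠ 0 := sub_ne_zero.2 hne
  set m : ℕ := (e l - e' l).natAbs with hm
  have hm0 : 0 < m := Int.natAbs_pos.2 h5
  have h6 : ∀ a : kˣ, a ^ m = 1 := by
    intro a
    rcases Int.natAbs_eq (e l - e' l) with h7 | h7
    · have := h1 a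
      rw [h7, ← hm, zpow_natCast] at this
      exact this
    · have := h1 a
      rw [h7, ← hm, zpow_neg, zpow_natCast, inv_eq_one] at this
      exact this
  have h8 : ∀ a : k, (Polynomial.X ^ (m + 1) - Polynomial.X : Polynomial k).eval a = 0 := by
    intro a
    by_cases ha : a = 0
    · subst ha
      simp
    · have := congrArg Units.val (h6 (Units.mk0 a ha))
      simp only [Units.val_pow_eq_pow_val, Units.val_mk0, Units.val_one] at this
      simp [pow_succ, this]
  have h9 : (Polynomial.X ^ (m + 1) - Polynomial.X : Polynomial k) = 0 :=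
    Polynomial.funext (by simpa using h8)
  have h10 := congrArg (fun P => Polynomial.coeff P 1) h9
  simp only [Polynomial.coeff_sub, Polynomial.coeff_X_pow, Polynomial.coeff_X_one,
    Polynomial.coeff_zero] at h10
  rw [if_neg (by omega)] at h10
  simp at h10

theorem wcomp_mem [Infinite k] (hY : IsTorsor w c Y) {E : MvPolynomial (Fin M) k}
    (hE : E ∈ van Y) (e : Fin r → ℤ) : wcomp w E e ∈ van Y := by
  classical
  intro x hx
  by_cases he : e ∈ E.support.image (wt w)
  · have hli := linearIndependent_monoidHom (Fin r → kˣ) k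
    have hli2 : LinearIndependent k (fun e : Fin r → ℤ => (chr k r e : (Fin r → kˣ) → k)) :=
      hli.comp (chr k r) (chr_injective k r)
    have h1 : ∑ e ∈ E.support.image (wt w), (aeval x (wcomp w E e) : k) •
        (chr k r e : (Fin r → kˣ) → k) = 0 := by
      funext t
      have h2 := hE (act w t x) (act_mem hY t hx)
      rw [sum_wcomp w E, map_sum] at h2
      rw [Finset.sum_apply, Pi.zero_apply, ← h2]
      refine Finset.sum_congr rfl fun e _ => ?_
      rw [wcomp_aeval]
      show (aeval x (wcomp w E e) : k) * ((∏ l, t l ^ e l : kˣ) : k) = _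
      rw [mul_comm]
    exact linearIndependent_iff'.1 hli2 _ _ h1 e he
  · have h3 : wcomp w E e = 0 := by
      unfold wcomp
      rw [Finset.filter_false_of_mem, Finset.sum_empty]
      intro μ hμ h4
      exact he (Finset.mem_image.2 ⟨μ, hμ, h4⟩)
    rw [h3, map_zero]

/-- `R`-valued points: the equations of `Y` are stable under the torus over `R` -/
theorem act_van [Infinite k] (hY : IsTorsor w c Y) {R : Type} [CommRing R] [Algebra k R]
    (t : Fin r → Rˣ) (x : Fin M → R) (hx : ∀ E ∈ van Y, aeval x E = 0) :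
    ∀ E ∈ van Y, aeval (act w t x) E = 0 := by
  classical
  intro E hE
  rw [sum_wcomp w E, map_sum]
  refine Finset.sum_eq_zero fun e _ => ?_
  rw [wcomp_aeval, hx _ (wcomp_mem hY hE e), mul_zero]

/-- normal form: a point of the cone with nonzero corner coordinate -/
theorem exists_nf (hn : ∀ i l, w i l = (D : ℤ) - n i l) (hY : IsTorsor w c Y)
    (ε : Fin r → Fin 2) {x : Fin M → k} (hx : x ∈ Y) {y : Fin r → Fin 2 → k}
    (hy : ∀ l, y l (ε l) ≠ 0) :
    ∃ (s : k) (x' : Fin M → k) (y' : Fin r → Fin 2 → k), s ≠ 0 ∧ x' ∈ Y ∧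
      (∀ l, y' l (ε l) = 1) ∧ emb D n x y = s • emb D n x' y' := by
  set t : Fin r → kˣ := fun l => (Units.mk0 _ (hy l))⁻¹ with ht
  refine ⟨(((∏ l, t l ^ D : kˣ)⁻¹ : kˣ) : k), act w t x, fun l e => (t l : k) * y l e,
    Units.ne_zero _, act_mem hY t hx, fun l => ?_, ?_⟩
  · show (t l : k) * y l (ε l) = 1
    simp only [ht, Units.val_inv_eq_inv_val, Units.val_mk0]
    exact inv_mul_cancel₀ (hy l)
  · rw [emb_act hn]
    funext j
    rw [Pi.smul_apply, smul_eq_mul, ← mul_assoc, Units.inv_mul, one_mul]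

theorem cone_smul [IsAlgClosed k] (hn : ∀ i l, w i l = (D : ℤ) - n i l) (hY : IsTorsor w c Y)
    (hD : 0 < D) (hr : 0 < r) {u : Idx D n → k} (hu : u ∈ cone D n Y) {s : k} (hs : s ≠ 0) :
    s • u ∈ cone D n Y := by
  obtain ⟨x, hx, y, hy, rfl⟩ := hu
  obtain ⟨a, ha⟩ := IsAlgClosed.exists_pow_nat_eq s hD
  have ha0 : a ≠ 0 := by
    rintro rfl
    rw [zero_pow hD.ne'] at ha
    exact hs ha.symm
  set t : Fin r → kˣ := Pi.mulSingle ⟨0, hr⟩ (Units.mk0 a ha0) with ht
  have hprod : ((∏ l, t l ^ D : kˣ) : k) = s := by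
    rw [Finset.prod_eq_single (⟨0, hr⟩ : Fin r)]
    · rw [ht, Pi.mulSingle_eq_same, Units.val_pow_eq_pow_val, Units.val_mk0, ha]
    · intro l _ hl
      rw [ht, Pi.mulSingle_eq_of_ne hl, one_pow]
    · intro h4
      exact absurd (Finset.mem_univ _) h4
  refine ⟨act w t x, act_mem hY t hx, fun l e => (t l : k) * y l e, fun l h => hy l ?_, ?_⟩
  · funext e
    have := congrFun h e
    exact (mul_eq_zero.1 this).resolve_left (Units.ne_zero _)
  · rw [emb_act hn, hprod]
    rfl

theorem act_mon_cor (N : Fin r → ℕ) (ε : Fin r → Fin 2) (y : Fin r → Fin 2 → k) :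
    mon N (cor N ε) y = ∏ l, y l (ε l) ^ N l := by
  unfold mon cor
  refine Finset.prod_congr rfl fun l _ => ?_
  by_cases h : ε l = 0
  · rw [if_pos h, h]
    simp
  · rw [if_neg h]
    have h1 : ε l = 1 := by
      have := (ε l).2
      ext
      have h2 : (ε l : ℕ) ≠ 0 := fun h3 => h (Fin.ext h3)
      show (ε l : ℕ) = 1
      omega
    rw [h1]
    simp

open Classical in
/-- the corner with one step in the direction `l0` -/
noncomputable def cor1 (D : ℕ) (hD : 0 < D) (ε : Fin r → Fin 2) (l0 : Fin r) : ∀ _ : Fin r, Fin (D + 1) :=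
  fun l => if l = l0 then (if ε l = 0 then ⟨1, by omega⟩ else ⟨D - 1, by omega⟩) else cor (fun _ => D) ε l

theorem mon_cor1 (hD : 0 < D) (ε : Fin r → Fin 2) (l0 : Fin r) (y : Fin r → Fin 2 → k) :
    mon (fun _ => D) (cor1 D hD ε l0) y =
      (y l0 (ε l0) ^ (D - 1) * y l0 (1 - ε l0)) * ∏ l ∈ Finset.univ.erase l0, y l (ε l) ^ D := by
  unfold mon
  rw [← Finset.mul_prod_erase Finset.univ _ (Finset.mem_univ l0)]
  congr 1
  · unfold cor1
    rw [if_pos rfl]
    by_cases h : ε l0 = 0
    · rw [if_pos h, h]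
      simp
    · rw [if_neg h]
      have h1 : ε l0 = 1 := by
        ext
        have := (ε l0).2
        have h2 : (ε l0 : ℕ) ≠ 0 := fun h3 => h (Fin.ext h3)
        show (ε l0 : ℕ) = 1
        omega
      rw [h1]
      have h3 : D - (D - 1) = 1 := by omega
      simp only [h3, pow_one, sub_self]
      ring
  · refine Finset.prod_congr rfl fun l hl => ?_
    have hne : l ≠ l0 := Finset.ne_of_mem_erase hl
    unfold cor1 cor
    rw [if_neg hne]
    by_cases h : ε l = 0
    · rw [if_pos h, h]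
      simp
    · rw [if_neg h]
      have h1 : ε l = 1 := by
        ext
        have := (ε l).2
        have h2 : (ε l : ℕ) ≠ 0 := fun h3 => h (Fin.ext h3)
        show (ε l : ℕ) = 1
        omega
      rw [h1]
      simp

theorem emb_inj (hn : ∀ i l, w i l = (D : ℤ) - n i l) (hD : 0 < D) {x x' : Fin M → k}
    {y y' : Fin r → Fin 2 → k} (hy : ∀ l, y l ≠ 0) (hy' : ∀ l, y' l ≠ 0)
    (h : emb D n x y = emb D n x' y') :
    ∃ t : Fin r → kˣ, x = act w t x' ∧ ∀ l e, y l e = (t l : k) * y' l e := by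
  have h0 : ∀ l, ∃ e, y l e ≠ 0 := fun l => Function.ne_iff.1 (hy l)
  choose ε hε using h0
  -- the corner
  have c1 : ∏ l, y l (ε l) ^ D = ∏ l, y' l (ε l) ^ D := by
    have := congrFun h (Sum.inl (cor (fun _ => D) ε))
    have e1 : ∀ (x : Fin M → k) (y : Fin r → Fin 2 → k), emb D n x y (Sum.inl (cor (fun _ => D) ε)) =
      mon (fun _ => D) (cor (fun _ => D) ε) y := fun _ _ => rfl
    rwa [e1, e1, act_mon_cor, act_mon_cor] at this
  have c0 : ∏ l, y l (ε l) ^ D ≠ 0 := Finset.prod_ne_zero_iff.2 fun l _ => pow_ne_zero _ (hε l)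
  have hε' : ∀ l, y' l (ε l) ≠ 0 := by
    intro l h1
    rw [c1] at c0
    refine Finset.prod_ne_zero_iff.1 c0 l (Finset.mem_univ l) ?_
    rw [h1, zero_pow hD.ne']
  -- one step
  have c2 : ∀ l, y' l (ε l) * y l (1 - ε l) = y' l (1 - ε l) * y l (ε l) := by
    intro l
    have h1 := congrFun h (Sum.inl (cor1 D hD ε l))
    have e1 : ∀ (x : Fin M → k) (y : Fin r → Fin 2 → k), emb D n x y (Sum.inl (cor1 D hD ε l)) =
      mon (fun _ => D) (cor1 D hD ε l) y := fun _ _ => rfl
    rw [e1, e1, mon_cor1, mon_cor1] at h1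
    have h2 := c1
    rw [← Finset.mul_prod_erase Finset.univ _ (Finset.mem_univ l),
      ← Finset.mul_prod_erase Finset.univ (fun l => y' l (ε l) ^ D) (Finset.mem_univ l)] at h2
    have p1 : ∏ l ∈ Finset.univ.erase l, y' l (ε l) ^ D ≠ 0 :=
      Finset.prod_ne_zero_iff.2 fun l _ => pow_ne_zero _ (hε' l)
    have p2 : y' l (ε l) ^ (D - 1) ≠ 0 := pow_ne_zero _ (hε' l)
    have p3 : ∀ z : k, z ^ D = z ^ (D - 1) * z := fun z => by
      rw [← pow_succ]
      congr 1
      omega
    simp only [p3] at h2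
    apply mul_left_cancel₀ (mul_ne_zero p2 p1)
    simp only [p3] at h1 p1 ⊢
    linear_combination (y l (ε l)) * h1 - (y l (1 - ε l)) * h2
  set t : Fin r → kˣ := fun l => Units.mk0 _ (hε l) / Units.mk0 _ (hε' l) with ht
  have htv : ∀ l, (t l : k) = y l (ε l) / y' l (ε l) := by
    intro l
    simp only [ht, Units.val_div_eq_div_val, Units.val_mk0]
  have hy1 : ∀ l, y l (ε l) = (t l : k) * y' l (ε l) := by
    intro l
    rw [htv, div_mul_cancel₀ _ (hε' l)]
  have hyt : ∀ l e, y l e = (t l : k) * y' l e := by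
    intro l e
    by_cases he : e = ε l
    · rw [he]
      exact hy1 l
    · have h1 : e = 1 - ε l := by
        revert he
        generalize ε l = z
        revert z
        revert e
        decide
      rw [h1, htv, div_mul_eq_mul_div, eq_div_iff (hε' l)]
      linear_combination c2 l
  have hprod : (∏ l, t l ^ D : kˣ) = 1 := by
    apply Units.ext
    have h1 : ((∏ l, t l ^ D : kˣ) : k) * ∏ l, y' l (ε l) ^ D = ∏ l, y l (ε l) ^ D := by
      push_cast
      rw [← Finset.prod_mul_distrib]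
      refine Finset.prod_congr rfl fun l _ => ?_
      rw [← mul_pow, ← hy1]
    rw [c1] at h1 c0
    exact (mul_eq_right₀ c0).1 h1
  refine ⟨t, ?_, hyt⟩
  funext i
  have h1 := congrFun h (Sum.inr ⟨i, cor (n i) ε⟩)
  have e1 : ∀ (x : Fin M → k) (y : Fin r → Fin 2 → k), emb D n x y (Sum.inr ⟨i, cor (n i) ε⟩) =
      x i * mon (n i) (cor (n i) ε) y := fun _ _ => rfl
  rw [e1, e1, act_mon_cor, act_mon_cor] at h1
  have h2 : ∏ l, y l (ε l) ^ n i l = ((∏ l, t l ^ n i l : kˣ) : k) * ∏ l, y' l (ε l) ^ n i l := by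
    push_cast
    rw [← Finset.prod_mul_distrib]
    refine Finset.prod_congr rfl fun l _ => ?_
    rw [← mul_pow, ← hy1]
  have p1 : ∏ l, y' l (ε l) ^ n i l ≠ 0 := Finset.prod_ne_zero_iff.2 fun l _ => pow_ne_zero _ (hε' l)
  rw [h2, ← mul_assoc] at h1
  have h3 := mul_right_cancel₀ p1 h1
  have h4 : (∏ l, t l ^ w i l : kˣ) * ∏ l, t l ^ n i l = 1 := by
    rw [← hprod, ← Finset.prod_mul_distrib]
    refine Finset.prod_congr rfl fun l _ => ?_
    rw [← zpow_natCast (t l) (n i l), ← zpow_add, hn, sub_add_cancel, zpow_natCast]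
  show x i = ((∏ l, t l ^ w i l : kˣ) : k) * x' i
  rw [← h3, mul_comm (x i), ← mul_assoc, ← Units.val_mul, h4, Units.val_one, one_mul]

end

end Pool.Agent.VFG
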