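import Mathlib

/-!
# MP_1858fb_ag, line G, piece G13: a basis of the characters in which all degrees are positive
-/

set_option autoImplicit false

namespace Pool.Agent.VFG

theorem exists_basis {r : ℕ} (δ : Fin r → ℤ) (hδ : δ ≠ 0) :
    ∃ A B : Matrix (Fin r) (Fin r) ℤ, A * B = 1 ∧ B * A = 1 ∧ ∀ l, 1 ≤ (B.mulVec δ) l := by
  classical
  obtain ⟨l0, hl0⟩ : ∃ l, δ l ≠ 0 := by
    by_contra h
    push Not at h
    exact hδ (funext h)
  set σ : ℤ := if 0 < δ l0 then 1 else -1 with hσ
  have hσσ : σ * σ = 1 := by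
    rw [hσ]
    split_ifs <;> norm_num
  have hσpos : 1 ≤ σ * δ l0 := by
    rw [hσ]
    split_ifs with h
    · omega
    · omega
  set c : Fin r → ℤ := fun l => if l = l0 then 0 else |δ l| + 1 with hc
  set N : Matrix (Fin r) (Fin r) ℤ := Matrix.of fun l s => if s = l0 then c l else 0 with hN
  set S : Matrix (Fin r) (Fin r) ℤ := Matrix.diagonal fun l => if l = l0 then σ else 1 with hS
  have hNN : N * N = 0 := by
    ext l s
    rw [Matrix.mul_apply, Finset.sum_eq_zero]
    · rfl
    · intro u _
      rw [hN, Matrix.of_apply, Matrix.of_apply]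
      by_cases hu : u = l0
      · subst hu
        simp [hc]
      · simp [hu]
  have hSS : S * S = 1 := by
    rw [hS, Matrix.diagonal_mul_diagonal, ← Matrix.diagonal_one]
    congr 1
    funext l
    by_cases h : l = l0
    · simp [h, hσσ]
    · simp [h]
  have h1 : (1 - N) * (1 + N) = 1 := by
    have : (1 - N) * (1 + N) = 1 - N * N := by noncomm_ring
    rw [this, hNN, sub_zero]
  have h2 : (1 + N) * (1 - N) = 1 := by
    have : (1 + N) * (1 - N) = 1 - N * N := by noncomm_ring
    rw [this, hNN, sub_zero]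
  refine ⟨S * (1 - N), (1 + N) * S, ?_, ?_, ?_⟩
  · rw [Matrix.mul_assoc, ← Matrix.mul_assoc (1 - N), h1, Matrix.one_mul, hSS]
  · rw [Matrix.mul_assoc, ← Matrix.mul_assoc S, hSS, Matrix.one_mul, h2]
  · intro l
    rw [← Matrix.mulVec_mulVec, Matrix.add_mulVec, Matrix.one_mulVec]
    have e1 : ∀ l, (S.mulVec δ) l = (if l = l0 then σ else 1) * δ l := by
      intro l
      rw [hS, Matrix.mulVec_diagonal]
    have e2 : (N.mulVec (S.mulVec δ)) l = c l * (σ * δ l0) := by
      rw [Matrix.mulVec, dotProduct, Finset.sum_eq_single l0]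
      · rw [hN, Matrix.of_apply, if_pos rfl, e1, if_pos rfl]
      · intro s _ hs
        rw [hN, Matrix.of_apply, if_neg hs, zero_mul]
      · intro h
        exact absurd (Finset.mem_univ _) h
    rw [Pi.add_apply, e1, e2]
    by_cases h : l = l0
    · subst h
      simp only [if_true, hc, zero_mul, add_zero]
      exact hσpos
    · simp only [h, if_false, hc, one_mul]
      have h3 : -|δ l| ≤ δ l := neg_abs_le (δ l)
      have h4 : 0 ≤ |δ l| := abs_nonneg _
      nlinarith

end Pool.Agent.VFG
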