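import Pool.Agent.Lib_MP_1858fb_g.Forms

/-!
# MP_1858fb_ag, line G, piece G9: Bezout for two forms of the same degree without common zeros
-/

set_option autoImplicit false

namespace Pool.Agent.VFG

section Bez

open Polynomial

variable {k : Type} [Field k]

/-- The polynomial in the second variable. -/
noncomputable def fpol (d : ℕ) (a : ℕ → k) : k[X] :=
  ∑ j ∈ Finset.range (d + 1), C (a j) * X ^ j

theorem fpol_coeff_eq {d : ℕ} {P : k[X]} (h : P.natDegree ≤ d) : fpol d P.coeff = P := by
  unfold fpol
  exact (Polynomial.as_sum_range_C_mul_X_pow' P (Nat.lt_succ_of_le h)).symm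

theorem fpol_natDegree_le (d : ℕ) (a : ℕ → k) : (fpol d a).natDegree ≤ d := by
  unfold fpol
  refine Polynomial.natDegree_sum_le_of_forall_le _ _ fun j hj => ?_
  refine (Polynomial.natDegree_C_mul_X_pow_le _ _).trans ?_
  have := Finset.mem_range.mp hj
  omega

theorem fpol_coeff {d : ℕ} (a : ℕ → k) {j : ℕ} (hj : j ≤ d) : (fpol d a).coeff j = a j := by
  unfold fpol
  rw [Polynomial.finsetSum_coeff, Finset.sum_eq_single j]
  · rw [Polynomial.coeff_C_mul, Polynomial.coeff_X_pow, if_pos rfl, mul_one]
  · intro b _ hb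
    rw [Polynomial.coeff_C_mul, Polynomial.coeff_X_pow, if_neg (Ne.symm hb), mul_zero]
  · intro h
    exact absurd (Finset.mem_range.mpr (by omega)) h

theorem fval_eq_eval (d : ℕ) (a : ℕ → k) {p : k} (hp : p ≠ 0) (q : k) :
    fval d a p q = p ^ d * (fpol d a).eval (q / p) := by
  unfold fval fpol
  rw [Polynomial.eval_finsetSum, Finset.mul_sum]
  refine Finset.sum_congr rfl fun j hj => ?_
  have hj' : j ≤ d := by
    have := Finset.mem_range.mp hj
    omega
  rw [Polynomial.eval_mul, Polynomial.eval_C, Polynomial.eval_pow, Polynomial.eval_X]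
  have h1 : p ^ d = p ^ (d - j) * p ^ j := by
    rw [← pow_add]
    congr 1
    omega
  have h2 : p ^ j * (q / p) ^ j = q ^ j := by
    rw [← mul_pow, mul_div_cancel₀ _ hp]
  rw [h1, ← h2]
  ring

theorem fval_zero_left (d : ℕ) (a : ℕ → k) (q : k) : fval d a 0 q = a d * q ^ d := by
  unfold fval
  rw [Finset.sum_range_succ, Finset.sum_eq_zero, zero_add, Nat.sub_self, pow_zero, one_mul]
  intro j hj
  have := Finset.mem_range.mp hj
  rw [zero_pow (by omega), zero_mul, mul_zero]

theorem bezout_pol {d : ℕ} {A B : k[X]} (hA : A.natDegree = d) (hA0 : A ≠ 0)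
    (hB : B.natDegree ≤ d) (h : IsCoprime A B) {P : k[X]} (hP : P.natDegree ≤ 2 * d) :
    ∃ A' B' : k[X], A'.natDegree ≤ d ∧ B'.natDegree ≤ d ∧ A * B' - B * A' = P := by
  obtain ⟨u, v, huv⟩ := h
  have hdm : A * ((v * P) / A) + (v * P) % A = v * P := EuclideanDomain.div_add_mod _ _
  have hR : ((v * P) % A).natDegree ≤ d := by
    have h1 : ((v * P) % A).degree < A.degree := EuclideanDomain.mod_lt _ hA0
    have h2 := Polynomial.natDegree_le_natDegree h1.le
    omega
  have hid : A * (u * P + B * ((v * P) / A)) - B * (-((v * P) % A)) = P := by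
    have h3 : (u * A + v * B) * P = P := by rw [huv, one_mul]
    linear_combination B * hdm + h3
  refine ⟨-((v * P) % A), u * P + B * ((v * P) / A), ?_, ?_, hid⟩
  · rw [Polynomial.natDegree_neg]
    exact hR
  · by_cases h0 : u * P + B * ((v * P) / A) = 0
    · rw [h0]
      simp
    · have h4 : A * (u * P + B * ((v * P) / A)) = P + B * (-((v * P) % A)) := by
        linear_combination hid
      have h5 : (A * (u * P + B * ((v * P) / A))).natDegree ≤ 2 * d := by
        rw [h4]
        refine Polynomial.natDegree_add_le_of_degree_le hP ?_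
        refine Polynomial.natDegree_mul_le.trans ?_
        rw [Polynomial.natDegree_neg]
        omega
      rw [Polynomial.natDegree_mul hA0 h0] at h5
      omega

theorem fval_bezout_aux (d : ℕ) (a b : ℕ → k) (hc : IsCoprime (fpol d a) (fpol d b))
    (had : a d ≠ 0) (c : ℕ → k) :
    ∃ a' b' : ℕ → k, ∀ p q, fval d a p q * fval d b' p q - fval d b p q * fval d a' p q =
      fval (2 * d) c p q := by
  have hco : (fpol d a).coeff d ≠ 0 := by
    rw [fpol_coeff a le_rfl]
    exact had
  have hdeg : (fpol d a).natDegree = d :=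
    le_antisymm (fpol_natDegree_le d a) (Polynomial.le_natDegree_of_ne_zero hco)
  have h0 : fpol d a ≠ 0 := by
    intro h
    rw [h] at hco
    exact hco (Polynomial.coeff_zero d)
  obtain ⟨A', B', hA', hB', hid⟩ := bezout_pol hdeg h0 (fpol_natDegree_le d b) hc
    (fpol_natDegree_le (2 * d) c)
  refine ⟨A'.coeff, B'.coeff, fun p q => ?_⟩
  by_cases hp : p = 0
  · subst hp
    rw [fval_zero_left, fval_zero_left, fval_zero_left, fval_zero_left, fval_zero_left]
    have h1 := congrArg (fun P : k[X] => P.coeff (d + d)) hid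
    simp only [Polynomial.coeff_sub] at h1
    rw [Polynomial.coeff_mul_add_eq_of_natDegree_le hdeg.le hB',
      Polynomial.coeff_mul_add_eq_of_natDegree_le (fpol_natDegree_le d b) hA', ← two_mul,
      fpol_coeff a le_rfl, fpol_coeff b le_rfl, fpol_coeff c le_rfl] at h1
    rw [← h1, two_mul, pow_add]
    ring
  · rw [fval_eq_eval _ _ hp, fval_eq_eval _ _ hp, fval_eq_eval _ _ hp, fval_eq_eval _ _ hp,
      fval_eq_eval _ _ hp, fpol_coeff_eq hA', fpol_coeff_eq hB', ← hid, Polynomial.eval_sub,
      Polynomial.eval_mul, Polynomial.eval_mul, two_mul, pow_add]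
    ring

/-- (G9) Bezout with the degrees of forms. -/
theorem exists_fval_bezout [IsAlgClosed k] (d : ℕ) (a b : ℕ → k)
    (hab : ∀ p q : k, (p ≠ 0 ∨ q ≠ 0) → fval d a p q ≠ 0 ∨ fval d b p q ≠ 0) (c : ℕ → k) :
    ∃ a' b' : ℕ → k, ∀ p q, fval d a p q * fval d b' p q - fval d b p q * fval d a' p q =
      fval (2 * d) c p q := by
  have hc : IsCoprime (fpol d a) (fpol d b) := by
    rw [Polynomial.isCoprime_iff_aeval_ne_zero_of_isAlgClosed k k]
    intro t
    rcases hab 1 t (Or.inl one_ne_zero) with h | h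
    · left
      rw [fval_eq_eval _ _ one_ne_zero, one_pow, one_mul, div_one] at h
      rwa [Polynomial.coe_aeval_eq_eval]
    · right
      rw [fval_eq_eval _ _ one_ne_zero, one_pow, one_mul, div_one] at h
      rwa [Polynomial.coe_aeval_eq_eval]
  rcases hab 0 1 (Or.inr one_ne_zero) with h | h
  · rw [fval_zero_left, one_pow, mul_one] at h
    exact fval_bezout_aux d a b hc h c
  · rw [fval_zero_left, one_pow, mul_one] at h
    obtain ⟨b', a', hid⟩ := fval_bezout_aux d b a hc.symm h (fun j => -c j)
    refine ⟨a', b', fun p q => ?_⟩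
    have h1 := hid p q
    have h2 : fval (2 * d) (fun j => -c j) p q = -fval (2 * d) c p q := by
      unfold fval
      rw [← Finset.sum_neg_distrib]
      refine Finset.sum_congr rfl fun j _ => ?_
      ring
    rw [h2] at h1
    linear_combination -h1

end Bez

end Pool.Agent.VFG
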