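import Pool.Agent.Lib_MP_1858fb_g.Defs2

/-!
# MP_1858fb_ag, line G, G14: change of the basis of the characters
-/

set_option autoImplicit false

namespace Pool.Agent.VFG

open MvPolynomial Pool.Agent.VF Matrix

variable {k : Type} [Field k]

section

variable {M r D : ℕ} {w : Fin M → Fin r → ℤ} {n : Fin M → Fin r → ℕ} {c : ℕ} {Y : Set (Fin M → k)}

/-- the weights in the new basis -/
def chw (w : Fin M → Fin r → ℤ) (A : Matrix (Fin r) (Fin r) ℤ) : Fin M → Fin r → ℤ :=
  fun i l => ∑ s, w i s * A s l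

theorem chw_eq_vecMul (w : Fin M → Fin r → ℤ) (A : Matrix (Fin r) (Fin r) ℤ) (i : Fin M) :
    chw w A i = Matrix.vecMul (w i) A := by
  funext l
  rfl

theorem chw_chw (w : Fin M → Fin r → ℤ) {A B : Matrix (Fin r) (Fin r) ℤ} (hAB : A * B = 1) :
    chw (chw w A) B = w := by
  funext i
  rw [chw_eq_vecMul, chw_eq_vecMul, Matrix.vecMul_vecMul, hAB, Matrix.vecMul_one]

theorem SemiInv.change {E : MvPolynomial (Fin M) k} (h : SemiInv w E)
    (A : Matrix (Fin r) (Fin r) ℤ) : SemiInv (chw w A) E := by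
  obtain ⟨e, he⟩ := h
  refine ⟨fun l => ∑ s, e s * A s l, fun μ hμ l => ?_⟩
  have h1 : ∀ i : Fin M, (μ i : ℤ) * chw w A i l = ∑ s, ((μ i : ℤ) * w i s) * A s l := by
    intro i
    simp only [chw, Finset.mul_sum]
    exact Finset.sum_congr rfl fun s _ => by ring
  simp only [h1]
  rw [Finset.sum_comm]
  refine Finset.sum_congr rfl fun s _ => ?_
  rw [← Finset.sum_mul, he μ hμ s]

theorem IsTorsor.change (hY : IsTorsor w c Y) {A B : Matrix (Fin r) (Fin r) ℤ} (hAB : A * B = 1)
    (hBA : B * A = 1) : IsTorsor (chw w A) c Y := by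
  refine ⟨?_, hY.irred, hY.smooth, fun x hx => ?_⟩
  · obtain ⟨I, J, hIJ, hYe⟩ := hY.closed
    exact ⟨I, J, fun E hE => (hIJ E hE).change A, hYe⟩
  · have h1 := hY.free x hx
    let φ : (Fin r → ℤ) →+ (Fin r → ℤ) :=
      { toFun := fun v => Matrix.vecMul v A
        map_zero' := Matrix.zero_vecMul A
        map_add' := fun u v => Matrix.add_vecMul A u v }
    have hφ : Function.Surjective φ := by
      intro v
      refine ⟨Matrix.vecMul v B, ?_⟩
      change Matrix.vecMul (Matrix.vecMul v B) A = v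
      rw [Matrix.vecMul_vecMul, hBA, Matrix.vecMul_one]
    have h2 : {a | ∃ i, x i ≠ 0 ∧ chw w A i = a} = φ '' {a | ∃ i, x i ≠ 0 ∧ w i = a} := by
      ext a
      constructor
      · rintro ⟨i, hi, rfl⟩
        exact ⟨w i, ⟨i, hi, rfl⟩, (chw_eq_vecMul w A i).symm⟩
      · rintro ⟨_, ⟨i, hi, rfl⟩, rfl⟩
        exact ⟨i, hi, chw_eq_vecMul w A i⟩
    rw [h2, ← AddMonoidHom.map_closure, h1]
    exact AddSubgroup.map_top_of_surjective φ hφ

theorem deg_change {A B : Matrix (Fin r) (Fin r) ℤ} (hAB : A * B = 1) (δ : Fin r → ℤ)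
    (i : Fin M) : deg (chw w A) (B.mulVec δ) i = deg w δ i := by
  have h1 : ∀ (u : Fin M → Fin r → ℤ) (η : Fin r → ℤ), deg u η i = u i ⬝ᵥ η := fun u η => rfl
  rw [h1, h1, chw_eq_vecMul, Matrix.dotProduct_mulVec, Matrix.vecMul_vecMul, hAB,
    Matrix.vecMul_one]

theorem gval_change {A B : Matrix (Fin r) (Fin r) ℤ} (hAB : A * B = 1) (δ : Fin r → ℤ)
    (F : Fin M → ℕ → k) (p q : k) :
    gval (chw w A) (B.mulVec δ) F p q = gval w δ F p q := by
  funext i
  simp only [gval, deg_change hAB δ i]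

theorem radial_change (A : Matrix (Fin r) (Fin r) ℤ) (x : Fin M → k) (a : Fin r → k) :
    radial (chw w A) x a = radial w x (fun s => ∑ l, (A s l : k) * a l) := by
  funext i
  simp only [radial]
  congr 1
  have h1 : ∀ l, (chw w A i l : k) * a l = ∑ s, (w i s : k) * ((A s l : k) * a l) := by
    intro l
    simp only [chw, Int.cast_sum, Int.cast_mul, Finset.sum_mul]
    exact Finset.sum_congr rfl fun s _ => by ring
  simp only [h1]
  rw [Finset.sum_comm]
  exact Finset.sum_congr rfl fun s _ => by rw [Finset.mul_sum]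

theorem radial_change' {A B : Matrix (Fin r) (Fin r) ℤ} (hAB : A * B = 1) (x : Fin M → k)
    (a : Fin r → k) :
    radial w x a = radial (chw w A) x (fun l => ∑ s, (B l s : k) * a s) := by
  rw [radial_change]
  congr 1
  funext s
  have h1 : ∀ s t : Fin r, ∑ l, (A s l : k) * (B l t : k) = if s = t then 1 else 0 := by
    intro s t
    have h2 := congrFun (congrFun hAB s) t
    rw [Matrix.mul_apply, Matrix.one_apply] at h2
    have h3 := congrArg (Int.cast : ℤ → k) h2
    push_cast at h3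
    exact h3
  simp only [Finset.mul_sum]
  rw [Finset.sum_comm]
  have h2 : ∀ t : Fin r, ∑ l, (A s l : k) * ((B l t : k) * a t) =
      (if s = t then 1 else 0) * a t := by
    intro t
    rw [← h1 s t, Finset.sum_mul]
    exact Finset.sum_congr rfl fun l _ => by ring
  simp only [h2]
  simp

theorem GVeryFree.change {A B : Matrix (Fin r) (Fin r) ℤ} (hAB : A * B = 1) (hBA : B * A = 1)
    {δ : Fin r → ℤ} {F : Fin M → ℕ → k} (h : GVeryFree w Y δ F) :
    GVeryFree (chw w A) Y (B.mulVec δ) F := by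
  intro p q p' q' hpq ξ hξ ξ' hξ'
  rw [gval_change hAB] at hξ hξ'
  obtain ⟨G, hG, ⟨a, ha⟩, ⟨a', ha'⟩⟩ := h p q p' q' hpq ξ hξ ξ' hξ'
  refine ⟨G, fun u v => ?_, ⟨fun l => ∑ s, (B l s : k) * a s, ?_⟩,
    ⟨fun l => ∑ s, (B l s : k) * a' s, ?_⟩⟩
  · rw [gval_change hAB, gval_change hAB]
    exact hG u v
  · rw [gval_change hAB, gval_change hAB, ← radial_change' hAB]
    exact ha
  · rw [gval_change hAB, gval_change hAB, ← radial_change' hAB]
    exact ha'

theorem GVeryFree.unchange {A B : Matrix (Fin r) (Fin r) ℤ} (hAB : A * B = 1) (hBA : B * A = 1)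
    {δ : Fin r → ℤ} {F : Fin M → ℕ → k} (h : GVeryFree (chw w A) Y δ F) :
    GVeryFree w Y (A.mulVec δ) F := by
  have h1 := GVeryFree.change hBA hAB h
  rwa [chw_chw w hAB] at h1

theorem IsGCurve.change {A B : Matrix (Fin r) (Fin r) ℤ} (hAB : A * B = 1)
    {δ : Fin r → ℤ} {F : Fin M → ℕ → k} (h : IsGCurve w Y δ F) :
    IsGCurve (chw w A) Y (B.mulVec δ) F := by
  intro p q hpq
  rw [gval_change hAB]
  exact h p q hpq

theorem IsGCurve.unchange {A B : Matrix (Fin r) (Fin r) ℤ} (hAB : A * B = 1) (hBA : B * A = 1)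
    {δ : Fin r → ℤ} {F : Fin M → ℕ → k} (h : IsGCurve (chw w A) Y δ F) :
    IsGCurve w Y (A.mulVec δ) F := by
  have h1 := IsGCurve.change hBA h
  rwa [chw_chw w hAB] at h1

theorem act_change (A : Matrix (Fin r) (Fin r) ℤ) (t : Fin r → kˣ) (x : Fin M → k) :
    ∃ t' : Fin r → kˣ, act (chw w A) t x = act w t' x := by
  refine ⟨fun s => ∏ l, t l ^ A s l, ?_⟩
  funext i
  simp only [act]
  congr 2
  have h1 : ∀ l, t l ^ chw w A i l = ∏ s, (t l ^ A s l) ^ w i s := by
    intro l
    simp only [chw]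
    have h2 : ∀ (S : Finset (Fin r)) (f : Fin r → ℤ), t l ^ (∑ s ∈ S, f s) = ∏ s ∈ S, t l ^ f s := by
      intro S f
      induction S using Finset.induction_on with
      | empty => simp
      | insert a S ha ih => rw [Finset.sum_insert ha, Finset.prod_insert ha, _root_.zpow_add, ih]
    rw [h2]
    exact Finset.prod_congr rfl fun s _ => by rw [← _root_.zpow_mul, mul_comm]
  simp only [h1]
  rw [Finset.prod_comm]
  exact Finset.prod_congr rfl fun s _ => by rw [Finset.prod_zpow]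

end

end Pool.Agent.VFG
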