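import Pool.Agent.Lib_MP_1858fb_g.Defs2

/-!
# MP_1858fb_ag, line G: smoothness of a cone in the coordinates of a corner (G6)
-/

set_option autoImplicit false

namespace Pool.Agent.VFG

open MvPolynomial Pool.Agent.VF

variable {k : Type} [Field k]

namespace ConeLem

/-- local equations of `Y` are local equations of the product of `Y` with an affine space -/
theorem prod_van {τ σ : Type} [Infinite k] (Y : Set (σ → k)) {c : ℕ}
    (E : Fin c → MvPolynomial σ k) (H : MvPolynomial σ k)
    (hH : ∀ G ∈ van Y, H * G ∈ Ideal.span (Set.range E)) (F : MvPolynomial (τ ⊕ σ) k)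
    (hF : ∀ (s : τ → k), ∀ x ∈ Y, aeval (Sum.elim s x) F = 0) :
    rename Sum.inr H * F ∈ Ideal.span (Set.range fun i => rename (Sum.inr : σ → τ ⊕ σ) (E i)) := by
  classical
  have h1 : ∀ ν, coeff ν (sumAlgEquiv k τ σ F) ∈ van Y := by
    intro ν x hx
    have h2 : MvPolynomial.map (aeval x : MvPolynomial σ k →ₐ[k] k).toRingHom
        (sumAlgEquiv k τ σ F) = 0 := by
      apply MvPolynomial.funext
      intro s
      rw [map_zero, ← hF s x hx]
      have h3 : (eval s).comp ((MvPolynomial.map (aeval x : MvPolynomial σ k →ₐ[k] k).toRingHom).comp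
          (sumAlgEquiv k τ σ : MvPolynomial (τ ⊕ σ) k →+* MvPolynomial τ (MvPolynomial σ k))) =
          (aeval (Sum.elim s x) : MvPolynomial (τ ⊕ σ) k →ₐ[k] k).toRingHom := by
        apply MvPolynomial.ringHom_ext
        · intro a
          simp
        · rintro (i | i)
          · simp
          · simp
      exact congrArg (fun f => f F) h3
    have h4 := congrArg (coeff ν) h2
    rw [coeff_map, coeff_zero] at h4
    exact h4
  have h5 : (C H * sumAlgEquiv k τ σ F) ∈
      Ideal.map (C : MvPolynomial σ k →+* MvPolynomial τ (MvPolynomial σ k))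
        (Ideal.span (Set.range E)) := by
    rw [MvPolynomial.mem_map_C_iff]
    intro m
    rw [coeff_C_mul]
    exact hH _ (h1 m)
  rw [Ideal.map_span] at h5
  have h6 := Ideal.mem_map_of_mem ((sumAlgEquiv k τ σ).symm :
    MvPolynomial τ (MvPolynomial σ k) →+* MvPolynomial (τ ⊕ σ) k) h5
  rw [Ideal.map_span, ← Set.range_comp, ← Set.range_comp] at h6
  have h7 : ∀ G : MvPolynomial σ k, (sumAlgEquiv k τ σ).symm (C G) = rename Sum.inr G := by
    intro G
    rw [AlgEquiv.symm_apply_eq]
    have := congrArg (fun f => f G) (sumAlgEquiv_comp_rename_inr (R := k) (S₁ := τ) (S₂ := σ))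
    simpa using this.symm
  have h8 : (Set.range fun i => rename (Sum.inr : σ → τ ⊕ σ) (E i)) =
      Set.range (((sumAlgEquiv k τ σ).symm : MvPolynomial τ (MvPolynomial σ k) →
        MvPolynomial (τ ⊕ σ) k) ∘ C ∘ E) := by
    congr 1
    ext1 i
    exact (h7 (E i)).symm
  rw [h8]
  have h9 : rename Sum.inr H * F =
      ((sumAlgEquiv k τ σ).symm : MvPolynomial τ (MvPolynomial σ k) →+* MvPolynomial (τ ⊕ σ) k)
        (C H * sumAlgEquiv k τ σ F) := by
    rw [map_mul]
    congr 1
    · exact (h7 H).symm
    · simp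
  rw [h9]
  exact h6

section

variable {M r : ℕ}

/-- the variable `T` -/
noncomputable abbrev T : MvPolynomial (Option (Fin r ⊕ Fin M)) k := X none

/-- the substitution `X i ↦ T * X i` -/
noncomputable def al : MvPolynomial (Option (Fin r ⊕ Fin M)) k →ₐ[k]
    MvPolynomial (Option (Fin r ⊕ Fin M)) k :=
  aeval (fun j => match j with
    | none => X none
    | some (Sum.inl l) => X (some (Sum.inl l))
    | some (Sum.inr i) => X none * X (some (Sum.inr i)))

/-- the point map `x i ↦ t * x i` -/
def pt (q : Option (Fin r ⊕ Fin M) → k) : Option (Fin r ⊕ Fin M) → k :=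
  fun j => match j with
    | none => q none
    | some (Sum.inl l) => q (some (Sum.inl l))
    | some (Sum.inr i) => q none * q (some (Sum.inr i))

theorem aeval_al (q : Option (Fin r ⊕ Fin M) → k) (G : MvPolynomial (Option (Fin r ⊕ Fin M)) k) :
    aeval q (al G) = aeval (pt q) G := by
  have : (aeval q).comp al = (aeval (pt q) : MvPolynomial (Option (Fin r ⊕ Fin M)) k →ₐ[k] k) := by
    apply MvPolynomial.algHom_ext
    rintro (_ | l | i)
    · simp [al, pt]
    · simp [al, pt]
    · simp [al, pt]
  exact congrArg (fun f => f G) this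

/-- the point map `x i ↦ x i / t` -/
def pt' (q : Option (Fin r ⊕ Fin M) → k) : Option (Fin r ⊕ Fin M) → k :=
  fun j => match j with
    | none => q none
    | some (Sum.inl l) => q (some (Sum.inl l))
    | some (Sum.inr i) => q (some (Sum.inr i)) / q none

theorem pt_pt' {q : Option (Fin r ⊕ Fin M) → k} (hq : q none ≠ 0) : pt (pt' q) = q := by
  funext j
  rcases j with _ | l | i
  · rfl
  · rfl
  · show q none * (q (some (Sum.inr i)) / q none) = _
    field_simp

theorem al_T : al (T : MvPolynomial (Option (Fin r ⊕ Fin M)) k) = T := by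
  simp [al, T]

theorem al_injective [Infinite k] : Function.Injective
    (al : MvPolynomial (Option (Fin r ⊕ Fin M)) k →ₐ[k] _) := by
  rw [injective_iff_map_eq_zero]
  intro G hG
  have h1 : (T : MvPolynomial (Option (Fin r ⊕ Fin M)) k) * G = 0 := by
    apply MvPolynomial.funext
    intro q
    rw [map_mul, map_zero]
    by_cases hq : q none = 0
    · simp [T, hq]
    · have h2 : eval q G = aeval (pt' q) (al G) := by
        rw [aeval_al, pt_pt' hq]
        simp
      rw [h2, hG, map_zero, mul_zero]
  rcases mul_eq_zero.1 h1 with h | h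
  · exact absurd h (X_ne_zero _)
  · exact h

theorem exists_al (G : MvPolynomial (Option (Fin r ⊕ Fin M)) k) :
    ∃ (n : ℕ) (G' : MvPolynomial (Option (Fin r ⊕ Fin M)) k), al G' = T ^ n * G := by
  induction G using MvPolynomial.induction_on with
  | C a => exact ⟨0, C a, by simp [al]⟩
  | add p q hp hq =>
    obtain ⟨n, p', hp⟩ := hp
    obtain ⟨m, q', hq⟩ := hq
    refine ⟨n + m, T ^ m * p' + T ^ n * q', ?_⟩
    rw [map_add, map_mul, map_mul, map_pow, map_pow, al_T, hp, hq]
    ring
  | mul_X p j hp =>
    obtain ⟨n, p', hp⟩ := hp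
    refine ⟨n + 1, p' * (match j with
      | none => T * X none
      | some (Sum.inl l) => T * X (some (Sum.inl l))
      | some (Sum.inr i) => X (some (Sum.inr i))), ?_⟩
    rw [map_mul, hp]
    rcases j with _ | l | i
    · simp only [map_mul, al_T]
      ring
    · have : al (X (some (Sum.inl l)) : MvPolynomial (Option (Fin r ⊕ Fin M)) k) =
        X (some (Sum.inl l)) := by simp [al]
      simp only [map_mul, al_T, this]
      ring
    · have : al (X (some (Sum.inr i)) : MvPolynomial (Option (Fin r ⊕ Fin M)) k) =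
        T * X (some (Sum.inr i)) := by simp [al]
      simp only [this]
      ring

theorem exists_al_uniform {ι : Type} [Finite ι] (G : ι → MvPolynomial (Option (Fin r ⊕ Fin M)) k) :
    ∃ (n : ℕ) (G' : ι → MvPolynomial (Option (Fin r ⊕ Fin M)) k), ∀ i, al (G' i) = T ^ n * G i := by
  classical
  cases nonempty_fintype ι
  choose n G' h using fun i => exists_al (G i)
  refine ⟨∑ i, n i, fun i => T ^ (∑ i, n i - n i) * G' i, fun i => ?_⟩
  have h1 : n i ≤ ∑ i, n i := Finset.single_le_sum (fun _ _ => Nat.zero_le _) (Finset.mem_univ i)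
  rw [map_mul, map_pow, al_T, h, ← mul_assoc, ← pow_add, Nat.sub_add_cancel h1]

theorem pderiv_al (j : Fin M) (G : MvPolynomial (Option (Fin r ⊕ Fin M)) k) :
    pderiv (some (Sum.inr j)) (al G) = T * al (pderiv (some (Sum.inr j)) G) := by
  classical
  induction G using MvPolynomial.induction_on with
  | C a => simp [al]
  | add p q hp hq => rw [map_add, map_add, hp, hq, map_add, map_add, mul_add]
  | mul_X p a hp =>
    have h1 : pderiv (some (Sum.inr j)) (al (X a : MvPolynomial (Option (Fin r ⊕ Fin M)) k)) =
        T * al (pderiv (some (Sum.inr j)) (X a)) := by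
      rcases a with _ | l | i
      · simp [al, pderiv_X]
      · simp [al, pderiv_X]
      · by_cases h : i = j
        · subst h
          simp [al, pderiv_X, T]
        · simp [al, pderiv_X, T, h]
    rw [map_mul, Derivation.leibniz, Derivation.leibniz, hp, h1]
    simp only [smul_eq_mul, map_add, map_mul]
    ring

/-- the inclusion of the variables -/
noncomputable abbrev ii (G : MvPolynomial (Fin M) k) :
    MvPolynomial (Option (Fin r ⊕ Fin M)) k := rename (fun i => some (Sum.inr i)) G

theorem aeval_ii (q : Option (Fin r ⊕ Fin M) → k) (G : MvPolynomial (Fin M) k) :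
    aeval q (ii G : MvPolynomial (Option (Fin r ⊕ Fin M)) k) =
      aeval (fun i => q (some (Sum.inr i))) G := by
  rw [ii, aeval_rename]
  rfl

/-- the equivalence of the index types -/
def ev : Option (Fin r) ⊕ Fin M ≃ Option (Fin r ⊕ Fin M) where
  toFun := Sum.elim (fun a => a.map Sum.inl) (fun i => some (Sum.inr i))
  invFun := fun j => match j with
    | none => Sum.inl none
    | some (Sum.inl l) => Sum.inl (some l)
    | some (Sum.inr i) => Sum.inr i
  left_inv := by rintro ((_ | l) | i) <;> rfl
  right_inv := by rintro (_ | l | i) <;> rfl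

theorem prod_van' [Infinite k] (Y : Set (Fin M → k)) {c : ℕ}
    (E : Fin c → MvPolynomial (Fin M) k) (H : MvPolynomial (Fin M) k)
    (hH : ∀ G ∈ van Y, H * G ∈ Ideal.span (Set.range E))
    (F : MvPolynomial (Option (Fin r ⊕ Fin M)) k)
    (hF : ∀ q : Option (Fin r ⊕ Fin M) → k, (fun i => q (some (Sum.inr i))) ∈ Y → aeval q F = 0) :
    ii H * F ∈ Ideal.span (Set.range fun i =>
      (ii (E i) : MvPolynomial (Option (Fin r ⊕ Fin M)) k)) := by
  have h1 := prod_van (τ := Option (Fin r)) Y E H hH (rename ev.symm F) (by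
    intro s x hx
    rw [aeval_rename]
    apply hF
    exact hx)
  set Θ : MvPolynomial (Option (Fin r) ⊕ Fin M) k →ₐ[k] MvPolynomial (Option (Fin r ⊕ Fin M)) k :=
    rename ev with hΘ
  have h2 := Ideal.mem_map_of_mem Θ h1
  rw [Ideal.map_span, ← Set.range_comp] at h2
  have h3 : (Set.range fun i => (ii (E i) : MvPolynomial (Option (Fin r ⊕ Fin M)) k)) =
      Set.range (Θ ∘ fun i => rename (Sum.inr : Fin M → Option (Fin r) ⊕ Fin M) (E i)) := by
    congr 1
    ext1 i
    simp only [hΘ, Function.comp_apply, rename_rename]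
    rfl
  rw [h3]
  have h4 : ii H * F = Θ (rename Sum.inr H * rename ev.symm F) := by
    rw [map_mul]
    simp only [hΘ, rename_rename]
    congr 1
    simp
  rw [h4]
  exact h2

end

end ConeLem

open ConeLem in
theorem smoothAt_coneLem {M r c : ℕ} (Y : Set (Fin M → k))
    (p : Option (Fin r ⊕ Fin M) → k) (hp : p none ≠ 0)
    (hs : SmoothAt c Y (fun i => p (some (Sum.inr i)) / p none)) [Infinite k] :
    SmoothAt c {p : Option (Fin r ⊕ Fin M) → k |
      p none ≠ 0 ∧ (fun i => p (some (Sum.inr i)) / p none) ∈ Y} p := by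
  classical
  obtain ⟨E, H, hE, hli, hH, hgen⟩ := hs
  set A : Set (Option (Fin r ⊕ Fin M) → k) := {p : Option (Fin r ⊕ Fin M) → k |
      p none ≠ 0 ∧ (fun i => p (some (Sum.inr i)) / p none) ∈ Y} with hA
  obtain ⟨n, E', hE'⟩ := exists_al_uniform (fun i => T * ii (r := r) (E i))
  obtain ⟨m, H', hH'⟩ := exists_al (ii (r := r) H)
  -- values
  have hval : ∀ (G : MvPolynomial (Fin M) k) (G' : MvPolynomial (Option (Fin r ⊕ Fin M)) k) (n : ℕ),
      al G' = T ^ n * ii G → ∀ q : Option (Fin r ⊕ Fin M) → k, q none ≠ 0 →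
      aeval q G' = q none ^ n * aeval (fun i => q (some (Sum.inr i)) / q none) G := by
    intro G G' n h q hq
    have h1 := congrArg (aeval (pt' q)) h
    rw [aeval_al, pt_pt' hq, map_mul, map_pow, aeval_ii] at h1
    rw [h1]
    simp [T, pt']
  have hE'' : ∀ i, al (E' i) = T ^ (n + 1) * ii (E i) := by
    intro i
    rw [hE' i]
    ring
  -- main: generation up to a power of T
  have key : ∀ G ∈ van A, ∃ s : ℕ, T ^ s * (H' * G) ∈ Ideal.span (Set.range E') := by
    intro G hG
    have h1 : ii H * (T * al G) ∈ Ideal.span (Set.range fun i =>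
        (ii (E i) : MvPolynomial (Option (Fin r ⊕ Fin M)) k)) := by
      apply prod_van' Y E H hgen
      intro q hq
      rw [map_mul, aeval_al]
      by_cases h0 : q none = 0
      · simp [T, h0]
      · have : pt q ∈ A := by
          refine ⟨h0, ?_⟩
          have : (fun i => pt q (some (Sum.inr i)) / pt q none) = fun i => q (some (Sum.inr i)) := by
            funext i
            show q none * q (some (Sum.inr i)) / q none = _
            field_simp
          rw [this]
          exact hq
        rw [hG _ this, mul_zero]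
    obtain ⟨a, ha⟩ := (Ideal.mem_span_range_iff_exists_fun).1 h1
    obtain ⟨s, a', ha'⟩ := exists_al_uniform a
    refine ⟨s + (n + 1) + 1, ?_⟩
    have h2 : al (T ^ (s + (n + 1) + 1) * (H' * G)) = al (∑ i, T ^ m * (a' i * E' i)) := by
      rw [map_mul, map_pow, al_T, map_mul, hH', map_sum]
      have h3 : ∀ i, al (T ^ m * (a' i * E' i)) =
          T ^ m * T ^ s * T ^ (n + 1) * (a i * ii (E i)) := by
        intro i
        rw [map_mul, map_pow, al_T, map_mul, ha', hE'']
        ring
      rw [Finset.sum_congr rfl fun i _ => h3 i, ← Finset.mul_sum, ha]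
      ring
    rw [al_injective h2]
    refine Ideal.sum_mem _ fun i _ => ?_
    exact Ideal.mul_mem_left _ _ (Ideal.mul_mem_left _ _ (Ideal.subset_span ⟨i, rfl⟩))
  -- uniform exponent
  obtain ⟨S, hS⟩ : (van A).FG := IsNoetherian.noetherian _
  have key2 : ∃ s : ℕ, ∀ G ∈ van A, T ^ s * (H' * G) ∈ Ideal.span (Set.range E') := by
    have h1 : ∀ g : S, ∃ s : ℕ, T ^ s * (H' * (g : MvPolynomial (Option (Fin r ⊕ Fin M)) k)) ∈
        Ideal.span (Set.range E') := fun g => key _ (by
          rw [← hS]
          exact Ideal.subset_span g.2)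
    choose s hs using h1
    refine ⟨∑ g, s g, fun G hG => ?_⟩
    rw [← hS] at hG
    induction hG using Submodule.span_induction with
    | mem g hg =>
      have h2 : s ⟨g, hg⟩ ≤ ∑ g, s g :=
        Finset.single_le_sum (fun _ _ => Nat.zero_le _) (Finset.mem_univ _)
      rw [← Nat.sub_add_cancel h2, pow_add, mul_assoc]
      exact Ideal.mul_mem_left _ _ (hs ⟨g, hg⟩)
    | zero => simp
    | add x y _ _ hx hy =>
      rw [mul_add, mul_add]
      exact Ideal.add_mem _ hx hy
    | smul a x _ hx =>
      have : T ^ (∑ g, s g) * (H' * (a • x)) = a * (T ^ (∑ g, s g) * (H' * x)) := by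
        rw [smul_eq_mul]
        ring
      rw [this]
      exact Ideal.mul_mem_left _ _ hx
  obtain ⟨s, hs⟩ := key2
  refine ⟨E', T ^ s * H', ?_, ?_, ?_, ?_⟩
  · intro i q hq
    rw [hval (E i) (E' i) (n + 1) (hE'' i) q hq.1, hE i _ hq.2, mul_zero]
  · -- the differentials
    have h1 : ∀ i j, aeval p (pderiv (some (Sum.inr j)) (E' i)) =
        p none ^ n * aeval (fun i => p (some (Sum.inr i)) / p none) (pderiv j (E i)) := by
      intro i j
      have h2 := congrArg (pderiv (some (Sum.inr j))) (hE'' i)
      have h3 : pderiv (some (Sum.inr j)) (T : MvPolynomial (Option (Fin r ⊕ Fin M)) k) = 0 := by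
        simp [T, pderiv_X]
      have hinj : Function.Injective (fun i : Fin M => (some (Sum.inr i) : Option (Fin r ⊕ Fin M))) :=
        fun a b h => by simpa using h
      rw [pderiv_al, Derivation.leibniz, Derivation.leibniz_pow, h3,
        pderiv_rename hinj j (E i)] at h2
      simp only [smul_zero, add_zero, smul_eq_mul, mul_zero] at h2
      have h4 := congrArg (aeval (pt' p)) h2
      rw [map_mul, aeval_al, pt_pt' hp, map_mul, map_pow] at h4
      have h5 : aeval (pt' p) (T : MvPolynomial (Option (Fin r ⊕ Fin M)) k) = p none := by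
        simp [T, pt']
      rw [h5, show (rename (fun i : Fin M => (some (Sum.inr i) : Option (Fin r ⊕ Fin M))))
        (pderiv j (E i)) = ii (pderiv j (E i)) from rfl, aeval_ii] at h4
      have h6 : p none * aeval p (pderiv (some (Sum.inr j)) (E' i)) = p none *
          (p none ^ n * aeval (fun i => p (some (Sum.inr i)) / p none) (pderiv j (E i))) := by
        rw [h4, pow_succ]
        simp only [pt']
        ring
      exact mul_left_cancel₀ hp h6
    apply LinearIndependent.of_comp
      (LinearMap.funLeft k k (fun j : Fin M => (some (Sum.inr j) : Option (Fin r ⊕ Fin M))))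
    have h7 := hli.units_smul (fun _ => Units.mk0 (p none ^ n) (pow_ne_zero n hp))
    convert h7 using 1
    funext i j
    exact h1 i j
  · rw [map_mul, map_pow, hval H H' m hH' p hp]
    simp only [T, aeval_X]
    exact mul_ne_zero (pow_ne_zero _ hp) (mul_ne_zero (pow_ne_zero _ hp) hH)
  · intro G hG
    rw [mul_assoc]
    exact hs G hG

end Pool.Agent.VFG
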