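import Pool.Agent.Lib_MP_1858fb_w.Defs

/-!
# MP_1858fb_ag: every smooth variety as a torus quotient; curves and very free curves

A smooth variety `V` is given by a free torus quotient `V = Y / T`: `T = (k^*)^r` acts on `k^M`
with integer weights, `Y` is a `T`-stable locally closed subset of `k^M`. (If `U_1, …, U_r` is an
affine cover of a smooth variety `V` and `L_l` is the line bundle of the divisor `V \ U_l`, then
`Y` is the torsor of `(L_1, …, L_r)`.) The points of `V` are the `T`-orbits in `Y`.
-/

set_option autoImplicit false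

namespace Pool.Agent.VFG

open MvPolynomial Pool.Agent.VF

section Defs

variable {k : Type} [Field k] {M r : ℕ}

/-- The action of the torus `(R^*)^r` on `R^M` with the weights `w`. -/
def act {R : Type} [CommRing R] (w : Fin M → Fin r → ℤ) (t : Fin r → Rˣ) (x : Fin M → R) :
    Fin M → R :=
  fun i => ((∏ l, t l ^ w i l : Rˣ) : R) * x i

/-- The polynomial `E` is semi-invariant: all its monomials have the same weight. -/
def SemiInv (w : Fin M → Fin r → ℤ) (E : MvPolynomial (Fin M) k) : Prop :=
  ∃ e : Fin r → ℤ, ∀ μ ∈ E.support, ∀ l, ∑ i, (μ i : ℤ) * w i l = e l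

/-- `Y` is a locally closed subset of `k^M`, stable under the torus with the weights `w`,
irreducible and smooth of codimension `c`, on which the torus acts freely (the weights of the
nonzero coordinates of a point of `Y` generate `ℤ^r`). The quotient `V` of `Y` by the torus is
a smooth variety of dimension `M - c - r`. -/
structure IsTorsor (w : Fin M → Fin r → ℤ) (c : ℕ) (Y : Set (Fin M → k)) : Prop where
  closed : ∃ I J : Set (MvPolynomial (Fin M) k), (∀ E ∈ I ∪ J, SemiInv w E) ∧
    Y = {x | (∀ E ∈ I, aeval x E = 0) ∧ ∃ G ∈ J, aeval x G ≠ 0}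
  irred : Irred Y
  smooth : ∀ x ∈ Y, SmoothAt c Y x
  free : ∀ x ∈ Y, AddSubgroup.closure {a | ∃ i, x i ≠ 0 ∧ w i = a} = ⊤

/-- The degree of the `i`-th coordinate of a curve of multidegree `δ`. -/
def deg (w : Fin M → Fin r → ℤ) (δ : Fin r → ℤ) (i : Fin M) : ℤ := ∑ l, w i l * δ l

/-- The value at `(p, q)` of the tuple of binary forms whose `i`-th member has degree
`deg w δ i` (it is `0` if this number is negative) and the coefficients `F i j` at
`p ^ (deg - j) * q ^ j`. -/
def gval (w : Fin M → Fin r → ℤ) (δ : Fin r → ℤ) (F : Fin M → ℕ → k) (p q : k) : Fin M → k :=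
  fun i => if 0 ≤ deg w δ i then
    ∑ j ∈ Finset.range ((deg w δ i).toNat + 1), F i j * (p ^ ((deg w δ i).toNat - j) * q ^ j)
  else 0

/-- `F` is a morphism of multidegree `δ` from the projective line to `V = Y / T`. -/
def IsGCurve (w : Fin M → Fin r → ℤ) (Y : Set (Fin M → k)) (δ : Fin r → ℤ) (F : Fin M → ℕ → k) :
    Prop :=
  ∀ p q : k, (p ≠ 0 ∨ q ≠ 0) → gval w δ F p q ∈ Y

/-- The vector tangent to the torus orbit of `x` given by the element `c` of the Lie algebra. -/
def radial (w : Fin M → Fin r → ℤ) (x : Fin M → k) (c : Fin r → k) : Fin M → k :=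
  fun i => (∑ l, (w i l : k) * c l) * x i

/-- The curve `F` in `V = Y / T` is very free: for any two distinct points of the projective
line the sections of the pull back of the tangent bundle of `V` take arbitrary values at the
two points. Sections are given by tuples of binary forms of the same degrees that are tangent
to `Y`; the tangent space of `V` at the orbit of `x` is the tangent space of `Y` at `x`
modulo the vectors tangent to the orbit. -/
def GVeryFree (w : Fin M → Fin r → ℤ) (Y : Set (Fin M → k)) (δ : Fin r → ℤ)
    (F : Fin M → ℕ → k) : Prop :=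
  ∀ p q p' q' : k, p * q' - p' * q ≠ 0 →
    ∀ ξ ∈ Tan Y (gval w δ F p q), ∀ ξ' ∈ Tan Y (gval w δ F p' q'),
      ∃ G : Fin M → ℕ → k, (∀ a b : k, gval w δ G a b ∈ Tan Y (gval w δ F a b)) ∧
        (∃ c : Fin r → k, gval w δ G p q = ξ + radial w (gval w δ F p q) c) ∧
        (∃ c' : Fin r → k, gval w δ G p' q' = ξ' + radial w (gval w δ F p' q') c')

end Defs

end Pool.Agent.VFG
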