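import Pool.Agent.Lib_MP_1858fb_g.Defs2

/-!
# MP_1858fb_ag, line G: smooth points of the curve in `V = Y / T`
-/

set_option autoImplicit false

namespace Pool.Agent.VFG

open MvPolynomial Pool.Agent.VF

section

variable {k : Type} [Field k]

/-- The derivative in `q` at `(1, a)` of the tuple of binary forms with the coefficients `F`. -/
def dval {σ : Type} {d : ℕ} (F : Fin (d + 1) → σ → k) (a : k) : σ → k :=
  fun i => ∑ j : Fin (d + 1), ((j : ℕ) : k) * (F j i * a ^ ((j : ℕ) - 1))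

variable (k) in
/-- The smooth point theorem for quasi-projective varieties, with smooth closed subsets of
codimension at least two (given by the homogeneous polynomials in `G l`) in the place of the
points. -/
def QPSmooth : Prop :=
  ∀ (N c m d : ℕ) (V : Set (Fin (N + 1) → k)) (F : Fin (d + 1) → Fin (N + 1) → k)
    (v : Fin m → Fin (N + 1) → k) (a : Fin m → k)
    (G : Fin m → Set (MvPolynomial (Fin (N + 1)) k)),
    c + 2 ≤ N → LocClosed V → (∀ x ∈ V, SmoothAt c V x) → IsCurve V F → VeryFree V F →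
    Function.Injective a → (∀ l, ∃ b : k, b ≠ 0 ∧ val F 1 (a l) = b • v l) →
    (∀ l, ∀ g ∈ G l, ∃ e : ℕ, g.IsHomogeneous e) → (∀ l, ∀ g ∈ G l, aeval (v l) g = 0) →
    (∀ l l', l ≠ l' → ∃ g ∈ G l, aeval (v l') g ≠ 0) →
    (∀ l, ∀ z ∈ V, (∀ g ∈ G l, aeval z g = 0) → ∃ g ∈ G l, ∃ g' ∈ G l, ∃ ω ∈ Tan V z,
      ∃ ω' ∈ Tan V z, dif g z ω * dif g' z ω' - dif g z ω' * dif g' z ω ≠ 0) →
    ∃ (d' : ℕ) (F' : Fin (d' + 1) → Fin (N + 1) → k) (a' : Fin m → k),
      Function.Injective a' ∧ IsCurve V F' ∧ VeryFree V F' ∧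
      (∀ l, ∃ b : k, b ≠ 0 ∧ val F' 1 (a' l) = b • v l) ∧
      (∀ l, ∀ p q : k, (p ≠ 0 ∨ q ≠ 0) → (∀ g ∈ G l, aeval (val F' p q) g = 0) →
        q = a' l * p) ∧
      ∀ l, ∃ g ∈ G l, dif g (val F' 1 (a' l)) (dval F' (a' l)) ≠ 0

end

section

variable {k : Type} [Field k] {M r : ℕ}

/-- The derivative of the tuple of binary forms of `gval` at `(p, q)` in the direction
`(s, t)`. -/
def gder (w : Fin M → Fin r → ℤ) (δ : Fin r → ℤ) (F : Fin M → ℕ → k) (p q s t : k) : Fin M → k :=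
  fun i => if 0 ≤ deg w δ i then
    ∑ j ∈ Finset.range ((deg w δ i).toNat + 1), F i j *
      (((((deg w δ i).toNat - j : ℕ) : k) * p ^ ((deg w δ i).toNat - j - 1) * s) * q ^ j +
        p ^ ((deg w δ i).toNat - j) * ((j : k) * q ^ (j - 1) * t))
  else 0

/-- The curve `F` in `V = Y / T` passes through the point (the torus orbit) of `v` exactly
once and with nonzero derivative: the point is a smooth point of the curve. -/
def GSmoothAt (w : Fin M → Fin r → ℤ) (δ : Fin r → ℤ) (F : Fin M → ℕ → k) (v : Fin M → k) :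
    Prop :=
  ∃ p q : k, (p ≠ 0 ∨ q ≠ 0) ∧ (∃ t : Fin r → kˣ, gval w δ F p q = act w t v) ∧
    (∀ p' q' : k, (p' ≠ 0 ∨ q' ≠ 0) → (∃ t : Fin r → kˣ, gval w δ F p' q' = act w t v) →
      p * q' - p' * q = 0) ∧
    ∀ s t : k, (∃ c : Fin r → k, gder w δ F p q s t = radial w (gval w δ F p q) c) →
      p * t - s * q = 0

end

end Pool.Agent.VFG
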