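import Pool.Agent.Lib_MP_1858fb_g.Demb0
import Pool.Agent.Lib_MP_1858fb_g.Act

/-!
# MP_1858fb_ag, line G, piece G8a: the derivative of the embedding, radial vectors
-/

set_option autoImplicit false

namespace Pool.Agent.VFG

open MvPolynomial Pool.Agent.VF

section

variable {k : Type} [Field k]
variable {M r D : ℕ} {w : Fin M → Fin r → ℤ} {n : Fin M → Fin r → ℕ} {c : ℕ} {Y : Set (Fin M → k)}

/-- the radial vectors -/
theorem demb_radial (hn : ∀ i l, w i l = (D : ℤ) - n i l) (x : Fin M → k)
    (y : Fin r → Fin 2 → k) (c : Fin r → k) :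
    demb D n x y (radial w x c) (fun l e => c l * y l e) =
      ((D : k) * ∑ l, c l) • emb D n x y := by
  have h1 := emb_act hn (fun l => dembUnit k (Multiplicative.ofAdd (c l)))
    (fun i => (TrivSqZeroExt.inl (x i) : TrivSqZeroExt k k))
    (fun l e => (TrivSqZeroExt.inl (y l e) : TrivSqZeroExt k k))
  rw [demb_act_eq] at h1
  have h2 : (fun (l : Fin r) (e : Fin 2) =>
      ((dembUnit k (Multiplicative.ofAdd (c l)) : (TrivSqZeroExt k k)ˣ) : TrivSqZeroExt k k) *
        TrivSqZeroExt.inl (y l e)) =
      fun l e => TrivSqZeroExt.inl (y l e) + TrivSqZeroExt.inr (c l * y l e) := by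
    funext l e
    rw [dembUnit_val]
    apply TrivSqZeroExt.ext
    · simp
    · simp [mul_comm]
  rw [h2, demb_emb_inl, dembUnit_prod_pow] at h1
  funext j
  have h3 := congrFun h1 j
  have h4 := demb_map_emb (D := D) (n := n) (TrivSqZeroExt.inlHom k k) x y j
  change TrivSqZeroExt.inl (emb D n x y j) = emb D n (fun i => TrivSqZeroExt.inl (x i))
    (fun l e => TrivSqZeroExt.inl (y l e)) j at h4
  simp only [← h4] at h3
  have h5 := congrArg TrivSqZeroExt.snd h3
  simpa [mul_comm] using h5

theorem radial_mem_tan [Infinite k] (hY : IsTorsor w c Y) {x : Fin M → k} (hx : x ∈ Y)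
    (a : Fin r → k) : radial w x a ∈ Tan Y x := by
  intro E hE
  have h1 := act_van hY (fun l => dembUnit k (Multiplicative.ofAdd (a l)))
    (fun i => (TrivSqZeroExt.inl (x i) : TrivSqZeroExt k k))
    (fun G hG => by
      have h2 := demb_aeval G x 0
      simp only [Pi.zero_apply, TrivSqZeroExt.inr_zero, add_zero] at h2
      rw [h2, hG x hx]
      simp [dif]) E hE
  rw [demb_act_eq, demb_aeval] at h1
  have h2 := congrArg TrivSqZeroExt.snd h1
  simpa using h2

end

end Pool.Agent.VFG
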