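import Pool.Agent.Lib_MP_1858fb_g.Defs2

/-!
# MP_1858fb_ag, line G, piece G8a, part 0: the derivative of the embedding
-/

set_option autoImplicit false

namespace Pool.Agent.VFG

open MvPolynomial Pool.Agent.VF

section DembAux

variable {k : Type} [Field k]

theorem demb_dif_add {σ : Type} [Fintype σ] (E G : MvPolynomial σ k) (x w : σ → k) :
    dif (E + G) x w = dif E x w + dif G x w := by
  simp only [dif, map_add, add_mul, Finset.sum_add_distrib]

theorem demb_dif_mul_X {σ : Type} [Fintype σ] (E : MvPolynomial σ k) (i : σ) (x w : σ → k) :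
    dif (E * X i) x w = dif E x w * x i + aeval x E * w i := by
  classical
  simp only [dif, pderiv_mul, map_add, map_mul, aeval_X, pderiv_X, add_mul,
    Finset.sum_add_distrib]
  congr 1
  · rw [Finset.sum_mul]
    exact Finset.sum_congr rfl fun j _ => by ring
  · rw [Finset.sum_eq_single i]
    · simp
    · intro j _ hj
      simp [hj.symm]
    · intro h
      exact absurd (Finset.mem_univ i) h

theorem demb_dif_C {σ : Type} [Fintype σ] (a : k) (x w : σ → k) :
    dif (C a : MvPolynomial σ k) x w = 0 := by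
  simp [dif]

/-- evaluation over the dual numbers -/
theorem demb_aeval {σ : Type} [Fintype σ] (E : MvPolynomial σ k) (x w : σ → k) :
    aeval (fun i => (TrivSqZeroExt.inl (x i) + TrivSqZeroExt.inr (w i) : TrivSqZeroExt k k)) E =
      TrivSqZeroExt.inl (aeval x E) + TrivSqZeroExt.inr (dif E x w) := by
  induction E using MvPolynomial.induction_on with
  | C a =>
    rw [demb_dif_C, aeval_C, aeval_C, TrivSqZeroExt.inr_zero, add_zero]
    rfl
  | add p q hp hq =>
    rw [map_add, hp, hq, demb_dif_add, map_add, TrivSqZeroExt.inl_add, TrivSqZeroExt.inr_add]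
    ring
  | mul_X p i hp =>
    rw [map_mul, hp, aeval_X, demb_dif_mul_X, map_mul, aeval_X]
    apply TrivSqZeroExt.ext
    · simp
    · simp [mul_comm]

variable {M r : ℕ} {D : ℕ} {n : Fin M → Fin r → ℕ}

theorem demb_map_emb {R S : Type} [CommRing R] [CommRing S] (φ : R →+* S) (x : Fin M → R)
    (y : Fin r → Fin 2 → R) (j : Idx D n) :
    φ (emb D n x y j) = emb D n (fun i => φ (x i)) (fun l e => φ (y l e)) j := by
  rcases j with a | s
  · simp [emb, mon, map_prod]
  · simp [emb, mon, map_prod]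

/-- the polynomials that vanish on the cone vanish at the `R`-valued points -/
theorem demb_van_emb [Infinite k] {Y : Set (Fin M → k)} {E : MvPolynomial (Idx D n) k}
    (hE : E ∈ van (cone D n Y)) {R : Type} [CommRing R] [Algebra k R] (x : Fin M → R)
    (hx : ∀ G ∈ van Y, aeval x G = 0) (y : Fin r → Fin 2 → R) :
    aeval (emb D n x y) E = 0 := by
  classical
  set E' : MvPolynomial (Fin r × Fin 2) (MvPolynomial (Fin M) k) :=
    aeval (emb D n (fun i => (C (X i) : MvPolynomial (Fin r × Fin 2) (MvPolynomial (Fin M) k)))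
      (fun l e => X (l, e))) E with hE'
  have key : ∀ (S : Type) [CommRing S] [Algebra k S] (x : Fin M → S) (y : Fin r → Fin 2 → S),
      aeval (emb D n x y) E = aevalTower (aeval x : MvPolynomial (Fin M) k →ₐ[k] S)
        (fun p : Fin r × Fin 2 => y p.1 p.2) E' := by
    intro S _ _ x y
    rw [hE', ← AlgHom.comp_apply, comp_aeval]
    congr 2
    funext j
    have h1 := demb_map_emb (D := D) (n := n) ((aevalTower
      (aeval x : MvPolynomial (Fin M) k →ₐ[k] S) (fun p : Fin r × Fin 2 => y p.1 p.2)) :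
      MvPolynomial (Fin r × Fin 2) (MvPolynomial (Fin M) k) →+* S)
      (fun i => C (X i)) (fun l e => X (l, e)) j
    simp only [RingHom.coe_coe, aevalTower_X, aevalTower_C, aeval_X] at h1
    rw [← h1]
  have hco : ∀ m, coeff m E' ∈ van Y := by
    intro m z hz
    have h2 : map ((aeval z : MvPolynomial (Fin M) k →ₐ[k] k) : MvPolynomial (Fin M) k →+* k)
        E' = 0 := by
      set Q := map ((aeval z : MvPolynomial (Fin M) k →ₐ[k] k) : MvPolynomial (Fin M) k →+* k)
        E' with hQ
      have h3 : Q * ∏ l : Fin r, X (l, (0 : Fin 2)) = 0 := by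
        apply MvPolynomial.funext
        intro a
        rw [map_mul, map_prod, map_zero]
        by_cases h0 : ∃ l : Fin r, a (l, 0) = 0
        · obtain ⟨l, hl⟩ := h0
          rw [Finset.prod_eq_zero (Finset.mem_univ l) (by rw [eval_X, hl]), mul_zero]
        · push Not at h0
          have h4 : emb D n z (fun l e => a (l, e)) ∈ cone D n Y :=
            ⟨z, hz, fun l e => a (l, e), fun l h => h0 l (congrFun h 0), rfl⟩
          have h5 := hE _ h4
          rw [key k z (fun l e => a (l, e))] at h5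
          have h6 : eval a Q = aevalTower (aeval z : MvPolynomial (Fin M) k →ₐ[k] k)
              (fun p : Fin r × Fin 2 => a (p.1, p.2)) E' := by
            rw [hQ, eval_map]
            rfl
          rw [h6, h5, zero_mul]
      rcases mul_eq_zero.1 h3 with h | h
      · exact h
      · exfalso
        rw [Finset.prod_eq_zero_iff] at h
        obtain ⟨l, _, hl⟩ := h
        exact X_ne_zero _ hl
    have h7 := congrArg (coeff m) h2
    rw [coeff_map, coeff_zero] at h7
    exact h7
  rw [key R x y]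
  change eval₂ _ _ E' = 0
  rw [eval₂_eq']
  apply Finset.sum_eq_zero
  intro m _
  have h8 := hx _ (hco m)
  change aeval x (coeff m E') * _ = 0
  rw [h8, zero_mul]

theorem demb_emb_inl (x : Fin M → k) (y : Fin r → Fin 2 → k) (ξ : Fin M → k)
    (η : Fin r → Fin 2 → k) :
    emb D n (fun i => (TrivSqZeroExt.inl (x i) + TrivSqZeroExt.inr (ξ i) : TrivSqZeroExt k k))
      (fun l e => (TrivSqZeroExt.inl (y l e) + TrivSqZeroExt.inr (η l e) : TrivSqZeroExt k k)) =
    fun j => TrivSqZeroExt.inl (emb D n x y j) + TrivSqZeroExt.inr (demb D n x y ξ η j) := by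
  funext j
  apply TrivSqZeroExt.ext
  · have h1 := demb_map_emb (D := D) (n := n)
      ((TrivSqZeroExt.fstHom k k k : TrivSqZeroExt k k →ₐ[k] k) : TrivSqZeroExt k k →+* k)
      (fun i => (TrivSqZeroExt.inl (x i) + TrivSqZeroExt.inr (ξ i) : TrivSqZeroExt k k))
      (fun l e => (TrivSqZeroExt.inl (y l e) + TrivSqZeroExt.inr (η l e) : TrivSqZeroExt k k)) j
    simp only [RingHom.coe_coe, TrivSqZeroExt.fstHom_apply, TrivSqZeroExt.fst_add,
      TrivSqZeroExt.fst_inl, TrivSqZeroExt.fst_inr, add_zero] at h1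
    simp only [TrivSqZeroExt.fst_add, TrivSqZeroExt.fst_inl, TrivSqZeroExt.fst_inr, add_zero]
    exact h1
  · simp only [TrivSqZeroExt.snd_add, TrivSqZeroExt.snd_inl, TrivSqZeroExt.snd_inr, zero_add]
    rfl

/-- the embedding as a tuple of polynomials -/
noncomputable def dembPol (D : ℕ) (n : Fin M → Fin r → ℕ) (j : Idx D n) :
    MvPolynomial (Fin M ⊕ Fin r × Fin 2) k :=
  emb D n (fun i => X (Sum.inl i)) (fun l e => X (Sum.inr (l, e))) j

theorem demb_pol {R : Type} [CommRing R] [Algebra k R] (x : Fin M → R) (y : Fin r → Fin 2 → R)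
    (j : Idx D n) :
    emb D n x y j = aeval (Sum.elim x (fun p => y p.1 p.2)) (dembPol (k := k) D n j) := by
  have h1 := demb_map_emb (D := D) (n := n)
    ((aeval (Sum.elim x (fun p : Fin r × Fin 2 => y p.1 p.2)) :
      MvPolynomial (Fin M ⊕ Fin r × Fin 2) k →ₐ[k] R) :
      MvPolynomial (Fin M ⊕ Fin r × Fin 2) k →+* R)
    (fun i => X (Sum.inl i)) (fun l e => X (Sum.inr (l, e))) j
  simp only [RingHom.coe_coe, aeval_X, Sum.elim_inl, Sum.elim_inr] at h1
  exact h1.symm

theorem demb_eq_dif (x : Fin M → k) (y : Fin r → Fin 2 → k) (ξ : Fin M → k)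
    (η : Fin r → Fin 2 → k) (j : Idx D n) :
    demb D n x y ξ η j = dif (dembPol (k := k) D n j) (Sum.elim x (fun p => y p.1 p.2))
      (Sum.elim ξ (fun p => η p.1 p.2)) := by
  have h1 : demb D n x y ξ η j = TrivSqZeroExt.snd (aeval (fun i : Fin M ⊕ Fin r × Fin 2 =>
      (TrivSqZeroExt.inl (Sum.elim x (fun p => y p.1 p.2) i) +
        TrivSqZeroExt.inr (Sum.elim ξ (fun p => η p.1 p.2) i) : TrivSqZeroExt k k))
      (dembPol (k := k) D n j)) := by
    unfold demb
    rw [demb_pol (k := k)]
    congr 3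
    funext i
    rcases i with i | i <;> rfl
  rw [h1, demb_aeval]
  simp

/-- the unit `1 + ε c` of the dual numbers -/
noncomputable def dembUnit (k : Type) [Field k] : Multiplicative k →* (TrivSqZeroExt k k)ˣ where
  toFun c :=
    { val := 1 + TrivSqZeroExt.inr c.toAdd
      inv := 1 + TrivSqZeroExt.inr (-c.toAdd)
      val_inv := by
        apply TrivSqZeroExt.ext <;> simp
      inv_val := by
        apply TrivSqZeroExt.ext <;> simp }
  map_one' := by
    apply Units.ext
    apply TrivSqZeroExt.ext <;> simp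
  map_mul' := by
    intro a b
    apply Units.ext
    apply TrivSqZeroExt.ext
    · simp
    · simp [add_comm]

theorem dembUnit_val (c : k) : ((dembUnit k (Multiplicative.ofAdd c) : (TrivSqZeroExt k k)ˣ) :
    TrivSqZeroExt k k) = 1 + TrivSqZeroExt.inr c := rfl

theorem dembUnit_prod (w : Fin r → ℤ) (c : Fin r → k) :
    ((∏ l, dembUnit k (Multiplicative.ofAdd (c l)) ^ w l : (TrivSqZeroExt k k)ˣ) :
      TrivSqZeroExt k k) = 1 + TrivSqZeroExt.inr (∑ l, (w l : k) * c l) := by
  rw [← dembUnit_val]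
  congr 1
  have h1 : ∀ l, dembUnit k (Multiplicative.ofAdd (c l)) ^ w l =
      dembUnit k (Multiplicative.ofAdd ((w l : k) * c l)) := by
    intro l
    rw [← map_zpow, ← ofAdd_zsmul, zsmul_eq_mul]
  rw [Finset.prod_congr rfl (fun l _ => h1 l), ← map_prod, ← ofAdd_sum]

theorem dembUnit_prod_pow (c : Fin r → k) :
    ((∏ l, dembUnit k (Multiplicative.ofAdd (c l)) ^ D : (TrivSqZeroExt k k)ˣ) :
      TrivSqZeroExt k k) = 1 + TrivSqZeroExt.inr ((D : k) * ∑ l, c l) := by
  have h1 := dembUnit_prod (fun _ : Fin r => (D : ℤ)) c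
  simp only [zpow_natCast, Int.cast_natCast, ← Finset.mul_sum] at h1
  exact h1

theorem demb_mon_cor {R : Type} [CommRing R] (N : Fin r → ℕ) (ε : Fin r → Fin 2)
    (y : Fin r → Fin 2 → R) : mon N (cor N ε) y = ∏ l, y l (ε l) ^ N l := by
  unfold mon cor
  apply Finset.prod_congr rfl
  intro l _
  by_cases h : ε l = 0
  · simp [h]
  · have h1 : ε l = 1 := by omega
    simp [h1]

/-- the neighbour of the corner -/
theorem demb_mon_nb {R : Type} [CommRing R] (hD : 0 < D) (ε : Fin r → Fin 2) (l : Fin r)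
    (e : Fin 2) (he : e ≠ ε l) : ∃ b : ∀ _ : Fin r, Fin (D + 1), ∀ y : Fin r → Fin 2 → R,
      mon (fun _ => D) b y * y l (ε l) = mon (fun _ => D) (cor (fun _ => D) ε) y * y l e := by
  classical
  let b : ∀ _ : Fin r, Fin (D + 1) := Function.update (cor (fun _ => D) ε) l
    (if ε l = 0 then ⟨1, by omega⟩ else ⟨D - 1, by omega⟩)
  refine ⟨b, fun y => ?_⟩
  unfold mon
  rw [← Finset.mul_prod_erase Finset.univ _ (Finset.mem_univ l),
    ← Finset.mul_prod_erase Finset.univ (fun l => y l 0 ^ (D - (cor (fun _ => D) ε l : ℕ)) *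
      y l 1 ^ (cor (fun _ => D) ε l : ℕ)) (Finset.mem_univ l)]
  have h1 : ∏ x ∈ Finset.univ.erase l, y x 0 ^ (D - (b x : ℕ)) * y x 1 ^ (b x : ℕ) =
      ∏ x ∈ Finset.univ.erase l, y x 0 ^ (D - (cor (fun _ => D) ε x : ℕ)) *
        y x 1 ^ (cor (fun _ => D) ε x : ℕ) := by
    apply Finset.prod_congr rfl
    intro x hx
    have hb : b x = cor (fun _ => D) ε x := Function.update_of_ne (Finset.ne_of_mem_erase hx) _ _
    rw [hb]
  rw [h1]
  have h2 : b l = if ε l = 0 then ⟨1, by omega⟩ else ⟨D - 1, by omega⟩ :=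
    Function.update_self _ _ _
  obtain ⟨D', rfl⟩ : ∃ D', D = D' + 1 := ⟨D - 1, by omega⟩
  by_cases h : ε l = 0
  · have he1 : e = 1 := by omega
    simp only [h2, h, cor, if_true, he1, Fin.val_zero, Nat.sub_zero, pow_zero, mul_one]
    simp
    ring
  · have h3 : ε l = 1 := by omega
    have he1 : e = 0 := by omega
    simp only [h2, h3, cor, he1]
    simp
    ring

theorem demb_inj_ring {R : Type} [CommRing R] {w : Fin M → Fin r → ℤ}
    (hn : ∀ i l, w i l = (D : ℤ) - n i l) (hD : 0 < D)
    (ε : Fin r → Fin 2) {x x' : Fin M → R} {y y' : Fin r → Fin 2 → R} (t : Fin r → Rˣ)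
    (hy' : ∀ l, IsUnit (y' l (ε l))) (ht : ∀ l, y l (ε l) = t l * y' l (ε l)) (u : R)
    (h : ∀ j, emb D n x y j = u * emb D n x' y' j) :
    x = act w t x' ∧ ∀ l e, y l e = (t l : R) * y' l e := by
  have hmon : ∀ N : Fin r → ℕ, mon N (cor N ε) y =
      ((∏ l, t l ^ N l : Rˣ) : R) * mon N (cor N ε) y' := by
    intro N
    rw [demb_mon_cor, demb_mon_cor, Units.coe_prod, ← Finset.prod_mul_distrib]
    apply Finset.prod_congr rfl
    intro l _
    rw [ht, mul_pow, Units.val_pow_eq_pow_val]
  have hunit : ∀ N : Fin r → ℕ, IsUnit (mon N (cor N ε) y') := by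
    intro N
    rw [demb_mon_cor]
    exact IsUnit.prod_univ_iff.2 fun l => (hy' l).pow _
  have h0 := h (Sum.inl (cor (fun _ => D) ε))
  change mon (fun _ => D) (cor (fun _ => D) ε) y = u * mon (fun _ => D) (cor (fun _ => D) ε) y'
    at h0
  have hu : u = ((∏ l, t l ^ D : Rˣ) : R) := by
    rw [hmon] at h0
    exact ((hunit _).mul_left_injective h0).symm
  constructor
  · funext i
    have h1 := h (Sum.inr ⟨i, cor (n i) ε⟩)
    change x i * mon (n i) (cor (n i) ε) y = u * (x' i * mon (n i) (cor (n i) ε) y') at h1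
    rw [hmon, hu] at h1
    have h2 : x i * ((∏ l, t l ^ n i l : Rˣ) : R) = ((∏ l, t l ^ D : Rˣ) : R) * x' i := by
      apply (hunit (n i)).mul_left_injective
      change x i * _ * mon (n i) (cor (n i) ε) y' = _ * x' i * mon (n i) (cor (n i) ε) y'
      rw [mul_assoc, h1]
      ring
    have h3 : (∏ l, t l ^ w i l : Rˣ) * (∏ l, t l ^ n i l : Rˣ) = (∏ l, t l ^ D : Rˣ) := by
      rw [← Finset.prod_mul_distrib]
      apply Finset.prod_congr rfl
      intro l _
      rw [hn, ← zpow_natCast, ← zpow_add, ← zpow_natCast]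
      congr 1
      ring
    apply (Units.isUnit (∏ l, t l ^ n i l : Rˣ)).mul_left_injective
    change x i * _ = act w t x' i * _
    rw [h2, ← h3]
    unfold act
    rw [Units.val_mul]
    ring
  · intro l e
    by_cases he : e = ε l
    · rw [he]
      exact ht l
    · obtain ⟨b, hb⟩ := demb_mon_nb (R := R) hD ε l e he
      have h1 := h (Sum.inl b)
      change mon (fun _ => D) b y = u * mon (fun _ => D) b y' at h1
      have h2 := hb y
      rw [h1, ht, hmon] at h2
      have h3 := hb y'
      have hu2 : IsUnit (u * mon (fun _ => D) (cor (fun _ => D) ε) y') := by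
        rw [hu]
        exact (Units.isUnit _).mul (hunit _)
      apply hu2.mul_right_injective
      change u * mon (fun _ => D) (cor (fun _ => D) ε) y' * y l e =
        u * mon (fun _ => D) (cor (fun _ => D) ε) y' * (t l * y' l e)
      calc u * mon (fun _ => D) (cor (fun _ => D) ε) y' * y l e
          = ((∏ l, t l ^ D : Rˣ) : R) * mon (fun _ => D) (cor (fun _ => D) ε) y' * y l e := by
            rw [hu]
        _ = u * mon (fun _ => D) b y' * (t l * y' l (ε l)) := h2.symm
        _ = u * t l * (mon (fun _ => D) b y' * y' l (ε l)) := by ring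
        _ = u * t l * (mon (fun _ => D) (cor (fun _ => D) ε) y' * y' l e) := by rw [h3]
        _ = _ := by ring

end DembAux

section

variable {k : Type} [Field k]
variable {M r D : ℕ} {w : Fin M → Fin r → ℤ} {n : Fin M → Fin r → ℕ} {c : ℕ} {Y : Set (Fin M → k)}

theorem demb_mem {x : Fin M → k} (hx : x ∈ Y) {y : Fin r → Fin 2 → k} (hy : ∀ l, y l ≠ 0)
    [Infinite k] {ξ : Fin M → k} (hξ : ξ ∈ Tan Y x) (η : Fin r → Fin 2 → k) :
    demb D n x y ξ η ∈ Tan (cone D n Y) (emb D n x y) := by
  intro E hE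
  have h1 := demb_van_emb hE
    (fun i => (TrivSqZeroExt.inl (x i) + TrivSqZeroExt.inr (ξ i) : TrivSqZeroExt k k))
    (fun G hG => by
      rw [demb_aeval, hG x hx, hξ G hG]
      simp)
    (fun l e => (TrivSqZeroExt.inl (y l e) + TrivSqZeroExt.inr (η l e) : TrivSqZeroExt k k))
  rw [demb_emb_inl, demb_aeval] at h1
  have h2 := congrArg TrivSqZeroExt.snd h1
  simpa using h2

theorem demb_add (x : Fin M → k) (y : Fin r → Fin 2 → k) (ξ ξ' : Fin M → k)
    (η η' : Fin r → Fin 2 → k) :
    demb D n x y (ξ + ξ') (η + η') = demb D n x y ξ η + demb D n x y ξ' η' := by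
  funext j
  rw [Pi.add_apply, demb_eq_dif, demb_eq_dif, demb_eq_dif]
  unfold dif
  rw [← Finset.sum_add_distrib]
  apply Finset.sum_congr rfl
  intro i _
  rcases i with i | i
  · simp only [Sum.elim_inl, Pi.add_apply]
    ring
  · simp only [Sum.elim_inr, Pi.add_apply]
    ring

theorem demb_act_eq (x : Fin M → k) (a : Fin r → k) :
    act w (fun l => dembUnit k (Multiplicative.ofAdd (a l)))
      (fun i => (TrivSqZeroExt.inl (x i) : TrivSqZeroExt k k)) =
    fun i => TrivSqZeroExt.inl (x i) + TrivSqZeroExt.inr (radial w x a i) := by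
  funext i
  unfold act
  rw [dembUnit_prod]
  unfold radial
  apply TrivSqZeroExt.ext
  · simp
  · simp [mul_comm]

/-- the kernel of the derivative is radial -/
theorem demb_eq_zero (hn : ∀ i l, w i l = (D : ℤ) - n i l) (hD : (D : k) ≠ 0)
    {x : Fin M → k} {y : Fin r → Fin 2 → k} (hy : ∀ l, y l ≠ 0) {ξ : Fin M → k}
    {η : Fin r → Fin 2 → k} {s : k} (h : demb D n x y ξ η = s • emb D n x y) :
    ∃ a : Fin r → k, ξ = radial w x a ∧ ∀ l e, η l e = a l * y l e := by
  have hD0 : 0 < D := by
    rcases Nat.eq_zero_or_pos D with h0 | h0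
    · exfalso
      apply hD
      rw [h0]
      simp
    · exact h0
  have hε : ∀ l, ∃ e, y l e ≠ 0 := fun l => Function.ne_iff.1 (hy l)
  choose ε hε using hε
  set a : Fin r → k := fun l => η l (ε l) / y l (ε l) with ha
  have h1 := demb_inj_ring (R := TrivSqZeroExt k k) hn hD0 ε
    (x := fun i => TrivSqZeroExt.inl (x i) + TrivSqZeroExt.inr (ξ i))
    (x' := fun i => TrivSqZeroExt.inl (x i))
    (y := fun l e => TrivSqZeroExt.inl (y l e) + TrivSqZeroExt.inr (η l e))
    (y' := fun l e => TrivSqZeroExt.inl (y l e))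
    (fun l => dembUnit k (Multiplicative.ofAdd (a l)))
    (fun l => (isUnit_iff_ne_zero.2 (hε l)).map (TrivSqZeroExt.inlHom k k))
    (fun l => by
      rw [dembUnit_val]
      apply TrivSqZeroExt.ext
      · simp
      · have h9 := hε l
        have h10 : η l (ε l) = a l * y l (ε l) := by
          simp only [ha]
          field_simp
        simp [h10, mul_comm])
    (1 + TrivSqZeroExt.inr s)
    (fun j => by
      rw [demb_emb_inl, h]
      have h4 := demb_map_emb (D := D) (n := n) (TrivSqZeroExt.inlHom k k) x y j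
      change TrivSqZeroExt.inl (emb D n x y j) = emb D n (fun i => TrivSqZeroExt.inl (x i))
        (fun l e => TrivSqZeroExt.inl (y l e)) j at h4
      rw [← h4]
      apply TrivSqZeroExt.ext
      · simp
      · simp [mul_comm])
  refine ⟨a, ?_, ?_⟩
  · have h2 := h1.1
    rw [demb_act_eq] at h2
    funext i
    have h3 := congrArg TrivSqZeroExt.snd (congrFun h2 i)
    simpa using h3
  · intro l e
    have h3 := congrArg TrivSqZeroExt.snd (h1.2 l e)
    rw [dembUnit_val] at h3
    simpa [mul_comm] using h3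

end

end Pool.Agent.VFG
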