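import Pool.Agent.Lib_MP_1858fb_g.Defs2

/-!
# MP_1858fb_ag, line G, piece G9a: binary forms as functions
-/

set_option autoImplicit false

namespace Pool.Agent.VFG

open MvPolynomial Pool.Agent.VF

variable {k : Type} [Field k]

/-- The value of the binary form of degree `d` with the coefficients `a`. -/
def fval (d : ℕ) (a : ℕ → k) (p q : k) : k :=
  ∑ j ∈ Finset.range (d + 1), a j * (p ^ (d - j) * q ^ j)

theorem fval_add (d : ℕ) (a b : ℕ → k) (p q : k) :
    fval d (fun j => a j + b j) p q = fval d a p q + fval d b p q := by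
  rw [fval, fval, fval, ← Finset.sum_add_distrib]
  exact Finset.sum_congr rfl fun j _ => by ring

theorem fval_sub (d : ℕ) (a b : ℕ → k) (p q : k) :
    fval d (fun j => a j - b j) p q = fval d a p q - fval d b p q := by
  rw [fval, fval, fval, ← Finset.sum_sub_distrib]
  exact Finset.sum_congr rfl fun j _ => by ring

theorem fval_const_mul (d : ℕ) (s : k) (a : ℕ → k) (p q : k) :
    fval d (fun j => s * a j) p q = s * fval d a p q := by
  rw [fval, fval, Finset.mul_sum]
  exact Finset.sum_congr rfl fun j _ => by ring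

theorem fval_zero (d : ℕ) (p q : k) : fval d (fun _ => (0 : k)) p q = 0 := by
  rw [fval]
  exact Finset.sum_eq_zero fun j _ => by ring

theorem fval_finset_sum {ι : Type} (s : Finset ι) (d : ℕ) (a : ι → ℕ → k) (p q : k) :
    fval d (fun j => ∑ i ∈ s, a i j) p q = ∑ i ∈ s, fval d (a i) p q := by
  simp only [fval, Finset.sum_mul]
  exact Finset.sum_comm

theorem exists_fval_mul (d e : ℕ) (a b : ℕ → k) :
    ∃ c : ℕ → k, ∀ p q, fval (d + e) c p q = fval d a p q * fval e b p q := by
  classical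
  refine ⟨fun m => ∑ x ∈ (Finset.range (d + 1) ×ˢ Finset.range (e + 1)).filter
    (fun x => x.1 + x.2 = m), a x.1 * b x.2, fun p q => ?_⟩
  rw [fval, fval, fval, Finset.sum_mul_sum, ← Finset.sum_product']
  rw [← Finset.sum_fiberwise_of_maps_to (s := Finset.range (d + 1) ×ˢ Finset.range (e + 1))
    (t := Finset.range (d + e + 1)) (g := fun x => x.1 + x.2)]
  · refine Finset.sum_congr rfl fun m _ => ?_
    rw [Finset.sum_mul]
    refine Finset.sum_congr rfl fun x hx => ?_
    rw [Finset.mem_filter, Finset.mem_product, Finset.mem_range, Finset.mem_range] at hx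
    obtain ⟨⟨h1, h2⟩, h3⟩ := hx
    have h4 : d + e - m = (d - x.1) + (e - x.2) := by omega
    rw [h4, ← h3, pow_add, pow_add]
    ring
  · intro x hx
    rw [Finset.mem_product, Finset.mem_range, Finset.mem_range] at hx
    rw [Finset.mem_range]
    omega

theorem exists_fval_pow (d : ℕ) (a : ℕ → k) (m : ℕ) :
    ∃ c : ℕ → k, ∀ p q, fval (m * d) c p q = fval d a p q ^ m := by
  induction m with
  | zero =>
    refine ⟨fun _ => 1, fun p q => ?_⟩
    simp [fval]
  | succ m ih =>
    obtain ⟨c, hc⟩ := ih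
    obtain ⟨c', hc'⟩ := exists_fval_mul (m * d) d c a
    refine ⟨c', fun p q => ?_⟩
    rw [pow_succ, ← hc, ← hc', Nat.succ_mul]

theorem exists_fval_interp (d : ℕ) (hd : 1 ≤ d) {p q p' q' : k} (h : p * q' - p' * q ≠ 0)
    (z z' : k) : ∃ a : ℕ → k, fval d a p q = z ∧ fval d a p' q' = z' := by
  have hlin : ∀ s t : k, ∃ c : ℕ → k, ∀ x y, fval d c x y = (s * x + t * y) ^ d := by
    intro s t
    obtain ⟨c, hc⟩ := exists_fval_pow 1 (fun j => if j = 0 then s else t) d
    refine ⟨c, fun x y => ?_⟩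
    rw [← mul_one d, hc, mul_one]
    congr 1
    simp [fval, Finset.sum_range_succ]
  obtain ⟨c1, h1⟩ := hlin q' (-p')
  obtain ⟨c2, h2⟩ := hlin q (-p)
  have hd0 : d ≠ 0 := by omega
  have e1 : (q' * p + -p' * q) = p * q' - p' * q := by ring
  have e2 : (q' * p' + -p' * q') = 0 := by ring
  have e3 : (q * p + -p * q) = 0 := by ring
  have e4 : (q * p' + -p * q') = -(p * q' - p' * q) := by ring
  have hn : -(p * q' - p' * q) ≠ 0 := neg_ne_zero.mpr h
  refine ⟨fun j => (z / (p * q' - p' * q) ^ d) * c1 j +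
    (z' / (-(p * q' - p' * q)) ^ d) * c2 j, ?_, ?_⟩
  · rw [fval_add, fval_const_mul, fval_const_mul, h1, h2, e1, e3, zero_pow hd0, mul_zero, add_zero]
    exact div_mul_cancel₀ _ (pow_ne_zero _ h)
  · rw [fval_add, fval_const_mul, fval_const_mul, h1, h2, e2, e4, zero_pow hd0, mul_zero, zero_add]
    exact div_mul_cancel₀ _ (pow_ne_zero _ hn)

end Pool.Agent.VFG
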