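import Pool.Agent.Lib_MP_1858fb_g.DefsZ
import Pool.Agent.Lib_MP_1858fb_g.Forms
import Pool.Agent.Lib_MP_1858fb_g.Demb0

/-!
# MP_1858fb_ag, line G, piece GZ4: the derivative of a curve
-/

set_option autoImplicit false

namespace Pool.Agent.VFG

open MvPolynomial Pool.Agent.VF

variable {k : Type} [Field k] {M r D : ℕ} {w : Fin M → Fin r → ℤ} {n : Fin M → Fin r → ℕ}

/-- Euler's relation -/
theorem gder_euler (δ : Fin r → ℤ) (F : Fin M → ℕ → k) (p q : k) :
    gder w δ F p q p q = radial w (gval w δ F p q) (fun l => (δ l : k)) := by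
  funext i
  have hd : (∑ l, (w i l : k) * (δ l : k)) = ((deg w δ i : ℤ) : k) := by
    rw [deg, Int.cast_sum]
    exact Finset.sum_congr rfl fun l _ => by rw [Int.cast_mul]
  simp only [gder, radial, gval]
  rw [hd]
  by_cases h : 0 ≤ deg w δ i
  · rw [if_pos h, if_pos h, Finset.mul_sum]
    have hn : ((deg w δ i : ℤ) : k) = ((deg w δ i).toNat : k) := by
      conv_lhs => rw [← Int.toNat_of_nonneg h]
      rw [Int.cast_natCast]
    rw [hn]
    set d := (deg w δ i).toNat with hdd
    refine Finset.sum_congr rfl fun j hj => ?_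
    have hj' : j ≤ d := Nat.lt_succ_iff.1 (Finset.mem_range.1 hj)
    have h1 : ((d - j : ℕ) : k) * p ^ (d - j - 1) * p = ((d - j : ℕ) : k) * p ^ (d - j) := by
      rcases Nat.eq_zero_or_pos (d - j) with h0 | h0
      · rw [h0, Nat.cast_zero]; ring
      · rw [mul_assoc, ← pow_succ, Nat.sub_add_cancel h0]
    have h2 : (j : k) * q ^ (j - 1) * q = (j : k) * q ^ j := by
      rcases Nat.eq_zero_or_pos j with h0 | h0
      · rw [h0, Nat.cast_zero]; ring
      · rw [mul_assoc, ← pow_succ, Nat.sub_add_cancel h0]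
    rw [h1, h2]
    have h3 : ((d - j : ℕ) : k) = (d : k) - (j : k) := Nat.cast_sub hj'
    rw [h3]
    ring
  · rw [if_neg h, if_neg h, mul_zero]

theorem gder_add_smul (δ : Fin r → ℤ) (F : Fin M → ℕ → k) (p q s t s' t' α β : k) :
    gder w δ F p q (α * s + β * s') (α * t + β * t') =
      α • gder w δ F p q s t + β • gder w δ F p q s' t' := by
  funext i
  simp only [gder, Pi.add_apply, Pi.smul_apply, smul_eq_mul]
  by_cases h : 0 ≤ deg w δ i
  · rw [if_pos h, if_pos h, if_pos h, Finset.mul_sum, Finset.mul_sum, ← Finset.sum_add_distrib]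
    exact Finset.sum_congr rfl fun j _ => by ring
  · rw [if_neg h, if_neg h, if_neg h]; ring

section Dual

/-- powers in the dual numbers -/
theorem dp_pow (a b : k) (j : ℕ) :
    (TrivSqZeroExt.inl a + TrivSqZeroExt.inr b : TrivSqZeroExt k k) ^ j =
      TrivSqZeroExt.inl (a ^ j) + TrivSqZeroExt.inr ((j : k) * (a ^ (j - 1) * b)) := by
  apply TrivSqZeroExt.ext
  · simp
  · rw [TrivSqZeroExt.snd_pow]
    simp

theorem dp_mul (a b : k) (c : k) :
    (TrivSqZeroExt.inl c * (TrivSqZeroExt.inl a + TrivSqZeroExt.inr b) : TrivSqZeroExt k k) =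
      TrivSqZeroExt.inl (c * a) + TrivSqZeroExt.inr (c * b) := by
  apply TrivSqZeroExt.ext <;> simp

theorem dp_sum {ι : Type} (s : Finset ι) (c b : ι → k) :
    (∑ j ∈ s, (TrivSqZeroExt.inl (c j) + TrivSqZeroExt.inr (b j)) : TrivSqZeroExt k k) =
      TrivSqZeroExt.inl (∑ j ∈ s, c j) + TrivSqZeroExt.inr (∑ j ∈ s, b j) := by
  classical
  induction s using Finset.induction_on with
  | empty => simp
  | insert x s hx ih =>
    rw [Finset.sum_insert hx, ih, Finset.sum_insert hx, Finset.sum_insert hx]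
    apply TrivSqZeroExt.ext <;> simp

end Dual

open Polynomial in
/-- evaluation of a polynomial over the dual numbers -/
theorem dp_aeval (s : Finset ℕ) (c : ℕ → k) (a : k) :
    Polynomial.aeval (TrivSqZeroExt.inl a + TrivSqZeroExt.inr 1 : TrivSqZeroExt k k)
      (∑ j ∈ s, Polynomial.C (c j) * Polynomial.X ^ j) =
      TrivSqZeroExt.inl (∑ j ∈ s, c j * a ^ j) +
        TrivSqZeroExt.inr (∑ j ∈ s, (j : k) * (c j * a ^ (j - 1))) := by
  rw [map_sum, ← dp_sum]
  refine Finset.sum_congr rfl fun j _ => ?_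
  rw [map_mul, map_pow, Polynomial.aeval_C, Polynomial.aeval_X, dp_pow,
    TrivSqZeroExt.algebraMap_eq_inl, dp_mul]
  congr 2
  ring

/-- chain rule -/
theorem dval_eq_demb {e : ℕ} (U : Fin (e + 1) → Idx D n → k) (δ : Fin r → ℕ)
    (A : Fin r → Fin 2 → ℕ → k) (F : Fin M → ℕ → k) [Infinite k]
    (hFU : ∀ p q : k, val U p q =
      emb D n (gval w (fun l => (δ l : ℤ)) F p q) (fun l j => fval (δ l) (A l j) p q)) (a : k) :
    ∃ η : Fin r → Fin 2 → k, dval U a =
      demb D n (gval w (fun l => (δ l : ℤ)) F 1 a) (fun l j => fval (δ l) (A l j) 1 a)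
        (gder w (fun l => (δ l : ℤ)) F 1 a 0 1) η := by
  classical
  set δ' : Fin r → ℤ := fun l => (δ l : ℤ) with hδ'
  let px : Fin M → Polynomial k := fun i => if 0 ≤ deg w δ' i then
    ∑ j ∈ Finset.range ((deg w δ' i).toNat + 1), Polynomial.C (F i j) * Polynomial.X ^ j else 0
  let py : Fin r → Fin 2 → Polynomial k := fun l j =>
    ∑ i ∈ Finset.range (δ l + 1), Polynomial.C (A l j i) * Polynomial.X ^ i
  let pu : Idx D n → Polynomial k := fun J =>
    ∑ j ∈ Finset.range (e + 1), Polynomial.C (if h : j < e + 1 then U ⟨j, h⟩ J else 0) *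
      Polynomial.X ^ j
  -- the identity of polynomials
  have hid : ∀ J, pu J = emb D n px py J := by
    intro J
    apply Polynomial.funext
    intro b
    have h1 := congrFun (hFU 1 b) J
    have h2 := demb_map_emb (D := D) (n := n) (Polynomial.evalRingHom b) px py J
    rw [Polynomial.coe_evalRingHom] at h2
    rw [h2]
    have h3 : (fun i => (px i).eval b) = gval w δ' F 1 b := by
      funext i
      simp only [px, gval]
      by_cases h : 0 ≤ deg w δ' i
      · rw [if_pos h, if_pos h, Polynomial.eval_finsetSum]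
        refine Finset.sum_congr rfl fun j _ => ?_
        simp
      · rw [if_neg h, if_neg h, Polynomial.eval_zero]
    have h4 : (fun l j => (py l j).eval b) = fun l j => fval (δ l) (A l j) 1 b := by
      funext l j
      simp only [py, fval]
      rw [Polynomial.eval_finsetSum]
      refine Finset.sum_congr rfl fun j _ => ?_
      simp
    rw [h3, h4, ← h1]
    simp only [pu, val]
    rw [Polynomial.eval_finsetSum, Finset.sum_range]
    refine Finset.sum_congr rfl fun j _ => ?_
    rw [dif_pos j.2]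
    simp
  refine ⟨fun l j => ∑ i ∈ Finset.range (δ l + 1), (i : k) * (A l j i * a ^ (i - 1)), ?_⟩
  funext J
  set z : TrivSqZeroExt k k := TrivSqZeroExt.inl a + TrivSqZeroExt.inr 1 with hz
  have h5 := congrArg (fun P => TrivSqZeroExt.snd (Polynomial.aeval z P)) (hid J)
  have h6 := demb_map_emb (D := D) (n := n)
    ((Polynomial.aeval z : Polynomial k →ₐ[k] TrivSqZeroExt k k) :
      Polynomial k →+* TrivSqZeroExt k k) px py J
  simp only [RingHom.coe_coe] at h6
  have h5' : TrivSqZeroExt.snd (Polynomial.aeval z (pu J)) =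
      TrivSqZeroExt.snd (emb D n (fun i => Polynomial.aeval z (px i))
        (fun l e => Polynomial.aeval z (py l e)) J) := by
    rw [← h6]
    exact h5
  have h7 : (fun i => Polynomial.aeval z (px i)) = fun i =>
      (TrivSqZeroExt.inl (gval w δ' F 1 a i) +
        TrivSqZeroExt.inr (gder w δ' F 1 a 0 1 i) : TrivSqZeroExt k k) := by
    funext i
    simp only [px, gval, gder]
    by_cases h : 0 ≤ deg w δ' i
    · rw [if_pos h, if_pos h, if_pos h, hz, dp_aeval]
      congr 2
      · refine Finset.sum_congr rfl fun j _ => ?_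
        rw [one_pow, one_mul]
      · refine Finset.sum_congr rfl fun j _ => ?_
        simp only [one_pow]
        ring
    · rw [if_neg h, if_neg h, if_neg h, map_zero, TrivSqZeroExt.inl_zero,
        TrivSqZeroExt.inr_zero, add_zero]
  have h8 : (fun l e => Polynomial.aeval z (py l e)) = fun l e =>
      (TrivSqZeroExt.inl (fval (δ l) (A l e) 1 a) +
        TrivSqZeroExt.inr (∑ i ∈ Finset.range (δ l + 1), (i : k) * (A l e i * a ^ (i - 1))) :
          TrivSqZeroExt k k) := by
    funext l e
    simp only [py, fval]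
    rw [hz, dp_aeval]
    congr 2
    refine Finset.sum_congr rfl fun j _ => ?_
    rw [one_pow, one_mul]
  rw [h7, h8] at h5'
  rw [demb, ← h5', hz]
  simp only [pu]
  rw [dp_aeval]
  simp only [dval, TrivSqZeroExt.snd_add, TrivSqZeroExt.snd_inl, TrivSqZeroExt.snd_inr, zero_add]
  rw [Finset.sum_range]
  refine Finset.sum_congr rfl fun j _ => ?_
  rw [dif_pos j.2]

end Pool.Agent.VFG
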