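import Pool.Agent.Lib_MP_1858fb_w.Defs

/-!
# MP_1858fb_ag, line G: smoothness of a graph
-/

set_option autoImplicit false

namespace Pool.Agent.VFG

open MvPolynomial Pool.Agent.VF

variable {k : Type} [Field k]

namespace Gr

/-- the equations of the graph in the new variables -/
noncomputable def phi {σ κ : Type} (H : MvPolynomial σ k) (f : κ → MvPolynomial σ k)
    (K : κ → ℕ) (j : κ) : MvPolynomial (σ ⊕ κ) k :=
  rename Sum.inl H ^ K j * X (Sum.inr j) - rename Sum.inl (f j)

theorem aeval_inl {σ κ : Type} (u : σ ⊕ κ → k) (P : MvPolynomial σ k) :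
    aeval u (rename Sum.inl P) = aeval (fun i => u (Sum.inl i)) P := by
  rw [aeval_rename]
  rfl

/-- elimination of the new variables -/
theorem elim {σ κ : Type} (H : MvPolynomial σ k) (f : κ → MvPolynomial σ k) (K : κ → ℕ)
    (G : MvPolynomial (σ ⊕ κ) k) :
    ∃ (n : ℕ) (g : MvPolynomial σ k),
      rename Sum.inl H ^ n * G - rename Sum.inl g ∈ Ideal.span (Set.range (phi H f K)) := by
  induction G using MvPolynomial.induction_on with
  | C a =>
    refine ⟨0, C a, ?_⟩
    rw [pow_zero, one_mul, rename_C, sub_self]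
    exact Ideal.zero_mem _
  | add p q hp hq =>
    obtain ⟨n, g, h1⟩ := hp
    obtain ⟨m, g', h2⟩ := hq
    refine ⟨n + m, H ^ m * g + H ^ n * g', ?_⟩
    have h3 : (rename Sum.inl H : MvPolynomial (σ ⊕ κ) k) ^ (n + m) * (p + q) -
        rename Sum.inl (H ^ m * g + H ^ n * g') =
        rename Sum.inl H ^ m * (rename Sum.inl H ^ n * p - rename Sum.inl g) +
          rename Sum.inl H ^ n * (rename Sum.inl H ^ m * q - rename Sum.inl g') := by
      rw [map_add, map_mul, map_mul, map_pow, map_pow]
      ring
    rw [h3]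
    exact Ideal.add_mem _ (Ideal.mul_mem_left _ _ h1) (Ideal.mul_mem_left _ _ h2)
  | mul_X p s hp =>
    obtain ⟨n, g, h1⟩ := hp
    rcases s with i | j
    · refine ⟨n, g * X i, ?_⟩
      have h3 : (rename Sum.inl H : MvPolynomial (σ ⊕ κ) k) ^ n * (p * X (Sum.inl i)) -
          rename Sum.inl (g * X i) =
          X (Sum.inl i) * (rename Sum.inl H ^ n * p - rename Sum.inl g) := by
        rw [map_mul, rename_X]
        ring
      rw [h3]
      exact Ideal.mul_mem_left _ _ h1
    · refine ⟨n + K j, g * f j, ?_⟩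
      have h3 : (rename Sum.inl H : MvPolynomial (σ ⊕ κ) k) ^ (n + K j) * (p * X (Sum.inr j)) -
          rename Sum.inl (g * f j) =
          (rename Sum.inl H ^ K j * X (Sum.inr j)) *
            (rename Sum.inl H ^ n * p - rename Sum.inl g) + rename Sum.inl g * phi H f K j := by
        unfold phi
        rw [map_mul]
        ring
      rw [h3]
      exact Ideal.add_mem _ (Ideal.mul_mem_left _ _ h1)
        (Ideal.mul_mem_left _ _ (Ideal.subset_span ⟨j, rfl⟩))

/-- `van` is an ideal: members of the span of members vanish -/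
theorem aeval_span {σ : Type} {ι : Type} (P : ι → MvPolynomial σ k) (u : σ → k)
    (h : ∀ i, aeval u (P i) = 0) {Q : MvPolynomial σ k} (hQ : Q ∈ Ideal.span (Set.range P)) :
    aeval u Q = 0 := by
  have h1 : Ideal.span (Set.range P) ≤ RingHom.ker (aeval u : MvPolynomial σ k →ₐ[k] k) := by
    rw [Ideal.span_le]
    rintro _ ⟨i, rfl⟩
    exact h i
  exact h1 hQ

end Gr

theorem smoothAt_graph {σ κ : Type} [Fintype σ] [Fintype κ] (A : Set (σ → k))
    (B : Set (σ ⊕ κ → k)) (H : MvPolynomial σ k) (f : κ → MvPolynomial σ k) (K : κ → ℕ)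
    (h1 : ∀ u ∈ B, ∀ j, aeval (fun i => u (Sum.inl i)) H ^ K j * u (Sum.inr j) =
      aeval (fun i => u (Sum.inl i)) (f j))
    (h2 : ∀ u ∈ B, aeval (fun i => u (Sum.inl i)) H ≠ 0 → (fun i => u (Sum.inl i)) ∈ A)
    (h3 : ∀ p ∈ A, aeval p H ≠ 0 →
      Sum.elim p (fun j => aeval p (f j) / aeval p H ^ K j) ∈ B)
    {c : ℕ} {u : σ ⊕ κ → k} (hu : u ∈ B) (hH : aeval (fun i => u (Sum.inl i)) H ≠ 0)
    (hs : SmoothAt c A (fun i => u (Sum.inl i))) :
    SmoothAt (c + Fintype.card κ) B u := by
  classical
  obtain ⟨E, H0, hE, hind, hH0, hgen⟩ := hs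
  have hxA : (fun i => u (Sum.inl i)) ∈ A := h2 u hu hH
  have hEx : ∀ i, aeval (fun i => u (Sum.inl i)) (E i) = 0 := fun i => hE i _ hxA
  -- the equations
  let e : Fin (c + Fintype.card κ) ≃ Fin c ⊕ κ :=
    finSumFinEquiv.symm.trans (Equiv.sumCongr (Equiv.refl _) (Fintype.equivFin κ).symm)
  let P : Fin c ⊕ κ → MvPolynomial (σ ⊕ κ) k :=
    Sum.elim (fun i => rename Sum.inl (H * E i)) (Gr.phi H f K)
  have hPB : ∀ s, P s ∈ van B := by
    rintro (i | j) u' hu'
    · show aeval u' (rename Sum.inl (H * E i)) = 0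
      rw [Gr.aeval_inl, map_mul]
      by_cases h0 : aeval (fun i => u' (Sum.inl i)) H = 0
      · rw [h0, zero_mul]
      · rw [hE i _ (h2 u' hu' h0), mul_zero]
    · show aeval u' (Gr.phi H f K j) = 0
      unfold Gr.phi
      rw [map_sub, map_mul, map_pow, Gr.aeval_inl, Gr.aeval_inl, aeval_X, h1 u' hu' j, sub_self]
  have hrange : Set.range (P ∘ e) = Set.range P := EquivLike.range_comp P e
  -- one element of the ideal
  have key : ∀ G ∈ van B, ∃ n : ℕ,
      (rename Sum.inl (H0 * H ^ 2) * rename Sum.inl H ^ n) * G ∈ Ideal.span (Set.range P) := by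
    intro G hG
    obtain ⟨n, g, hg⟩ := Gr.elim H f K G
    refine ⟨n, ?_⟩
    have hJ : Ideal.span (Set.range (Gr.phi H f K)) ≤ Ideal.span (Set.range P) := by
      apply Ideal.span_mono
      rintro _ ⟨j, rfl⟩
      exact ⟨Sum.inr j, rfl⟩
    have hgA : H * g ∈ van A := by
      intro p hp
      rw [map_mul]
      by_cases h0 : aeval p H = 0
      · rw [h0, zero_mul]
      · have hu' := h3 p hp h0
        set u' : σ ⊕ κ → k := Sum.elim p (fun j => aeval p (f j) / aeval p H ^ K j) with hu'def
        have h4 := Gr.aeval_span (Gr.phi H f K) u' (fun j => hPB (Sum.inr j) u' hu') hg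
        rw [map_sub, map_mul, hG u' hu', mul_zero, zero_sub, neg_eq_zero, Gr.aeval_inl] at h4
        have h5 : (fun i => u' (Sum.inl i)) = p := rfl
        rw [h5] at h4
        rw [h4, mul_zero]
    have h6 := hgen _ hgA
    have h7 : rename Sum.inl (H * (H0 * (H * g))) ∈ Ideal.span (Set.range P) := by
      refine Submodule.span_induction (p := fun Q _ =>
        (rename Sum.inl (H * Q) : MvPolynomial (σ ⊕ κ) k) ∈ Ideal.span (Set.range P))
        ?_ ?_ ?_ ?_ h6
      · rintro _ ⟨i, rfl⟩
        exact Ideal.subset_span ⟨Sum.inl i, rfl⟩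
      · rw [mul_zero, map_zero]
        exact Ideal.zero_mem _
      · intro x y _ _ hx hy
        rw [mul_add, map_add]
        exact Ideal.add_mem _ hx hy
      · intro a x _ hx
        have : H * (a • x) = a * (H * x) := by
          rw [smul_eq_mul]
          ring
        rw [this, map_mul]
        exact Ideal.mul_mem_left _ _ hx
    have h9 : (rename Sum.inl (H0 * H ^ 2) * rename Sum.inl H ^ n) * G =
        rename Sum.inl (H0 * H ^ 2) * (rename Sum.inl H ^ n * G - rename Sum.inl g) +
          rename Sum.inl (H * (H0 * (H * g))) := by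
      simp only [map_mul, map_pow]
      ring
    rw [h9]
    exact Ideal.add_mem _ (Ideal.mul_mem_left _ _ (hJ hg)) h7
  -- the ideal of `B` is finitely generated
  obtain ⟨S, hS⟩ := (isNoetherianRing_iff_ideal_fg _).1
    (inferInstance : IsNoetherianRing (MvPolynomial (σ ⊕ κ) k)) (van B)
  have hSB : ∀ G ∈ S, G ∈ van B := fun G hG => by
    rw [← hS]
    exact Ideal.subset_span hG
  choose! n hn using key
  let m := S.sup n
  have hall : ∀ G ∈ van B,
      (rename Sum.inl (H0 * H ^ 2) * rename Sum.inl H ^ m) * G ∈ Ideal.span (Set.range P) := by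
    intro G hG
    rw [← hS] at hG
    refine Submodule.span_induction (p := fun Q _ =>
      (rename Sum.inl (H0 * H ^ 2) * rename Sum.inl H ^ m) * Q ∈ Ideal.span (Set.range P))
      ?_ ?_ ?_ ?_ hG
    · intro Q hQ
      have h4 : n Q ≤ m := Finset.le_sup (f := n) hQ
      have h5 : (rename Sum.inl (H0 * H ^ 2) * rename Sum.inl H ^ m) * Q =
          rename Sum.inl H ^ (m - n Q) *
            ((rename Sum.inl (H0 * H ^ 2) * rename Sum.inl H ^ n Q) * Q) := by
        have : (rename Sum.inl H : MvPolynomial (σ ⊕ κ) k) ^ m =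
            rename Sum.inl H ^ (m - n Q) * rename Sum.inl H ^ n Q := by
          rw [← pow_add, Nat.sub_add_cancel h4]
        rw [this]
        ring
      rw [h5]
      exact Ideal.mul_mem_left _ _ (hn Q (hSB Q hQ))
    · rw [mul_zero]
      exact Ideal.zero_mem _
    · intro x y _ _ hx hy
      rw [mul_add]
      exact Ideal.add_mem _ hx hy
    · intro a x _ hx
      rw [smul_eq_mul, mul_left_comm]
      exact Ideal.mul_mem_left _ _ hx
  refine ⟨P ∘ e, rename Sum.inl (H0 * H ^ 2) * rename Sum.inl H ^ m, fun i => hPB _, ?_, ?_, ?_⟩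
  · -- independence
    have h4 : LinearIndependent k (fun (s : Fin c ⊕ κ) (t : σ ⊕ κ) =>
        aeval u (pderiv t (P s))) := by
      rw [Fintype.linearIndependent_iff] at hind ⊢
      intro g hg
      rw [Fintype.sum_sum_type] at hg
      have hinl : ∀ (i : Fin c) (t : σ), aeval u (pderiv (Sum.inl t) (P (Sum.inl i))) =
          aeval (fun i => u (Sum.inl i)) H * aeval (fun i => u (Sum.inl i)) (pderiv t (E i)) := by
        intro i t
        show aeval u (pderiv (Sum.inl t) (rename Sum.inl (H * E i))) = _
        rw [pderiv_rename Sum.inl_injective, Gr.aeval_inl, Derivation.leibniz, map_add,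
          smul_eq_mul, smul_eq_mul, map_mul, map_mul, hEx i, zero_mul, add_zero]
      have hinr : ∀ (i : Fin c) (j : κ), pderiv (Sum.inr j) (P (Sum.inl i)) = 0 := by
        intro i j
        show pderiv (Sum.inr j) (rename Sum.inl (H * E i)) = 0
        apply pderiv_eq_zero_of_notMem_vars
        intro hmem
        obtain ⟨t, _, ht⟩ := Finset.mem_image.1 (vars_rename _ _ hmem)
        exact absurd ht (by simp)
      have hphi : ∀ (j j' : κ), aeval u (pderiv (Sum.inr j') (P (Sum.inr j))) =
          if j = j' then aeval (fun i => u (Sum.inl i)) H ^ K j else 0 := by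
        intro j j'
        have hz : ∀ Q : MvPolynomial σ k,
            pderiv (Sum.inr j') (rename Sum.inl Q : MvPolynomial (σ ⊕ κ) k) = 0 := by
          intro Q
          apply pderiv_eq_zero_of_notMem_vars
          intro hmem
          obtain ⟨t, _, ht⟩ := Finset.mem_image.1 (vars_rename _ _ hmem)
          exact absurd ht (by simp)
        show aeval u (pderiv (Sum.inr j') (Gr.phi H f K j)) = _
        unfold Gr.phi
        rw [map_sub, hz, sub_zero, ← map_pow, Derivation.leibniz, hz, smul_zero, add_zero,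
          pderiv_X, smul_eq_mul, map_mul, Gr.aeval_inl, map_pow]
        by_cases hj : j = j'
        · subst hj
          rw [if_pos rfl, Pi.single_eq_same, map_one, mul_one]
        · rw [if_neg hj, Pi.single_eq_of_ne (by
            intro h
            exact hj (Sum.inr_injective h)), map_zero, mul_zero]
      have hb : ∀ j, g (Sum.inr j) = 0 := by
        intro j'
        have h5 := congrFun hg (Sum.inr j')
        simp only [Pi.add_apply, Finset.sum_apply, Pi.smul_apply, smul_eq_mul, Pi.zero_apply,
          hinr, map_zero, mul_zero, Finset.sum_const_zero, zero_add, hphi, mul_ite,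
          Finset.sum_ite_eq', Finset.mem_univ, if_true] at h5
        exact (mul_eq_zero.1 h5).resolve_right (pow_ne_zero _ hH)
      have ha : ∀ i, g (Sum.inl i) = 0 := by
        apply hind
        funext t
        have h5 := congrFun hg (Sum.inl t)
        simp only [Pi.add_apply, Finset.sum_apply, Pi.smul_apply, smul_eq_mul, Pi.zero_apply,
          hinl, hb, zero_mul, Finset.sum_const_zero, add_zero] at h5
        simp only [Finset.sum_apply, Pi.smul_apply, smul_eq_mul, Pi.zero_apply]
        have h6 : aeval (fun i => u (Sum.inl i)) H *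
            ∑ i, g (Sum.inl i) * aeval (fun i => u (Sum.inl i)) (pderiv t (E i)) = 0 := by
          rw [Finset.mul_sum, ← h5]
          exact Finset.sum_congr rfl fun i _ => by ring
        exact (mul_eq_zero.1 h6).resolve_left hH
      rintro (i | j)
      · exact ha i
      · exact hb j
    exact h4.comp e e.injective
  · rw [map_mul, map_pow, Gr.aeval_inl, Gr.aeval_inl, map_mul, map_pow]
    exact mul_ne_zero (mul_ne_zero hH0 (pow_ne_zero _ hH)) (pow_ne_zero _ hH)
  · intro G hG
    rw [hrange]
    exact hall G hG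

end Pool.Agent.VFG
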