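import Pool.Agent.Lib_MP_1858fb_g.Defs2

/-!
# MP_1858fb_ag, line G, piece G2a: homogenisation at a corner
-/

set_option autoImplicit false

namespace Pool.Agent.VFG

open MvPolynomial Pool.Agent.VF

section

variable {k : Type} [Field k] {M r D : ℕ} {n : Fin M → Fin r → ℕ}

/-- the corner monomial is `1` -/
theorem mon_cor {R : Type} [CommRing R] (N : Fin r → ℕ) (ε : Fin r → Fin 2) (y : Fin r → Fin 2 → R)
    (hy : ∀ l, y l (ε l) = 1) : mon N (cor N ε) y = 1 := by
  unfold mon
  refine Finset.prod_eq_one fun l _ => ?_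
  have hc : cor N ε l = if ε l = 0 then 0 else Fin.last (N l) := rfl
  have h := hy l
  by_cases h0 : ε l = 0
  · rw [hc, if_pos h0]
    rw [h0] at h
    simp [h]
  · have h1 : ε l = 1 := by omega
    rw [hc, if_neg h0]
    rw [h1] at h
    simp [h]

/-- homogenisation of `G` at the corner `ε` -/
theorem exists_homog (ε : Fin r → Fin 2) (G : MvPolynomial (Fin M) k) :
    ∃ (G' : MvPolynomial (Idx D n) k) (e : ℕ), G'.IsHomogeneous e ∧
      ∀ (R : Type) [CommRing R] [Algebra k R] (s : R) (x : Fin M → R) (y : Fin r → Fin 2 → R),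
        (∀ l, y l (ε l) = 1) → aeval (fun j => s * emb D n x y j) G' = s ^ e * aeval x G := by
  set e := G.totalDegree with he
  have hle : ∀ μ ∈ G.support, (∑ i, μ i) ≤ e := by
    intro μ hμ
    have h := le_totalDegree hμ
    rw [Finsupp.sum_fintype _ _ (fun _ => rfl)] at h
    exact h
  refine ⟨∑ μ ∈ G.support, C (G.coeff μ) * (X (cor0 D n ε) ^ (e - ∑ i, μ i) *
    ∏ i, X (Sum.inr ⟨i, cor (n i) ε⟩) ^ μ i), e, ?_, ?_⟩
  · refine IsHomogeneous.sum _ _ _ fun μ hμ => ?_
    have h1 : (∏ i, (X (Sum.inr ⟨i, cor (n i) ε⟩) : MvPolynomial (Idx D n) k) ^ μ i).IsHomogeneous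
        (∑ i, μ i) := by
      refine IsHomogeneous.prod _ _ _ fun i _ => ?_
      have := (isHomogeneous_X k (Sum.inr ⟨i, cor (n i) ε⟩ : Idx D n)).pow (μ i)
      rwa [one_mul] at this
    have h2 := (isHomogeneous_X k (cor0 D n ε : Idx D n)).pow (e - ∑ i, μ i)
    rw [one_mul] at h2
    have h3 := (isHomogeneous_C (Idx D n) (G.coeff μ)).mul (h2.mul h1)
    rwa [zero_add, Nat.sub_add_cancel (hle μ hμ)] at h3
  · intro R _ _ s x y hy
    rw [map_sum, aeval_def, eval₂_eq' (algebraMap k R) x G, Finset.mul_sum]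
    refine Finset.sum_congr rfl fun μ hμ => ?_
    rw [map_mul, map_mul, map_pow, map_prod, aeval_C, aeval_X]
    have hc : emb D n x y (cor0 D n ε) = 1 := mon_cor _ ε y hy
    have hi : ∀ i, emb D n x y (Sum.inr ⟨i, cor (n i) ε⟩) = x i := by
      intro i
      change x i * mon (n i) (cor (n i) ε) y = x i
      rw [mon_cor _ ε y hy, mul_one]
    have hp : ∏ i, (aeval fun j => s * emb D n x y j)
        ((X (Sum.inr ⟨i, cor (n i) ε⟩) : MvPolynomial (Idx D n) k) ^ μ i) =
        s ^ (∑ i, μ i) * ∏ i, x i ^ μ i := by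
      rw [← Finset.prod_pow_eq_pow_sum, ← Finset.prod_mul_distrib]
      refine Finset.prod_congr rfl fun i _ => ?_
      rw [map_pow, aeval_X, hi, mul_pow]
    rw [hp, hc, mul_one]
    have hs : s ^ e = s ^ (e - ∑ i, μ i) * s ^ (∑ i, μ i) := by
      rw [← pow_add, Nat.sub_add_cancel (hle μ hμ)]
    rw [hs]
    ring

end

end Pool.Agent.VFG
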