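import Pool.Agent.Lib_MP_1858fb_g.Defs2

/-!
# MP_1858fb_ag, line G, piece G4: the cone over `V#` is irreducible
-/

set_option autoImplicit false

namespace Pool.Agent.VFG

open MvPolynomial Pool.Agent.VF

section

variable {k : Type} [Field k] {M r D : ℕ} {n : Fin M → Fin r → ℕ} {Y : Set (Fin M → k)}

/-- The embedding commutes with ring homomorphisms. -/
lemma irredCone_map_emb {R S : Type} [CommRing R] [CommRing S] (φ : R →+* S) (x : Fin M → R)
    (y : Fin r → Fin 2 → R) (j : Idx D n) :
    φ (emb D n x y j) = emb D n (fun i => φ (x i)) (fun l e => φ (y l e)) j := by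
  rcases j with a | s
  · simp [emb, mon, map_prod]
  · simp [emb, mon, map_prod]

/-- The value of a polynomial on the embedding, as a value of a polynomial. -/
lemma irredCone_aeval {R : Type} [CommRing R] [Algebra k R] (φ : R →ₐ[k] k) (x : Fin M → R)
    (y : Fin r → Fin 2 → R) (E : MvPolynomial (Idx D n) k) :
    φ (aeval (emb D n x y) E) =
      aeval (emb D n (fun i => φ (x i)) (fun l e => φ (y l e))) E := by
  have h : (φ.comp (aeval (emb D n x y))) =
      aeval (emb D n (fun i => φ (x i)) (fun l e => φ (y l e))) := by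
    apply MvPolynomial.algHom_ext
    intro j
    rw [AlgHom.comp_apply, aeval_X, aeval_X]
    exact irredCone_map_emb (φ : R →+* k) x y j
  exact DFunLike.congr_fun h E

/-- **The cone over `V#` is irreducible.** -/
theorem cone_irred [Infinite k] (hY : Irred Y) : Irred (cone D n Y) := by
  obtain ⟨⟨x0, hx0⟩, hprime⟩ := hY
  refine ⟨⟨emb D n x0 (fun _ _ => 1), x0, hx0, fun _ _ => 1, fun l h => ?_, rfl⟩, ?_⟩
  · exact one_ne_zero (congrFun h 0)
  intro E G hEG
  by_contra hcon
  push Not at hcon
  obtain ⟨hE, hG⟩ := hcon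
  have hE' : ∃ u ∈ cone D n Y, aeval u E ≠ 0 := by
    by_contra h
    push Not at h
    exact hE h
  have hG' : ∃ u ∈ cone D n Y, aeval u G ≠ 0 := by
    by_contra h
    push Not at h
    exact hG h
  obtain ⟨_, ⟨x1, hx1, y1, hy1, rfl⟩, h1⟩ := hE'
  obtain ⟨_, ⟨x2, hx2, y2, hy2, rfl⟩, h2⟩ := hG'
  -- the polynomials in `y`
  set P : (Fin M → k) → MvPolynomial (Idx D n) k → MvPolynomial (Fin r × Fin 2) k :=
    fun x E => aeval (emb D n (fun i => (C (x i) : MvPolynomial (Fin r × Fin 2) k))
      (fun l e => X (l, e))) E with hP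
  have hPv : ∀ x E (y : Fin r × Fin 2 → k), aeval y (P x E) =
      aeval (emb D n x (fun l e => y (l, e))) E := by
    intro x E y
    rw [hP, irredCone_aeval]
    simp only [aeval_C, aeval_X, Algebra.algebraMap_self, RingHom.id_apply]
  have hne : P x1 E * P x2 G * ∏ l : Fin r, X (l, (0 : Fin 2)) ≠ 0 := by
    refine mul_ne_zero (mul_ne_zero ?_ ?_) (Finset.prod_ne_zero_iff.mpr fun l _ => X_ne_zero _)
    · intro h
      have h3 := hPv x1 E (fun s => y1 s.1 s.2)
      rw [h, map_zero] at h3
      exact h1 h3.symm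
    · intro h
      have h3 := hPv x2 G (fun s => y2 s.1 s.2)
      rw [h, map_zero] at h3
      exact h2 h3.symm
  have hy : ∃ y : Fin r × Fin 2 → k,
      aeval y (P x1 E * P x2 G * ∏ l : Fin r, X (l, (0 : Fin 2))) ≠ 0 := by
    by_contra h
    push Not at h
    apply hne
    apply MvPolynomial.funext
    intro y
    rw [map_zero]
    exact h y
  obtain ⟨y, hy⟩ := hy
  rw [map_mul, map_mul, map_prod, hPv, hPv] at hy
  have hy3 := Finset.prod_ne_zero_iff.mp (right_ne_zero_of_mul hy)
  have hy1' := left_ne_zero_of_mul (left_ne_zero_of_mul hy)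
  have hy2' := right_ne_zero_of_mul (left_ne_zero_of_mul hy)
  have hyl : ∀ l, (fun e => y (l, e)) ≠ 0 := by
    intro l h
    apply hy3 l (Finset.mem_univ l)
    rw [aeval_X]
    exact congrFun h 0
  -- the polynomials in `x`
  set Q : MvPolynomial (Idx D n) k → MvPolynomial (Fin M) k :=
    fun E => aeval (emb D n (fun i => (X i : MvPolynomial (Fin M) k))
      (fun l e => C (y (l, e)))) E with hQ
  have hQv : ∀ E (x : Fin M → k), aeval x (Q E) =
      aeval (emb D n x (fun l e => y (l, e))) E := by
    intro E x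
    rw [hQ, irredCone_aeval]
    simp only [aeval_C, aeval_X, Algebra.algebraMap_self, RingHom.id_apply]
  have hprod : Q E * Q G ∈ van Y := by
    intro x hx
    rw [map_mul, hQv, hQv, ← map_mul]
    exact hEG _ ⟨x, hx, _, hyl, rfl⟩
  rcases hprime _ _ hprod with h | h
  · apply hy1'
    rw [← hQv]
    exact h x1 hx1
  · apply hy2'
    rw [← hQv]
    exact h x2 hx2

end

end Pool.Agent.VFG
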