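import Pool.Agent.Lib_MP_1858fb_g.Act
import Pool.Agent.Lib_MP_1858fb_g.Homog

/-!
# MP_1858fb_ag, line G, piece G2b: points of the cone with a unit as corner coordinate
-/

set_option autoImplicit false

namespace Pool.Agent.VFG

open MvPolynomial Pool.Agent.VF

section

variable {r : ℕ}

/-- the distance of the exponent `b` from the corner `e` -/
private def nfrDst (N : ℕ) (e : Fin 2) (b : ℕ) : ℕ := if e = 0 then b else N - b

/-- the exponent next to the corner -/
private def nfrStp (D : ℕ) (e : Fin 2) : Fin (D + 1) :=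
  if e = 0 then ⟨min 1 D, by omega⟩ else ⟨D - 1, by omega⟩

/-- the neighbour of the corner in the direction `l₀` -/
private def nfrAdj (D : ℕ) (ε : Fin r → Fin 2) (l₀ : Fin r) : Fin r → Fin (D + 1) :=
  fun l => if l = l₀ then nfrStp D (ε l) else cor (fun _ => D) ε l

private theorem nfr_mon_mul {R : Type} [CommRing R] {N N' : Fin r → ℕ}
    {a a' : ∀ l, Fin (N l + 1)} {b b' : ∀ l, Fin (N' l + 1)}
    (h : ∀ l, (a l : ℕ) + b l = a' l + b' l) (y : Fin r → Fin 2 → R) :
    mon N a y * mon N' b y = mon N a' y * mon N' b' y := by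
  unfold mon
  rw [← Finset.prod_mul_distrib, ← Finset.prod_mul_distrib]
  refine Finset.prod_congr rfl fun l _ => ?_
  have h1 := h l
  have h2 := (a l).2
  have h3 := (b l).2
  have h4 := (a' l).2
  have h5 := (b' l).2
  have h6 : (N l - (a l : ℕ)) + (N' l - (b l : ℕ)) = (N l - (a' l : ℕ)) + (N' l - (b' l : ℕ)) := by
    omega
  calc y l 0 ^ (N l - (a l : ℕ)) * y l 1 ^ (a l : ℕ) *
        (y l 0 ^ (N' l - (b l : ℕ)) * y l 1 ^ (b l : ℕ))
      = y l 0 ^ ((N l - (a l : ℕ)) + (N' l - (b l : ℕ))) * y l 1 ^ ((a l : ℕ) + b l) := by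
        rw [pow_add, pow_add]
        ring
    _ = y l 0 ^ ((N l - (a' l : ℕ)) + (N' l - (b' l : ℕ))) * y l 1 ^ ((a' l : ℕ) + b' l) := by
        rw [h6, h1]
    _ = y l 0 ^ (N l - (a' l : ℕ)) * y l 1 ^ (a' l : ℕ) *
        (y l 0 ^ (N' l - (b' l : ℕ)) * y l 1 ^ (b' l : ℕ)) := by
        rw [pow_add, pow_add]
        ring

private theorem nfr_ind {R : Type} [CommRing R] {D : ℕ} (hD : 0 < D) (ε : Fin r → Fin 2)
    (v : (Fin r → Fin (D + 1)) → R) (s : Rˣ) (hs : v (cor (fun _ => D) ε) = s)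
    (N : Fin r → ℕ) (φ : (∀ l, Fin (N l + 1)) → R)
    (h : ∀ (b b' : ∀ l, Fin (N l + 1)) (a a' : Fin r → Fin (D + 1)),
      (∀ l, (b l : ℕ) + a l = b' l + a' l) → φ b * v a = φ b' * v a') (T : ℕ) :
    ∀ b : ∀ l, Fin (N l + 1), ∑ l, nfrDst (N l) (ε l) (b l) = T →
      φ b = φ (cor N ε) * ∏ l, (((s⁻¹ : Rˣ) : R) * v (nfrAdj D ε l)) ^ nfrDst (N l) (ε l) (b l) := by
  classical
  induction T with
  | zero =>
    intro b hb
    have h0 : ∀ l, nfrDst (N l) (ε l) (b l) = 0 := fun l =>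
      (Finset.sum_eq_zero_iff.1 hb) l (Finset.mem_univ l)
    have hbc : b = cor N ε := by
      funext l
      have h1 := h0 l
      unfold nfrDst at h1
      unfold cor
      apply Fin.ext
      split_ifs at h1 ⊢ with hε
      · rw [h1]
        rfl
      · have h2 := (b l).2
        rw [Fin.val_last]
        omega
    rw [← hbc, Finset.prod_eq_one, mul_one]
    intro l _
    rw [h0 l, pow_zero]
  | succ T ih =>
    intro b hb
    obtain ⟨l₀, hl₀⟩ : ∃ l, 0 < nfrDst (N l) (ε l) (b l) := by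
      by_contra hcon
      push Not at hcon
      have : ∑ l, nfrDst (N l) (ε l) (b l) = 0 :=
        Finset.sum_eq_zero fun l _ => Nat.le_zero.1 (hcon l)
      omega
    have hb2 := (b l₀).2
    set m : Fin (N l₀ + 1) := if ε l₀ = 0 then ⟨(b l₀ : ℕ) - 1, by omega⟩ else
      ⟨min ((b l₀ : ℕ) + 1) (N l₀), by omega⟩ with hm
    set b' : ∀ l, Fin (N l + 1) := Function.update b l₀ m with hb'
    have hself : b' l₀ = m := Function.update_self _ _ _
    have hne : ∀ l, l ≠ l₀ → b' l = b l := fun l hl => Function.update_of_ne hl _ _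
    have hd : nfrDst (N l₀) (ε l₀) (b l₀) = nfrDst (N l₀) (ε l₀) (b' l₀) + 1 := by
      rw [hself, hm]
      unfold nfrDst at hl₀ ⊢
      split_ifs at hl₀ ⊢ with hε
      · change _ = ((b l₀ : ℕ) - 1) + 1
        omega
      · change _ = (N l₀ - min ((b l₀ : ℕ) + 1) (N l₀)) + 1
        omega
    have hsum : ∑ l, nfrDst (N l) (ε l) (b' l) = T := by
      rw [← Finset.add_sum_erase _ _ (Finset.mem_univ l₀)] at hb ⊢
      have h1 : ∑ l ∈ Finset.univ.erase l₀, nfrDst (N l) (ε l) (b' l) =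
          ∑ l ∈ Finset.univ.erase l₀, nfrDst (N l) (ε l) (b l) :=
        Finset.sum_congr rfl fun l hl => by rw [hne l (Finset.ne_of_mem_erase hl)]
      rw [h1]
      omega
    have hrel : φ b * v (cor (fun _ => D) ε) = φ b' * v (nfrAdj D ε l₀) := by
      apply h
      intro l
      unfold nfrAdj
      by_cases hl : l = l₀
      · subst hl
        rw [if_pos rfl, hself, hm]
        unfold nfrDst at hl₀
        unfold nfrStp cor
        split_ifs at hl₀ ⊢ with hε
        · change (b l : ℕ) + 0 = ((b l : ℕ) - 1) + min 1 D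
          omega
        · change (b l : ℕ) + D = min ((b l : ℕ) + 1) (N l) + (D - 1)
          omega
      · rw [if_neg hl, hne l hl]
    rw [hs] at hrel
    have h1 : φ b = φ b' * (((s⁻¹ : Rˣ) : R) * v (nfrAdj D ε l₀)) := by
      have h2 : φ b = φ b * s * ((s⁻¹ : Rˣ) : R) := by
        rw [mul_assoc, Units.mul_inv, mul_one]
      rw [h2, hrel]
      ring
    rw [h1, ih b' hsum, mul_assoc]
    congr 1
    rw [← Finset.mul_prod_erase _ _ (Finset.mem_univ l₀),
      ← Finset.mul_prod_erase Finset.univ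
        (fun l => (((s⁻¹ : Rˣ) : R) * v (nfrAdj D ε l)) ^ nfrDst (N l) (ε l) (b l))
        (Finset.mem_univ l₀), hd, pow_succ]
    have h3 : ∏ l ∈ Finset.univ.erase l₀,
        (((s⁻¹ : Rˣ) : R) * v (nfrAdj D ε l)) ^ nfrDst (N l) (ε l) (b' l) =
        ∏ l ∈ Finset.univ.erase l₀,
        (((s⁻¹ : Rˣ) : R) * v (nfrAdj D ε l)) ^ nfrDst (N l) (ε l) (b l) :=
      Finset.prod_congr rfl fun l hl => by rw [hne l (Finset.ne_of_mem_erase hl)]
    rw [h3]
    ring

private theorem nfr_mon {R : Type} [CommRing R] {N : Fin r → ℕ} (b : ∀ l, Fin (N l + 1))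
    (ε : Fin r → Fin 2) (z : Fin r → R) :
    mon N b (fun l e => if e = ε l then 1 else z l) = ∏ l, z l ^ nfrDst (N l) (ε l) (b l) := by
  unfold mon
  refine Finset.prod_congr rfl fun l _ => ?_
  unfold nfrDst
  rcases Fin.exists_fin_two.1 ⟨ε l, rfl⟩ with h | h
  · simp [h]
  · simp [h]

end

section

variable {k : Type} [Field k] {M r D : ℕ} {w : Fin M → Fin r → ℤ} {n : Fin M → Fin r → ℕ} {c : ℕ}
  {Y : Set (Fin M → k)}

private theorem nfr_bin_inl {a b a' b' : Fin r → Fin (D + 1)}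
    (h : ∀ l, (a l : ℕ) + b l = a' l + b' l) {R : Type} [CommRing R] [Algebra k R]
    (u : Idx D n → R)
    (hu : ∀ E ∈ van (cone D n Y), (∃ e : ℕ, E.IsHomogeneous e) → aeval u E = 0) :
    u (Sum.inl a) * u (Sum.inl b) = u (Sum.inl a') * u (Sum.inl b') := by
  have h1 := hu (X (Sum.inl a) * X (Sum.inl b) - X (Sum.inl a') * X (Sum.inl b')) (by
    rintro _ ⟨x, _, y, _, rfl⟩
    rw [map_sub, map_mul, map_mul, aeval_X, aeval_X, aeval_X, aeval_X, sub_eq_zero]
    exact nfr_mon_mul (N := fun _ => D) (N' := fun _ => D) h y)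
    ⟨2, ((isHomogeneous_X k _).mul (isHomogeneous_X k _)).sub
      ((isHomogeneous_X k _).mul (isHomogeneous_X k _))⟩
  rw [map_sub, map_mul, map_mul, aeval_X, aeval_X, aeval_X, aeval_X, sub_eq_zero] at h1
  exact h1

private theorem nfr_bin_inr (i : Fin M) {b b' : ∀ l, Fin (n i l + 1)} {a a' : Fin r → Fin (D + 1)}
    (h : ∀ l, (b l : ℕ) + a l = b' l + a' l) {R : Type} [CommRing R] [Algebra k R]
    (u : Idx D n → R)
    (hu : ∀ E ∈ van (cone D n Y), (∃ e : ℕ, E.IsHomogeneous e) → aeval u E = 0) :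
    u (Sum.inr ⟨i, b⟩) * u (Sum.inl a) = u (Sum.inr ⟨i, b'⟩) * u (Sum.inl a') := by
  have h1 := hu (X (Sum.inr ⟨i, b⟩) * X (Sum.inl a) - X (Sum.inr ⟨i, b'⟩) * X (Sum.inl a')) (by
    rintro _ ⟨x, _, y, _, rfl⟩
    rw [map_sub, map_mul, map_mul, aeval_X, aeval_X, aeval_X, aeval_X, sub_eq_zero]
    have h2 := nfr_mon_mul (N := n i) (N' := fun _ => D) h y
    change x i * mon (n i) b y * mon (fun _ => D) a y = x i * mon (n i) b' y * mon (fun _ => D) a' y
    rw [mul_assoc, h2, mul_assoc])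
    ⟨2, ((isHomogeneous_X k _).mul (isHomogeneous_X k _)).sub
      ((isHomogeneous_X k _).mul (isHomogeneous_X k _))⟩
  rw [map_sub, map_mul, map_mul, aeval_X, aeval_X, aeval_X, aeval_X, sub_eq_zero] at h1
  exact h1

/-- `R`-valued points of the cone with a unit as corner coordinate -/
theorem nfr [IsAlgClosed k] (hn : ∀ i l, w i l = (D : ℤ) - n i l) (hY : IsTorsor w c Y)
    (hD : 0 < D) (ε : Fin r → Fin 2) {R : Type} [CommRing R] [Algebra k R] (u : Idx D n → R)
    (hu : ∀ E ∈ van (cone D n Y), (∃ e : ℕ, E.IsHomogeneous e) → aeval u E = 0)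
    (hunit : IsUnit (u (cor0 D n ε))) :
    ∃ (s : Rˣ) (x : Fin M → R) (y : Fin r → Fin 2 → R), (∀ E ∈ van Y, aeval x E = 0) ∧
      (∀ l, y l (ε l) = 1) ∧ u = fun j => (s : R) * emb D n x y j := by
  obtain ⟨s, hs⟩ := hunit
  have hs' : u (Sum.inl (cor (fun _ => D) ε)) = s := hs.symm
  set z : Fin r → R := fun l => ((s⁻¹ : Rˣ) : R) * u (Sum.inl (nfrAdj D ε l)) with hz
  set y : Fin r → Fin 2 → R := fun l e => if e = ε l then 1 else z l with hy
  set x : Fin M → R := fun i => ((s⁻¹ : Rˣ) : R) * u (Sum.inr ⟨i, cor (n i) ε⟩) with hx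
  have hy1 : ∀ l, y l (ε l) = 1 := fun l => if_pos rfl
  have hinl : ∀ a : Fin r → Fin (D + 1), u (Sum.inl a) = s * mon (fun _ => D) a y := by
    intro a
    have h1 := nfr_ind hD ε (fun a => u (Sum.inl a)) s hs' (fun _ => D) (fun a => u (Sum.inl a))
      (fun b b' a a' h => nfr_bin_inl h u hu) _ a rfl
    rw [hy, nfr_mon]
    rw [hs'] at h1
    exact h1
  have hinr : ∀ (i : Fin M) (b : ∀ l, Fin (n i l + 1)),
      u (Sum.inr ⟨i, b⟩) = s * (x i * mon (n i) b y) := by
    intro i b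
    have h1 := nfr_ind hD ε (fun a => u (Sum.inl a)) s hs' (n i) (fun b => u (Sum.inr ⟨i, b⟩))
      (fun b b' a a' h => nfr_bin_inr i h u hu) _ b rfl
    rw [hy, nfr_mon]
    have h2 : u (Sum.inr ⟨i, cor (n i) ε⟩) = s * x i := by
      rw [hx]
      change _ = (s : R) * (((s⁻¹ : Rˣ) : R) * u (Sum.inr ⟨i, cor (n i) ε⟩))
      rw [← mul_assoc, Units.mul_inv, one_mul]
    beta_reduce at h1
    rw [h1, h2, mul_assoc]
  have huxy : u = fun j => (s : R) * emb D n x y j := by
    funext j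
    rcases j with a | ⟨i, b⟩
    · exact hinl a
    · exact hinr i b
  refine ⟨s, x, y, fun E hE => ?_, hy1, huxy⟩
  obtain ⟨G, e, hGh, hG⟩ := exists_homog (D := D) (n := n) ε E
  have h1 := hu (X (cor0 D n ε) * G) (by
    rintro _ ⟨x₁, hx₁, y₁, hy₁, rfl⟩
    rw [map_mul, aeval_X]
    by_cases hc : emb D n x₁ y₁ (cor0 D n ε) = 0
    · rw [hc, zero_mul]
    · have hne : ∀ l, y₁ l (ε l) ≠ 0 := by
        intro l hl
        apply hc
        change mon (fun _ => D) (cor (fun _ => D) ε) y₁ = 0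
        unfold mon
        refine Finset.prod_eq_zero (Finset.mem_univ l) ?_
        unfold cor
        split_ifs with hε
        · rw [hε] at hl
          change y₁ l 0 ^ (D - 0) * y₁ l 1 ^ 0 = 0
          rw [hl, Nat.sub_zero, zero_pow hD.ne', zero_mul]
        · have hε1 : ε l = 1 := by omega
          rw [hε1] at hl
          rw [Fin.val_last, hl, zero_pow hD.ne', mul_zero]
      obtain ⟨t, x₂, y₂, ht, hx₂, hy₂, heq⟩ := exists_nf (D := D) (n := n) hn hY ε hx₁ hne
      have h2 : aeval (emb D n x₁ y₁) G = t ^ e * aeval x₂ E := by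
        rw [heq]
        exact hG k t x₂ y₂ hy₂
      rw [h2, hE x₂ hx₂, mul_zero, mul_zero])
    ⟨1 + e, (isHomogeneous_X k _).mul hGh⟩
  rw [map_mul, aeval_X, ← hs] at h1
  have h2 : aeval u G = (s : R) ^ e * aeval x E := by
    have h3 := hG R s x y hy1
    rw [← huxy] at h3
    exact h3
  rw [h2, ← mul_assoc, ← pow_succ'] at h1
  have h3 : IsUnit ((s : R) ^ (e + 1)) := s.isUnit.pow _
  exact h3.mul_right_eq_zero.1 h1

end

end Pool.Agent.VFG
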