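import Pool.Agent.Lib_MP_1858fb_g.Act
import Pool.Agent.Lib_MP_1858fb_g.Nfr

/-!
# MP_1858fb_ag, line G, piece G8b (helper86): the tangent space of the cone over `V#`

A tangent vector is a point over the dual numbers; the normal form `nfr` over the dual numbers,
moved by the torus over the dual numbers.
-/

set_option autoImplicit false

namespace Pool.Agent.VFG

open MvPolynomial Pool.Agent.VF

section TanConeAux

variable {k : Type} [Field k]

/-- the value of a polynomial at a point over the dual numbers -/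
theorem tanCone_aeval {σ : Type} [Fintype σ] (E : MvPolynomial σ k) (x ξ : σ → k) :
    aeval (fun i => (TrivSqZeroExt.inl (x i) + TrivSqZeroExt.inr (ξ i) : TrivSqZeroExt k k)) E =
      TrivSqZeroExt.inl (aeval x E) + TrivSqZeroExt.inr (dif E x ξ) := by
  classical
  induction E using MvPolynomial.induction_on with
  | C a =>
    have h0 : dif (C a) x ξ = 0 := by
      unfold dif
      refine Finset.sum_eq_zero fun j _ => ?_
      rw [pderiv_C, map_zero, zero_mul]
    rw [h0, aeval_C, aeval_C, TrivSqZeroExt.inr_zero, add_zero]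
    rfl
  | add p q hp hq =>
    have h0 : dif (p + q) x ξ = dif p x ξ + dif q x ξ := by
      unfold dif
      rw [← Finset.sum_add_distrib]
      refine Finset.sum_congr rfl fun j _ => ?_
      rw [map_add, map_add, add_mul]
    rw [map_add, hp, hq, h0, map_add, TrivSqZeroExt.inl_add, TrivSqZeroExt.inr_add]
    abel
  | mul_X p i hp =>
    have h0 : dif (p * X i) x ξ = dif p x ξ * x i + aeval x p * ξ i := by
      unfold dif
      rw [Finset.sum_mul]
      have : ∀ j, aeval x (pderiv j (p * X i)) * ξ j =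
          aeval x (pderiv j p) * ξ j * x i + (if j = i then aeval x p * ξ i else 0) := by
        intro j
        rw [pderiv_mul, map_add, map_mul, map_mul, aeval_X, pderiv_X]
        by_cases h : j = i
        · subst h
          rw [Pi.single_eq_same, map_one, if_pos rfl]
          ring
        · rw [Pi.single_eq_of_ne (Ne.symm h), map_zero, if_neg h]
          ring
      rw [Finset.sum_congr rfl fun j _ => this j, Finset.sum_add_distrib,
        Finset.sum_ite_eq' Finset.univ i, if_pos (Finset.mem_univ i)]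
    rw [map_mul, hp, aeval_X, h0, map_mul, aeval_X]
    ext
    · simp
    · simp only [TrivSqZeroExt.snd_mul, TrivSqZeroExt.snd_add, TrivSqZeroExt.snd_inl,
        TrivSqZeroExt.snd_inr, TrivSqZeroExt.fst_add, TrivSqZeroExt.fst_inl,
        TrivSqZeroExt.fst_inr, add_zero, zero_add, smul_eq_mul, MulOpposite.smul_eq_mul_unop,
        MulOpposite.unop_op]
      ring

/-- `emb` and ring homomorphisms -/
theorem tanCone_emb_map {R S : Type} [CommRing R] [CommRing S] (f : R →+* S) {M r : ℕ} (D : ℕ)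
    (n : Fin M → Fin r → ℕ) (x : Fin M → R) (y : Fin r → Fin 2 → R) (j : Idx D n) :
    emb D n (fun i => f (x i)) (fun l e => f (y l e)) j = f (emb D n x y j) := by
  unfold emb mon
  rcases j with a | s
  · simp only [Sum.elim_inl, map_prod, map_mul, map_pow]
  · simp only [Sum.elim_inr, map_prod, map_mul, map_pow]

/-- `act` and ring homomorphisms -/
theorem tanCone_act_map {R S : Type} [CommRing R] [CommRing S] (f : R →+* S) {M r : ℕ}
    (w : Fin M → Fin r → ℤ) (t : Fin r → Rˣ) (x : Fin M → R) (i : Fin M) :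
    act w (fun l => Units.map (f : R →* S) (t l)) (fun i => f (x i)) i = f (act w t x i) := by
  unfold act
  rw [map_mul]
  congr 1
  have : (∏ l, Units.map (f : R →* S) (t l) ^ w i l : Sˣ) =
      Units.map (f : R →* S) (∏ l, t l ^ w i l) := by
    rw [map_prod]
    exact Finset.prod_congr rfl fun l _ => (map_zpow _ _ _).symm
  rw [this]
  rfl

/-- `D`-th roots of units of the dual numbers -/
theorem tanCone_root [IsAlgClosed k] {D : ℕ} (hD : (D : k) ≠ 0) (s : (TrivSqZeroExt k k)ˣ) :
    ∃ t : (TrivSqZeroExt k k)ˣ, t ^ D = s := by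
  have hD0 : 0 < D := by
    rcases Nat.eq_zero_or_pos D with h | h
    · rw [h, Nat.cast_zero] at hD
      exact absurd rfl hD
    · exact h
  have hs : (s : TrivSqZeroExt k k).fst ≠ 0 := by
    have := (TrivSqZeroExt.isUnit_iff_isUnit_fst).1 s.isUnit
    exact this.ne_zero
  obtain ⟨z, hz⟩ := IsAlgClosed.exists_pow_nat_eq (s : TrivSqZeroExt k k).fst hD0
  have hz0 : z ≠ 0 := by
    rintro rfl
    rw [zero_pow hD0.ne'] at hz
    exact hs hz.symm
  set b : k := (s : TrivSqZeroExt k k).snd / (D * z ^ (D - 1)) with hb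
  set T : TrivSqZeroExt k k := TrivSqZeroExt.inl z + TrivSqZeroExt.inr b with hT
  have hTf : T.fst = z := by rw [hT]; simp
  have hTs : T.snd = b := by rw [hT]; simp
  have hTu : IsUnit T := by
    rw [TrivSqZeroExt.isUnit_iff_isUnit_fst, hTf]
    exact isUnit_iff_ne_zero.2 hz0
  obtain ⟨t, ht⟩ := hTu
  refine ⟨t, Units.ext ?_⟩
  rw [Units.val_pow_eq_pow_val, ht]
  ext
  · rw [TrivSqZeroExt.fst_pow, hTf, hz]
  · rw [TrivSqZeroExt.snd_pow, hTf, hTs, Nat.pred_eq_sub_one, smul_eq_mul, nsmul_eq_mul, hb]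
    have h1 : (D : k) * z ^ (D - 1) ≠ 0 := mul_ne_zero hD (pow_ne_zero _ hz0)
    field_simp

end TanConeAux

section TanCone

variable {k : Type} [Field k] {M r D : ℕ} {w : Fin M → Fin r → ℤ} {n : Fin M → Fin r → ℕ} {c : ℕ}
  {Y : Set (Fin M → k)}

theorem exists_demb [IsAlgClosed k] (hn : ∀ i l, w i l = (D : ℤ) - n i l) (hY : IsTorsor w c Y)
    (hD : (D : k) ≠ 0) (hr : 0 < r) {x : Fin M → k} (hx : x ∈ Y) {y : Fin r → Fin 2 → k}
    (hy : ∀ l, y l ≠ 0) {ω : Idx D n → k} (hω : ω ∈ Tan (cone D n Y) (emb D n x y)) :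
    ∃ ξ ∈ Tan Y x, ∃ η : Fin r → Fin 2 → k, ω = demb D n x y ξ η := by
  classical
  have hD0 : 0 < D := by
    rcases Nat.eq_zero_or_pos D with h | h
    · rw [h, Nat.cast_zero] at hD
      exact absurd rfl hD
    · exact h
  -- the corner
  choose ε hε using fun l => Function.ne_iff.1 (hy l)
  simp only [Pi.zero_apply] at hε
  have hcor : emb D n x y (cor0 D n ε) ≠ 0 := by
    unfold emb cor0 mon cor
    rw [Sum.elim_inl]
    refine Finset.prod_ne_zero_iff.2 fun l _ => ?_
    beta_reduce
    by_cases h0 : ε l = 0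
    · rw [if_pos h0, Fin.val_zero, Nat.sub_zero, pow_zero, mul_one]
      have := hε l
      rw [h0] at this
      exact pow_ne_zero _ this
    · rw [if_neg h0, Fin.val_last, Nat.sub_self, pow_zero, one_mul]
      have h1 : ε l = 1 := by omega
      have := hε l
      rw [h1] at this
      exact pow_ne_zero _ this
  -- the point over the dual numbers
  set u : Idx D n → TrivSqZeroExt k k :=
    fun j => TrivSqZeroExt.inl (emb D n x y j) + TrivSqZeroExt.inr (ω j) with hu
  have hmem : emb D n x y ∈ cone D n Y := ⟨x, hx, y, hy, rfl⟩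
  have hu0 : ∀ E ∈ van (cone D n Y), (∃ e : ℕ, E.IsHomogeneous e) → aeval u E = 0 := by
    intro E hE _
    rw [hu, tanCone_aeval, hE _ hmem, hω E hE, TrivSqZeroExt.inl_zero, TrivSqZeroExt.inr_zero,
      add_zero]
  have hunit : IsUnit (u (cor0 D n ε)) := by
    rw [TrivSqZeroExt.isUnit_iff_isUnit_fst, hu]
    simp only [TrivSqZeroExt.fst_add, TrivSqZeroExt.fst_inl, TrivSqZeroExt.fst_inr, add_zero]
    exact isUnit_iff_ne_zero.2 hcor
  obtain ⟨s, x1, y1, hx1, -, hus⟩ := nfr hn hY hD0 ε u hu0 hunit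
  -- absorb `s`
  obtain ⟨t, ht⟩ := tanCone_root hD s
  let l0 : Fin r := ⟨0, hr⟩
  let T : Fin r → (TrivSqZeroExt k k)ˣ := fun l => if l = l0 then t else 1
  have hT : (∏ l, T l ^ D : (TrivSqZeroExt k k)ˣ) = s := by
    rw [Finset.prod_eq_single l0]
    · change (if l0 = l0 then t else 1) ^ D = s
      rw [if_pos rfl, ht]
    · intro l _ hl
      change (if l = l0 then t else 1) ^ D = 1
      rw [if_neg hl, one_pow]
    · intro h
      exact absurd (Finset.mem_univ l0) h
  set x2 : Fin M → TrivSqZeroExt k k := act w T x1 with hx2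
  set y2 : Fin r → Fin 2 → TrivSqZeroExt k k := fun l e => (T l : TrivSqZeroExt k k) * y1 l e
    with hy2
  have hx2v : ∀ E ∈ van Y, aeval x2 E = 0 := act_van hY T x1 hx1
  have hu2 : emb D n x2 y2 = u := by
    rw [hx2, hy2, emb_act hn, hT, hus]
  -- reduction
  let f : TrivSqZeroExt k k →+* k := (TrivSqZeroExt.fstHom k k k).toRingHom
  have hf : ∀ z : TrivSqZeroExt k k, f z = z.fst := fun z => rfl
  let g : k →+* TrivSqZeroExt k k := TrivSqZeroExt.inlHom k k
  have hg : ∀ z : k, g z = TrivSqZeroExt.inl z := fun z => rfl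
  have hred : emb D n x y = emb D n (fun i => f (x2 i)) (fun l e => f (y2 l e)) := by
    funext j
    rw [tanCone_emb_map, hu2, hf, hu]
    simp
  have hy2ne : ∀ l, (fun e => f (y2 l e)) ≠ 0 := by
    intro l hl
    apply hcor
    rw [hred]
    unfold emb cor0 mon
    rw [Sum.elim_inl]
    refine Finset.prod_eq_zero (Finset.mem_univ l) ?_
    have h0 : f (y2 l 0) = 0 := congrFun hl 0
    have h1 : f (y2 l 1) = 0 := congrFun hl 1
    beta_reduce
    rw [h0, h1, ← pow_add]
    exact zero_pow (by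
      have := (cor (fun _ => D) ε l).2
      omega)
  obtain ⟨t0, ht0x, ht0y⟩ := emb_inj hn hD0 hy hy2ne hred
  have hone : ((∏ l, t0 l ^ D : kˣ) : k) = 1 := by
    have h1 := congrFun (emb_act (R := k) hn t0 (fun i => f (x2 i)) (fun l e => f (y2 l e)))
      (cor0 D n ε)
    have h2 : (fun l e => (t0 l : k) * f (y2 l e)) = y := funext fun l => funext fun e =>
      (ht0y l e).symm
    rw [h2, ← ht0x, ← hred] at h1
    exact (mul_left_cancel₀ hcor (by rw [mul_one, mul_comm]; exact h1)).symm
  set T0 : Fin r → (TrivSqZeroExt k k)ˣ := fun l => Units.map (g : k →* TrivSqZeroExt k k) (t0 l)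
    with hT0
  set x3 : Fin M → TrivSqZeroExt k k := act w T0 x2 with hx3
  set y3 : Fin r → Fin 2 → TrivSqZeroExt k k := fun l e => (T0 l : TrivSqZeroExt k k) * y2 l e
    with hy3
  have hx3v : ∀ E ∈ van Y, aeval x3 E = 0 := act_van hY T0 x2 hx2v
  have hT0one : ((∏ l, T0 l ^ D : (TrivSqZeroExt k k)ˣ) : TrivSqZeroExt k k) = 1 := by
    have h1 : (∏ l, T0 l ^ D : (TrivSqZeroExt k k)ˣ) =
        Units.map (g : k →* TrivSqZeroExt k k) (∏ l, t0 l ^ D) := by
      rw [map_prod]
      exact Finset.prod_congr rfl fun l _ => (map_pow _ _ _).symm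
    rw [h1, Units.coe_map]
    have h2 : (g : k →* TrivSqZeroExt k k) ((∏ l, t0 l ^ D : kˣ) : k) = g 1 := by
      rw [hone]; rfl
    rw [h2, map_one]
  have hu3 : emb D n x3 y3 = u := by
    rw [hx3, hy3, emb_act hn, hT0one, hu2]
    funext j
    rw [one_mul]
  have hx3f : ∀ i, (x3 i).fst = x i := by
    intro i
    have h1 := tanCone_act_map f w T0 x2 i
    have h2 : (fun l => Units.map (f : TrivSqZeroExt k k →* k) (T0 l)) = t0 := by
      funext l
      apply Units.ext
      rw [Units.coe_map, hT0]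
      change f (g (t0 l)) = t0 l
      rw [hf, hg, TrivSqZeroExt.fst_inl]
    rw [h2, ← ht0x] at h1
    rw [h1]
    rfl
  have hy3f : ∀ l e, (y3 l e).fst = y l e := by
    intro l e
    rw [hy3]
    change f ((T0 l : TrivSqZeroExt k k) * y2 l e) = y l e
    rw [map_mul, ht0y l e]
    congr 1
  refine ⟨fun i => (x3 i).snd, ?_, fun l e => (y3 l e).snd, ?_⟩
  · intro E hE
    have h1 := hx3v E hE
    have h2 : x3 = fun i => (TrivSqZeroExt.inl (x i) + TrivSqZeroExt.inr ((x3 i).snd) :
        TrivSqZeroExt k k) := by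
      funext i
      rw [← hx3f i, TrivSqZeroExt.inl_fst_add_inr_snd_eq]
    rw [h2, tanCone_aeval] at h1
    have h3 := congrArg TrivSqZeroExt.snd h1
    simpa using h3
  · funext j
    have h1 : (fun i => (TrivSqZeroExt.inl (x i) + TrivSqZeroExt.inr ((x3 i).snd) :
        TrivSqZeroExt k k)) = x3 := by
      funext i
      rw [← hx3f i, TrivSqZeroExt.inl_fst_add_inr_snd_eq]
    have h2 : (fun l e => (TrivSqZeroExt.inl (y l e) + TrivSqZeroExt.inr ((y3 l e).snd) :
        TrivSqZeroExt k k)) = y3 := by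
      funext l e
      rw [← hy3f l e, TrivSqZeroExt.inl_fst_add_inr_snd_eq]
    unfold demb
    rw [h1, h2, hu3, hu]
    simp

end TanCone

end Pool.Agent.VFG
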