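import Pool.Agent.Lib_MP_1858fb_g.LiftA
import Pool.Agent.Lib_MP_1858fb_g.Demb
import Pool.Agent.Lib_MP_1858fb_g.TanCone

/-!
# G10: the lift of a very free curve in `V = Y / T` to the cone over `V#`
-/

set_option autoImplicit false

namespace Pool.Agent.VFG

open MvPolynomial Pool.Agent.VF

section Main

variable {k : Type} [Field k] {M r D : ℕ} {w : Fin M → Fin r → ℤ} {n : Fin M → Fin r → ℕ}
  {c : ℕ} {Y : Set (Fin M → k)}

theorem exists_lift [IsAlgClosed k] (hn : ∀ i l, w i l = (D : ℤ) - n i l) (hY : IsTorsor w c Y)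
    (hD : (D : k) ≠ 0) (hr : 0 < r) (δ : Fin r → ℕ) (hδ : ∀ l, 1 ≤ δ l) (F : Fin M → ℕ → k)
    (hF : IsGCurve w Y (fun l => (δ l : ℤ)) F) (hvf : GVeryFree w Y (fun l => (δ l : ℤ)) F) :
    ∃ U : Fin ((D * ∑ l, δ l) + 1) → Idx D n → k, IsCurveS (cone D n Y) U ∧
      VeryFreeS (cone D n Y) U := by
  classical
  have hinf : Infinite k := IsAlgClosed.instInfinite
  have hD0 : D ≠ 0 := by
    rintro rfl
    exact hD Nat.cast_zero
  have hd : 1 ≤ D * ∑ l, δ l := by
    have h1 : δ ⟨0, hr⟩ ≤ ∑ l, δ l :=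
      Finset.single_le_sum (f := δ) (fun _ _ => Nat.zero_le _) (Finset.mem_univ _)
    have h2 := hδ ⟨0, hr⟩
    exact Nat.mul_pos (Nat.pos_of_ne_zero hD0) (by omega)
  -- the curve
  have hU : ∀ j : Idx D n, ∃ a : ℕ → k, ∀ p q : k,
      emb D n (gval w (fun l => (δ l : ℤ)) F p q) (Lift_y δ p q) j =
        ∑ t ∈ Finset.range ((D * ∑ l, δ l) + 1), a t * (p ^ ((D * ∑ l, δ l) - t) * q ^ t) := by
    intro j
    refine Lift_coeffs (R := k) (Lift_emb hn δ _ _ (fun i => ⟨fun h => ?_, fun h p q => ?_⟩)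
      (fun l e => ?_) j)
    · simp only [Lift_gval h]
      exact Lift_fval _ _
    · exact Lift_gval0 h F p q
    · simp only [Lift_y_eq]
      exact Lift_fval _ _
  choose a ha using hU
  let U : Fin ((D * ∑ l, δ l) + 1) → Idx D n → k := fun t j => a j t
  have hUv : ∀ p q : k, val U p q =
      emb D n (gval w (fun l => (δ l : ℤ)) F p q) (Lift_y δ p q) := by
    intro p q
    funext j
    rw [ha j p q]
    exact Lift_val a p q j
  refine ⟨U, ?_, ?_⟩
  · intro p q hpq
    rw [hUv]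
    exact ⟨_, hF p q hpq, _, Lift_y_ne δ hpq, rfl⟩
  intro p q p' q' hdet ω hω ω' hω'
  have hpq : p ≠ 0 ∨ q ≠ 0 := by
    by_contra hno
    push Not at hno
    exact hdet (by rw [hno.1, hno.2]; ring)
  have hpq' : p' ≠ 0 ∨ q' ≠ 0 := by
    by_contra hno
    push Not at hno
    exact hdet (by rw [hno.1, hno.2]; ring)
  rw [hUv] at hω hω'
  obtain ⟨ξ, hξ, η, rfl⟩ := exists_demb hn hY hD hr (hF p q hpq) (Lift_y_ne δ hpq) hω
  obtain ⟨ξ', hξ', η', rfl⟩ := exists_demb hn hY hD hr (hF p' q' hpq') (Lift_y_ne δ hpq') hω'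
  obtain ⟨G, hG, ⟨c1, hc1⟩, ⟨c2, hc2⟩⟩ := hvf p q p' q' hdet ξ hξ ξ' hξ'
  have hB : ∀ l e, ∃ b : ℕ → k, fval (δ l) b p q = η l e + c1 l * Lift_y δ p q l e ∧
      fval (δ l) b p' q' = η' l e + c2 l * Lift_y δ p' q' l e := fun l e =>
    exists_fval_interp (δ l) (hδ l) hdet _ _
  choose b hb hb' using hB
  -- the section
  have hW : ∀ j : Idx D n, ∃ a : ℕ → k, ∀ p q : k,
      demb D n (gval w (fun l => (δ l : ℤ)) F p q) (Lift_y δ p q)
        (gval w (fun l => (δ l : ℤ)) G p q) (fun l e => fval (δ l) (b l e) p q) j =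
        ∑ t ∈ Finset.range ((D * ∑ l, δ l) + 1), a t * (p ^ ((D * ∑ l, δ l) - t) * q ^ t) := by
    intro j
    obtain ⟨A, hA⟩ := Lift_coeffs (R := TrivSqZeroExt k k) (Lift_emb hn δ
      (fun p q i => (TrivSqZeroExt.inl (gval w (fun l => (δ l : ℤ)) F p q i) +
        TrivSqZeroExt.inr (gval w (fun l => (δ l : ℤ)) G p q i) : TrivSqZeroExt k k))
      (fun p q l e => (TrivSqZeroExt.inl (Lift_y δ p q l e) +
        TrivSqZeroExt.inr (fval (δ l) (b l e) p q) : TrivSqZeroExt k k))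
      (fun i => ⟨fun h => by
          simp only [Lift_gval h]
          exact Lift_dual _ _ _, fun h p q => by
          rw [Lift_gval0 h, Lift_gval0 h, TrivSqZeroExt.inl_zero, TrivSqZeroExt.inr_zero,
            add_zero]⟩)
      (fun l e => by
        simp only [Lift_y_eq]
        exact Lift_dual _ _ _) j)
    refine ⟨fun t => TrivSqZeroExt.snd (A t), fun p q => ?_⟩
    rw [demb, hA p q, TrivSqZeroExt.snd_sum]
    refine Finset.sum_congr rfl fun t _ => ?_
    simp [TrivSqZeroExt.algebraMap_eq_inl, mul_comm]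
  choose a' ha' using hW
  let W : Fin ((D * ∑ l, δ l) + 1) → Idx D n → k := fun t j => a' j t
  have hWv : ∀ p q : k, val W p q = demb D n (gval w (fun l => (δ l : ℤ)) F p q) (Lift_y δ p q)
        (gval w (fun l => (δ l : ℤ)) G p q) (fun l e => fval (δ l) (b l e) p q) := by
    intro p q
    funext j
    rw [ha' j p q]
    exact Lift_val a' p q j
  refine ⟨W, ?_, ⟨(D : k) * ∑ l, c1 l, ?_⟩, ⟨(D : k) * ∑ l, c2 l, ?_⟩⟩
  · intro s t
    by_cases hst : s ≠ 0 ∨ t ≠ 0
    · rw [hWv, hUv]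
      exact demb_mem (hF s t hst) (Lift_y_ne δ hst) (hG s t) _
    · push Not at hst
      obtain ⟨rfl, rfl⟩ := hst
      have h0 : val W 0 0 = 0 := by
        funext j
        have h1 := Lift_val (d := D * ∑ l, δ l) a' 0 0 j
        refine h1.trans (Finset.sum_eq_zero fun t _ => ?_)
        by_cases ht : t = 0
        · subst ht
          rw [Nat.sub_zero, zero_pow (by omega), zero_mul, mul_zero]
        · rw [zero_pow ht, mul_zero, mul_zero]
      rw [h0]
      exact zero_mem _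
  · rw [hWv, hUv, hc1]
    have h1 : (fun l e => fval (δ l) (b l e) p q) = η + fun l e => c1 l * Lift_y δ p q l e := by
      funext l e
      rw [hb l e]
      rfl
    rw [h1, demb_add, demb_radial hn]
  · rw [hWv, hUv, hc2]
    have h1 : (fun l e => fval (δ l) (b l e) p' q') =
        η' + fun l e => c2 l * Lift_y δ p' q' l e := by
      funext l e
      rw [hb' l e]
      rfl
    rw [h1, demb_add, demb_radial hn]

end Main

end Pool.Agent.VFG
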