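import Pool.Agent.Lib_MP_1858fb_g.Forms

/-!
# G10, first part: forms with coefficients in an algebra; the embedding of forms is a form
-/

set_option autoImplicit false

namespace Pool.Agent.VFG

open MvPolynomial Pool.Agent.VF

section Lift

variable {k : Type} [Field k] {R : Type} [CommRing R] [Algebra k R]

/-- `Φ` is given by a form of degree `d` with coefficients in `R`. -/
def Lift_IsForm (d : ℕ) (Φ : k → k → R) : Prop :=
  ∃ H : MvPolynomial (Fin 2) R, H.IsHomogeneous d ∧
    ∀ p q : k, Φ p q = eval ![algebraMap k R p, algebraMap k R q] H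

theorem Lift_coeffs {d : ℕ} {Φ : k → k → R} (h : Lift_IsForm d Φ) :
    ∃ a : ℕ → R, ∀ p q : k, Φ p q =
      ∑ j ∈ Finset.range (d + 1), a j * algebraMap k R (p ^ (d - j) * q ^ j) := by
  classical
  obtain ⟨H, hH, h⟩ := h
  let g : ℕ → (Fin 2 →₀ ℕ) := fun j => Finsupp.single 0 (d - j) + Finsupp.single 1 j
  refine ⟨fun j => coeff (g j) H, fun p q => ?_⟩
  rw [h, eval_eq']
  have hg : ∀ m ∈ H.support, m = g (m 1) ∧ m 1 ≤ d := by
    intro m hm
    have h1 := hH (mem_support_iff.1 hm)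
    rw [Finsupp.weight_apply, Finsupp.sum_fintype _ _ (by simp)] at h1
    simp only [Fin.sum_univ_two, Pi.one_apply, smul_eq_mul, mul_one] at h1
    constructor
    · ext i
      fin_cases i
      · simp [g]
        omega
      · simp [g]
    · omega
  have hinj : Set.InjOn g (Finset.range (d + 1) : Set ℕ) := by
    intro i _ j _ hij
    have := DFunLike.congr_fun hij 1
    simpa [g] using this
  have hsub : H.support ⊆ (Finset.range (d + 1)).image g := by
    intro m hm
    obtain ⟨h1, h2⟩ := hg m hm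
    exact Finset.mem_image.2 ⟨m 1, Finset.mem_range.2 (by omega), h1.symm⟩
  rw [Finset.sum_subset hsub (fun m _ hm => by rw [notMem_support_iff.1 hm, zero_mul]),
    Finset.sum_image hinj]
  refine Finset.sum_congr rfl fun j hj => ?_
  congr 1
  have hj' : j ≤ d := by
    have := Finset.mem_range.1 hj
    omega
  rw [Fin.prod_univ_two]
  simp [g]

theorem Lift_of_coeffs {d : ℕ} (a : ℕ → R) : Lift_IsForm d (fun p q : k =>
    ∑ j ∈ Finset.range (d + 1), a j * algebraMap k R (p ^ (d - j) * q ^ j)) := by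
  refine ⟨∑ j ∈ Finset.range (d + 1), C (a j) * (X 0 ^ (d - j) * X 1 ^ j), ?_, fun p q => ?_⟩
  · refine IsHomogeneous.sum _ _ _ fun j hj => ?_
    have hj' : j ≤ d := by
      have := Finset.mem_range.1 hj
      omega
    have h1 : (C (a j) * (X 0 ^ (d - j) * X 1 ^ j) : MvPolynomial (Fin 2) R).IsHomogeneous
        (0 + ((d - j) + j)) :=
      (isHomogeneous_C _ _).mul (((isHomogeneous_X R (0 : Fin 2)).pow (d - j)).mul
        ((isHomogeneous_X R (1 : Fin 2)).pow j) |> fun h => by simpa using h)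
    have h2 : 0 + ((d - j) + j) = d := by omega
    rwa [h2] at h1
  · rw [map_sum]
    refine Finset.sum_congr rfl fun j _ => ?_
    simp

theorem Lift_IsForm.mul {d e : ℕ} {Φ Ψ : k → k → R} (h : Lift_IsForm d Φ)
    (h' : Lift_IsForm e Ψ) : Lift_IsForm (d + e) (fun p q => Φ p q * Ψ p q) := by
  obtain ⟨H, hH, h⟩ := h
  obtain ⟨H', hH', h'⟩ := h'
  exact ⟨H * H', hH.mul hH', fun p q => by dsimp only; rw [h, h', map_mul]⟩

theorem Lift_IsForm.pow {d : ℕ} {Φ : k → k → R} (h : Lift_IsForm d Φ) (m : ℕ) :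
    Lift_IsForm (d * m) (fun p q => Φ p q ^ m) := by
  obtain ⟨H, hH, h⟩ := h
  exact ⟨H ^ m, hH.pow m, fun p q => by dsimp only; rw [h, map_pow]⟩

theorem Lift_IsForm.prod {ι : Type} (s : Finset ι) (d : ι → ℕ) (Φ : ι → k → k → R)
    (h : ∀ i ∈ s, Lift_IsForm (d i) (Φ i)) :
    Lift_IsForm (∑ i ∈ s, d i) (fun p q => ∏ i ∈ s, Φ i p q) := by
  classical
  induction s using Finset.induction_on with
  | empty => exact ⟨1, isHomogeneous_one _ _, fun p q => by simp⟩
  | insert i s hi ih =>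
    have h1 := (h i (Finset.mem_insert_self i s)).mul
      (ih fun j hj => h j (Finset.mem_insert_of_mem hj))
    rw [Finset.sum_insert hi]
    simpa only [Finset.prod_insert hi] using h1

theorem Lift_IsForm.zero (d : ℕ) : Lift_IsForm d (fun _ _ : k => (0 : R)) :=
  ⟨0, isHomogeneous_zero _ _ _, fun p q => by rw [map_zero]⟩

variable {M r D : ℕ} {w : Fin M → Fin r → ℤ} {n : Fin M → Fin r → ℕ}

theorem Lift_mon (δ : Fin r → ℕ) (N : Fin r → ℕ) (b : ∀ l, Fin (N l + 1))
    (y : k → k → Fin r → Fin 2 → R) (hy : ∀ l e, Lift_IsForm (δ l) (fun p q => y p q l e)) :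
    Lift_IsForm (∑ l, δ l * N l) (fun p q => mon N b (y p q)) := by
  refine Lift_IsForm.prod Finset.univ _ _ fun l _ => ?_
  have h1 := ((hy l 0).pow (N l - (b l : ℕ))).mul ((hy l 1).pow (b l : ℕ))
  have h2 : δ l * (N l - (b l : ℕ)) + δ l * (b l : ℕ) = δ l * N l := by
    rw [← mul_add, Nat.sub_add_cancel (Nat.lt_succ_iff.1 (b l).2)]
  rwa [h2] at h1

/-- the embedding of forms is a form -/
theorem Lift_emb (hn : ∀ i l, w i l = (D : ℤ) - n i l) (δ : Fin r → ℕ)
    (x : k → k → Fin M → R) (y : k → k → Fin r → Fin 2 → R)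
    (hx : ∀ i, (0 ≤ deg w (fun l => (δ l : ℤ)) i →
        Lift_IsForm (deg w (fun l => (δ l : ℤ)) i).toNat (fun p q => x p q i)) ∧
      (¬ 0 ≤ deg w (fun l => (δ l : ℤ)) i → ∀ p q, x p q i = 0))
    (hy : ∀ l e, Lift_IsForm (δ l) (fun p q => y p q l e)) (j : Idx D n) :
    Lift_IsForm (D * ∑ l, δ l) (fun p q => emb D n (x p q) (y p q) j) := by
  rcases j with a | ⟨i, b⟩
  · have h1 := Lift_mon δ (fun _ => D) a y hy
    have h2 : ∑ l, δ l * D = D * ∑ l, δ l := by
      rw [← Finset.sum_mul, mul_comm]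
    rw [h2] at h1
    exact h1
  · by_cases hpos : 0 ≤ deg w (fun l => (δ l : ℤ)) i
    · have h1 := ((hx i).1 hpos).mul (Lift_mon δ (n i) b y hy)
      have h2 : (deg w (fun l => (δ l : ℤ)) i).toNat + ∑ l, δ l * n i l = D * ∑ l, δ l := by
        have h3 : deg w (fun l => (δ l : ℤ)) i + ∑ l, (δ l : ℤ) * n i l = D * ∑ l, (δ l : ℤ) := by
          rw [deg, ← Finset.sum_add_distrib, Finset.mul_sum]
          refine Finset.sum_congr rfl fun l _ => ?_
          rw [hn]
          ring
        have h4 : ((deg w (fun l => (δ l : ℤ)) i).toNat : ℤ) = deg w (fun l => (δ l : ℤ)) i :=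
          Int.toNat_of_nonneg hpos
        zify
        rw [h4]
        exact h3
      rw [h2] at h1
      exact h1
    · have h1 : (fun p q : k => emb D n (x p q) (y p q) (Sum.inr ⟨i, b⟩)) = fun _ _ => 0 := by
        funext p q
        simp only [emb, Sum.elim_inr, (hx i).2 hpos p q, zero_mul]
      rw [h1]
      exact Lift_IsForm.zero _

/-- pairs of forms, as a form over the dual numbers -/
theorem Lift_dual (d : ℕ) (a b : ℕ → k) : Lift_IsForm d (fun p q : k =>
    (TrivSqZeroExt.inl (fval d a p q) + TrivSqZeroExt.inr (fval d b p q) :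
      TrivSqZeroExt k k)) := by
  have h1 := Lift_of_coeffs (k := k) (d := d)
    (fun j => (TrivSqZeroExt.inl (a j) + TrivSqZeroExt.inr (b j) : TrivSqZeroExt k k))
  have h2 : (fun p q : k => (TrivSqZeroExt.inl (fval d a p q) + TrivSqZeroExt.inr (fval d b p q) :
      TrivSqZeroExt k k)) = fun p q : k => ∑ j ∈ Finset.range (d + 1),
        (TrivSqZeroExt.inl (a j) + TrivSqZeroExt.inr (b j) : TrivSqZeroExt k k) *
          algebraMap k (TrivSqZeroExt k k) (p ^ (d - j) * q ^ j) := by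
    funext p q
    rw [fval, fval, TrivSqZeroExt.inl_sum, TrivSqZeroExt.inr_sum, ← Finset.sum_add_distrib]
    refine Finset.sum_congr rfl fun j _ => ?_
    apply TrivSqZeroExt.ext
    · simp [TrivSqZeroExt.algebraMap_eq_inl]
    · simp [TrivSqZeroExt.algebraMap_eq_inl, mul_comm]
  rw [h2]
  exact h1

/-- the pairs of forms without common zeros -/
def Lift_y (δ : Fin r → ℕ) (p q : k) : Fin r → Fin 2 → k :=
  fun l e => if e = 0 then p ^ δ l else q ^ δ l

theorem Lift_y_eq (δ : Fin r → ℕ) (l : Fin r) (e : Fin 2) (p q : k) :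
    Lift_y δ p q l e = fval (δ l) (fun j => if e = 0 then (if j = 0 then 1 else 0) else
      (if j = δ l then 1 else 0)) p q := by
  rw [fval, Lift_y]
  by_cases he : e = 0
  · simp [he]
  · simp [he]

theorem Lift_y_ne (δ : Fin r → ℕ) {p q : k} (h : p ≠ 0 ∨ q ≠ 0) (l : Fin r) :
    Lift_y δ p q l ≠ 0 := by
  intro h0
  rcases h with h | h
  · have := congrFun h0 0
    simp [Lift_y] at this
    exact h this.1
  · have := congrFun h0 1
    simp [Lift_y] at this
    exact h this.1

theorem Lift_gval {δ : Fin r → ℕ} {i : Fin M} (h : 0 ≤ deg w (fun l => (δ l : ℤ)) i)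
    (F : Fin M → ℕ → k) (p q : k) : gval w (fun l => (δ l : ℤ)) F p q i =
      fval (deg w (fun l => (δ l : ℤ)) i).toNat (F i) p q := by
  rw [gval, if_pos h, fval]

theorem Lift_gval0 {δ : Fin r → ℕ} {i : Fin M} (h : ¬ 0 ≤ deg w (fun l => (δ l : ℤ)) i)
    (F : Fin M → ℕ → k) (p q : k) : gval w (fun l => (δ l : ℤ)) F p q i = 0 := by
  rw [gval, if_neg h]

theorem Lift_fval (d : ℕ) (a : ℕ → k) : Lift_IsForm (R := k) d (fun p q : k => fval d a p q) :=
  Lift_of_coeffs (R := k) a

end Lift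

theorem Lift_val {k : Type} [Field k] {σ : Type} {d : ℕ} (a : σ → ℕ → k) (p q : k) (j : σ) :
    val (fun (t : Fin (d + 1)) j => a j t) p q j =
      ∑ t ∈ Finset.range (d + 1), a j t * (p ^ (d - t) * q ^ t) := by
  rw [val, Fin.sum_univ_eq_sum_range (fun t => a j t * (p ^ (d - t) * q ^ t)) (d + 1)]

end Pool.Agent.VFG
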