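import Pool.Agent.Lib_MP_1858fb_g.Homog
import Pool.Agent.Lib_MP_1858fb_g.Act
import Pool.Agent.Lib_MP_1858fb_g.Nfr

/-!
# MP_1858fb_ag, line G, piece G3: the cone over `V#` is locally closed
-/

set_option autoImplicit false

namespace Pool.Agent.VFG

open MvPolynomial Pool.Agent.VF

section

variable {k : Type} [Field k] {M r D : ℕ} {w : Fin M → Fin r → ℤ} {n : Fin M → Fin r → ℕ} {c : ℕ} {Y : Set (Fin M → k)}

theorem cone_locClosed [IsAlgClosed k] (hn : ∀ i l, w i l = (D : ℤ) - n i l)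
    (hY : IsTorsor w c Y) (hD : 0 < D) (hr : 0 < r) : LocClosedS (cone D n Y) := by
  obtain ⟨I₀, J₀, -, hYeq⟩ := hY.closed
  choose G' e hhom hval using fun (ε : Fin r → Fin 2) (G : MvPolynomial (Fin M) k) =>
    exists_homog (D := D) (n := n) ε G
  have hI₀ : ∀ E ∈ I₀, E ∈ van Y := by
    intro E hE x hx
    rw [hYeq] at hx
    exact hx.1 E hE
  refine ⟨{E | (∃ e : ℕ, E.IsHomogeneous e) ∧ E ∈ van (cone D n Y)},
    {P | ∃ ε : Fin r → Fin 2, ∃ G ∈ J₀, P = X (cor0 D n ε) * G' ε G}, ?_, ?_⟩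
  · rintro E (hE | ⟨ε, G, -, rfl⟩)
    · exact hE.1
    · exact ⟨_, (isHomogeneous_X k (cor0 D n ε)).mul (hhom ε G)⟩
  ext u
  constructor
  · intro hu
    obtain ⟨x, hx, y, hy, rfl⟩ := id hu
    have hex : ∀ l, ∃ j, y l j ≠ 0 := fun l => Function.ne_iff.1 (hy l)
    choose ε hε using hex
    obtain ⟨s, x', y', hs, hx', hy', hxy⟩ := exists_nf hn hY ε hx hε
    have hc : emb D n x y (cor0 D n ε) = s := by
      have h1 : emb D n x' y' (cor0 D n ε) = 1 := mon_cor _ ε y' hy'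
      rw [hxy, Pi.smul_apply, h1, smul_eq_mul, mul_one]
    refine ⟨?_, ?_, ?_⟩
    · intro h0
      rw [h0] at hc
      exact hs hc.symm
    · intro E hE
      exact hE.2 _ hu
    · have hx2 := hx'
      rw [hYeq] at hx2
      obtain ⟨-, G, hG, hGx⟩ := hx2
      refine ⟨_, ⟨ε, G, hG, rfl⟩, ?_⟩
      rw [map_mul, aeval_X, hc]
      refine mul_ne_zero hs ?_
      have h2 := hval ε G k s x' y' hy'
      have h3 : (fun j => s * emb D n x' y' j) = emb D n x y := by
        rw [hxy]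
        rfl
      rw [h3] at h2
      rw [h2]
      exact mul_ne_zero (pow_ne_zero _ hs) hGx
  · rintro ⟨-, hI, P, ⟨ε, G, hG, rfl⟩, hP⟩
    rw [map_mul, aeval_X] at hP
    obtain ⟨s, x, y, hx, hy, hu⟩ := nfr (R := k) hn hY hD ε u
      (fun E hE hh => hI E ⟨hh, hE⟩) (isUnit_iff_ne_zero.2 (left_ne_zero_of_mul hP))
    have hG' := right_ne_zero_of_mul hP
    rw [hu, hval ε G k (s : k) x y hy] at hG'
    have hxY : x ∈ Y := by
      rw [hYeq]
      exact ⟨fun E hE => hx E (hI₀ E hE), G, hG, right_ne_zero_of_mul hG'⟩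
    have hmem : emb D n x y ∈ cone D n Y := by
      refine ⟨x, hxY, y, fun l h0 => ?_, rfl⟩
      have h1 := hy l
      rw [h0] at h1
      exact zero_ne_one h1
    have h4 := cone_smul hn hY hD hr hmem s.ne_zero
    have h5 : u = (s : k) • emb D n x y := by
      rw [hu]
      rfl
    rw [h5]
    exact h4

end

end Pool.Agent.VFG
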