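import Pool.Agent.Lib_MP_1858fb_g.Defs2

/-!
# MP_1858fb_ag, line G: a very free curve in a variety of positive dimension has nonzero degree
-/

set_option autoImplicit false

namespace Pool.Agent.VFG

open MvPolynomial Pool.Agent.VF

variable {k : Type} [Field k] {M r : ℕ} {w : Fin M → Fin r → ℤ} {c : ℕ} {Y : Set (Fin M → k)}

theorem dif_add_right {σ : Type} [Fintype σ] (E : MvPolynomial σ k) (x a b : σ → k) :
    dif E x (a + b) = dif E x a + dif E x b := by
  simp only [dif, Pi.add_apply, mul_add, Finset.sum_add_distrib]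

theorem dif_smul_right {σ : Type} [Fintype σ] (E : MvPolynomial σ k) (x : σ → k) (s : k)
    (a : σ → k) : dif E x (s • a) = s * dif E x a := by
  simp only [dif, Pi.smul_apply, smul_eq_mul, Finset.mul_sum]
  exact Finset.sum_congr rfl fun i _ => by ring

theorem dif_mul {σ : Type} [Fintype σ] (E G : MvPolynomial σ k) (x a : σ → k) :
    dif (E * G) x a = aeval x E * dif G x a + aeval x G * dif E x a := by
  simp only [dif, Derivation.leibniz, smul_eq_mul, map_add, map_mul, Finset.mul_sum]
  rw [← Finset.sum_add_distrib]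
  exact Finset.sum_congr rfl fun i _ => by ring

theorem dif_add {σ : Type} [Fintype σ] (E G : MvPolynomial σ k) (x a : σ → k) :
    dif (E + G) x a = dif E x a + dif G x a := by
  simp only [dif, map_add, add_mul, Finset.sum_add_distrib]

/-- the differentials as a linear map -/
noncomputable def difLin {σ : Type} [Fintype σ] {c : ℕ} (E : Fin c → MvPolynomial σ k)
    (x : σ → k) : (σ → k) →ₗ[k] (Fin c → k) where
  toFun a := fun i => dif (E i) x a
  map_add' a b := by
    funext i
    exact dif_add_right _ _ _ _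
  map_smul' s a := by
    funext i
    exact dif_smul_right _ _ _ _

/-- the radial vectors as a linear map -/
noncomputable def radLin (w : Fin M → Fin r → ℤ) (x : Fin M → k) : (Fin r → k) →ₗ[k] (Fin M → k) where
  toFun a := radial w x a
  map_add' a b := by
    funext i
    simp only [radial, Pi.add_apply, mul_add, Finset.sum_add_distrib, add_mul]
  map_smul' s a := by
    funext i
    simp only [radial, Pi.smul_apply, smul_eq_mul, RingHom.id_apply]
    rw [← mul_assoc, Finset.mul_sum]
    congr 1
    exact Finset.sum_congr rfl fun l _ => by ring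

theorem ker_le_tan {x : Fin M → k} (hx : x ∈ Y) {E : Fin c → MvPolynomial (Fin M) k}
    {H : MvPolynomial (Fin M) k} (hE : ∀ i, E i ∈ van Y) (hH : aeval x H ≠ 0)
    (hgen : ∀ G ∈ van Y, H * G ∈ Ideal.span (Set.range E)) :
    LinearMap.ker (difLin E x) ≤ Tan Y x := by
  intro a ha G hG
  have ha' : ∀ i, dif (E i) x a = 0 := fun i => congrFun ha i
  have hspan : ∀ P ∈ Ideal.span (Set.range E), aeval x P = 0 ∧ dif P x a = 0 := by
    intro P hP
    induction hP using Submodule.span_induction with
    | mem P hP =>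
      obtain ⟨i, rfl⟩ := hP
      exact ⟨hE i x hx, ha' i⟩
    | zero => exact ⟨map_zero _, by simp [dif]⟩
    | add P Q _ _ h1 h2 =>
      exact ⟨by rw [map_add, h1.1, h2.1, add_zero], by rw [dif_add, h1.2, h2.2, add_zero]⟩
    | smul Q P _ h1 =>
      rw [smul_eq_mul]
      exact ⟨by rw [map_mul, h1.1, mul_zero], by rw [dif_mul, h1.1, h1.2, mul_zero, zero_mul,
        add_zero]⟩
  have h1 := (hspan _ (hgen G hG)).2
  rw [dif_mul, hG x hx, zero_mul, add_zero] at h1
  exact (mul_eq_zero.1 h1).resolve_left hH

/-- dimension of the tangent space: a constant curve is not very free -/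
theorem ne_zero_of_veryFree (hY : IsTorsor w c Y) (hdim : c + r < M) {δ : Fin r → ℤ}
    {F : Fin M → ℕ → k} (hF : IsGCurve w Y δ F) (hvf : GVeryFree w Y δ F) : δ ≠ 0 := by
  rintro rfl
  have hconst : ∀ (G : Fin M → ℕ → k) (p q : k),
      gval w (0 : Fin r → ℤ) G p q = fun i => G i 0 := by
    intro G p q
    funext i
    simp [gval, deg]
  set x := gval w (0 : Fin r → ℤ) F 1 0 with hx
  have hxY : x ∈ Y := hF 1 0 (Or.inl one_ne_zero)
  have hx' : gval w (0 : Fin r → ℤ) F 0 1 = x := by rw [hx, hconst, hconst]
  have hle : Tan Y x ≤ LinearMap.range (radLin w x) := by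
    intro ξ hξ
    obtain ⟨G, -, ⟨a, ha⟩, a', ha'⟩ := hvf 1 0 0 1 (by simp) ξ hξ 0 (Submodule.zero_mem _)
    rw [← hx] at ha
    rw [hx', zero_add] at ha'
    have h1 : gval w (0 : Fin r → ℤ) G 1 0 = gval w (0 : Fin r → ℤ) G 0 1 := by
      rw [hconst, hconst]
    rw [ha, ha'] at h1
    refine ⟨a' - a, ?_⟩
    rw [map_sub]
    exact sub_eq_of_eq_add h1.symm
  obtain ⟨E, H, hE, -, hH, hgen⟩ := hY.smooth x hxY
  have h1 := (ker_le_tan hxY hE hH hgen).trans hle
  have h2 := Submodule.finrank_mono h1
  have h3 := LinearMap.finrank_range_add_finrank_ker (difLin E x)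
  have h4 : Module.finrank k (LinearMap.range (difLin E x)) ≤ c := by
    have := Submodule.finrank_le (LinearMap.range (difLin E x))
    simpa using this
  have h5 : Module.finrank k (LinearMap.range (radLin w x)) ≤ r := by
    have := LinearMap.finrank_range_le (radLin w x)
    simpa using this
  simp only [Module.finrank_fin_fun] at h3
  omega

end Pool.Agent.VFG
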