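import Pool.Agent.Lib_MP_1858fb_g.Ratio
import Pool.Agent.Lib_MP_1858fb_g.Bezout
import Pool.Agent.Lib_MP_1858fb_g.Demb
import Pool.Agent.Lib_MP_1858fb_g.TanCone

/-!
# MP_1858fb_ag, line G, piece G12: the projection of a very free curve is very free
-/

set_option autoImplicit false

namespace Pool.Agent.VFG

open MvPolynomial Pool.Agent.VF

variable {k : Type} [Field k]

section

variable {M r D : ℕ} {w : Fin M → Fin r → ℤ} {n : Fin M → Fin r → ℕ} {c : ℕ} {Y : Set (Fin M → k)}

theorem projVF_fin2 (j : Fin 2) : j = 0 ∨ j = 1 := by omega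

/-- two monomials with the quotient `y l 1 / y l 0` -/
theorem projVF_mon (hD : 0 < D) (ε : Fin r → Fin 2) (l : Fin r) :
    ∃ b0 b1 : ∀ _ : Fin r, Fin (D + 1), ∀ (R : Type) [CommRing R] (y : Fin r → Fin 2 → R),
      mon (fun _ => D) b0 y = y l 0 * ∏ l', y l' (ε l') ^ (if l' = l then D - 1 else D) ∧
      mon (fun _ => D) b1 y = y l 1 * ∏ l', y l' (ε l') ^ (if l' = l then D - 1 else D) := by
  classical
  have hD1 : D - (D - 1) = 1 := by omega
  have hD2 : ∀ {R : Type} [CommRing R] (a : R), a ^ D = a * a ^ (D - 1) := by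
    intro R _ a
    rw [← pow_succ', Nat.sub_add_cancel hD]
  refine ⟨fun l' => ⟨if l' = l then (if ε l' = 0 then 0 else D - 1) else
      (if ε l' = 0 then 0 else D), by split_ifs <;> omega⟩,
    fun l' => ⟨if l' = l then (if ε l' = 0 then 1 else D) else
      (if ε l' = 0 then 0 else D), by split_ifs <;> omega⟩, fun R _ y => ⟨?_, ?_⟩⟩
  · have h1 : y l 0 = ∏ l', (if l' = l then y l' 0 else 1) := by
      rw [Finset.prod_ite_eq' Finset.univ l (fun l' => y l' 0)]
      simp
    rw [h1, ← Finset.prod_mul_distrib]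
    unfold mon
    refine Finset.prod_congr rfl fun l' _ => ?_
    by_cases hl : l' = l
    · rcases projVF_fin2 (ε l') with h | h
      · simp [hl, hl ▸ h, hD2]
      · simp [hl, hl ▸ h, hD1]
    · rcases projVF_fin2 (ε l') with h | h
      · simp [hl, h]
      · simp [hl, h]
  · have h1 : y l 1 = ∏ l', (if l' = l then y l' 1 else 1) := by
      rw [Finset.prod_ite_eq' Finset.univ l (fun l' => y l' 1)]
      simp
    rw [h1, ← Finset.prod_mul_distrib]
    unfold mon
    refine Finset.prod_congr rfl fun l' _ => ?_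
    by_cases hl : l' = l
    · rcases projVF_fin2 (ε l') with h | h
      · simp [hl, hl ▸ h, mul_comm]
      · simp [hl, hl ▸ h, hD2]
    · rcases projVF_fin2 (ε l') with h | h
      · simp [hl, h]
      · simp [hl, h]

/-- a product over the dual numbers -/
theorem projVF_mul (P Z : TrivSqZeroExt k k) :
    (P * Z).fst = P.fst * Z.fst ∧ (P * Z).snd = P.fst * Z.snd + Z.fst * P.snd := by
  refine ⟨TrivSqZeroExt.fst_mul _ _, ?_⟩
  rw [TrivSqZeroExt.snd_mul]
  simp [mul_comm]

theorem projVF_fst_prod {ι : Type} (s : Finset ι) (f : ι → TrivSqZeroExt k k) :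
    (∏ i ∈ s, f i).fst = ∏ i ∈ s, (f i).fst :=
  map_prod (TrivSqZeroExt.fstHom k k k) f s

theorem projVF_fst_pow (f : TrivSqZeroExt k k) (m : ℕ) : (f ^ m).fst = f.fst ^ m :=
  TrivSqZeroExt.fst_pow _ _

/-- the wedge of `η` with `y` -/
theorem projVF_wedge (hD : 0 < D) (ε : Fin r → Fin 2) (l : Fin r) :
    ∃ b0 b1 : Idx D n, ∀ (x : Fin M → k) (y : Fin r → Fin 2 → k) (ξ : Fin M → k)
      (η : Fin r → Fin 2 → k),
      emb D n x y b0 * demb D n x y ξ η b1 - emb D n x y b1 * demb D n x y ξ η b0 =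
        (∏ l', y l' (ε l') ^ (if l' = l then D - 1 else D)) ^ 2 *
          (y l 0 * η l 1 - y l 1 * η l 0) := by
  obtain ⟨b0, b1, hb⟩ := projVF_mon hD ε l
  refine ⟨Sum.inl b0, Sum.inl b1, fun x y ξ η => ?_⟩
  set Yd : Fin r → Fin 2 → TrivSqZeroExt k k :=
    fun l e => TrivSqZeroExt.inl (y l e) + TrivSqZeroExt.inr (η l e) with hYd
  obtain ⟨h0, h1⟩ := hb (TrivSqZeroExt k k) Yd
  set Z := ∏ l', Yd l' (ε l') ^ (if l' = l then D - 1 else D) with hZ
  have hZf : Z.fst = ∏ l', y l' (ε l') ^ (if l' = l then D - 1 else D) := by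
    rw [hZ, projVF_fst_prod]
    refine Finset.prod_congr rfl fun l' _ => ?_
    rw [projVF_fst_pow]
    simp [hYd]
  have h2 := demb_emb_inl (D := D) (n := n) x y ξ η
  have h20 : mon (fun _ => D) b0 Yd = TrivSqZeroExt.inl (emb D n x y (Sum.inl b0)) +
      TrivSqZeroExt.inr (demb D n x y ξ η (Sum.inl b0)) := congrFun h2 (Sum.inl b0)
  have h21 : mon (fun _ => D) b1 Yd = TrivSqZeroExt.inl (emb D n x y (Sum.inl b1)) +
      TrivSqZeroExt.inr (demb D n x y ξ η (Sum.inl b1)) := congrFun h2 (Sum.inl b1)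
  rw [h0] at h20
  rw [h1] at h21
  have e0f := congrArg TrivSqZeroExt.fst h20
  have e0s := congrArg TrivSqZeroExt.snd h20
  have e1f := congrArg TrivSqZeroExt.fst h21
  have e1s := congrArg TrivSqZeroExt.snd h21
  rw [(projVF_mul _ _).1] at e0f e1f
  rw [(projVF_mul _ _).2] at e0s e1s
  simp only [hYd, TrivSqZeroExt.fst_add, TrivSqZeroExt.fst_inl, TrivSqZeroExt.fst_inr,
    TrivSqZeroExt.snd_add, TrivSqZeroExt.snd_inl, TrivSqZeroExt.snd_inr, add_zero, zero_add]
    at e0f e0s e1f e1s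
  rw [← e0f, ← e1f, ← e0s, ← e1s, ← hZf]
  ring

/-- a vector with zero wedge with the nonzero vector `y` is a multiple of `y` -/
theorem projVF_par {y b : Fin 2 → k} (hy : y ≠ 0) (h : y 0 * b 1 = y 1 * b 0) :
    ∃ a : k, ∀ j, b j = a * y j := by
  by_cases h0 : y 0 = 0
  · have h1 : y 1 ≠ 0 := by
      intro h1
      apply hy
      funext j
      rcases projVF_fin2 j with rfl | rfl
      · exact h0
      · exact h1
    refine ⟨b 1 / y 1, fun j => ?_⟩
    rcases projVF_fin2 j with rfl | rfl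
    · rw [h0, zero_mul] at h
      rw [h0, mul_zero]
      exact (mul_eq_zero.1 h.symm).resolve_left h1
    · field_simp
  · refine ⟨b 0 / y 0, fun j => ?_⟩
    rcases projVF_fin2 j with rfl | rfl
    · field_simp
    · field_simp
      linear_combination h

/-- modulo the radial directions the fibre component may be replaced by one with the same
wedge -/
theorem projVF_change [Infinite k] (hn : ∀ i l, w i l = (D : ℤ) - n i l) (hY : IsTorsor w c Y)
    {x : Fin M → k} (hx : x ∈ Y) {y : Fin r → Fin 2 → k} (hy : ∀ l, y l ≠ 0) {ξ : Fin M → k}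
    (hξ : ξ ∈ Tan Y x) (η η' : Fin r → Fin 2 → k)
    (h : ∀ l, y l 0 * (η l 1 - η' l 1) = y l 1 * (η l 0 - η' l 0)) :
    ∃ ξ' ∈ Tan Y x, ∃ s : k, demb D n x y ξ η = demb D n x y ξ' η' + s • emb D n x y := by
  have h1 : ∀ l, ∃ a : k, ∀ j, η l j - η' l j = a * y l j := fun l =>
    projVF_par (hy l) (b := fun j => η l j - η' l j) (h l)
  choose a ha using h1
  refine ⟨ξ - radial w x a, Submodule.sub_mem _ hξ (radial_mem_tan hY hx a),
    (D : k) * ∑ l, a l, ?_⟩
  rw [← demb_radial hn x y a, ← demb_add]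
  congr 1
  · abel
  · funext l j
    rw [Pi.add_apply, Pi.add_apply, ← ha l j]
    ring

/-- some corner monomial does not vanish -/
theorem projVF_corner {y : Fin r → Fin 2 → k} (hy : ∀ l, y l ≠ 0) :
    ∃ ε : Fin r → Fin 2, ∀ l, y l (ε l) ≠ 0 := by
  have h1 : ∀ l, ∃ j, y l j ≠ 0 := by
    intro l
    by_contra hcon
    push Not at hcon
    exact hy l (funext hcon)
  choose ε hε using h1
  exact ⟨ε, hε⟩

/-- the fibre component, up to multiples of `y`, is a tuple of forms of the degrees `δ l` -/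
theorem projVF_theta [IsAlgClosed k] (hD : 0 < D) {e : ℕ} (U Gs : Fin (e + 1) → Idx D n → k)
    (δ : Fin r → ℕ) (A : Fin r → Fin 2 → ℕ → k) (he : e = D * ∑ l, δ l)
    (hA : ∀ p q : k, (p ≠ 0 ∨ q ≠ 0) → ∀ l, (fun j => fval (δ l) (A l j) p q) ≠ 0)
    (x Ξ : k → k → Fin M → k) (Η : k → k → Fin r → Fin 2 → k)
    (hU : ∀ p q : k, val U p q = emb D n (x p q) (fun l j => fval (δ l) (A l j) p q))
    (hG : ∀ p q : k, (p ≠ 0 ∨ q ≠ 0) → val Gs p q =
      demb D n (x p q) (fun l j => fval (δ l) (A l j) p q) (Ξ p q) (Η p q)) :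
    ∃ H : Fin r → Fin 2 → ℕ → k, ∀ p q : k, (p ≠ 0 ∨ q ≠ 0) → ∀ l,
      fval (δ l) (A l 0) p q * (Η p q l 1 - fval (δ l) (H l 1) p q) =
        fval (δ l) (A l 1) p q * (Η p q l 0 - fval (δ l) (H l 0) p q) := by
  classical
  have key : ∀ l : Fin r, ∃ h : Fin 2 → ℕ → k, ∀ p q : k, (p ≠ 0 ∨ q ≠ 0) →
      fval (δ l) (A l 0) p q * (Η p q l 1 - fval (δ l) (h 1) p q) =
        fval (δ l) (A l 1) p q * (Η p q l 0 - fval (δ l) (h 0) p q) := by
    intro l
    have hw := fun ε : Fin r → Fin 2 => projVF_wedge (k := k) (n := n) hD ε l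
    choose b0 b1 hb using hw
    set α : ℕ := ∑ l', (if l' = l then D - 1 else D) * δ l' with hα
    have hαe : α + δ l = e := by
      have h1 : δ l = ∑ l', (if l' = l then 1 else 0) * δ l' := by simp
      rw [he, hα, Finset.mul_sum]
      conv_lhs => rw [h1]
      rw [← Finset.sum_add_distrib]
      refine Finset.sum_congr rfl fun l' _ => ?_
      split_ifs
      · rw [← add_mul, Nat.sub_add_cancel hD]
      · ring
    have hzF : ∀ ε : Fin r → Fin 2, Fm (2 * α) (fun p q : k =>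
        (∏ l', fval (δ l') (A l' (ε l')) p q ^ (if l' = l then D - 1 else D)) ^ 2) := by
      intro ε
      exact (Fm.prod Finset.univ fun l' _ => (Fm.fval (δ l') (A l' (ε l'))).pow
        (if l' = l then D - 1 else D)).pow 2
    have hwF : ∀ ε : Fin r → Fin 2, Fm (e + e) (fun p q : k =>
        val U p q (b0 ε) * val Gs p q (b1 ε) - val U p q (b1 ε) * val Gs p q (b0 ε)) :=
      fun ε => ((Fm.val U (b0 ε)).mul (Fm.val Gs (b1 ε))).sub
        ((Fm.val U (b1 ε)).mul (Fm.val Gs (b0 ε)))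
    obtain ⟨hS, -⟩ := Fm.ratio hzF hwF
      (fun p q => fval (δ l) (A l 0) p q * Η p q l 1 - fval (δ l) (A l 1) p q * Η p q l 0)
      (fun p q hpq => by
        obtain ⟨ε, hε⟩ := projVF_corner (hA p q hpq)
        exact ⟨ε, pow_ne_zero _ (Finset.prod_ne_zero_iff.2 fun l' _ => pow_ne_zero _ (hε l'))⟩)
      (fun ε p q hpq => by
        rw [hU, hG p q hpq]
        exact hb ε _ _ _ _)
    obtain ⟨S, hS⟩ := hS (by omega)
    have hdeg : e + e - 2 * α = 2 * δ l := by omega
    obtain ⟨a', b', hab⟩ := exists_fval_bezout (δ l) (A l 0) (A l 1) (fun p q hpq => by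
      by_contra hcon
      push Not at hcon
      apply hA p q hpq l
      funext j
      rcases projVF_fin2 j with rfl | rfl
      · exact hcon.1
      · exact hcon.2) S
    refine ⟨fun j => if j = 0 then a' else b', fun p q hpq => ?_⟩
    have h1 := hS p q hpq
    rw [hdeg, ← hab p q] at h1
    simp only [if_true, one_ne_zero, if_false]
    linear_combination h1
  choose H hH using key
  exact ⟨H, fun p q hpq l => hH l p q hpq⟩

/-- the coordinates of the first kind of the derivative of the embedding -/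
theorem projVF_demb_inl (x : Fin M → k) (y : Fin r → Fin 2 → k) (ξ : Fin M → k)
    (η : Fin r → Fin 2 → k) (b : ∀ _ : Fin r, Fin (D + 1)) :
    demb D n x y ξ η (Sum.inl b) = (mon (fun _ => D) b (fun l e =>
      (TrivSqZeroExt.inl (y l e) + TrivSqZeroExt.inr (η l e) : TrivSqZeroExt k k))).snd := rfl

/-- the coordinates of the second kind of the derivative of the embedding -/
theorem projVF_demb_inr (x : Fin M → k) (y : Fin r → Fin 2 → k) (ξ : Fin M → k)
    (η : Fin r → Fin 2 → k) (i : Fin M) (b : ∀ l : Fin r, Fin (n i l + 1)) :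
    demb D n x y ξ η (Sum.inr ⟨i, b⟩) = x i * (mon (n i) b (fun l e =>
      (TrivSqZeroExt.inl (y l e) + TrivSqZeroExt.inr (η l e) : TrivSqZeroExt k k))).snd +
      mon (n i) b y * ξ i := by
  have h1 : demb D n x y ξ η (Sum.inr ⟨i, b⟩) =
      ((TrivSqZeroExt.inl (x i) + TrivSqZeroExt.inr (ξ i) : TrivSqZeroExt k k) *
        mon (n i) b (fun l e => (TrivSqZeroExt.inl (y l e) + TrivSqZeroExt.inr (η l e) :
          TrivSqZeroExt k k))).snd := rfl
  have h2 : (mon (n i) b (fun l e => (TrivSqZeroExt.inl (y l e) + TrivSqZeroExt.inr (η l e) :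
      TrivSqZeroExt k k))).fst = mon (n i) b y := by
    unfold mon
    rw [projVF_fst_prod]
    refine Finset.prod_congr rfl fun l _ => ?_
    rw [(projVF_mul _ _).1, projVF_fst_pow, projVF_fst_pow]
    simp
  rw [h1, (projVF_mul _ _).2, h2]
  simp

theorem projVF_dual {δ : Fin r → ℕ} (A H : Fin r → Fin 2 → ℕ → k) (N : Fin r → ℕ)
    (b : ∀ l, Fin (N l + 1)) :
    Fm (∑ l, N l * δ l) (fun p q : k => (mon N b (fun l e =>
      (TrivSqZeroExt.inl (fval (δ l) (A l e) p q) + TrivSqZeroExt.inr (fval (δ l) (H l e) p q) :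
        TrivSqZeroExt k k))).snd) :=
  (FmD.mon (y := fun l e p q => (TrivSqZeroExt.inl (fval (δ l) (A l e) p q) +
    TrivSqZeroExt.inr (fval (δ l) (H l e) p q) : TrivSqZeroExt k k))
    (fun l j => FmD.mk (Fm.fval (δ l) (A l j)) (Fm.fval (δ l) (H l j))) N b).2

/-- the radial scalar is constant -/
theorem projVF_const [IsAlgClosed k] {e : ℕ} (U Gs : Fin (e + 1) → Idx D n → k)
    (δ : Fin r → ℕ) (A H : Fin r → Fin 2 → ℕ → k) (he : e = D * ∑ l, δ l)
    (hA : ∀ p q : k, (p ≠ 0 ∨ q ≠ 0) → ∀ l, (fun j => fval (δ l) (A l j) p q) ≠ 0)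
    (x xt : k → k → Fin M → k) (s : k → k → k)
    (hU : ∀ p q : k, val U p q = emb D n (x p q) (fun l j => fval (δ l) (A l j) p q))
    (hG : ∀ p q : k, (p ≠ 0 ∨ q ≠ 0) → val Gs p q =
      demb D n (x p q) (fun l j => fval (δ l) (A l j) p q) (xt p q)
        (fun l j => fval (δ l) (H l j) p q) + s p q • val U p q) :
    ∃ s0 : k, ∀ p q : k, (p ≠ 0 ∨ q ≠ 0) → s p q = s0 := by
  have hde : ∑ l, D * δ l = e := by rw [he, Finset.mul_sum]
  have hwF : ∀ ε : Fin r → Fin 2, Fm e (fun p q : k =>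
      val Gs p q (Sum.inl (cor (fun _ => D) ε)) - (mon (fun _ => D) (cor (fun _ => D) ε)
        (fun l e => (TrivSqZeroExt.inl (fval (δ l) (A l e) p q) +
          TrivSqZeroExt.inr (fval (δ l) (H l e) p q) : TrivSqZeroExt k k))).snd) := by
    intro ε
    exact (Fm.val Gs _).sub ((projVF_dual A H (fun _ => D) (cor (fun _ => D) ε)).congr hde
      fun _ _ => rfl)
  obtain ⟨hS, -⟩ := Fm.ratio (fun ε : Fin r → Fin 2 =>
    Fm.val U (Sum.inl (cor (fun _ => D) ε))) hwF s
    (fun p q hpq => by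
      obtain ⟨ε, hε⟩ := projVF_corner (hA p q hpq)
      refine ⟨ε, ?_⟩
      have h1 : val U p q (Sum.inl (cor (fun _ => D) ε)) =
          mon (fun _ => D) (cor (fun _ => D) ε) (fun l j => fval (δ l) (A l j) p q) := by
        rw [hU]
        rfl
      rw [h1, act_mon_cor]
      exact Finset.prod_ne_zero_iff.2 fun l _ => pow_ne_zero _ (hε l))
    (fun ε p q hpq => by
      rw [hG p q hpq, Pi.add_apply, projVF_demb_inl, Pi.smul_apply, smul_eq_mul]
      ring)
  obtain ⟨S, hS⟩ := hS le_rfl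
  refine ⟨S 0, fun p q hpq => ?_⟩
  rw [hS p q hpq, Nat.sub_self]
  simp [fval]

/-- the components `xt` are forms of the right degrees -/
theorem projVF_form [IsAlgClosed k] (hn : ∀ i l, w i l = (D : ℤ) - n i l) {e : ℕ}
    (U Gs : Fin (e + 1) → Idx D n → k)
    (δ : Fin r → ℕ) (A H : Fin r → Fin 2 → ℕ → k) (he : e = D * ∑ l, δ l)
    (hA : ∀ p q : k, (p ≠ 0 ∨ q ≠ 0) → ∀ l, (fun j => fval (δ l) (A l j) p q) ≠ 0)
    (F : Fin M → ℕ → k) (xt : k → k → Fin M → k) (s0 : k)
    (hU : ∀ p q : k, val U p q = emb D n (gval w (fun l => (δ l : ℤ)) F p q)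
      (fun l j => fval (δ l) (A l j) p q))
    (hG : ∀ p q : k, (p ≠ 0 ∨ q ≠ 0) → val Gs p q =
      demb D n (gval w (fun l => (δ l : ℤ)) F p q) (fun l j => fval (δ l) (A l j) p q) (xt p q)
        (fun l j => fval (δ l) (H l j) p q) + s0 • val U p q) :
    ∃ G : Fin M → ℕ → k, ∀ p q : k, (p ≠ 0 ∨ q ≠ 0) →
      gval w (fun l => (δ l : ℤ)) G p q = xt p q := by
  have key : ∀ i : Fin M, ∃ g : ℕ → k, ∀ p q : k, (p ≠ 0 ∨ q ≠ 0) →
      (if 0 ≤ deg w (fun l => (δ l : ℤ)) i then
        fval (deg w (fun l => (δ l : ℤ)) i).toNat g p q else 0) = xt p q i := by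
    intro i
    set α : ℕ := ∑ l, n i l * δ l with hα
    have hdeg : deg w (fun l => (δ l : ℤ)) i = (e : ℤ) - α := by
      unfold deg
      rw [he, hα]
      push_cast
      rw [Finset.mul_sum, ← Finset.sum_sub_distrib]
      refine Finset.sum_congr rfl fun l _ => ?_
      rw [hn]
      ring
    have hxF : ∀ ε : Fin r → Fin 2, Fm e (fun p q : k => gval w (fun l => (δ l : ℤ)) F p q i *
        (mon (n i) (cor (n i) ε) (fun l e => (TrivSqZeroExt.inl (fval (δ l) (A l e) p q) +
          TrivSqZeroExt.inr (fval (δ l) (H l e) p q) : TrivSqZeroExt k k))).snd) := by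
      intro ε
      by_cases hd : 0 ≤ deg w (fun l => (δ l : ℤ)) i
      · have h1 : Fm (deg w (fun l => (δ l : ℤ)) i).toNat
            (fun p q : k => gval w (fun l => (δ l : ℤ)) F p q i) :=
          ⟨F i, fun p q => by
            unfold gval fval
            exact if_pos hd⟩
        exact (h1.mul (projVF_dual A H (n i) (cor (n i) ε))).congr (by omega) fun _ _ => rfl
      · refine (Fm.zero e).congr rfl fun p q => ?_
        have h1 : gval w (fun l => (δ l : ℤ)) F p q i = 0 := by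
          unfold gval
          rw [if_neg hd]
        rw [h1, zero_mul]
    have hzF : ∀ ε : Fin r → Fin 2, Fm α (fun p q : k => mon (n i) (cor (n i) ε)
        (fun l j => fval (δ l) (A l j) p q)) := fun ε =>
      Fm.mon (y := fun l j p q => fval (δ l) (A l j) p q)
        (fun l j => Fm.fval (δ l) (A l j)) (n i) (cor (n i) ε)
    have hwF : ∀ ε : Fin r → Fin 2, Fm e (fun p q : k =>
        val Gs p q (Sum.inr ⟨i, cor (n i) ε⟩) - gval w (fun l => (δ l : ℤ)) F p q i *
        (mon (n i) (cor (n i) ε) (fun l e => (TrivSqZeroExt.inl (fval (δ l) (A l e) p q) +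
          TrivSqZeroExt.inr (fval (δ l) (H l e) p q) : TrivSqZeroExt k k))).snd -
        s0 * val U p q (Sum.inr ⟨i, cor (n i) ε⟩)) := fun ε =>
      ((Fm.val Gs _).sub (hxF ε)).sub ((Fm.val U _).const_mul s0)
    obtain ⟨hS1, hS2⟩ := Fm.ratio hzF hwF (fun p q => xt p q i)
      (fun p q hpq => by
        obtain ⟨ε, hε⟩ := projVF_corner (hA p q hpq)
        refine ⟨ε, ?_⟩
        rw [act_mon_cor]
        exact Finset.prod_ne_zero_iff.2 fun l _ => pow_ne_zero _ (hε l))
      (fun ε p q hpq => by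
        rw [hG p q hpq, Pi.add_apply, projVF_demb_inr, Pi.smul_apply, smul_eq_mul]
        ring)
    by_cases hd : 0 ≤ deg w (fun l => (δ l : ℤ)) i
    · obtain ⟨S, hS⟩ := hS1 (by omega)
      refine ⟨S, fun p q hpq => ?_⟩
      rw [if_pos hd, hS p q hpq]
      congr 1
      omega
    · refine ⟨0, fun p q hpq => ?_⟩
      rw [if_neg hd]
      exact (hS2 (by omega) p q hpq).symm
  choose G hGv using key
  exact ⟨G, fun p q hpq => funext fun i => hGv i p q hpq⟩

theorem projVF_eval {σ : Type} (E : MvPolynomial σ k) (x : σ → Polynomial k) (s : k) :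
    (aeval x E).eval s = aeval (fun i => (x i).eval s) E := by
  have h := MvPolynomial.comp_aeval_apply (R := k) (f := x) (Polynomial.aeval s) E
  simpa [Polynomial.coe_aeval_eq_eval] using h

/-- tangency at the origin -/
theorem projVF_tan [Infinite k] (δ : Fin r → ℤ) (F G : Fin M → ℕ → k)
    (h : ∀ p q : k, (p ≠ 0 ∨ q ≠ 0) → gval w δ G p q ∈ Tan Y (gval w δ F p q)) (p q : k) :
    gval w δ G p q ∈ Tan Y (gval w δ F p q) := by
  by_cases hpq : p ≠ 0 ∨ q ≠ 0
  · exact h p q hpq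
  · push Not at hpq
    obtain ⟨rfl, rfl⟩ := hpq
    let PP : (Fin M → ℕ → k) → Fin M → Polynomial k := fun F i =>
      if 0 ≤ deg w δ i then ∑ j ∈ Finset.range ((deg w δ i).toNat + 1),
        Polynomial.C (F i j) * (Polynomial.X ^ ((deg w δ i).toNat - j) * Polynomial.C (0 ^ j))
      else 0
    have hPP : ∀ (F : Fin M → ℕ → k) (i : Fin M) (p : k),
        (PP F i).eval p = gval w δ F p 0 i := by
      intro F i p
      simp only [PP, gval]
      split_ifs
      · rw [Polynomial.eval_finsetSum]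
        refine Finset.sum_congr rfl fun j _ => ?_
        simp
      · simp
    intro E hE
    have hev : ∀ p : k, (∑ j, aeval (PP F) (pderiv j E) * PP G j).eval p =
        dif E (gval w δ F p 0) (gval w δ G p 0) := by
      intro p
      rw [Polynomial.eval_finsetSum]
      unfold dif
      refine Finset.sum_congr rfl fun j _ => ?_
      rw [Polynomial.eval_mul, projVF_eval, hPP]
      congr 2
      congr 1
      funext i
      exact hPP F i p
    have hzero : (∑ j, aeval (PP F) (pderiv j E) * PP G j) = 0 := by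
      apply Polynomial.eq_zero_of_infinite_isRoot
      have h1 : ({0} : Set k)ᶜ.Infinite := (Set.finite_singleton 0).infinite_compl
      refine h1.mono fun s hs => ?_
      show Polynomial.eval s _ = 0
      rw [hev]
      exact h s 0 (Or.inl (by simpa using hs)) E hE
    rw [← hev, hzero, Polynomial.eval_zero]

/-- a very free curve in the cone over `V#` projects to a very free curve in `V` -/
theorem proj_veryFree [IsAlgClosed k] (hn : ∀ i l, w i l = (D : ℤ) - n i l)
    (hY : IsTorsor w c Y) (hD : (D : k) ≠ 0) (hr : 0 < r) {e : ℕ} (U : Fin (e + 1) → Idx D n → k)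
    (hU : IsCurveS (cone D n Y) U) (hvf : VeryFreeS (cone D n Y) U) (δ : Fin r → ℕ)
    (A : Fin r → Fin 2 → ℕ → k) (F : Fin M → ℕ → k) (he : e = D * ∑ l, δ l)
    (hA : ∀ p q : k, (p ≠ 0 ∨ q ≠ 0) → ∀ l, (fun j => fval (δ l) (A l j) p q) ≠ 0)
    (hFU : ∀ p q : k, val U p q =
      emb D n (gval w (fun l => (δ l : ℤ)) F p q) (fun l j => fval (δ l) (A l j) p q)) :
    IsGCurve w Y (fun l => (δ l : ℤ)) F ∧ GVeryFree w Y (fun l => (δ l : ℤ)) F := by
  classical
  have hinf : Infinite k := IsAlgClosed.instInfinite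
  have hD0 : 0 < D := by
    rcases Nat.eq_zero_or_pos D with h | h
    · rw [h, Nat.cast_zero] at hD
      exact absurd rfl hD
    · exact h
  have hx : ∀ p q : k, (p ≠ 0 ∨ q ≠ 0) → gval w (fun l => (δ l : ℤ)) F p q ∈ Y := by
    intro p q hpq
    obtain ⟨x1, hx1, y1, hy1, h1⟩ := hU p q hpq
    rw [hFU] at h1
    obtain ⟨t, ht, -⟩ := emb_inj hn hD0 (hA p q hpq) hy1 h1.symm
    rw [ht]
    exact act_mem hY t hx1
  refine ⟨hx, fun p q p' q' hdet ξ hξ ξ' hξ' => ?_⟩
  have hpq : p ≠ 0 ∨ q ≠ 0 := by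
    by_contra hcon
    push Not at hcon
    rw [hcon.1, hcon.2] at hdet
    simp at hdet
  have hpq' : p' ≠ 0 ∨ q' ≠ 0 := by
    by_contra hcon
    push Not at hcon
    rw [hcon.1, hcon.2] at hdet
    simp at hdet
  have hω := demb_mem (D := D) (n := n) (hx p q hpq) (hA p q hpq) hξ 0
  have hω' := demb_mem (D := D) (n := n) (hx p' q' hpq') (hA p' q' hpq') hξ' 0
  rw [← hFU] at hω hω'
  obtain ⟨Gs, hGs, ⟨a, ha⟩, ⟨a', ha'⟩⟩ := hvf p q p' q' hdet _ hω _ hω'
  -- the section in the coordinates `(x, y)`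
  have h3 : ∀ p q : k, ∃ z : (Fin M → k) × (Fin r → Fin 2 → k), (p ≠ 0 ∨ q ≠ 0) →
      z.1 ∈ Tan Y (gval w (fun l => (δ l : ℤ)) F p q) ∧ val Gs p q =
        demb D n (gval w (fun l => (δ l : ℤ)) F p q) (fun l j => fval (δ l) (A l j) p q)
          z.1 z.2 := by
    intro p q
    by_cases h : p ≠ 0 ∨ q ≠ 0
    · have h4 := hGs p q
      rw [hFU] at h4
      obtain ⟨ξ, hξ, η, hη⟩ := exists_demb hn hY hD hr (hx p q h) (hA p q h) h4
      exact ⟨(ξ, η), fun _ => ⟨hξ, hη⟩⟩
    · exact ⟨0, fun h' => absurd h' h⟩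
  choose z hz using h3
  obtain ⟨H, hH⟩ := projVF_theta hD0 U Gs δ A he hA (fun p q => gval w (fun l => (δ l : ℤ)) F p q)
    (fun p q => (z p q).1) (fun p q => (z p q).2) hFU (fun p q hpq => (hz p q hpq).2)
  have h5 : ∀ p q : k, ∃ z' : (Fin M → k) × k, (p ≠ 0 ∨ q ≠ 0) →
      z'.1 ∈ Tan Y (gval w (fun l => (δ l : ℤ)) F p q) ∧ val Gs p q =
        demb D n (gval w (fun l => (δ l : ℤ)) F p q) (fun l j => fval (δ l) (A l j) p q)
          z'.1 (fun l j => fval (δ l) (H l j) p q) + z'.2 • val U p q := by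
    intro p q
    by_cases h : p ≠ 0 ∨ q ≠ 0
    · obtain ⟨ξ1, hξ1, s, hs⟩ := projVF_change (D := D) (n := n) hn hY (hx p q h) (hA p q h)
        (hz p q h).1 (z p q).2 (fun l j => fval (δ l) (H l j) p q) (hH p q h)
      refine ⟨(ξ1, s), fun _ => ⟨hξ1, ?_⟩⟩
      rw [(hz p q h).2, hFU]
      exact hs
    · exact ⟨0, fun h' => absurd h' h⟩
  choose z' hz' using h5
  obtain ⟨s0, hs0⟩ := projVF_const U Gs δ A H he hA
    (fun p q => gval w (fun l => (δ l : ℤ)) F p q) (fun p q => (z' p q).1)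
    (fun p q => (z' p q).2) hFU (fun p q hpq => (hz' p q hpq).2)
  have h6 : ∀ p q : k, (p ≠ 0 ∨ q ≠ 0) → val Gs p q =
      demb D n (gval w (fun l => (δ l : ℤ)) F p q) (fun l j => fval (δ l) (A l j) p q)
        (z' p q).1 (fun l j => fval (δ l) (H l j) p q) + s0 • val U p q := by
    intro p q h
    rw [← hs0 p q h]
    exact (hz' p q h).2
  obtain ⟨G, hG⟩ := projVF_form hn U Gs δ A H he hA F (fun p q => (z' p q).1) s0 hFU h6
  have key : ∀ (p q : k) (ξ : Fin M → k) (a : k), (p ≠ 0 ∨ q ≠ 0) →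
      val Gs p q = demb D n (gval w (fun l => (δ l : ℤ)) F p q)
        (fun l j => fval (δ l) (A l j) p q) ξ 0 + a • val U p q →
      ∃ c : Fin r → k, gval w (fun l => (δ l : ℤ)) G p q =
        ξ + radial w (gval w (fun l => (δ l : ℤ)) F p q) c := by
    intro p q ξ a h h7
    have h8 := h6 p q h
    have h9 : demb D n (gval w (fun l => (δ l : ℤ)) F p q) (fun l j => fval (δ l) (A l j) p q)
        ((z' p q).1 - ξ) (fun l j => fval (δ l) (H l j) p q) = (a - s0) •
          emb D n (gval w (fun l => (δ l : ℤ)) F p q) (fun l j => fval (δ l) (A l j) p q) := by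
      have h10 := demb_add (D := D) (n := n) (gval w (fun l => (δ l : ℤ)) F p q)
        (fun l j => fval (δ l) (A l j) p q) ((z' p q).1 - ξ) ξ
        (fun l j => fval (δ l) (H l j) p q) 0
      rw [sub_add_cancel, add_zero] at h10
      rw [h10, h7, hFU] at h8
      rw [sub_smul]
      have h11 : ∀ u v x y : Idx D n → k, u + x = v + u + y → v = x - y := by
        intro u v x y h
        have h12 : v = u + x - u - y := by rw [h]; abel
        rw [h12]
        abel
      exact h11 _ _ _ _ h8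
    obtain ⟨c, hc, -⟩ := demb_eq_zero hn hD (hA p q h) h9
    refine ⟨c, ?_⟩
    rw [hG p q h, ← hc]
    abel
  refine ⟨G, projVF_tan _ F G fun p q h => ?_, key p q ξ a hpq ha, key p' q' ξ' a' hpq' ha'⟩
  rw [hG p q h]
  exact (hz' p q h).1

end

end Pool.Agent.VFG
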