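import Pool.Agent.Lib_MP_1858fb_g.Forms
import Pool.Agent.Lib_MP_1858fb_sp.Naka

/-!
# MP_1858fb_ag, line G: functions of `(p, q)` that are binary forms

`Fm d f`: the function `f` is a binary form of degree `d`. `Fm.ratio`: a quotient of forms by a
family of forms without common zeros is a form. `FmD`: the same over the dual numbers.
-/

set_option autoImplicit false

namespace Pool.Agent.VFG

open Polynomial

namespace Rt

variable {k : Type} [Field k]

/-- the dehomogenisation -/
noncomputable def pol (d : ℕ) (a : ℕ → k) : k[X] :=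
  ∑ j ∈ Finset.range (d + 1), monomial j (a j)

theorem coeff_pol (d : ℕ) (a : ℕ → k) (n : ℕ) :
    (pol d a).coeff n = if n ≤ d then a n else 0 := by
  unfold pol
  rw [finsetSum_coeff]
  simp only [coeff_monomial]
  rw [Finset.sum_ite_eq']
  by_cases h : n ≤ d
  · rw [if_pos (Finset.mem_range.2 (by omega)), if_pos h]
  · rw [if_neg (fun h' => h (by have := Finset.mem_range.1 h'; omega)), if_neg h]

theorem natDegree_pol (d : ℕ) (a : ℕ → k) : (pol d a).natDegree ≤ d := by
  rw [natDegree_le_iff_coeff_eq_zero]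
  intro n hn
  rw [coeff_pol, if_neg (by omega)]

theorem fval_one (d : ℕ) (a : ℕ → k) (x : k) : fval d a 1 x = (pol d a).eval x := by
  unfold fval pol
  rw [eval_finsetSum]
  refine Finset.sum_congr rfl fun j _ => ?_
  rw [eval_monomial, one_pow, one_mul]

theorem fval_zero_left (d : ℕ) (a : ℕ → k) (q : k) : fval d a 0 q = a d * q ^ d := by
  unfold fval
  rw [Finset.sum_eq_single d]
  · rw [Nat.sub_self, pow_zero, one_mul]
  · intro j hj hjd
    have := Finset.mem_range.1 hj
    rw [zero_pow (by omega), zero_mul, mul_zero]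
  · intro h
    exact absurd (Finset.mem_range.2 (by omega)) h

theorem fval_eq_mul (d : ℕ) (a : ℕ → k) {p : k} (hp : p ≠ 0) (q : k) :
    fval d a p q = p ^ d * (pol d a).eval (q / p) := by
  rw [← fval_one]
  unfold fval
  rw [Finset.mul_sum]
  refine Finset.sum_congr rfl fun j hj => ?_
  have h1 : d = (d - j) + j := by
    have := Finset.mem_range.1 hj
    omega
  have h2 : p ^ d = p ^ (d - j) * p ^ j := by rw [← pow_add, ← h1]
  rw [one_pow, one_mul, h2, div_pow]
  field_simp

theorem fval_of_pol {d : ℕ} {a : ℕ → k} {P : k[X]} (h : pol d a = P) {p : k} (hp : p ≠ 0) (q : k) :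
    fval d a p q = p ^ d * P.eval (q / p) := by
  rw [← h]
  exact fval_eq_mul d a hp q

theorem pol_coeff {d : ℕ} {P : k[X]} (hP : P.natDegree ≤ d) : pol d P.coeff = P := by
  ext n
  rw [coeff_pol]
  split_ifs with h
  · rfl
  · rw [coeff_eq_zero_of_natDegree_lt (by omega)]

/-- a function that is locally a quotient of forms of degrees `β` and `α` is a form of degree
`β - α` -/
theorem exists_ratio [IsAlgClosed k] {J : Type} [Finite J] (α β : ℕ) (z w : J → ℕ → k)
    (s : k → k → k) (hz : ∀ p q : k, (p ≠ 0 ∨ q ≠ 0) → ∃ j, fval α (z j) p q ≠ 0)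
    (hs : ∀ j, ∀ p q : k, (p ≠ 0 ∨ q ≠ 0) → fval β (w j) p q = fval α (z j) p q * s p q) :
    (α ≤ β → ∃ S : ℕ → k, ∀ p q : k, (p ≠ 0 ∨ q ≠ 0) → s p q = fval (β - α) S p q) ∧
    (β < α → ∀ p q : k, (p ≠ 0 ∨ q ≠ 0) → s p q = 0) := by
  classical
  have := Fintype.ofFinite J
  have hinf : Infinite k := IsAlgClosed.instInfinite
  have h1 : Ideal.span (Set.range fun j => pol α (z j)) = ⊤ := by
    refine Pool.Agent.SP1858.span_eq_top_of_no_zero _ fun x => ?_
    obtain ⟨j, hj⟩ := hz 1 x (Or.inl one_ne_zero)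
    exact ⟨j, by rwa [← fval_one]⟩
  have h2 : (1 : k[X]) ∈ Ideal.span (Set.range fun j => pol α (z j)) := by
    rw [h1]
    exact Submodule.mem_top
  obtain ⟨C', hC⟩ := Ideal.mem_span_range_iff_exists_fun.1 h2
  let S : k[X] := ∑ j, C' j * pol β (w j)
  have hw : ∀ j (x : k), (pol β (w j)).eval x = (pol α (z j)).eval x * s 1 x := by
    intro j x
    rw [← fval_one, ← fval_one]
    exact hs j 1 x (Or.inl one_ne_zero)
  have hS : ∀ x : k, S.eval x = s 1 x := by
    intro x
    have h3 := congrArg (eval x) hC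
    rw [eval_finsetSum, eval_one] at h3
    simp only [S]
    rw [eval_finsetSum]
    calc ∑ j, (C' j * pol β (w j)).eval x = ∑ j, (C' j * pol α (z j)).eval x * s 1 x := by
          refine Finset.sum_congr rfl fun j _ => ?_
          rw [eval_mul, hw, eval_mul, mul_assoc]
      _ = s 1 x := by rw [← Finset.sum_mul, h3, one_mul]
  have hWZ : ∀ j, pol β (w j) = pol α (z j) * S := by
    intro j
    apply Polynomial.funext
    intro x
    rw [eval_mul, hS, hw]
  obtain ⟨j0, hj0⟩ := hz 0 1 (Or.inr one_ne_zero)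
  rw [fval_zero_left, one_pow, mul_one] at hj0
  have hdeg : S ≠ 0 → α + S.natDegree ≤ β := by
    intro hS0
    have h3 : (pol α (z j0)).coeff α ≠ 0 := by rw [coeff_pol, if_pos le_rfl]; exact hj0
    have h4 : α ≤ (pol α (z j0)).natDegree := le_natDegree_of_ne_zero h3
    have h5 : pol α (z j0) ≠ 0 := by
      rintro h6
      rw [h6, coeff_zero] at h3
      exact h3 rfl
    have h6 := natDegree_pol β (w j0)
    rw [hWZ, natDegree_mul h5 hS0] at h6
    omega
  constructor
  · intro hαβ
    have hSd : S.natDegree ≤ β - α := by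
      by_cases h : S = 0
      · rw [h, natDegree_zero]
        exact Nat.zero_le _
      · have := hdeg h
        omega
    refine ⟨S.coeff, fun p q hpq => ?_⟩
    obtain ⟨j, hj⟩ := hz p q hpq
    apply mul_left_cancel₀ hj
    rw [← hs j p q hpq]
    have hβ : β = α + (β - α) := by omega
    by_cases hp : p = 0
    · rw [hp, fval_zero_left, fval_zero_left, fval_zero_left]
      have h3 : w j β = z j α * S.coeff (β - α) := by
        have h4 := coeff_mul_add_eq_of_natDegree_le (natDegree_pol α (z j)) hSd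
        rw [← hβ, ← hWZ, coeff_pol, coeff_pol, if_pos le_rfl, if_pos le_rfl] at h4
        exact h4
      have h4 : q ^ β = q ^ α * q ^ (β - α) := by rw [← pow_add, ← hβ]
      rw [h3, h4]
      ring
    · rw [fval_of_pol (hWZ j) hp, fval_eq_mul α _ hp, fval_of_pol (pol_coeff hSd) hp, eval_mul]
      have h4 : p ^ β = p ^ α * p ^ (β - α) := by rw [← pow_add, ← hβ]
      rw [h4]
      ring
  · intro hβα p q hpq
    have hS0 : S = 0 := by
      by_contra h
      have := hdeg h
      omega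
    obtain ⟨j, hj⟩ := hz p q hpq
    have h3 : fval β (w j) p q = 0 := by
      have h4 : pol β (w j) = 0 := by rw [hWZ, hS0, mul_zero]
      by_cases hp : p = 0
      · have h5 := congrArg (fun P => coeff P β) h4
        simp only [coeff_pol, le_refl, if_true, coeff_zero] at h5
        rw [hp, fval_zero_left, h5, zero_mul]
      · rw [fval_of_pol h4 hp, eval_zero, mul_zero]
    rw [hs j p q hpq] at h3
    exact (mul_eq_zero.1 h3).resolve_left hj

end Rt

open Rt

section Fm

variable {k : Type} [Field k]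

/-- the function `f` of `(p, q)` is a binary form of degree `d` -/
def Fm (d : ℕ) (f : k → k → k) : Prop := ∃ c : ℕ → k, ∀ p q, f p q = fval d c p q

theorem Fm.fval (d : ℕ) (c : ℕ → k) : Fm d (fun p q => fval d c p q) := ⟨c, fun _ _ => rfl⟩

theorem Fm.congr {d d' : ℕ} {f g : k → k → k} (h : Fm d f) (hd : d = d') (hfg : ∀ p q, g p q = f p q) :
    Fm d' g := by
  subst hd
  obtain ⟨c, hc⟩ := h
  exact ⟨c, fun p q => by rw [hfg, hc]⟩

theorem Fm.zero (d : ℕ) : Fm d (fun _ _ => (0 : k)) :=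
  ⟨fun _ => 0, fun p q => by simp [VFG.fval]⟩

theorem Fm.const (c : k) : Fm 0 (fun _ _ => c) :=
  ⟨fun _ => c, fun p q => by simp [VFG.fval]⟩

theorem Fm.add {d : ℕ} {f g : k → k → k} (hf : Fm d f) (hg : Fm d g) :
    Fm d (fun p q => f p q + g p q) := by
  obtain ⟨a, ha⟩ := hf
  obtain ⟨b, hb⟩ := hg
  refine ⟨fun j => a j + b j, fun p q => ?_⟩
  show f p q + g p q = _
  rw [ha, hb]
  unfold VFG.fval
  rw [← Finset.sum_add_distrib]
  exact Finset.sum_congr rfl fun j _ => by ring

theorem Fm.const_mul {d : ℕ} (c : k) {f : k → k → k} (hf : Fm d f) :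
    Fm d (fun p q => c * f p q) := by
  obtain ⟨a, ha⟩ := hf
  refine ⟨fun j => c * a j, fun p q => ?_⟩
  show c * f p q = _
  rw [ha]
  unfold VFG.fval
  rw [Finset.mul_sum]
  exact Finset.sum_congr rfl fun j _ => by ring

theorem Fm.neg {d : ℕ} {f : k → k → k} (hf : Fm d f) : Fm d (fun p q => -f p q) :=
  (hf.const_mul (-1)).congr rfl fun p q => by ring

theorem Fm.sub {d : ℕ} {f g : k → k → k} (hf : Fm d f) (hg : Fm d g) :
    Fm d (fun p q => f p q - g p q) :=
  (hf.add hg.neg).congr rfl fun p q => by ring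

theorem Fm.sum {ι : Type} (s : Finset ι) {d : ℕ} {f : ι → k → k → k} (hf : ∀ i ∈ s, Fm d (f i)) :
    Fm d (fun p q => ∑ i ∈ s, f i p q) := by
  classical
  induction s using Finset.induction_on with
  | empty => exact (Fm.zero d).congr rfl fun p q => by simp
  | insert a s ha ih =>
    refine ((hf a (Finset.mem_insert_self a s)).add
      (ih fun i hi => hf i (Finset.mem_insert_of_mem hi))).congr rfl fun p q => ?_
    rw [Finset.sum_insert ha]

theorem Fm.mul {d e : ℕ} {f g : k → k → k} (hf : Fm d f) (hg : Fm e g) :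
    Fm (d + e) (fun p q => f p q * g p q) := by
  obtain ⟨a, ha⟩ := hf
  obtain ⟨b, hb⟩ := hg
  obtain ⟨c, hc⟩ := exists_fval_mul d e a b
  exact ⟨c, fun p q => by
    show f p q * g p q = _
    rw [hc, ha, hb]⟩

theorem Fm.pow {d : ℕ} {f : k → k → k} (hf : Fm d f) (m : ℕ) :
    Fm (m * d) (fun p q => f p q ^ m) := by
  obtain ⟨a, ha⟩ := hf
  obtain ⟨c, hc⟩ := exists_fval_pow d a m
  exact ⟨c, fun p q => by
    show f p q ^ m = _
    rw [hc, ha]⟩

theorem Fm.prod {ι : Type} (s : Finset ι) {d : ι → ℕ} {f : ι → k → k → k}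
    (hf : ∀ i ∈ s, Fm (d i) (f i)) : Fm (∑ i ∈ s, d i) (fun p q => ∏ i ∈ s, f i p q) := by
  classical
  induction s using Finset.induction_on with
  | empty => exact (Fm.const (1 : k)).congr (by simp) fun p q => by simp
  | insert a s ha ih =>
    refine ((hf a (Finset.mem_insert_self a s)).mul
      (ih fun i hi => hf i (Finset.mem_insert_of_mem hi))).congr ?_ fun p q => ?_
    · rw [Finset.sum_insert ha]
    · rw [Finset.prod_insert ha]

/-- the coordinates of `val` -/
theorem Fm.val {κ : Type} {e : ℕ} (F : Fin (e + 1) → κ → k) (i : κ) :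
    Fm e (fun p q => VF.val F p q i) := by
  refine ⟨fun j => if h : j < e + 1 then F ⟨j, h⟩ i else 0, fun p q => ?_⟩
  unfold VF.val VFG.fval
  rw [← Fin.sum_univ_eq_sum_range
    (fun j => (if h : j < e + 1 then F ⟨j, h⟩ i else 0) * (p ^ (e - j) * q ^ j)) (e + 1)]
  refine Finset.sum_congr rfl fun j _ => ?_
  rw [dif_pos j.2]

/-- a form is the coordinate of a tuple -/
theorem Fm.exists_val {κ : Type} {e : ℕ} {f : κ → k → k → k} (hf : ∀ i, Fm e (f i)) :
    ∃ F : Fin (e + 1) → κ → k, ∀ p q i, VF.val F p q i = f i p q := by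
  choose c hc using hf
  refine ⟨fun j i => c i j, fun p q i => ?_⟩
  rw [hc]
  unfold VF.val VFG.fval
  exact Fin.sum_univ_eq_sum_range (fun j => c i j * (p ^ (e - j) * q ^ j)) (e + 1)

/-- a form that vanishes off `0` vanishes at `0` -/
theorem Fm.eq_zero [Infinite k] {d : ℕ} {f : k → k → k} (hf : Fm d f)
    (h : ∀ p q : k, (p ≠ 0 ∨ q ≠ 0) → f p q = 0) (p q : k) : f p q = 0 := by
  by_cases hpq : p ≠ 0 ∨ q ≠ 0
  · exact h p q hpq
  · push Not at hpq
    obtain ⟨rfl, rfl⟩ := hpq
    obtain ⟨c, hc⟩ := hf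
    have h1 := h 1 0 (Or.inl one_ne_zero)
    rw [hc] at h1 ⊢
    rw [fval_zero_left]
    rcases Nat.eq_zero_or_pos d with hd | hd
    · subst hd
      rw [fval_one] at h1
      have h2 : pol 0 c = C (c 0) := by
        ext n
        rw [coeff_pol, coeff_C]
        by_cases hn : n = 0
        · rw [hn]; simp
        · rw [if_neg (by omega), if_neg hn]
      rw [h2, eval_C] at h1
      rw [h1, zero_mul]
    · rw [zero_pow (by omega), mul_zero]

theorem Fm.ratio [IsAlgClosed k] {J : Type} [Finite J] {α β : ℕ} {z w : J → k → k → k}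
    (hzF : ∀ j, Fm α (z j)) (hwF : ∀ j, Fm β (w j)) (s : k → k → k)
    (hz : ∀ p q : k, (p ≠ 0 ∨ q ≠ 0) → ∃ j, z j p q ≠ 0)
    (hs : ∀ j, ∀ p q : k, (p ≠ 0 ∨ q ≠ 0) → w j p q = z j p q * s p q) :
    (α ≤ β → ∃ S : ℕ → k, ∀ p q : k, (p ≠ 0 ∨ q ≠ 0) → s p q = VFG.fval (β - α) S p q) ∧
    (β < α → ∀ p q : k, (p ≠ 0 ∨ q ≠ 0) → s p q = 0) := by
  choose z' hz' using hzF
  choose w' hw' using hwF
  refine exists_ratio α β z' w' s (fun p q hpq => ?_) fun j p q hpq => ?_
  · obtain ⟨j, hj⟩ := hz p q hpq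
    exact ⟨j, by rwa [← hz']⟩
  · rw [← hw', ← hz']
    exact hs j p q hpq

end Fm

section FmD

variable {k : Type} [Field k]

/-- a function with values in the dual numbers whose two components are forms of degree `d` -/
def FmD (d : ℕ) (f : k → k → TrivSqZeroExt k k) : Prop :=
  Fm d (fun p q => (f p q).fst) ∧ Fm d (fun p q => (f p q).snd)

theorem FmD.congr {d d' : ℕ} {f g : k → k → TrivSqZeroExt k k} (h : FmD d f) (hd : d = d')
    (hfg : ∀ p q, g p q = f p q) : FmD d' g :=
  ⟨h.1.congr hd fun p q => by rw [hfg], h.2.congr hd fun p q => by rw [hfg]⟩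

theorem FmD.one : FmD 0 (fun _ _ => (1 : TrivSqZeroExt k k)) :=
  ⟨(Fm.const (1 : k)).congr rfl fun _ _ => TrivSqZeroExt.fst_one,
    (Fm.zero 0).congr rfl fun _ _ => TrivSqZeroExt.snd_one⟩

theorem FmD.mul {d e : ℕ} {f g : k → k → TrivSqZeroExt k k} (hf : FmD d f) (hg : FmD e g) :
    FmD (d + e) (fun p q => f p q * g p q) := by
  refine ⟨(hf.1.mul hg.1).congr rfl fun p q => TrivSqZeroExt.fst_mul _ _, ?_⟩
  refine ((hf.1.mul hg.2).add ((hg.1.mul hf.2).congr (Nat.add_comm _ _) fun p q => rfl)).congr rfl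
    fun p q => ?_
  rw [TrivSqZeroExt.snd_mul]
  simp [mul_comm]

theorem FmD.pow {d : ℕ} {f : k → k → TrivSqZeroExt k k} (hf : FmD d f) (m : ℕ) :
    FmD (m * d) (fun p q => f p q ^ m) := by
  induction m with
  | zero => exact FmD.one.congr (by simp) fun p q => pow_zero _
  | succ m ih => exact (ih.mul hf).congr (by ring) fun p q => pow_succ _ _

theorem FmD.prod {ι : Type} (s : Finset ι) {d : ι → ℕ} {f : ι → k → k → TrivSqZeroExt k k}
    (hf : ∀ i ∈ s, FmD (d i) (f i)) : FmD (∑ i ∈ s, d i) (fun p q => ∏ i ∈ s, f i p q) := by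
  classical
  induction s using Finset.induction_on with
  | empty => exact FmD.one.congr (by simp) fun p q => by simp
  | insert a s ha ih =>
    refine ((hf a (Finset.mem_insert_self a s)).mul
      (ih fun i hi => hf i (Finset.mem_insert_of_mem hi))).congr ?_ fun p q => ?_
    · rw [Finset.sum_insert ha]
    · rw [Finset.prod_insert ha]

/-- a dual number with components that are forms -/
theorem FmD.mk {d : ℕ} {f g : k → k → k} (hf : Fm d f) (hg : Fm d g) :
    FmD d (fun p q => (TrivSqZeroExt.inl (f p q) + TrivSqZeroExt.inr (g p q) :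
      TrivSqZeroExt k k)) :=
  ⟨hf.congr rfl fun p q => by simp, hg.congr rfl fun p q => by simp⟩

theorem FmD.mon {r : ℕ} {δ : Fin r → ℕ} {y : Fin r → Fin 2 → k → k → TrivSqZeroExt k k}
    (hy : ∀ l j, FmD (δ l) (y l j)) (N : Fin r → ℕ) (b : ∀ l, Fin (N l + 1)) :
    FmD (∑ l, N l * δ l) (fun p q => mon N b (fun l j => y l j p q)) := by
  unfold VFG.mon
  refine FmD.prod _ fun l _ => ?_
  refine ((((hy l 0).pow (N l - (b l : ℕ))).mul ((hy l 1).pow (b l : ℕ)))).congr ?_ fun p q => rfl
  rw [← Nat.add_mul]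
  congr 1
  have := (b l).2
  omega

theorem Fm.mon {r : ℕ} {δ : Fin r → ℕ} {y : Fin r → Fin 2 → k → k → k}
    (hy : ∀ l j, Fm (δ l) (y l j)) (N : Fin r → ℕ) (b : ∀ l, Fin (N l + 1)) :
    Fm (∑ l, N l * δ l) (fun p q => mon N b (fun l j => y l j p q)) := by
  unfold VFG.mon
  refine Fm.prod _ fun l _ => ?_
  refine ((((hy l 0).pow (N l - (b l : ℕ))).mul ((hy l 1).pow (b l : ℕ)))).congr ?_ fun p q => rfl
  rw [← Nat.add_mul]
  congr 1
  have := (b l).2
  omega

end FmD

end Pool.Agent.VFG
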