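import Pool.Agent.Lib_MP_1858fb_g.Recover0
import Pool.Agent.Lib_MP_1858fb_g.Ratio

/-!
# MP_1858fb_ag, line G, piece G11: recovery of the multidegree forms
-/

set_option autoImplicit false

namespace Pool.Agent.VFG

open Polynomial Pool.Agent.VF Rt

section

variable {k : Type} [Field k]

/-- two forms of the same degree which agree at `(1, x)` are equal -/
theorem Fm.ext_one [Infinite k] {d : ℕ} {f g : k → k → k} (hf : Fm d f) (hg : Fm d g)
    (h : ∀ x, f 1 x = g 1 x) (p q : k) : f p q = g p q := by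
  obtain ⟨c, hc0⟩ := hf.sub hg
  have hc : ∀ p q, f p q - g p q = VFG.fval d c p q := hc0
  have h1 : pol d c = 0 := by
    apply Polynomial.funext
    intro x
    rw [← fval_one, ← hc, eval_zero, h x, sub_self]
  have h2 : VFG.fval d c p q = 0 := by
    by_cases hp : p = 0
    · rw [hp, fval_zero_left]
      have h3 := coeff_pol d c d
      rw [h1, coeff_zero, if_pos le_rfl] at h3
      rw [← h3, zero_mul]
    · rw [fval_eq_mul d c hp, h1, eval_zero, mul_zero]
  rw [← hc] at h2
  exact sub_eq_zero.1 h2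

variable {M r D : ℕ} {w : Fin M → Fin r → ℤ} {n : Fin M → Fin r → ℕ} {c : ℕ} {Y : Set (Fin M → k)}

theorem emb_eval (P : Fin M → k[X]) (A : Fin r → Fin 2 → k[X]) (x : k) (s : Idx D n) :
    (emb D n P A s).eval x =
      emb D n (fun i => (P i).eval x) (fun l j => (A l j).eval x) s := by
  rcases s with a | ⟨i, b⟩
  · exact mon_map' (Polynomial.evalRingHom x) (fun _ => D) a A
  · have h1 : emb D n P A (Sum.inr ⟨i, b⟩) = P i * mon (n i) b A := rfl
    rw [h1, eval_mul]
    have h2 := mon_map' (Polynomial.evalRingHom x) (n i) b A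
    simp only [coe_evalRingHom] at h2
    rw [h2]
    rfl

theorem exists_recover [IsAlgClosed k] (hn : ∀ i l, w i l = (D : ℤ) - n i l)
    (hY : IsTorsor w c Y) (hD : 0 < D) {e : ℕ} (U : Fin (e + 1) → Idx D n → k)
    (hU : IsCurveS (cone D n Y) U) :
    ∃ (δ : Fin r → ℕ) (A : Fin r → Fin 2 → ℕ → k) (F : Fin M → ℕ → k),
      e = D * ∑ l, δ l ∧
      (∀ p q : k, (p ≠ 0 ∨ q ≠ 0) → ∀ l, (fun j => fval (δ l) (A l j) p q) ≠ 0) ∧
      ∀ p q : k, val U p q =
        emb D n (gval w (fun l => (δ l : ℤ)) F p q) (fun l j => fval (δ l) (A l j) p q) := by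
  have : Infinite k := IsAlgClosed.instInfinite
  choose cU hcU0 using fun s : Idx D n => Fm.val U s
  have hcU : ∀ (s : Idx D n) (p q : k), val U p q s = fval e (cU s) p q := hcU0
  have hone : ∀ (x : k) (s : Idx D n), (pol e (cU s)).eval x = val U 1 x s := by
    intro x s
    rw [← fval_one, ← hcU]
  have hinf : ∀ s : Idx D n, (pol e (cU s)).coeff e = val U 0 1 s := by
    intro s
    rw [coeff_pol, if_pos le_rfl, hcU, fval_zero_left, one_pow, mul_one]
  obtain ⟨δ, A, P, he, hAdeg, hAco, hAtop, hPdeg, hu⟩ := recover_poly (Y := Y) hD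
    (fun s => pol e (cU s)) (fun s => natDegree_pol e (cU s))
    (fun x => by
      obtain ⟨x0, hx0, y0, hy0, h0⟩ := hU 1 x (Or.inl one_ne_zero)
      exact ⟨x0, hx0, y0, hy0, by rw [h0]; funext s; exact (hone x s).symm⟩)
    (by
      obtain ⟨x0, hx0, y0, hy0, h0⟩ := hU 0 1 (Or.inr one_ne_zero)
      exact ⟨x0, hx0, y0, hy0, by rw [h0]; funext s; exact (hinf s).symm⟩)
  have hdegw : ∀ i, deg w (fun l => (δ l : ℤ)) i = (e : ℤ) - ((∑ l, n i l * δ l : ℕ) : ℤ) := by
    intro i
    rw [he]
    unfold deg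
    push_cast
    rw [Finset.mul_sum, ← Finset.sum_sub_distrib]
    refine Finset.sum_congr rfl fun l _ => ?_
    rw [hn]
    ring
  have hPzero : ∀ i, ¬ 0 ≤ deg w (fun l => (δ l : ℤ)) i → P i = 0 := by
    intro i hi
    by_contra hne
    have h1 := hPdeg i hne
    apply hi
    rw [hdegw]
    omega
  have hPpol : ∀ i, 0 ≤ deg w (fun l => (δ l : ℤ)) i →
      pol (deg w (fun l => (δ l : ℤ)) i).toNat (P i).coeff = P i := by
    intro i hi
    apply pol_coeff
    by_cases hne : P i = 0
    · rw [hne, natDegree_zero]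
      exact Nat.zero_le _
    · have h1 := hPdeg i hne
      have h2 := hdegw i
      omega
  refine ⟨δ, fun l j m => (A l j).coeff m, fun i j => (P i).coeff j, he, ?_, ?_⟩
  · intro p q hpq l h0
    have hz : ∀ j, fval (δ l) (fun m => (A l j).coeff m) p q = 0 := fun j => congrFun h0 j
    by_cases hp : p = 0
    · have hq : q ≠ 0 := hpq.resolve_left (not_not.2 hp)
      obtain ⟨j, hj⟩ := hAtop l
      have h1 := hz j
      rw [hp, fval_zero_left] at h1
      exact (mul_ne_zero hj (pow_ne_zero _ hq)) h1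
    · obtain ⟨a, b, hab⟩ := hAco l
      have h1 : ∀ j, (A l j).eval (q / p) = 0 := by
        intro j
        have h2 := hz j
        rw [fval_of_pol (pol_coeff (hAdeg l j)) hp] at h2
        exact (mul_eq_zero.1 h2).resolve_left (pow_ne_zero _ hp)
      have h3 := congrArg (Polynomial.eval (q / p)) hab
      rw [eval_add, eval_mul, eval_mul, h1, h1, mul_zero, mul_zero, add_zero, eval_one] at h3
      exact zero_ne_one h3
  · intro p q
    funext s
    have hA1 : ∀ (x : k) (l : Fin r) (j : Fin 2),
        fval (δ l) (fun m => (A l j).coeff m) 1 x = (A l j).eval x := by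
      intro x l j
      rw [fval_one, pol_coeff (hAdeg l j)]
    have hAF : ∀ l j, Fm (δ l) (fun p q => fval (δ l) (fun m => (A l j).coeff m) p q) :=
      fun l j => Fm.fval _ _
    have hgv : ∀ (i : Fin M) (p q : k), 0 ≤ deg w (fun l => (δ l : ℤ)) i →
        gval w (fun l => (δ l : ℤ)) (fun i j => (P i).coeff j) p q i =
          fval (deg w (fun l => (δ l : ℤ)) i).toNat (fun j => (P i).coeff j) p q := by
      intro i p q hi
      unfold gval
      rw [if_pos hi]
      rfl
    have hgv0 : ∀ (i : Fin M) (p q : k), ¬ 0 ≤ deg w (fun l => (δ l : ℤ)) i →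
        gval w (fun l => (δ l : ℤ)) (fun i j => (P i).coeff j) p q i = 0 := by
      intro i p q hi
      unfold gval
      rw [if_neg hi]
    have hR : Fm e (fun p q => emb D n (gval w (fun l => (δ l : ℤ)) (fun i j => (P i).coeff j) p q)
        (fun l j => fval (δ l) (fun m => (A l j).coeff m) p q) s) := by
      rcases s with a | ⟨i, b⟩
      · refine (Fm.mon hAF (fun _ => D) a).congr ?_ fun p q => rfl
        rw [he, Finset.mul_sum]
      · by_cases hi : 0 ≤ deg w (fun l => (δ l : ℤ)) i
        · refine ((Fm.fval (deg w (fun l => (δ l : ℤ)) i).toNat (fun j => (P i).coeff j)).mul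
            (Fm.mon hAF (n i) b)).congr ?_ fun p q => ?_
          · have h1 := hdegw i
            omega
          · rw [← hgv i p q hi]
            rfl
        · refine (Fm.zero e).congr rfl fun p q => ?_
          have h1 : emb D n (gval w (fun l => (δ l : ℤ)) (fun i j => (P i).coeff j) p q)
              (fun l j => fval (δ l) (fun m => (A l j).coeff m) p q) (Sum.inr ⟨i, b⟩) =
              gval w (fun l => (δ l : ℤ)) (fun i j => (P i).coeff j) p q i *
                mon (n i) b (fun l j => fval (δ l) (fun m => (A l j).coeff m) p q) := rfl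
          rw [h1, hgv0 i p q hi, zero_mul]
    refine Fm.ext_one (Fm.val U s) hR (fun x => ?_) p q
    rw [← hone]
    have h1 : pol e (cU s) = emb D n P A s := congrFun hu s
    rw [h1, emb_eval]
    congr 1
    · funext i
      by_cases hi : 0 ≤ deg w (fun l => (δ l : ℤ)) i
      · rw [hgv i 1 x hi, fval_one, hPpol i hi]
      · rw [hgv0 i 1 x hi, hPzero i hi, eval_zero]
    · funext l j
      exact (hA1 x l j).symm

end

end Pool.Agent.VFG
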