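import Pool.Agent.Lib_MP_1858fb_g.Act
import Pool.Agent.Lib_MP_1858fb_g.Graph
import Pool.Agent.Lib_MP_1858fb_g.ConeLem

/-!
# MP_1858fb_ag, line G, piece G7: the cone over `V#` is smooth
-/

set_option autoImplicit false

namespace Pool.Agent.VFG

open MvPolynomial Pool.Agent.VF

variable {k : Type} [Field k]

private theorem scReindex {σ τ : Type} [Fintype σ] [Fintype τ] (e : σ ≃ τ) {c : ℕ}
    {C : Set (σ → k)} {x : σ → k} (h : SmoothAt c C x) :
    SmoothAt c {y : τ → k | (fun i => y (e i)) ∈ C} (fun j => x (e.symm j)) := by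
  obtain ⟨E, H, h1, h2, h3, h4⟩ := h
  have hx : (fun j => x (e.symm j)) ∘ e = x := by funext i; simp
  have hae : ∀ (G : MvPolynomial σ k) (y : τ → k), aeval y (rename e G) = aeval (y ∘ e) G :=
    fun G y => aeval_rename e y G
  refine ⟨fun i => rename e (E i), rename e H, fun i y hy => ?_, ?_, ?_, fun G hG => ?_⟩
  · rw [hae]; exact h1 i _ hy
  · have h5 : (fun (i : Fin c) (j : τ) =>
        aeval (fun j => x (e.symm j)) (pderiv j (rename e (E i)))) =
        (LinearEquiv.funCongrLeft k k e.symm) ∘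
          (fun (i : Fin c) (j : σ) => aeval x (pderiv j (E i))) := by
      funext i j
      show _ = aeval x (pderiv (e.symm j) (E i))
      have h6 : pderiv j (rename e (E i)) = rename e (pderiv (e.symm j) (E i)) := by
        have := pderiv_rename e.injective (e.symm j) (E i)
        rwa [e.apply_symm_apply] at this
      rw [h6, hae, hx]
    rw [h5]
    exact h2.map' (LinearEquiv.funCongrLeft k k e.symm).toLinearMap
      (LinearMap.ker_eq_bot.2 (LinearEquiv.funCongrLeft k k e.symm).injective)
  · rw [hae, hx]; exact h3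
  · have h5 : rename e.symm G ∈ van C := by
      intro z hz
      rw [aeval_rename]
      refine hG _ ?_
      show (fun i => (z ∘ e.symm) (e i)) ∈ C
      have : (fun i => (z ∘ e.symm) (e i)) = z := by funext i; simp
      rw [this]; exact hz
    have h6 := Ideal.mem_map_of_mem (rename e : MvPolynomial σ k →ₐ[k] MvPolynomial τ k)
      (h4 _ h5)
    rw [map_mul, rename_rename, Ideal.map_span, ← Set.range_comp] at h6
    have h7 : (e : σ → τ) ∘ e.symm = id := by funext j; simp
    rw [h7, rename_id_apply] at h6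
    exact h6

section SmoothConeAux

variable {M r D : ℕ} {w : Fin M → Fin r → ℤ} {n : Fin M → Fin r → ℕ} {c : ℕ} {Y : Set (Fin M → k)}

private def scOth (e : Fin 2) : Fin 2 := if e = 0 then 1 else 0

private def scDst (N : Fin r → ℕ) (ε : Fin r → Fin 2) (b : ∀ l, Fin (N l + 1)) (l : Fin r) : ℕ :=
  if ε l = 0 then (b l : ℕ) else N l - (b l : ℕ)

private def scNb (hD : 0 < D) (ε : Fin r → Fin 2) (l0 : Fin r) : Fin r → Fin (D + 1) :=
  fun l => if l = l0 then ⟨if ε l = 0 then 1 else D - 1, by split_ifs <;> omega⟩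
    else cor (fun _ => D) ε l

private theorem scMon_eq (N : Fin r → ℕ) (ε : Fin r → Fin 2) (b : ∀ l, Fin (N l + 1))
    (y : Fin r → Fin 2 → k) (hy : ∀ l, y l (ε l) = 1) :
    mon N b y = ∏ l, y l (scOth (ε l)) ^ scDst N ε b l := by
  unfold mon
  refine Finset.prod_congr rfl fun l _ => ?_
  have h := hy l
  unfold scOth scDst
  by_cases h0 : ε l = 0
  · rw [h0] at h
    simp [h0, h]
  · have h1 : ε l = 1 := by omega
    rw [h1] at h
    simp [h1, h]

private theorem scDst_cor (N : Fin r → ℕ) (ε : Fin r → Fin 2) (l : Fin r) :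
    scDst N ε (cor N ε) l = 0 := by
  unfold scDst cor
  split_ifs <;> simp

private theorem scDst_nb (hD : 0 < D) (ε : Fin r → Fin 2) (l0 l : Fin r) :
    scDst (fun _ => D) ε (scNb hD ε l0) l = if l = l0 then 1 else 0 := by
  by_cases h : l = l0
  · unfold scDst scNb
    rw [if_pos h, if_pos h]
    by_cases h0 : ε l = 0
    · simp [h0]
    · simp only [h0, if_false]
      omega
  · rw [if_neg h]
    have h1 : scDst (fun _ => D) ε (scNb hD ε l0) l = scDst (fun _ => D) ε (cor (fun _ => D) ε) l := by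
      unfold scDst scNb
      rw [if_neg h]
    rw [h1, scDst_cor]

/-- the chart indices -/
private def scChart (hD : 0 < D) (n : Fin M → Fin r → ℕ) (ε : Fin r → Fin 2) :
    Option (Fin r ⊕ Fin M) → Idx D n
  | none => cor0 D n ε
  | some (Sum.inl l) => Sum.inl (scNb hD ε l)
  | some (Sum.inr i) => Sum.inr ⟨i, cor (n i) ε⟩

private def scHead (n : Fin M → Fin r → ℕ) : Idx D n → Option (Fin r ⊕ Fin M)
  | Sum.inl _ => none
  | Sum.inr s => some (Sum.inr s.1)

private def scD (n : Fin M → Fin r → ℕ) (ε : Fin r → Fin 2) : Idx D n → Fin r → ℕ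
  | Sum.inl a => scDst (fun _ => D) ε a
  | Sum.inr s => scDst (n s.1) ε s.2

/-- the point of the cone with given chart coordinates -/
private noncomputable def scPt (n : Fin M → Fin r → ℕ) (ε : Fin r → Fin 2)
    (p : Option (Fin r ⊕ Fin M) → k) : Idx D n → k :=
  fun j => p (scHead n j) * ∏ l, (p (some (Sum.inl l)) / p none) ^ scD n ε j l

private theorem scPt_eq (n : Fin M → Fin r → ℕ) (ε : Fin r → Fin 2) (s : k) (x : Fin M → k)
    (y : Fin r → Fin 2 → k) (hs : s ≠ 0) (hy : ∀ l, y l (ε l) = 1) :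
    s • emb D n x y = scPt n ε (fun j => match j with
      | none => s
      | some (Sum.inl l) => s * y l (scOth (ε l))
      | some (Sum.inr i) => s * x i) := by
  funext j
  rw [Pi.smul_apply, smul_eq_mul]
  rcases j with a | ⟨i, b⟩
  · show s * mon (fun _ => D) a y = s * ∏ l, (s * y l (scOth (ε l)) / s) ^ scDst (fun _ => D) ε a l
    rw [scMon_eq _ ε _ _ hy]
    congr 1
    refine Finset.prod_congr rfl fun l _ => ?_
    rw [mul_div_cancel_left₀ _ hs]
  · show s * (x i * mon (n i) b y) = s * x i * ∏ l, (s * y l (scOth (ε l)) / s) ^ scDst (n i) ε b l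
    rw [scMon_eq _ ε _ _ hy, mul_assoc]
    congr 2
    refine Finset.prod_congr rfl fun l _ => ?_
    rw [mul_div_cancel_left₀ _ hs]

private theorem scPt_chart (hD : 0 < D) (n : Fin M → Fin r → ℕ) (ε : Fin r → Fin 2)
    (p : Option (Fin r ⊕ Fin M) → k) (hp : p none ≠ 0) (j : Option (Fin r ⊕ Fin M)) :
    scPt (D := D) n ε p (scChart hD n ε j) = p j := by
  rcases j with _ | l | i
  · show p none * ∏ l, _ ^ scDst (fun _ => D) ε (cor (fun _ => D) ε) l = p none
    simp only [scDst_cor, pow_zero, Finset.prod_const_one, mul_one]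
  · show p none * ∏ l', (p (some (Sum.inl l')) / p none) ^ scDst (fun _ => D) ε (scNb hD ε l) l' =
      p (some (Sum.inl l))
    simp only [scDst_nb, pow_ite, pow_one, pow_zero, Finset.prod_ite_eq', Finset.mem_univ, if_true]
    field_simp
  · show p (some (Sum.inr i)) * ∏ l, _ ^ scDst (n i) ε (cor (n i) ε) l = _
    simp only [scDst_cor, pow_zero, Finset.prod_const_one, mul_one]

private theorem scChart_injective (hD : 0 < D) (n : Fin M → Fin r → ℕ) (ε : Fin r → Fin 2) :
    Function.Injective (scChart hD n ε) := by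
  -- a point of `ℚ` with distinct coordinates separates the chart indices
  intro a b hab
  let p : Option (Fin r ⊕ Fin M) → ℚ := fun j => match j with
      | none => 1
      | some (Sum.inl l) => 2 + (l : ℕ)
      | some (Sum.inr i) => 2 + r + (i : ℕ)
  have h : p a = p b := by
    rw [← scPt_chart hD n ε p (by simp [p]) a, hab, scPt_chart hD n ε p (by simp [p]) b]
  rcases a with _ | l | i <;> rcases b with _ | l' | i'
  · rfl
  · exfalso
    have h' : (1 : ℚ) = 2 + (l' : ℕ) := h
    have := (l' : ℕ).cast_nonneg (α := ℚ)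
    linarith
  · exfalso
    have h' : (1 : ℚ) = 2 + r + (i' : ℕ) := h
    have h1 := (i' : ℕ).cast_nonneg (α := ℚ)
    have h2 := r.cast_nonneg (α := ℚ)
    linarith
  · exfalso
    have h' : 2 + ((l : ℕ) : ℚ) = 1 := h
    have := (l : ℕ).cast_nonneg (α := ℚ)
    linarith
  · have h' : (2 : ℚ) + (l : ℕ) = 2 + (l' : ℕ) := h
    have h1 : ((l : ℕ) : ℚ) = (l' : ℕ) := by linarith
    have h2 : (l : ℕ) = l' := by exact_mod_cast h1
    rw [Fin.ext h2]
  · exfalso
    have h' : (2 : ℚ) + (l : ℕ) = 2 + r + (i' : ℕ) := h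
    have h1 : ((l : ℕ) : ℚ) = ((r + i' : ℕ) : ℚ) := by push_cast; linarith
    have h2 : (l : ℕ) = r + i' := by exact_mod_cast h1
    have := l.2
    omega
  · exfalso
    have h' : 2 + (r : ℚ) + (i : ℕ) = 1 := h
    have h1 := (i : ℕ).cast_nonneg (α := ℚ)
    have h2 := r.cast_nonneg (α := ℚ)
    linarith
  · exfalso
    have h' : 2 + (r : ℚ) + (i : ℕ) = 2 + (l' : ℕ) := h
    have h1 : ((l' : ℕ) : ℚ) = ((r + i : ℕ) : ℚ) := by push_cast; linarith
    have h2 : (l' : ℕ) = r + i := by exact_mod_cast h1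
    have := l'.2
    omega
  · have h' : 2 + (r : ℚ) + (i : ℕ) = 2 + r + (i' : ℕ) := h
    have h1 : ((i : ℕ) : ℚ) = (i' : ℕ) := by linarith
    have h2 : (i : ℕ) = i' := by exact_mod_cast h1
    rw [Fin.ext h2]

/-- points of the cone with nonzero corner coordinate -/
private theorem scPt_of_cone (hn : ∀ i l, w i l = (D : ℤ) - n i l) (hY : IsTorsor w c Y)
    (hD : 0 < D) (ε : Fin r → Fin 2) {u : Idx D n → k} (hu : u ∈ cone D n Y)
    (h0 : u (cor0 D n ε) ≠ 0) :
    u = scPt n ε (fun j => u (scChart hD n ε j)) ∧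
      (fun i => u (scChart hD n ε (some (Sum.inr i))) / u (scChart hD n ε none)) ∈ Y := by
  obtain ⟨x, hx, y, hy, rfl⟩ := hu
  have hyε : ∀ l, y l (ε l) ≠ 0 := by
    intro l hl
    apply h0
    show mon (fun _ => D) (cor (fun _ => D) ε) y = 0
    unfold mon
    refine Finset.prod_eq_zero (Finset.mem_univ l) ?_
    unfold cor
    by_cases he : ε l = 0
    · rw [he] at hl
      simp [he, hl, hD.ne']
    · have h1 : ε l = 1 := by omega
      rw [h1] at hl
      simp [h1, hl, hD.ne']
  obtain ⟨s, x', y', hs, hx', hy', hxy⟩ := exists_nf hn hY ε hx hyε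
  have h1 := scPt_eq (D := D) n ε s x' y' hs hy'
  rw [← hxy] at h1
  set p : Option (Fin r ⊕ Fin M) → k := fun j => match j with
      | none => s
      | some (Sum.inl l) => s * y' l (scOth (ε l))
      | some (Sum.inr i) => s * x' i with hp
  have h2 : ∀ j, emb D n x y (scChart hD n ε j) = p j := by
    intro j
    rw [h1]
    exact scPt_chart hD n ε p hs j
  refine ⟨?_, ?_⟩
  · have h3 : (fun j => emb D n x y (scChart hD n ε j)) = p := funext h2
    rw [h3]
    exact h1
  · have h3 : (fun i => emb D n x y (scChart hD n ε (some (Sum.inr i))) /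
        emb D n x y (scChart hD n ε none)) = x' := by
      funext i
      rw [h2, h2]
      show s * x' i / s = x' i
      rw [mul_div_cancel_left₀ _ hs]
    rw [h3]
    exact hx'

private theorem scPt_mem [IsAlgClosed k] (hn : ∀ i l, w i l = (D : ℤ) - n i l)
    (hY : IsTorsor w c Y) (hD : 0 < D) (hr : 0 < r) (ε : Fin r → Fin 2)
    (p : Option (Fin r ⊕ Fin M) → k) (hp : p none ≠ 0)
    (hpY : (fun i => p (some (Sum.inr i)) / p none) ∈ Y) : scPt n ε p ∈ cone D n Y := by
  classical
  have h1 : scPt (D := D) n ε p = p none • emb D n (fun i => p (some (Sum.inr i)) / p none)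
      (fun l e => if e = ε l then 1 else p (some (Sum.inl l)) / p none) := by
    rw [scPt_eq (D := D) n ε _ _ _ hp (fun l => if_pos rfl)]
    congr 1
    funext j
    rcases j with _ | l | i
    · rfl
    · show _ = p none * (if scOth (ε l) = ε l then 1 else p (some (Sum.inl l)) / p none)
      rw [if_neg, mul_div_cancel₀ _ hp]
      unfold scOth
      by_cases h : ε l = 0
      · simp [h]
      · have h' : ε l = 1 := by omega
        simp [h']
    · show _ = p none * (p (some (Sum.inr i)) / p none)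
      rw [mul_div_cancel₀ _ hp]
  rw [h1]
  refine cone_smul hn hY hD hr ⟨_, hpY, _, fun l => ?_, rfl⟩ hp
  intro h
  have := congrFun h (ε l)
  simp at this

private theorem scProd_pow (p : Option (Fin r ⊕ Fin M) → k) (hp : p none ≠ 0) (t : Fin r → ℕ) :
    p none ^ (∑ l, t l) * ∏ l, (p (some (Sum.inl l)) / p none) ^ t l =
      ∏ l, p (some (Sum.inl l)) ^ t l := by
  rw [← Finset.prod_pow_eq_pow_sum, ← Finset.prod_mul_distrib]
  refine Finset.prod_congr rfl fun l _ => ?_
  rw [← mul_pow, mul_div_cancel₀ _ hp]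

end SmoothConeAux

section SmoothCone

variable {M r D : ℕ} {w : Fin M → Fin r → ℤ} {n : Fin M → Fin r → ℕ} {c : ℕ} {Y : Set (Fin M → k)}

theorem cone_smooth [IsAlgClosed k] (hn : ∀ i l, w i l = (D : ℤ) - n i l) (hY : IsTorsor w c Y)
    (hD : 0 < D) (hr : 0 < r) (u : Idx D n → k) (hu : u ∈ cone D n Y) (c' : ℕ)
    (hc : c' + (1 + r + M) = c + Fintype.card (Idx D n)) : SmoothAt c' (cone D n Y) u := by
  classical
  have hinf : Infinite k := IsAlgClosed.instInfinite
  -- choose the corner
  obtain ⟨x, hx, y, hy, hxy⟩ := hu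
  have hex : ∀ l, ∃ e, y l e ≠ 0 := fun l => Function.ne_iff.1 (hy l)
  choose ε hε using hex
  have hu' : u ∈ cone D n Y := ⟨x, hx, y, hy, hxy⟩
  have h0 : u (cor0 D n ε) ≠ 0 := by
    rw [← hxy]
    show mon (fun _ => D) (cor (fun _ => D) ε) y ≠ 0
    unfold mon
    refine Finset.prod_ne_zero_iff.2 fun l _ => ?_
    have h := hε l
    unfold cor
    by_cases he : ε l = 0
    · rw [he] at h
      simp [he, h]
    · have h1 : ε l = 1 := by omega
      rw [h1] at h
      simp [h1, h]
  set ι := scChart hD n ε with hι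
  have hinj : Function.Injective ι := scChart_injective hD n ε
  let κ : Type := {j : Idx D n // j ∉ Set.range ι}
  let e : (Option (Fin r ⊕ Fin M)) ⊕ κ ≃ Idx D n :=
    (Equiv.sumCongr (Equiv.ofInjective ι hinj) (Equiv.refl κ)).trans
      (Equiv.Set.sumCompl (Set.range ι))
  have he1 : ∀ j, e (Sum.inl j) = ι j := fun j => by
    show (Equiv.Set.sumCompl (Set.range ι)) (Sum.inl (Equiv.ofInjective ι hinj j)) = ι j
    rw [Equiv.Set.sumCompl_apply_inl]
    rfl
  have he2 : ∀ j : κ, e (Sum.inr j) = j.1 := fun j => by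
    show (Equiv.Set.sumCompl (Set.range ι)) (Sum.inr j) = j.1
    exact Equiv.Set.sumCompl_apply_inr _ j
  have hcard : 1 + (r + M) + Fintype.card κ = Fintype.card (Idx D n) := by
    rw [← Fintype.card_congr e, Fintype.card_sum, Fintype.card_option, Fintype.card_sum,
      Fintype.card_fin, Fintype.card_fin, add_comm 1 (r + M)]
  have hc' : c' = c + Fintype.card κ := by omega
  let A : Set (Option (Fin r ⊕ Fin M) → k) :=
    {p | p none ≠ 0 ∧ (fun i => p (some (Sum.inr i)) / p none) ∈ Y}
  let B : Set (Option (Fin r ⊕ Fin M) ⊕ κ → k) := {v | (fun j => v (e.symm j)) ∈ cone D n Y}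
  let H : MvPolynomial (Option (Fin r ⊕ Fin M)) k := X none
  let f : κ → MvPolynomial (Option (Fin r ⊕ Fin M)) k := fun j =>
    X none * X (scHead n j.1) * ∏ l, X (some (Sum.inl l)) ^ scD n ε j.1 l
  let K : κ → ℕ := fun j => 1 + ∑ l, scD n ε j.1 l
  have hH : ∀ p : Option (Fin r ⊕ Fin M) → k, aeval p H = p none := fun p => aeval_X p none
  have hf : ∀ (p : Option (Fin r ⊕ Fin M) → k) (j : κ), aeval p (f j) =
      p none * p (scHead n j.1) * ∏ l, p (some (Sum.inl l)) ^ scD n ε j.1 l := by
    intro p j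
    simp only [f, map_mul, map_prod, map_pow, aeval_X]
  -- the formula for the graph
  have hgr : ∀ (p : Option (Fin r ⊕ Fin M) → k) (j : κ), p none ≠ 0 →
      p none ^ K j * scPt n ε p j.1 = aeval p (f j) := by
    intro p j hp
    rw [hf]
    show p none ^ (1 + ∑ l, scD n ε j.1 l) * (p (scHead n j.1) *
      ∏ l, (p (some (Sum.inl l)) / p none) ^ scD n ε j.1 l) = _
    rw [← scProd_pow p hp (scD n ε j.1)]
    ring
  have hB : ∀ v ∈ B, v (Sum.inl none) ≠ 0 →
      (∀ j : κ, v (Sum.inr j) = scPt n ε (fun i => v (Sum.inl i)) j.1) ∧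
      (fun i => v (Sum.inl (some (Sum.inr i))) / v (Sum.inl none)) ∈ Y := by
    intro v hv hv0
    have h1 : ∀ j, v (e.symm (ι j)) = v (Sum.inl j) := fun j => by
      rw [← he1, e.symm_apply_apply]
    have h2 : (fun j => v (e.symm j)) (cor0 D n ε) ≠ 0 := by
      show v (e.symm (ι none)) ≠ 0
      rw [h1]; exact hv0
    obtain ⟨h3, h4⟩ := scPt_of_cone hn hY hD ε hv h2
    have h5 : (fun j => v (e.symm (ι j))) = fun j => v (Sum.inl j) := funext h1
    refine ⟨fun j => ?_, ?_⟩
    · have h6 := congrFun h3 j.1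
      rw [show (fun j => (fun j => v (e.symm j)) (scChart hD n ε j)) = fun j => v (Sum.inl j)
        from h5] at h6
      rw [← h6]
      show v (Sum.inr j) = v (e.symm j.1)
      rw [← he2, e.symm_apply_apply]
    · have h6 : (fun i => v (Sum.inl (some (Sum.inr i))) / v (Sum.inl none)) =
          fun i => (fun j => v (e.symm j)) (scChart hD n ε (some (Sum.inr i))) /
            (fun j => v (e.symm j)) (scChart hD n ε none) := by
        funext i
        show _ = v (e.symm (ι (some (Sum.inr i)))) / v (e.symm (ι none))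
        rw [h1, h1]
      rw [h6]
      exact h4
  have huB : (fun i => u (e i)) ∈ B := by
    show (fun j => u (e (e.symm j))) ∈ cone D n Y
    simpa using hu'
  have hu0 : u (e (Sum.inl none)) ≠ 0 := by
    rw [he1]; exact h0
  have key : SmoothAt (c + Fintype.card κ) B (fun i => u (e i)) := by
    refine smoothAt_graph A B H f K ?_ ?_ ?_ huB ?_ ?_
    · intro v hv j
      rw [hH]
      by_cases hv0 : v (Sum.inl none) = 0
      · show v (Sum.inl none) ^ (1 + _) * _ = _
        rw [hf, hv0, pow_add, pow_one]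
        simp
      · rw [(hB v hv hv0).1 j]
        exact hgr (fun i => v (Sum.inl i)) j hv0
    · intro v hv hv0
      rw [hH] at hv0
      exact ⟨hv0, (hB v hv hv0).2⟩
    · intro p hp hp0
      rw [hH] at hp0
      have h1 := scPt_mem hn hY hD hr ε p hp0 hp.2
      have h2 : (fun j => Sum.elim p (fun j => aeval p (f j) / aeval p H ^ K j) (e.symm j)) =
          scPt (D := D) n ε p := by
        funext j
        obtain ⟨i, rfl⟩ := e.surjective j
        rw [e.symm_apply_apply]
        rcases i with i | i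
        · rw [Sum.elim_inl, he1]
          exact (scPt_chart hD n ε p hp0 i).symm
        · rw [Sum.elim_inr, he2, hH, ← hgr p i hp0, mul_div_cancel_left₀ _ (pow_ne_zero _ hp0)]
      show (fun j => Sum.elim p (fun j => aeval p (f j) / aeval p H ^ K j) (e.symm j)) ∈
        cone D n Y
      rw [h2]
      exact h1
    · rw [hH]; exact hu0
    · exact smoothAt_coneLem Y _ hu0 (hY.smooth _ (hB _ huB hu0).2)
  rw [hc']
  have h7 := scReindex e key
  have h8 : {y : Idx D n → k | (fun i => y (e i)) ∈ B} = cone D n Y := by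
    ext z
    show (fun j => z (e (e.symm j))) ∈ cone D n Y ↔ z ∈ cone D n Y
    simp
  rw [h8] at h7
  simpa using h7

theorem card_idx_ge (hD : 0 < D) : 1 + r + M ≤ Fintype.card (Idx D n) := by
  classical
  have h := Fintype.card_le_of_injective _ (scChart_injective hD n (fun _ => 0))
  rw [Fintype.card_option, Fintype.card_sum, Fintype.card_fin, Fintype.card_fin] at h
  omega

end SmoothCone

end Pool.Agent.VFG
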