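import Pool.Agent.Lib_MP_1858fb_g.Act
import Pool.Agent.Lib_MP_1858fb_g.LocClosedCone
import Pool.Agent.Lib_MP_1858fb_g.IrredCone
import Pool.Agent.Lib_MP_1858fb_g.SmoothCone
import Pool.Agent.Lib_MP_1858fb_g.Recover
import Pool.Agent.Lib_MP_1858fb_g.Basis
import Pool.Agent.Lib_MP_1858fb_g.Bezout
import Pool.Agent.Lib_MP_1858fb_g.Change
import Pool.Agent.Lib_MP_1858fb_g.NeZero
import Pool.Agent.Lib_MP_1858fb_g.Demb
import Pool.Agent.Lib_MP_1858fb_g.TanCone
import Pool.Agent.Lib_MP_1858fb_g.Reindex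
import Pool.Agent.Lib_MP_1858fb_g.Lift
import Pool.Agent.Lib_MP_1858fb_g.ProjVF

/-!
# MP_1858fb_ag, line G: every smooth variety (assembly)
-/

set_option autoImplicit false

namespace Pool.Agent.VFG

open MvPolynomial Pool.Agent.VF

variable {k : Type} [Field k] {M r : ℕ} {w : Fin M → Fin r → ℤ} {c : ℕ} {Y : Set (Fin M → k)}

theorem gval_congr {w' : Fin M → Fin r → ℤ} {δ δ' : Fin r → ℤ} (F : Fin M → ℕ → k)
    (h : ∀ i, deg w δ i = deg w' δ' i) (p q : k) : gval w δ F p q = gval w' δ' F p q := by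
  funext i
  simp only [gval, h i]

theorem deg_unchange (A : Matrix (Fin r) (Fin r) ℤ) (δ : Fin r → ℤ) (i : Fin M) :
    deg w (A.mulVec δ) i = deg (chw w A) δ i := by
  simp only [deg, chw, Matrix.mulVec, dotProduct, Finset.mul_sum, Finset.sum_mul]
  rw [Finset.sum_comm]
  exact Finset.sum_congr rfl fun l _ => Finset.sum_congr rfl fun s _ => by ring

theorem act_act {R : Type} [CommRing R] (t t' : Fin r → Rˣ) (x : Fin M → R) :
    act w t (act w t' x) = act w (fun l => t l * t' l) x := by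
  funext i
  simp only [act, mul_zpow, Finset.prod_mul_distrib, Units.val_mul, mul_assoc]

/-- the multidegree of the ambient monomials -/
theorem exists_D (w : Fin M → Fin r → ℤ) :
    ∃ D : ℕ, 0 < D ∧ (D : k) ≠ 0 ∧ ∀ i l, w i l ≤ D := by
  set B : ℕ := ∑ i, ∑ l, (w i l).toNat with hB
  have hle : ∀ i l, w i l ≤ B := by
    intro i l
    have h1 : (w i l).toNat ≤ ∑ l, (w i l).toNat :=
      Finset.single_le_sum (f := fun l => (w i l).toNat) (fun _ _ => Nat.zero_le _)
        (Finset.mem_univ l)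
    have h2 : ∑ l, (w i l).toNat ≤ B :=
      Finset.single_le_sum (f := fun i => ∑ l, (w i l).toNat) (fun _ _ => Nat.zero_le _)
        (Finset.mem_univ i)
    omega
  by_cases h : ((B + 1 : ℕ) : k) = 0
  · refine ⟨B + 2, by omega, ?_, fun i l => (hle i l).trans (by push_cast; omega)⟩
    intro h2
    apply one_ne_zero (α := k)
    have : ((B + 2 : ℕ) : k) = ((B + 1 : ℕ) : k) + 1 := by push_cast; ring
    rw [this, h, zero_add] at h2
    exact h2
  · exact ⟨B + 1, by omega, h, fun i l => (hle i l).trans (by push_cast; omega)⟩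

/-- a scalar as the action of a torus element -/
theorem exists_torus_root [IsAlgClosed k] {D : ℕ} (hD : 0 < D) (hr : 0 < r) {b : k} (hb : b ≠ 0) :
    ∃ t : Fin r → kˣ, ((∏ l, t l ^ D : kˣ) : k) = b := by
  obtain ⟨β, hβ⟩ := IsAlgClosed.exists_pow_nat_eq b hD
  have hβ0 : β ≠ 0 := by
    rintro rfl
    rw [zero_pow hD.ne'] at hβ
    exact hb hβ.symm
  refine ⟨Pi.mulSingle ⟨0, hr⟩ (Units.mk0 β hβ0), ?_⟩
  rw [Finset.prod_eq_single ⟨0, hr⟩]
  · simp [hβ]
  · intro l _ hl
    rw [Pi.mulSingle_eq_of_ne hl, one_pow]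
  · simp

/-- **Every smooth variety.** -/
theorem general_main' [IsAlgClosed k] (h : QPTheorem k) (hY : IsTorsor w c Y) (hdim : c + r < M)
    {δ : Fin r → ℤ} {F : Fin M → ℕ → k} (hF : IsGCurve w Y δ F) (hvf : GVeryFree w Y δ F)
    {m : ℕ} (v : Fin m → Fin M → k) (hv : ∀ i, v i ∈ Y) :
    ∃ (δ' : Fin r → ℤ) (F' : Fin M → ℕ → k) (a : Fin m → k), Function.Injective a ∧
      IsGCurve w Y δ' F' ∧ GVeryFree w Y δ' F' ∧
      ∀ i, ∃ t : Fin r → kˣ, gval w δ' F' 1 (a i) = act w t (v i) := by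
  have hδ : δ ≠ 0 := ne_zero_of_veryFree hY hdim hF hvf
  have hr : 0 < r := by
    rcases Nat.eq_zero_or_pos r with rfl | hr
    · exact absurd (funext fun l => Fin.elim0 l) hδ
    · exact hr
  obtain ⟨A, B, hAB, hBA, hpos⟩ := exists_basis δ hδ
  set w' := chw w A with hw'
  set δn : Fin r → ℕ := fun l => (B.mulVec δ l).toNat with hδn
  have hδn' : (fun l => (δn l : ℤ)) = B.mulVec δ := by
    funext l
    simp only [hδn]
    exact Int.toNat_of_nonneg (by have := hpos l; omega)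
  have hδ1 : ∀ l, 1 ≤ δn l := by
    intro l
    have h1 := hpos l
    simp only [hδn]
    omega
  have hY' : IsTorsor w' c Y := hY.change hAB hBA
  have hF' : IsGCurve w' Y (fun l => (δn l : ℤ)) F := by
    intro p q hpq
    rw [hδn', gval_congr (w' := w) (δ' := δ) F (deg_change hAB δ)]
    exact hF p q hpq
  have hvf' : GVeryFree w' Y (fun l => (δn l : ℤ)) F := by
    rw [hδn']
    exact hvf.change hAB hBA
  obtain ⟨D, hD, hDk, hDw⟩ := exists_D (k := k) w'
  set n : Fin M → Fin r → ℕ := fun i l => ((D : ℤ) - w' i l).toNat with hn0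
  have hn : ∀ i l, w' i l = (D : ℤ) - n i l := by
    intro i l
    have h1 := hDw i l
    simp only [hn0]
    rw [Int.toNat_of_nonneg (by omega)]
    ring
  obtain ⟨U, hU, hUvf⟩ := exists_lift hn hY' hDk hr δn hδ1 F hF' hvf'
  have hne : Nonempty (Idx D n) := ⟨Sum.inl fun _ => 0⟩
  have hcard : 1 + r + M ≤ Fintype.card (Idx D n) := card_idx_ge hD
  have hy0 : ∀ _ : Fin r, (![1, 0] : Fin 2 → k) ≠ 0 := by
    intro _ h0
    have := congrFun h0 0
    simp at this
  obtain ⟨d', U', a, ha, hU', hUvf', hpt⟩ := qp_general h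
    (c := c + Fintype.card (Idx D n) - (1 + r + M)) (by omega) (cone D n Y) U
    (fun i => emb D n (v i) (fun _ => ![1, 0]))
    (cone_locClosed hn hY' hD hr) (cone_irred hY'.irred)
    (fun u hu => cone_smooth hn hY' hD hr u hu (c + Fintype.card (Idx D n) - (1 + r + M))
      (by omega)) hU hUvf
    (fun i => ⟨v i, hv i, fun _ => ![1, 0], hy0, rfl⟩)
  obtain ⟨δ'', A'', F'', he, hA'', hFU⟩ := exists_recover hn hY' hD U' hU'
  obtain ⟨hG, hGvf⟩ := proj_veryFree hn hY' hDk hr U' hU' hUvf' δ'' A'' F'' he hA'' hFU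
  refine ⟨A.mulVec fun l => (δ'' l : ℤ), F'', a, ha, ?_, hGvf.unchange hAB hBA, ?_⟩
  · intro p q hpq
    rw [gval_congr (w' := w') (δ' := fun l => (δ'' l : ℤ)) F'' (deg_unchange A _)]
    exact hG p q hpq
  · intro i
    obtain ⟨b, hb, hbi⟩ := hpt i
    obtain ⟨t, ht⟩ := exists_torus_root (k := k) hD hr hb
    have h1 := emb_act hn t (v i) (fun _ => ![1, 0])
    rw [ht] at h1
    have h2 : emb D n (gval w' (fun l => (δ'' l : ℤ)) F'' 1 (a i))
        (fun l j => fval (δ'' l) (A'' l j) 1 (a i)) =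
        emb D n (act w' t (v i)) (fun l e => (t l : k) * (![1, 0] : Fin 2 → k) e) := by
      rw [← hFU, hbi, h1]
      rfl
    obtain ⟨t', ht', -⟩ := emb_inj hn hD
      (hA'' 1 (a i) (Or.inl one_ne_zero)) (fun l => by
        intro h0
        have := congrFun h0 0
        simp at this) h2
    obtain ⟨t'', ht''⟩ := act_change (w := w) A (fun l => t' l * t l) (v i)
    refine ⟨t'', ?_⟩
    rw [gval_congr (w' := w') (δ' := fun l => (δ'' l : ℤ)) F'' (deg_unchange A _), ht', act_act,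
      ← ht'']

end Pool.Agent.VFG
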