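import Pool.Agent.Lib_MP_1858fb_g.Orbit
import Pool.Agent.Lib_MP_1858fb_g.Act
import Pool.Agent.Lib_MP_1858fb_g.Homog
import Pool.Agent.Lib_MP_1858fb_g.Demb0

/-!
# MP_1858fb_ag, line G, piece GZ2: homogeneous equations of the fibre of `V# → V`
-/

set_option autoImplicit false

namespace Pool.Agent.VFG

open MvPolynomial Pool.Agent.VF

variable {k : Type} [Field k] {M r D : ℕ} {w : Fin M → Fin r → ℤ} {n : Fin M → Fin r → ℕ} {c : ℕ}
  {Y : Set (Fin M → k)}

/-- the equations of the fibre over the orbit of `v` -/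
def fibEq (w : Fin M → Fin r → ℤ) (D : ℕ) (n : Fin M → Fin r → ℕ) (v : Fin M → k) :
    Set (MvPolynomial (Idx D n) k) :=
  {g | ∃ (ε : Fin r → Fin 2) (g₀ : MvPolynomial (Fin M) k) (g' : MvPolynomial (Idx D n) k) (e : ℕ),
    g₀ ∈ orbEq w v ∧ g'.IsHomogeneous e ∧
    (∀ (R : Type) [CommRing R] [Algebra k R] (s : R) (x : Fin M → R) (y : Fin r → Fin 2 → R),
      (∀ l, y l (ε l) = 1) → aeval (fun j => s * emb D n x y j) g' = s ^ e * aeval x g₀) ∧
    g = X (cor0 D n ε) * g'}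

section aux

theorem fib_act_act {R : Type} [CommRing R] (w : Fin M → Fin r → ℤ) (s t : Fin r → Rˣ)
    (x : Fin M → R) : act w s (act w t x) = act w (s * t) x := by
  funext i
  unfold act
  rw [← mul_assoc, ← Units.val_mul, ← Finset.prod_mul_distrib]
  congr 2
  refine Finset.prod_congr rfl fun l _ => ?_
  rw [Pi.mul_apply, mul_zpow]

theorem fib_act_one {R : Type} [CommRing R] (w : Fin M → Fin r → ℤ) (x : Fin M → R) :
    act w (1 : Fin r → Rˣ) x = x := by
  funext i
  unfold act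
  simp

theorem fib_emb_cor0 {R : Type} [CommRing R] (ε : Fin r → Fin 2) (x : Fin M → R)
    (y : Fin r → Fin 2 → R) : emb D n x y (cor0 D n ε) = ∏ l, y l (ε l) ^ D :=
  demb_mon_cor (fun _ => D) ε y

/-- the value of an equation of the fibre at a point with unit corner coordinates -/
theorem fib_eval {R : Type} [CommRing R] [Algebra k R] (hn : ∀ i l, w i l = (D : ℤ) - n i l)
    (ε : Fin r → Fin 2) (g₀ : MvPolynomial (Fin M) k) (g' : MvPolynomial (Idx D n) k) (e : ℕ)
    (hg : ∀ (R : Type) [CommRing R] [Algebra k R] (s : R) (x : Fin M → R) (y : Fin r → Fin 2 → R),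
      (∀ l, y l (ε l) = 1) → aeval (fun j => s * emb D n x y j) g' = s ^ e * aeval x g₀)
    (x : Fin M → R) (y : Fin r → Fin 2 → R) (t : Fin r → Rˣ) (ht : ∀ l, y l (ε l) = t l) :
    aeval (emb D n x y) g' = ((∏ l, t l ^ D : Rˣ) : R) ^ e * aeval (act w t⁻¹ x) g₀ := by
  have h1 : emb D n x y = fun j => ((∏ l, t l ^ D : Rˣ) : R) *
      emb D n (act w t⁻¹ x) (fun l e => ((t l)⁻¹ : Rˣ) * y l e) j := by
    rw [← emb_act hn, fib_act_act, mul_inv_cancel, fib_act_one]
    congr 1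
    funext l e
    rw [← mul_assoc, Units.mul_inv, one_mul]
  rw [h1]
  exact hg R _ _ _ fun l => by rw [ht, Units.inv_mul]

end aux

theorem fibEq_hom {v : Fin M → k} {g : MvPolynomial (Idx D n) k} (hg : g ∈ fibEq w D n v) :
    ∃ e : ℕ, g.IsHomogeneous e := by
  obtain ⟨ε, g₀, g', e, _, he, _, rfl⟩ := hg
  exact ⟨1 + e, (isHomogeneous_X k _).mul he⟩

/-- an equation vanishes at the points of the fibre with nonzero corner coordinates -/
theorem fib_zero_aux (hn : ∀ i l, w i l = (D : ℤ) - n i l) {v x : Fin M → k} {t : Fin r → kˣ}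
    (hx : x = act w t v) (ε : Fin r → Fin 2) (g₀ : MvPolynomial (Fin M) k)
    (g' : MvPolynomial (Idx D n) k) (e : ℕ) (hg₀ : g₀ ∈ orbEq w v)
    (hg : ∀ (R : Type) [CommRing R] [Algebra k R] (s : R) (x : Fin M → R) (y : Fin r → Fin 2 → R),
      (∀ l, y l (ε l) = 1) → aeval (fun j => s * emb D n x y j) g' = s ^ e * aeval x g₀)
    (y : Fin r → Fin 2 → k) (hy : ∀ l, y l (ε l) ≠ 0) : aeval (emb D n x y) g' = 0 := by
  rw [fib_eval hn ε g₀ g' e hg x y (fun l => Units.mk0 _ (hy l)) (fun l => rfl), hx, fib_act_act,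
    orbEq_act _ hg₀, mul_zero]

theorem fibEq_zero (hn : ∀ i l, w i l = (D : ℤ) - n i l) (hY : IsTorsor w c Y) {v x : Fin M → k}
    (hv : v ∈ Y) {t : Fin r → kˣ} (hx : x = act w t v) (y : Fin r → Fin 2 → k)
    {g : MvPolynomial (Idx D n) k} (hD : 0 < D) (hg : g ∈ fibEq w D n v) :
    aeval (emb D n x y) g = 0 := by
  obtain ⟨ε, g₀, g', e, hg₀, _, hg1, rfl⟩ := hg
  rw [map_mul, aeval_X, fib_emb_cor0]
  by_cases h : ∃ l, y l (ε l) = 0
  · obtain ⟨l, hl⟩ := h
    rw [Finset.prod_eq_zero (Finset.mem_univ l) (by rw [hl, zero_pow hD.ne']), zero_mul]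
  · push Not at h
    rw [fib_zero_aux hn hx ε g₀ g' e hg₀ hg1 y h, mul_zero]

theorem fibEq_orbit (hn : ∀ i l, w i l = (D : ℤ) - n i l) (hY : IsTorsor w c Y)
    {v x : Fin M → k} (hv : v ∈ Y) (hx : x ∈ Y) {y : Fin r → Fin 2 → k} (hy : ∀ l, y l ≠ 0)
    (h : ∀ g ∈ fibEq w D n v, aeval (emb D n x y) g = 0) :
    ∃ t : Fin r → kˣ, x = act w t v := by
  have hε : ∀ l, ∃ e, y l e ≠ 0 := fun l => Function.ne_iff.1 (hy l)
  choose ε hε using hε
  set t : Fin r → kˣ := fun l => Units.mk0 _ (hε l) with ht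
  have h1 : ∀ g₀ ∈ orbEq w v, aeval (act w t⁻¹ x) g₀ = 0 := by
    intro g₀ hg₀
    obtain ⟨g', e, he, hg⟩ := exists_homog (D := D) (n := n) ε g₀
    have h2 := h _ ⟨ε, g₀, g', e, hg₀, he, hg, rfl⟩
    rw [map_mul, aeval_X, fib_emb_cor0,
      fib_eval hn ε g₀ g' e hg x y t (fun l => rfl)] at h2
    have h3 : ∏ l, y l (ε l) ^ D ≠ 0 := Finset.prod_ne_zero_iff.2 fun l _ => pow_ne_zero _ (hε l)
    exact (mul_eq_zero.1 ((mul_eq_zero.1 h2).resolve_left h3)).resolve_left
      (pow_ne_zero _ (Units.ne_zero _))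
  obtain ⟨t', ht'⟩ := orbit_of_orbEq hY hv (act_mem hY t⁻¹ hx) h1
  refine ⟨t * t', ?_⟩
  rw [← fib_act_act, ← ht', fib_act_act, mul_inv_cancel, fib_act_one]

section dual

/-- the inclusion of the units -/
noncomputable def fibI (t : Fin r → kˣ) : Fin r → (TrivSqZeroExt k k)ˣ :=
  fun l => Units.map (TrivSqZeroExt.inlHom k k : k →* TrivSqZeroExt k k) (t l)

/-- the unit `1 + ε b` -/
noncomputable def fibU (b : Fin r → k) : Fin r → (TrivSqZeroExt k k)ˣ :=
  fun l => dembUnit k (Multiplicative.ofAdd (b l))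

theorem fib_act_I (t : Fin r → kˣ) (x ξ : Fin M → k) :
    act w (fibI t) (fun i => (TrivSqZeroExt.inl (x i) + TrivSqZeroExt.inr (ξ i) :
      TrivSqZeroExt k k)) =
    fun i => TrivSqZeroExt.inl (act w t x i) + TrivSqZeroExt.inr (act w t ξ i) := by
  funext i
  unfold act fibI
  have h1 : (∏ l, Units.map (TrivSqZeroExt.inlHom k k : k →* TrivSqZeroExt k k) (t l) ^ w i l :
      (TrivSqZeroExt k k)ˣ) = Units.map (TrivSqZeroExt.inlHom k k : k →* TrivSqZeroExt k k)
        (∏ l, t l ^ w i l) := by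
    rw [map_prod]
    refine Finset.prod_congr rfl fun l _ => ?_
    rw [map_zpow]
  rw [h1, Units.coe_map]
  generalize (∏ l, t l ^ w i l : kˣ) = u
  change (TrivSqZeroExt.inl (u : k) : TrivSqZeroExt k k) * _ = _
  apply TrivSqZeroExt.ext
  · simp
  · simp

theorem fib_act_U (b : Fin r → k) (x ξ : Fin M → k) :
    act w (fibU b) (fun i => (TrivSqZeroExt.inl (x i) + TrivSqZeroExt.inr (ξ i) :
      TrivSqZeroExt k k)) =
    fun i => TrivSqZeroExt.inl (x i) + TrivSqZeroExt.inr ((ξ + radial w x b) i) := by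
  funext i
  unfold act fibU
  rw [dembUnit_prod]
  unfold radial
  apply TrivSqZeroExt.ext
  · simp
  · simp [mul_comm, add_comm]

theorem fib_act_radial (t : Fin r → kˣ) (x : Fin M → k) (a : Fin r → k) :
    act w t (radial w x a) = radial w (act w t x) a := by
  funext i
  unfold act radial
  ring

theorem fib_U_val (t : Fin r → kˣ) (y η : Fin r → k) (hy : ∀ l, y l = t l) (l : Fin r) :
    (TrivSqZeroExt.inl (y l) + TrivSqZeroExt.inr (η l) : TrivSqZeroExt k k) =
      ((fibI t * fibU fun l => η l / y l) l : (TrivSqZeroExt k k)ˣ) := by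
  have h0 : y l ≠ 0 := by
    rw [hy]
    exact Units.ne_zero _
  rw [Pi.mul_apply, Units.val_mul]
  unfold fibI fibU
  rw [dembUnit_val, Units.coe_map]
  apply TrivSqZeroExt.ext
  · simp [hy]
  · simp [← hy]
    field_simp

theorem fib_inv (t : Fin r → kˣ) (b : Fin r → k) :
    (fibI t * fibU b)⁻¹ = fibU (-b) * fibI t⁻¹ := by
  funext l
  change (fibI t l * fibU b l)⁻¹ = fibU (-b) l * fibI t⁻¹ l
  rw [mul_inv_rev]
  congr 1
  unfold fibU
  rw [Pi.neg_apply, ← map_inv, ofAdd_neg]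

end dual

/-- the kernel of the differentials of the equations of the fibre -/
theorem fibEq_tan (hn : ∀ i l, w i l = (D : ℤ) - n i l) (hY : IsTorsor w c Y)
    (hD : (D : k) ≠ 0) {v x : Fin M → k} (hv : v ∈ Y) (hx : x ∈ Y) {y : Fin r → Fin 2 → k}
    (hy : ∀ l, y l ≠ 0) (h : ∀ g ∈ fibEq w D n v, aeval (emb D n x y) g = 0) (ξ : Fin M → k)
    (η : Fin r → Fin 2 → k) (hξ : ∀ g ∈ fibEq w D n v, dif g (emb D n x y) (demb D n x y ξ η) = 0) :
    ∃ a : Fin r → k, ξ = radial w x a := by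
  have hε : ∀ l, ∃ e, y l e ≠ 0 := fun l => Function.ne_iff.1 (hy l)
  choose ε hε using hε
  set t : Fin r → kˣ := fun l => Units.mk0 _ (hε l) with ht
  set b : Fin r → k := fun l => η l (ε l) / y l (ε l) with hb
  set x1 : Fin M → k := act w t⁻¹ x with hx1
  set ξ1 : Fin M → k := act w t⁻¹ ξ with hξ1
  have hval := fib_U_val t (fun l => y l (ε l)) (fun l => η l (ε l)) (fun l => rfl)
  have hX : act w (fibI t * fibU b)⁻¹ (fun i => (TrivSqZeroExt.inl (x i) +
      TrivSqZeroExt.inr (ξ i) : TrivSqZeroExt k k)) =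
      fun i => TrivSqZeroExt.inl (x1 i) + TrivSqZeroExt.inr ((ξ1 + radial w x1 (-b)) i) := by
    rw [fib_inv, ← fib_act_act, fib_act_I, fib_act_U]
  have h1 : ∀ g₀ ∈ orbEq w v, aeval x1 g₀ = 0 ∧ dif g₀ x1 (ξ1 + radial w x1 (-b)) = 0 := by
    intro g₀ hg₀
    obtain ⟨g', e, he, hg⟩ := exists_homog (D := D) (n := n) ε g₀
    have hmem : X (cor0 D n ε) * g' ∈ fibEq w D n v := ⟨ε, g₀, g', e, hg₀, he, hg, rfl⟩
    have h2 := demb_aeval (X (cor0 D n ε) * g') (emb D n x y) (demb D n x y ξ η)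
    rw [h _ hmem, hξ _ hmem, ← demb_emb_inl, map_mul, aeval_X, fib_emb_cor0,
      fib_eval hn ε g₀ g' e hg _ _ (fibI t * fibU b) hval, hX, demb_aeval] at h2
    have hu1 : IsUnit (∏ l, (TrivSqZeroExt.inl (y l (ε l)) + TrivSqZeroExt.inr (η l (ε l)) :
        TrivSqZeroExt k k) ^ D) := by
      refine IsUnit.prod_univ_iff.2 fun l => ?_
      rw [hval l]
      exact (Units.isUnit _).pow _
    have hu2 : IsUnit ((((∏ l, (fibI t * fibU b) l ^ D : (TrivSqZeroExt k k)ˣ)) :
        TrivSqZeroExt k k) ^ e) := (Units.isUnit _).pow _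
    rw [TrivSqZeroExt.inl_zero, TrivSqZeroExt.inr_zero, add_zero] at h2
    have h3 := hu2.mul_right_eq_zero.1 (hu1.mul_right_eq_zero.1 h2)
    constructor
    · simpa using congrArg TrivSqZeroExt.fst h3
    · simpa using congrArg TrivSqZeroExt.snd h3
  obtain ⟨a, ha⟩ := radial_of_orbEq hY hv (act_mem hY t⁻¹ hx) (fun g hg => (h1 g hg).1)
    (fun g hg => (h1 g hg).2)
  have h4 : ξ1 = radial w x1 (a + b) := by
    have h5 : radial w x1 (a + b) = radial w x1 a - radial w x1 (-b) := by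
      funext i
      simp only [radial, Pi.add_apply, Pi.sub_apply, Pi.neg_apply, mul_add, mul_neg,
        Finset.sum_add_distrib, Finset.sum_neg_distrib]
      ring
    rw [h5, ← ha]
    ring
  refine ⟨a + b, ?_⟩
  have h6 : ξ = act w t ξ1 := by
    rw [hξ1, fib_act_act, mul_inv_cancel, fib_act_one]
  have h7 : x = act w t x1 := by
    rw [hx1, fib_act_act, mul_inv_cancel, fib_act_one]
  rw [h6, h4, fib_act_radial, ← h7]

/-- `g'` vanishes at all points of the fibre -/
theorem fib_zero_all [Infinite k] (hn : ∀ i l, w i l = (D : ℤ) - n i l) {v x : Fin M → k}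
    {t : Fin r → kˣ} (hx : x = act w t v) (ε : Fin r → Fin 2) (g₀ : MvPolynomial (Fin M) k)
    (g' : MvPolynomial (Idx D n) k) (e : ℕ) (hg₀ : g₀ ∈ orbEq w v)
    (hg : ∀ (R : Type) [CommRing R] [Algebra k R] (s : R) (x : Fin M → R) (y : Fin r → Fin 2 → R),
      (∀ l, y l (ε l) = 1) → aeval (fun j => s * emb D n x y j) g' = s ^ e * aeval x g₀)
    (y : Fin r → Fin 2 → k) : aeval (emb D n x y) g' = 0 := by
  set P : MvPolynomial (Fin r × Fin 2) k :=
    aeval (emb D n (fun i => (C (x i) : MvPolynomial (Fin r × Fin 2) k)) (fun l e => X (l, e))) g'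
    with hP
  have hev : ∀ y : Fin r × Fin 2 → k, eval y P = aeval (emb D n x fun l e => y (l, e)) g' := by
    intro y
    have h1 : ∀ j, (aeval y : MvPolynomial (Fin r × Fin 2) k →ₐ[k] k)
        (emb D n (fun i => (C (x i) : MvPolynomial (Fin r × Fin 2) k)) (fun l e => X (l, e)) j) =
        emb D n x (fun l e => y (l, e)) j := by
      intro j
      have h2 := demb_map_emb (D := D) (n := n)
        ((aeval y : MvPolynomial (Fin r × Fin 2) k →ₐ[k] k) :
          MvPolynomial (Fin r × Fin 2) k →+* k)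
        (fun i => (C (x i) : MvPolynomial (Fin r × Fin 2) k)) (fun l e => X (l, e)) j
      simp only [RingHom.coe_coe, aeval_X, aeval_C, Algebra.algebraMap_self, RingHom.id_apply] at h2
      exact h2
    rw [← coe_aeval_eq_eval, RingHom.coe_coe, hP, ← AlgHom.comp_apply, comp_aeval]
    congr 2
    funext j
    exact h1 j
  have hP0 : P * ∏ l : Fin r, X (l, ε l) = 0 := by
    apply MvPolynomial.funext
    intro a
    rw [map_mul, map_prod, map_zero]
    by_cases h0 : ∃ l : Fin r, a (l, ε l) = 0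
    · obtain ⟨l, hl⟩ := h0
      rw [Finset.prod_eq_zero (Finset.mem_univ l) (by rw [eval_X, hl]), mul_zero]
    · push Not at h0
      rw [hev, fib_zero_aux hn hx ε g₀ g' e hg₀ hg _ h0, zero_mul]
  have hP1 : P = 0 := by
    rcases mul_eq_zero.1 hP0 with h | h
    · exact h
    · exfalso
      rw [Finset.prod_eq_zero_iff] at h
      obtain ⟨l, _, hl⟩ := h
      exact X_ne_zero _ hl
  have h3 := hev (fun p => y p.1 p.2)
  rw [hP1, map_zero] at h3
  exact h3.symm

theorem fib_dif_X_mul {σ : Type} [Fintype σ] (E : MvPolynomial σ k) (i : σ) (x w : σ → k) :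
    dif (X i * E) x w = dif E x w * x i + aeval x E * w i := by
  rw [mul_comm, demb_dif_mul_X]

theorem fibEq_tan_radial (hn : ∀ i l, w i l = (D : ℤ) - n i l) (hY : IsTorsor w c Y)
    [Infinite k] (hD : 0 < D) {v x : Fin M → k} (hv : v ∈ Y) {t : Fin r → kˣ}
    (hx : x = act w t v) {y : Fin r → Fin 2 → k} (hy : ∀ l, y l ≠ 0) (a : Fin r → k)
    (η : Fin r → Fin 2 → k) {g : MvPolynomial (Idx D n) k} (hg : g ∈ fibEq w D n v) :
    dif g (emb D n x y) (demb D n x y (radial w x a) η) = 0 := by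
  obtain ⟨ε, g₀, g', e, hg₀, _, hg1, rfl⟩ := hg
  rw [fib_dif_X_mul, fib_zero_all hn hx ε g₀ g' e hg₀ hg1 y, zero_mul, add_zero, fib_emb_cor0]
  by_cases h : ∃ l, y l (ε l) = 0
  · obtain ⟨l, hl⟩ := h
    rw [Finset.prod_eq_zero (Finset.mem_univ l) (by rw [hl, zero_pow hD.ne']), mul_zero]
  · push Not at h
    set s : Fin r → kˣ := fun l => Units.mk0 _ (h l) with hs
    have hval := fib_U_val s (fun l => y l (ε l)) (fun l => η l (ε l)) (fun l => rfl)
    have h2 := demb_aeval g' (emb D n x y) (demb D n x y (radial w x a) η)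
    have hX : (fun i => (TrivSqZeroExt.inl (x i) + TrivSqZeroExt.inr (radial w x a i) :
        TrivSqZeroExt k k)) = act w (fibU a * fibI t)
          (fun i => (TrivSqZeroExt.inl (v i) + TrivSqZeroExt.inr ((0 : Fin M → k) i) :
            TrivSqZeroExt k k)) := by
      rw [← fib_act_act, fib_act_I, fib_act_U, ← hx]
      funext i
      have h9 : act w t (0 : Fin M → k) = 0 := by
        funext j
        unfold act
        simp
      rw [h9, zero_add]
    have hv0 : aeval (fun i => (TrivSqZeroExt.inl (v i) + TrivSqZeroExt.inr ((0 : Fin M → k) i) :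
        TrivSqZeroExt k k)) g₀ = 0 := by
      rw [demb_aeval, hg₀.2]
      simp [dif]
    obtain ⟨f, hf⟩ := hg₀.1
    rw [← demb_emb_inl, fib_eval hn ε g₀ g' e hg1 _ _ _ hval, hX, fib_act_act,
      semiInv_aeval _ _ g₀ f hf, hv0, mul_zero, mul_zero] at h2
    have h3 := congrArg TrivSqZeroExt.snd h2
    rw [show dif g' (emb D n x y) (demb D n x y (radial w x a) η) = 0 by simpa using h3.symm,
      zero_mul]

end Pool.Agent.VFG
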