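import Pool.Agent.Lib_MP_1858fb_g.Act

/-!
# MP_1858fb_ag, line G, piece GZ1: equations of a torus orbit
-/

set_option autoImplicit false

namespace Pool.Agent.VFG

open MvPolynomial Pool.Agent.VF

variable {k : Type} [Field k] {M r : ℕ} {w : Fin M → Fin r → ℤ} {c : ℕ} {Y : Set (Fin M → k)}

/-- the semi-invariant polynomials that vanish at `v` -/
def orbEq (w : Fin M → Fin r → ℤ) (v : Fin M → k) : Set (MvPolynomial (Fin M) k) :=
  {g | SemiInv w g ∧ aeval v g = 0}

namespace Orb

/-- integer coefficients -/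
theorem exists_coeff (S : Set (Fin M))
    (h : AddSubgroup.closure {a | ∃ i, i ∈ S ∧ w i = a} = ⊤) (b : Fin r → ℤ) :
    ∃ m : Fin M → ℤ, (∀ i, i ∉ S → m i = 0) ∧ ∀ l, ∑ i, m i * w i l = b l := by
  classical
  have hb : b ∈ AddSubgroup.closure {a | ∃ i, i ∈ S ∧ w i = a} := by
    rw [h]
    exact AddSubgroup.mem_top b
  induction hb using AddSubgroup.closure_induction with
  | mem a ha =>
    obtain ⟨i, hi, rfl⟩ := ha
    refine ⟨Pi.single i 1, fun j hj => ?_, fun l => ?_⟩
    · exact Pi.single_eq_of_ne (by rintro rfl; exact hj hi) _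
    · rw [Finset.sum_eq_single i]
      · rw [Pi.single_eq_same, one_mul]
      · intro j _ hj
        rw [Pi.single_eq_of_ne hj, zero_mul]
      · intro h
        exact absurd (Finset.mem_univ _) h
  | zero => exact ⟨0, fun _ _ => rfl, fun l => by simp⟩
  | add a b _ _ ha hb =>
    obtain ⟨m, h1, h2⟩ := ha
    obtain ⟨m', h1', h2'⟩ := hb
    refine ⟨m + m', fun i hi => ?_, fun l => ?_⟩
    · rw [Pi.add_apply, h1 i hi, h1' i hi, add_zero]
    · simp only [Pi.add_apply, add_mul, Finset.sum_add_distrib]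
      rw [h2, h2']
  | neg a _ ha =>
    obtain ⟨m, h1, h2⟩ := ha
    refine ⟨-m, fun i hi => ?_, fun l => ?_⟩
    · rw [Pi.neg_apply, h1 i hi, neg_zero]
    · simp only [Pi.neg_apply, neg_mul, Finset.sum_neg_distrib]
      rw [h2]

/-- a function on `S` that respects the relations comes from a homomorphism -/
theorem solve {A : Type} [AddCommGroup A] (S : Set (Fin M))
    (h : AddSubgroup.closure {a | ∃ i, i ∈ S ∧ w i = a} = ⊤) (θ : Fin M → A)
    (hrel : ∀ m : Fin M → ℤ, (∀ i, i ∉ S → m i = 0) → (∀ l, ∑ i, m i * w i l = 0) →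
      ∑ i, m i • θ i = 0) : ∃ a : Fin r → A, ∀ i ∈ S, θ i = ∑ l, w i l • a l := by
  classical
  choose m hm1 hm2 using fun l : Fin r => exists_coeff S h (Pi.single l 1)
  refine ⟨fun l => ∑ j, m l j • θ j, fun i hi => ?_⟩
  have h1 := hrel (fun j => (Pi.single i 1 : Fin M → ℤ) j - ∑ l, w i l * m l j) ?_ ?_
  · simp only [sub_smul, Finset.sum_sub_distrib, Finset.sum_smul, mul_smul] at h1
    rw [sub_eq_zero, Finset.sum_eq_single i, Pi.single_eq_same, one_smul,
      Finset.sum_comm] at h1
    · rw [h1]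
      refine Finset.sum_congr rfl fun l _ => ?_
      rw [Finset.smul_sum]
    · intro j _ hj
      rw [Pi.single_eq_of_ne hj, zero_smul]
    · intro h
      exact absurd (Finset.mem_univ _) h
  · intro j hj
    rw [Pi.single_eq_of_ne (by rintro rfl; exact hj hi), zero_sub, neg_eq_zero]
    refine Finset.sum_eq_zero fun l _ => ?_
    rw [hm1 l j hj, mul_zero]
  · intro l'
    simp only [sub_mul, Finset.sum_sub_distrib, Finset.sum_mul]
    rw [sub_eq_zero, Finset.sum_comm, Finset.sum_eq_single i, Pi.single_eq_same, one_mul]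
    · have h2 : ∀ l, ∑ j, w i l * m l j * w j l' = w i l * (Pi.single l 1 : Fin r → ℤ) l' := by
        intro l
        rw [← hm2 l l', Finset.mul_sum]
        exact Finset.sum_congr rfl fun j _ => by ring
      simp only [h2]
      rw [Finset.sum_eq_single l', Pi.single_eq_same, mul_one]
      · intro l _ hl
        rw [Pi.single_eq_of_ne hl.symm, mul_zero]
      · intro h
        exact absurd (Finset.mem_univ _) h
    · intro j _ hj
      rw [Pi.single_eq_of_ne hj, zero_mul]
    · intro h
      exact absurd (Finset.mem_univ _) h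

/-- the binomial of a relation -/
noncomputable def bin (v : Fin M → k) (m : Fin M → ℤ) : MvPolynomial (Fin M) k :=
  monomial (Finsupp.equivFunOnFinite.symm fun i => (m i).toNat) (∏ i, v i ^ (-m i).toNat) -
    monomial (Finsupp.equivFunOnFinite.symm fun i => (-m i).toNat) (∏ i, v i ^ (m i).toNat)

theorem aeval_mon (x : Fin M → k) (f : Fin M → ℕ) (a : k) :
    aeval x (monomial (Finsupp.equivFunOnFinite.symm f) a) = a * ∏ i, x i ^ f i := by
  rw [aeval_monomial, Finsupp.prod_fintype _ _ (fun i => pow_zero _)]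
  rfl

theorem aeval_bin (v x : Fin M → k) (m : Fin M → ℤ) : aeval x (bin v m) =
    (∏ i, v i ^ (-m i).toNat) * (∏ i, x i ^ (m i).toNat) -
      (∏ i, v i ^ (m i).toNat) * ∏ i, x i ^ (-m i).toNat := by
  unfold bin
  rw [map_sub, aeval_mon, aeval_mon]

theorem bin_mem (v : Fin M → k) (m : Fin M → ℤ) (hm : ∀ l, ∑ i, m i * w i l = 0) :
    bin v m ∈ orbEq w v := by
  classical
  refine ⟨⟨fun l => ∑ i, ((m i).toNat : ℤ) * w i l, fun μ hμ l => ?_⟩, ?_⟩
  · have h1 := support_sub _ _ _ hμ
    rcases Finset.mem_union.1 h1 with h2 | h2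
    · have h3 := Finset.mem_singleton.1 (support_monomial_subset h2)
      rw [h3]
      rfl
    · have h3 := Finset.mem_singleton.1 (support_monomial_subset h2)
      rw [h3]
      show ∑ i, (((-m i).toNat : ℕ) : ℤ) * w i l = _
      have h4 := hm l
      have h5 : ∀ i, m i * w i l = ((m i).toNat : ℤ) * w i l - ((-m i).toNat : ℤ) * w i l := by
        intro i
        rw [← sub_mul, Int.toNat_sub_toNat_neg]
      simp only [h5, Finset.sum_sub_distrib] at h4
      linarith
  · rw [aeval_bin]
    ring

theorem dif_monomial (μ : Fin M →₀ ℕ) (a : k) (x θ : Fin M → k) :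
    dif (monomial μ a) x (fun i => θ i * x i) =
      (∑ i, (μ i : k) * θ i) * aeval x (monomial μ a) := by
  unfold dif
  rw [Finset.sum_mul]
  refine Finset.sum_congr rfl fun i _ => ?_
  have h := congrArg (aeval x) (X_mul_pderiv_monomial (i := i) (m := μ) (r := a))
  rw [map_mul, aeval_X, map_nsmul, nsmul_eq_mul] at h
  linear_combination (θ i) * h

theorem dif_sub (E G : MvPolynomial (Fin M) k) (x ξ : Fin M → k) :
    dif (E - G) x ξ = dif E x ξ - dif G x ξ := by
  unfold dif
  rw [← Finset.sum_sub_distrib]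
  refine Finset.sum_congr rfl fun i _ => ?_
  rw [map_sub, map_sub, sub_mul]

theorem dif_support (g : MvPolynomial (Fin M) k) (x θ : Fin M → k) :
    dif g x (fun i => θ i * x i) =
      ∑ μ ∈ g.support, (∑ i, (μ i : k) * θ i) * aeval x (monomial μ (g.coeff μ)) := by
  have h1 : dif g x (fun i => θ i * x i) =
      ∑ μ ∈ g.support, dif (monomial μ (g.coeff μ)) x (fun i => θ i * x i) := by
    unfold dif
    rw [Finset.sum_comm]
    refine Finset.sum_congr rfl fun i _ => ?_
    rw [← Finset.sum_mul]
    congr 1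
    conv_lhs => rw [g.as_sum]
    rw [map_sum, map_sum]
  rw [h1]
  exact Finset.sum_congr rfl fun μ _ => dif_monomial _ _ _ _

/-- the supports agree -/
theorem supp_eq (hY : IsTorsor w c Y) {v x : Fin M → k} (hx : x ∈ Y)
    (h : ∀ g ∈ orbEq w v, aeval x g = 0) (i : Fin M) : v i ≠ 0 ↔ x i ≠ 0 := by
  classical
  have hX : ∀ j, v j = 0 → x j = 0 := by
    intro j hj
    have h1 := h (X j) ⟨⟨fun l => w j l, fun μ hμ l => ?_⟩, by rw [aeval_X, hj]⟩
    · rwa [aeval_X] at h1
    · have h2 := Finset.mem_singleton.1 (support_monomial_subset hμ)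
      rw [h2, Finset.sum_eq_single j]
      · rw [Finsupp.single_eq_same]
        simp
      · intro i _ hi
        rw [Finsupp.single_eq_of_ne (by exact hi)]
        simp
      · intro h
        exact absurd (Finset.mem_univ _) h
  refine ⟨fun hv hxi => ?_, fun hxi hv => hxi (hX i hv)⟩
  obtain ⟨m, hm1, hm2⟩ := exists_coeff {i | x i ≠ 0} (hY.free x hx) (fun l => w i l)
  have hmi : m i = 0 := hm1 i (fun h => h hxi)
  have h1 := h _ (bin_mem v (fun j => (Pi.single i 1 : Fin M → ℤ) j - m j) (fun l => by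
    simp only [sub_mul, Finset.sum_sub_distrib]
    rw [hm2 l, Finset.sum_eq_single i, Pi.single_eq_same, one_mul, sub_self]
    · intro j _ hj
      rw [Pi.single_eq_of_ne hj, zero_mul]
    · intro h
      exact absurd (Finset.mem_univ _) h))
  rw [aeval_bin] at h1
  have h2 : ∏ j, x j ^ ((Pi.single i 1 : Fin M → ℤ) j - m j).toNat = 0 := by
    refine Finset.prod_eq_zero (Finset.mem_univ i) ?_
    rw [Pi.single_eq_same, hmi, hxi]
    simp
  rw [h2, mul_zero, zero_sub, neg_eq_zero, mul_eq_zero] at h1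
  rcases h1 with h1 | h1
  · obtain ⟨j, _, hj⟩ := Finset.prod_eq_zero_iff.1 h1
    have h3 : v j = 0 := (pow_eq_zero_iff (by
      intro h0
      rw [h0, pow_zero] at hj
      exact one_ne_zero hj)).1 hj
    have hne : j ≠ i := by
      rintro rfl
      exact hv h3
    rw [Pi.single_eq_of_ne hne, hm1 j (fun h => h (hX j h3))] at hj
    simp at hj
  · obtain ⟨j, _, hj⟩ := Finset.prod_eq_zero_iff.1 h1
    have h3 : x j = 0 := (pow_eq_zero_iff (by
      intro h0
      rw [h0, pow_zero] at hj
      exact one_ne_zero hj)).1 hj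
    rw [hm1 j (fun h => h h3)] at hj
    by_cases hne : j = i
    · subst hne
      rw [Pi.single_eq_same] at hj
      simp at hj
    · rw [Pi.single_eq_of_ne hne] at hj
      simp at hj

end Orb

open Orb

theorem orbit_of_orbEq (hY : IsTorsor w c Y) {v x : Fin M → k} (hv : v ∈ Y) (hx : x ∈ Y)
    (h : ∀ g ∈ orbEq w v, aeval x g = 0) : ∃ t : Fin r → kˣ, x = act w t v := by
  classical
  have hS := supp_eq hY hx h
  let U : (Fin M → k) → Fin M → kˣ := fun z i => if hz : z i = 0 then 1 else Units.mk0 (z i) hz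
  have hU : ∀ (z : Fin M → k) i, z i ≠ 0 → ((U z i : kˣ) : k) = z i := by
    intro z i hz
    simp only [U, dif_neg hz, Units.val_mk0]
  obtain ⟨a, ha⟩ := solve (w := w) (A := Additive kˣ) {i | x i ≠ 0} (hY.free x hx)
    (fun i => Additive.ofMul (U x i / U v i)) (by
      intro m hm1 hm2
      have h1 := h _ (bin_mem v m hm2)
      rw [aeval_bin, sub_eq_zero] at h1
      have h2 : ∀ (z : Fin M → k) (_ : ∀ i, x i ≠ 0 → z i ≠ 0) (f : Fin M → ℕ)
          (_ : ∀ i, m i = 0 → f i = 0),
          ∏ i, z i ^ f i = ((∏ i, U z i ^ f i : kˣ) : k) := by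
        intro z hz f hf
        push_cast
        refine Finset.prod_congr rfl fun i _ => ?_
        by_cases hi : x i = 0
        · rw [hf i (hm1 i (fun h => h hi)), pow_zero, pow_zero]
        · rw [hU z i (hz i hi)]
      have hp : ∀ i, m i = 0 → (m i).toNat = 0 := fun i hi => by rw [hi]; rfl
      have hn : ∀ i, m i = 0 → (-m i).toNat = 0 := fun i hi => by rw [hi]; rfl
      rw [h2 v (fun i hi => (hS i).2 hi) _ hn, h2 x (fun i hi => hi) _ hp,
        h2 v (fun i hi => (hS i).2 hi) _ hp, h2 x (fun i hi => hi) _ hn] at h1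
      have h3 : (∏ i, U v i ^ (-m i).toNat) * (∏ i, U x i ^ (m i).toNat) =
          (∏ i, U v i ^ (m i).toNat) * ∏ i, U x i ^ (-m i).toNat := by
        apply Units.ext
        rw [Units.val_mul, Units.val_mul]
        exact h1
      have h4 : ∏ i, (U x i / U v i) ^ m i = 1 := by
        have h5 : ∀ i, (U x i / U v i) ^ m i =
            (U v i ^ (-m i).toNat * U x i ^ (m i).toNat) /
              (U v i ^ (m i).toNat * U x i ^ (-m i).toNat) := by
          intro i
          have h6 : ∀ u : kˣ, u ^ m i = u ^ (m i).toNat / u ^ (-m i).toNat := by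
            intro u
            rw [div_eq_mul_inv, ← zpow_natCast, ← zpow_natCast, ← zpow_sub, Int.toNat_sub_toNat_neg]
          rw [div_zpow, h6, h6, div_div_div_eq, mul_comm (U x i ^ (m i).toNat),
            mul_comm (U x i ^ (-m i).toNat)]
        simp only [h5]
        rw [Finset.prod_div_distrib, Finset.prod_mul_distrib, Finset.prod_mul_distrib, h3,
          div_self']
      have h7 : Additive.ofMul (∏ i, (U x i / U v i) ^ m i) =
          ∑ i, m i • Additive.ofMul (U x i / U v i) := by
        rw [ofMul_prod]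
        exact Finset.sum_congr rfl fun i _ => ofMul_zpow _ _
      rw [← h7, h4, ofMul_one])
  refine ⟨fun l => (a l).toMul, ?_⟩
  funext i
  unfold act
  by_cases hi : x i = 0
  · have hvi : v i = 0 := by
      by_contra h1
      exact (hS i).1 h1 hi
    rw [hi, hvi, mul_zero]
  · have h1 := congrArg Additive.toMul (ha i hi)
    have h2 : Additive.toMul (∑ l, w i l • a l) = ∏ l, (a l).toMul ^ w i l := by
      rw [toMul_sum]
      exact Finset.prod_congr rfl fun l _ => toMul_zsmul _ _
    rw [h2, toMul_ofMul] at h1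
    rw [← h1, ← hU x i hi, ← hU v i ((hS i).2 hi), ← Units.val_mul, div_mul_cancel]

theorem orbEq_act {v : Fin M → k} (t : Fin r → kˣ) {g : MvPolynomial (Fin M) k}
    (hg : g ∈ orbEq w v) : aeval (act w t v) g = 0 := by
  obtain ⟨⟨e, he⟩, h0⟩ := hg
  rw [semiInv_aeval t v g e he, h0, mul_zero]

theorem radial_of_orbEq (hY : IsTorsor w c Y) {v x : Fin M → k} (hv : v ∈ Y) (hx : x ∈ Y)
    (h : ∀ g ∈ orbEq w v, aeval x g = 0) {ξ : Fin M → k}
    (hξ : ∀ g ∈ orbEq w v, dif g x ξ = 0) : ∃ a : Fin r → k, ξ = radial w x a := by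
  classical
  have hS := supp_eq hY hx h
  have hξ0 : ∀ i, x i = 0 → ξ i = 0 := by
    intro j hj
    have hvj : v j = 0 := by
      by_contra h1
      exact (hS j).1 h1 hj
    have h1 := hξ (X j) ⟨⟨fun l => w j l, fun μ hμ l => ?_⟩, by rw [aeval_X, hvj]⟩
    · unfold dif at h1
      rw [Finset.sum_eq_single j] at h1
      · rw [pderiv_X_self, map_one, one_mul] at h1
        exact h1
      · intro i _ hi
        rw [pderiv_X_of_ne hi.symm, map_zero, zero_mul]
      · intro h
        exact absurd (Finset.mem_univ _) h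
    · have h2 := Finset.mem_singleton.1 (support_monomial_subset hμ)
      rw [h2, Finset.sum_eq_single j]
      · rw [Finsupp.single_eq_same]
        simp
      · intro i _ hi
        rw [Finsupp.single_eq_of_ne (by exact hi)]
        simp
      · intro h
        exact absurd (Finset.mem_univ _) h
  have hθ : ξ = fun i => (ξ i / x i) * x i := by
    funext i
    by_cases hi : x i = 0
    · rw [hξ0 i hi, hi, mul_zero]
    · rw [div_mul_cancel₀ _ hi]
  obtain ⟨a, ha⟩ := solve (w := w) (A := k) {i | x i ≠ 0} (hY.free x hx)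
    (fun i => ξ i / x i) (by
      intro m hm1 hm2
      have h1 := h _ (bin_mem v m hm2)
      rw [aeval_bin, sub_eq_zero] at h1
      have h2 := hξ _ (bin_mem v m hm2)
      rw [hθ] at h2
      unfold bin at h2
      rw [dif_sub, dif_monomial, dif_monomial, aeval_mon, aeval_mon, h1, ← sub_mul] at h2
      have h3 : (∏ i, v i ^ (m i).toNat) * ∏ i, x i ^ (-m i).toNat ≠ 0 := by
        refine mul_ne_zero (Finset.prod_ne_zero_iff.2 fun i _ => ?_)
          (Finset.prod_ne_zero_iff.2 fun i _ => ?_)
        · by_cases hi : x i = 0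
          · rw [hm1 i (fun h => h hi)]
            simp
          · exact pow_ne_zero _ ((hS i).2 hi)
        · by_cases hi : x i = 0
          · rw [hm1 i (fun h => h hi)]
            simp
          · exact pow_ne_zero _ hi
      have h4 := (mul_eq_zero.1 h2).resolve_right h3
      rw [← Finset.sum_sub_distrib] at h4
      rw [← h4]
      refine Finset.sum_congr rfl fun i _ => ?_
      rw [← sub_mul, zsmul_eq_mul]
      congr 1
      conv_lhs => rw [← Int.toNat_sub_toNat_neg (m i)]
      push_cast
      rfl)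
  refine ⟨a, ?_⟩
  funext i
  unfold radial
  by_cases hi : x i = 0
  · rw [hξ0 i hi, hi, mul_zero]
  · have h1 := ha i hi
    have h2 : ξ i = (ξ i / x i) * x i := (div_mul_cancel₀ _ hi).symm
    rw [h2]
    congr 1
    rw [h1]
    exact Finset.sum_congr rfl fun l _ => zsmul_eq_mul _ _

theorem dif_orbEq_radial {v x : Fin M → k} {g : MvPolynomial (Fin M) k} (hg : g ∈ orbEq w v)
    (hx : aeval x g = 0) (a : Fin r → k) : dif g x (radial w x a) = 0 := by
  obtain ⟨⟨e, he⟩, _⟩ := hg
  have h1 : dif g x (radial w x a) = dif g x (fun i => (∑ l, (w i l : k) * a l) * x i) := rfl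
  rw [h1, dif_support]
  have h2 : ∀ μ ∈ g.support, ∑ i, (μ i : k) * (∑ l, (w i l : k) * a l) =
      ∑ l, (e l : k) * a l := by
    intro μ hμ
    simp only [Finset.mul_sum]
    rw [Finset.sum_comm]
    refine Finset.sum_congr rfl fun l _ => ?_
    rw [← he μ hμ l]
    push_cast
    rw [Finset.sum_mul]
    exact Finset.sum_congr rfl fun i _ => by ring
  rw [Finset.sum_congr rfl fun μ hμ => by rw [h2 μ hμ], ← Finset.mul_sum, ← map_sum, ← g.as_sum,
    hx, mul_zero]

end Pool.Agent.VFG
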