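import Pool.Agent.Lib_MP_1858fb_g.RankZ0
import Pool.Agent.Lib_MP_1858fb_g.Demb0
import Pool.Agent.Lib_MP_1858fb_g.OrbCone

/-!
# MP_1858fb_ag, line G, GZ3: the rank of the equations of the fibre
-/

set_option autoImplicit false

namespace Pool.Agent.VFG

open MvPolynomial Pool.Agent.VF

variable {k : Type} [Field k] {M r D : ℕ} {w : Fin M → Fin r → ℤ} {n : Fin M → Fin r → ℕ} {c : ℕ}
  {Y : Set (Fin M → k)}

/-- the differential of one polynomial as a linear map -/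
noncomputable def difOne {σ : Type} [Fintype σ] (E : MvPolynomial σ k) (x : σ → k) :
    (σ → k) →ₗ[k] k where
  toFun a := dif E x a
  map_add' a b := dif_add_right _ _ _ _
  map_smul' s a := dif_smul_right _ _ _ _

theorem rankZ_demb_lin (x : Fin M → k) (y : Fin r → Fin 2 → k) (ξ ξ' : Fin M → k) (α β : k) :
    demb D n x y (α • ξ + β • ξ') 0 = α • demb D n x y ξ 0 + β • demb D n x y ξ' 0 := by
  funext j
  rw [Pi.add_apply, Pi.smul_apply, Pi.smul_apply, demb_eq_dif, demb_eq_dif, demb_eq_dif,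
    smul_eq_mul, smul_eq_mul]
  unfold dif
  rw [Finset.mul_sum, Finset.mul_sum, ← Finset.sum_add_distrib]
  apply Finset.sum_congr rfl
  intro i _
  rcases i with i | i
  · simp only [Sum.elim_inl, Pi.add_apply, Pi.smul_apply, smul_eq_mul]
    ring
  · simp only [Sum.elim_inr, Pi.zero_apply]
    ring

theorem fibEq_rank [IsAlgClosed k] (hn : ∀ i l, w i l = (D : ℤ) - n i l) (hY : IsTorsor w c Y)
    (hD : (D : k) ≠ 0) (hr : 0 < r) (hdim : c + r + 2 ≤ M) {v : Fin M → k} (hv : v ∈ Y)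
    {z : Idx D n → k} (hz : z ∈ cone D n Y) (h : ∀ g ∈ fibEq w D n v, aeval z g = 0) :
    ∃ g ∈ fibEq w D n v, ∃ g' ∈ fibEq w D n v, ∃ ω ∈ Tan (cone D n Y) z,
      ∃ ω' ∈ Tan (cone D n Y) z, dif g z ω * dif g' z ω' - dif g z ω' * dif g' z ω ≠ 0 := by
  haveI : Infinite k := IsAlgClosed.instInfinite
  obtain ⟨x, hx, y, hy, rfl⟩ := hz
  obtain ⟨ξ, hξ, ξ', hξ', hind⟩ := exists_two hY hdim hx
  obtain ⟨i, j, hij⟩ := exists_minor
    (fun g : {g : MvPolynomial (Idx D n) k // g ∈ fibEq w D n v} => difOne g.1 (emb D n x y))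
    (demb D n x y ξ 0) (demb D n x y ξ' 0) (by
      intro α β hαβ
      rw [← rankZ_demb_lin] at hαβ
      obtain ⟨a, ha⟩ := fibEq_tan hn hY hD hv hx hy h (α • ξ + β • ξ') 0
        (fun g hg => hαβ ⟨g, hg⟩)
      exact hind α β a ha)
  exact ⟨i.1, i.2, j.1, j.2, demb D n x y ξ 0, demb_mem hx hy hξ 0, demb D n x y ξ' 0,
    demb_mem hx hy hξ' 0, hij⟩

end Pool.Agent.VFG
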