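import Pool.Agent.Lib_MP_1858fb_g.DefsZ
import Pool.Agent.Lib_MP_1858fb_g.NeZero

/-!
# MP_1858fb_ag, line G, GZ3: linear algebra and dimension (first part)
-/

set_option autoImplicit false

namespace Pool.Agent.VFG

open MvPolynomial Pool.Agent.VF

variable {k : Type} [Field k] {M r D : ℕ} {w : Fin M → Fin r → ℤ} {n : Fin M → Fin r → ℕ} {c : ℕ}
  {Y : Set (Fin M → k)}

/-- functionals whose restrictions to `span {x, y}` have no common zero -/
theorem exists_minor {E ι : Type} [AddCommGroup E] [Module k E] (f : ι → E →ₗ[k] k) (x y : E)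
    (h : ∀ α β : k, (∀ i, f i (α • x + β • y) = 0) → α = 0 ∧ β = 0) :
    ∃ i j, f i x * f j y - f i y * f j x ≠ 0 := by
  by_contra hcon
  push Not at hcon
  have h1 : ∀ i, f i x = 0 ∧ f i y = 0 := by
    intro i
    have h2 := h (f i y) (-f i x) (by
      intro j
      rw [map_add, map_smul, map_smul, smul_eq_mul, smul_eq_mul]
      have := hcon i j
      linear_combination -this)
    exact ⟨neg_eq_zero.1 h2.2, h2.1⟩
  have h3 := h 1 0 (by
    intro j
    rw [map_add, map_smul, map_smul, (h1 j).1, (h1 j).2, smul_zero, smul_zero, add_zero])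
  exact one_ne_zero h3.1

/-- two tangent vectors independent modulo the radial ones -/
theorem exists_two (hY : IsTorsor w c Y) (hdim : c + r + 2 ≤ M) {x : Fin M → k} (hx : x ∈ Y) :
    ∃ ξ ∈ Tan Y x, ∃ ξ' ∈ Tan Y x, ∀ (α β : k) (a : Fin r → k),
      α • ξ + β • ξ' = radial w x a → α = 0 ∧ β = 0 := by
  obtain ⟨E, H, hE, -, hH, hgen⟩ := hY.smooth x hx
  have h1 := ker_le_tan hx hE hH hgen
  have h2 := Submodule.finrank_mono h1
  have h3 := LinearMap.finrank_range_add_finrank_ker (difLin E x)
  have h4 : Module.finrank k (LinearMap.range (difLin E x)) ≤ c := by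
    have := Submodule.finrank_le (LinearMap.range (difLin E x))
    simpa using this
  have h5 : Module.finrank k (LinearMap.range (radLin w x)) ≤ r := by
    have := LinearMap.finrank_range_le (radLin w x)
    simpa using this
  simp only [Module.finrank_fin_fun] at h3
  -- the map from the tangent space to the quotient by the radial vectors
  set φ : (Tan Y x) →ₗ[k] ((Fin M → k) ⧸ LinearMap.range (radLin w x)) :=
    (Submodule.mkQ (LinearMap.range (radLin w x))).comp (Tan Y x).subtype with hφ
  have h6 := LinearMap.finrank_range_add_finrank_ker φ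
  have h7 : Module.finrank k (LinearMap.ker φ) ≤ r := by
    refine le_trans ?_ h5
    have h8 : Module.finrank k ((LinearMap.ker φ).map (Tan Y x).subtype) =
        Module.finrank k (LinearMap.ker φ) :=
      LinearEquiv.finrank_eq (Submodule.equivMapOfInjective (Tan Y x).subtype
        (Submodule.injective_subtype _) (LinearMap.ker φ)).symm
    rw [← h8]
    apply Submodule.finrank_mono
    rintro _ ⟨ξ, hξ, rfl⟩
    have h9 : φ ξ = 0 := hξ
    rw [hφ, LinearMap.comp_apply, Submodule.mkQ_apply, Submodule.Quotient.mk_eq_zero] at h9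
    exact h9
  have h10 : 2 ≤ Module.finrank k (LinearMap.range φ) := by omega
  obtain ⟨g, hg⟩ := exists_linearIndependent_of_le_finrank h10
  obtain ⟨ξ, hξ⟩ := (g 0).2
  obtain ⟨ξ', hξ'⟩ := (g 1).2
  refine ⟨ξ, ξ.2, ξ', ξ'.2, ?_⟩
  intro α β a hab
  have h11 : α • g 0 + β • g 1 = 0 := by
    apply Subtype.ext
    rw [Submodule.coe_add, Submodule.coe_smul, Submodule.coe_smul, ← hξ, ← hξ', ← map_smul,
      ← map_smul, ← map_add, hφ, LinearMap.comp_apply, Submodule.mkQ_apply, Submodule.coe_zero,
      Submodule.Quotient.mk_eq_zero]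
    exact ⟨a, hab.symm⟩
  exact LinearIndependent.pair_iff.1
    (show LinearIndependent k ![g 0, g 1] by
      convert hg using 1
      funext i
      fin_cases i <;> rfl) α β h11

end Pool.Agent.VFG
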