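import Pool.Agent.Lib_MP_1858fb_g.DefsZ

/-!
# MP_1858fb_ag, line G, piece GZ0: `QPSmooth` for a general index type
-/

set_option autoImplicit false

namespace Pool.Agent.VFG

open MvPolynomial Pool.Agent.VF

section ReindexZ

variable {k : Type} [Field k] {σ τ : Type}

/-- The set `C` transported along `e`. -/
def rzSet (e : σ ≃ τ) (C : Set (σ → k)) : Set (τ → k) := {y | (fun i => y (e i)) ∈ C}

lemma rz_aeval (e : σ ≃ τ) (E : MvPolynomial σ k) (y : τ → k) :
    aeval y (rename e E) = aeval (fun i => y (e i)) E := by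
  rw [aeval_rename]
  rfl

omit [Field k] in
lemma rz_symm_apply (e : σ ≃ τ) (x : σ → k) : (fun i => (fun j => x (e.symm j)) (e i)) = x := by
  funext i
  simp

lemma rz_van (e : σ ≃ τ) (C : Set (σ → k)) (E : MvPolynomial τ k) :
    E ∈ van (rzSet e C) ↔ ∃ E0 ∈ van C, E = rename e E0 := by
  constructor
  · intro hE
    refine ⟨rename e.symm E, fun x hx => ?_, ?_⟩
    · have h1 : aeval (fun j => x (e.symm j)) E = 0 := hE _ (by
        change (fun i => (fun j => x (e.symm j)) (e i)) ∈ C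
        rw [rz_symm_apply]
        exact hx)
      have h2 := rz_aeval e.symm E x
      rw [h2]
      exact h1
    · rw [rename_rename]
      have h3 : (e : σ → τ) ∘ (e.symm : τ → σ) = id := by
        funext j
        simp
      rw [h3, rename_id, AlgHom.id_apply]
  · rintro ⟨E0, hE0, rfl⟩ y hy
    rw [rz_aeval]
    exact hE0 _ hy

lemma rz_dif [Fintype σ] [Fintype τ] (e : σ ≃ τ) (E : MvPolynomial σ k) (y w : τ → k) :
    dif (rename e E) y w = dif E (fun i => y (e i)) (fun i => w (e i)) := by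
  unfold dif
  rw [← e.sum_comp]
  refine Finset.sum_congr rfl fun i _ => ?_
  rw [pderiv_rename e.injective, rz_aeval]

lemma rz_tan [Fintype σ] [Fintype τ] (e : σ ≃ τ) (C : Set (σ → k)) (y w : τ → k) :
    w ∈ Tan (rzSet e C) y ↔ (fun i => w (e i)) ∈ Tan C (fun i => y (e i)) := by
  constructor
  · intro h E hE
    rw [← rz_dif e E y w]
    exact h _ ((rz_van e C _).mpr ⟨E, hE, rfl⟩)
  · intro h E hE
    obtain ⟨E0, hE0, rfl⟩ := (rz_van e C E).mp hE
    rw [rz_dif]
    exact h E0 hE0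

lemma rz_smooth [Fintype σ] [Fintype τ] (e : σ ≃ τ) (C : Set (σ → k)) {c : ℕ} (y : τ → k)
    (h : SmoothAt c C (fun i => y (e i))) : SmoothAt c (rzSet e C) y := by
  obtain ⟨E, H, hE, hli, hH, hgen⟩ := h
  refine ⟨fun i => rename e (E i), rename e H, fun i => (rz_van e C _).mpr ⟨E i, hE i, rfl⟩,
    ?_, ?_, ?_⟩
  · have h1 := hli.map' (LinearEquiv.funCongrLeft k k e.symm).toLinearMap (LinearEquiv.ker _)
    have h2 : ((LinearEquiv.funCongrLeft k k e.symm).toLinearMap ∘ fun (i : Fin c) (j : σ) =>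
        aeval (fun i => y (e i)) (pderiv j (E i))) =
        fun (i : Fin c) (j : τ) => aeval y (pderiv j (rename e (E i))) := by
      funext i j
      have h3 : pderiv j (rename e (E i)) = rename e (pderiv (e.symm j) (E i)) := by
        rw [← pderiv_rename e.injective, Equiv.apply_symm_apply]
      rw [h3, rz_aeval]
      rfl
    rw [h2] at h1
    exact h1
  · rw [rz_aeval]
    exact hH
  · intro G hG
    obtain ⟨G0, hG0, rfl⟩ := (rz_van e C G).mp hG
    have h1 := Ideal.mem_map_of_mem (rename e : MvPolynomial σ k →ₐ[k] MvPolynomial τ k)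
      (hgen G0 hG0)
    rw [Ideal.map_span, ← Set.range_comp, map_mul] at h1
    exact h1

lemma rz_ne_zero (e : σ ≃ τ) (y : τ → k) : (fun i => y (e i)) ≠ 0 ↔ y ≠ 0 := by
  rw [not_iff_not]
  constructor
  · intro h
    funext j
    have := congrFun h (e.symm j)
    simpa using this
  · intro h
    rw [h]
    rfl

lemma rz_locClosed (e : σ ≃ τ) (C : Set (σ → k)) (hC : LocClosedS C) :
    LocClosedS (rzSet e C) := by
  obtain ⟨I, J, hIJ, hC⟩ := hC
  refine ⟨rename e '' I, rename e '' J, ?_, ?_⟩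
  · rintro E (⟨E0, hE0, rfl⟩ | ⟨E0, hE0, rfl⟩)
    · obtain ⟨d, hd⟩ := hIJ E0 (Or.inl hE0)
      exact ⟨d, hd.rename_isHomogeneous⟩
    · obtain ⟨d, hd⟩ := hIJ E0 (Or.inr hE0)
      exact ⟨d, hd.rename_isHomogeneous⟩
  · ext y
    change (fun i => y (e i)) ∈ C ↔ _
    rw [hC]
    simp only [Set.mem_ofPred_eq, Set.forall_mem_image, Set.exists_mem_image, rz_aeval,
      rz_ne_zero]

/-- **`QPSmooth` for a general index type.** -/
theorem qps_general (h : QPSmooth k) {σ : Type} [Fintype σ] [Nonempty σ] {c d m : ℕ}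
    (hc : c + 2 < Fintype.card σ) (C : Set (σ → k)) (F : Fin (d + 1) → σ → k)
    (v : Fin m → σ → k) (a : Fin m → k) (G : Fin m → Set (MvPolynomial σ k))
    (hC : LocClosedS C) (hsm : ∀ x ∈ C, SmoothAt c C x) (hF : IsCurveS C F)
    (hvf : VeryFreeS C F) (ha : Function.Injective a)
    (hv : ∀ l, ∃ b : k, b ≠ 0 ∧ val F 1 (a l) = b • v l)
    (hG : ∀ l, ∀ g ∈ G l, ∃ e : ℕ, g.IsHomogeneous e)
    (hG0 : ∀ l, ∀ g ∈ G l, aeval (v l) g = 0)
    (hdis : ∀ l l', l ≠ l' → ∃ g ∈ G l, aeval (v l') g ≠ 0)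
    (hrk : ∀ l, ∀ z ∈ C, (∀ g ∈ G l, aeval z g = 0) → ∃ g ∈ G l, ∃ g' ∈ G l, ∃ ω ∈ Tan C z,
      ∃ ω' ∈ Tan C z, dif g z ω * dif g' z ω' - dif g z ω' * dif g' z ω ≠ 0) :
    ∃ (d' : ℕ) (F' : Fin (d' + 1) → σ → k) (a' : Fin m → k),
      Function.Injective a' ∧ IsCurveS C F' ∧ VeryFreeS C F' ∧
      (∀ l, ∃ b : k, b ≠ 0 ∧ val F' 1 (a' l) = b • v l) ∧
      (∀ l, ∀ p q : k, (p ≠ 0 ∨ q ≠ 0) → (∀ g ∈ G l, aeval (val F' p q) g = 0) →
        q = a' l * p) ∧
      ∀ l, ∃ g ∈ G l, dif g (val F' 1 (a' l)) (dval F' (a' l)) ≠ 0 := by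
  obtain ⟨N, hN⟩ := Nat.exists_eq_succ_of_ne_zero (Fintype.card_ne_zero (α := σ))
  let e : σ ≃ Fin (N + 1) := Fintype.equivFinOfCardEq hN
  have hval : ∀ {d : ℕ} (F : Fin (d + 1) → σ → k) (p q : k),
      (fun i => val (fun j i' => F j (e.symm i')) p q (e i)) = val F p q := by
    intro d F p q
    funext i
    simp [val]
  have hsymm : ∀ x : σ → k, (fun i => (fun j => x (e.symm j)) (e i)) = x :=
    fun x => rz_symm_apply e x
  have hsymm' : ∀ x : σ → k, (fun i => x (e.symm (e i))) = x :=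
    fun x => rz_symm_apply e x
  obtain ⟨d', F', a', ha', hF', hvf', hv', hon, hder⟩ := h N c m d (rzSet e C)
    (fun j i => F j (e.symm i)) (fun l i => v l (e.symm i)) a (fun l => rename e '' G l)
    (by omega) (rz_locClosed e C hC) (fun y hy => rz_smooth e C y (hsm _ hy))
    (fun p q hpq => by
      change (fun i => val (fun j i' => F j (e.symm i')) p q (e i)) ∈ C
      rw [hval]
      exact hF p q hpq)
    (by
      intro p q p' q' hpq w hw w' hw'
      rw [rz_tan, hval] at hw hw'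
      obtain ⟨G', hG', ⟨b, hb⟩, ⟨b', hb'⟩⟩ := hvf p q p' q' hpq _ hw _ hw'
      refine ⟨fun j i => G' j (e.symm i), fun s t => ?_, ⟨b, ?_⟩, ⟨b', ?_⟩⟩
      · rw [rz_tan, hval, hval]
        exact hG' s t
      · funext i
        have h1 := congrFun hb (e.symm i)
        simpa [val] using h1
      · funext i
        have h1 := congrFun hb' (e.symm i)
        simpa [val] using h1)
    ha
    (fun l => by
      obtain ⟨b, hb, hb'⟩ := hv l
      refine ⟨b, hb, ?_⟩
      funext i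
      have h1 := congrFun hb' (e.symm i)
      simpa [val] using h1)
    (by
      rintro l _ ⟨g, hg, rfl⟩
      obtain ⟨s, hs⟩ := hG l g hg
      exact ⟨s, hs.rename_isHomogeneous⟩)
    (by
      rintro l _ ⟨g, hg, rfl⟩
      rw [rz_aeval, hsymm']
      exact hG0 l g hg)
    (by
      intro l l' hll
      obtain ⟨g, hg, hg'⟩ := hdis l l' hll
      refine ⟨rename e g, ⟨g, hg, rfl⟩, ?_⟩
      rw [rz_aeval, hsymm']
      exact hg')
    (by
      intro l z hz hzg
      obtain ⟨g, hg, g', hg', ω, hω, ω', hω', hne⟩ := hrk l (fun i => z (e i)) hz (fun g hg => by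
        rw [← rz_aeval]
        exact hzg _ ⟨g, hg, rfl⟩)
      refine ⟨rename e g, ⟨g, hg, rfl⟩, rename e g', ⟨g', hg', rfl⟩, fun j => ω (e.symm j), ?_,
        fun j => ω' (e.symm j), ?_, ?_⟩
      · rw [rz_tan, hsymm']
        exact hω
      · rw [rz_tan, hsymm']
        exact hω'
      · rw [rz_dif, rz_dif, rz_dif, rz_dif, hsymm', hsymm']
        exact hne)
  have hval' : ∀ {d : ℕ} (F : Fin (d + 1) → Fin (N + 1) → k) (p q : k),
      val (fun j i => F j (e i)) p q = fun i => val F p q (e i) := fun F p q => rfl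
  refine ⟨d', fun j i => F' j (e i), a', ha', fun p q hpq => hF' p q hpq, ?_, ?_, ?_, ?_⟩
  · intro p q p' q' hpq w hw w' hw'
    have h1 : (fun j => w (e.symm j)) ∈ Tan (rzSet e C) (val F' p q) := by
      rw [rz_tan, hsymm']
      exact hw
    have h2 : (fun j => w' (e.symm j)) ∈ Tan (rzSet e C) (val F' p' q') := by
      rw [rz_tan, hsymm']
      exact hw'
    obtain ⟨G', hG', ⟨b, hb⟩, ⟨b', hb'⟩⟩ := hvf' p q p' q' hpq _ h1 _ h2
    refine ⟨fun j i => G' j (e i), fun s t => ?_, ⟨b, ?_⟩, ⟨b', ?_⟩⟩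
    · have h3 := hG' s t
      rw [rz_tan] at h3
      exact h3
    · funext i
      have h3 := congrFun hb (e i)
      simpa [val] using h3
    · funext i
      have h3 := congrFun hb' (e i)
      simpa [val] using h3
  · intro l
    obtain ⟨b, hb, hb'⟩ := hv' l
    refine ⟨b, hb, ?_⟩
    funext i
    have h3 := congrFun hb' (e i)
    simpa [val] using h3
  · intro l p q hpq hg
    apply hon l p q hpq
    rintro _ ⟨g, hgl, rfl⟩
    rw [rz_aeval]
    exact hg g hgl
  · intro l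
    obtain ⟨_, ⟨g, hg, rfl⟩, hne⟩ := hder l
    refine ⟨g, hg, ?_⟩
    rw [rz_dif] at hne
    exact hne

end ReindexZ

end Pool.Agent.VFG
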