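import Pool.Agent.Lib_MP_1858fb_g.DefsZ
import Pool.Agent.Lib_MP_1858fb_g.ReindexZ
import Pool.Agent.Lib_MP_1858fb_g.Orbit
import Pool.Agent.Lib_MP_1858fb_g.OrbCone
import Pool.Agent.Lib_MP_1858fb_g.RankZ
import Pool.Agent.Lib_MP_1858fb_g.RankZ0
import Pool.Agent.Lib_MP_1858fb_g.DerProj
import Pool.Agent.Lib_MP_1858fb_g.MainG

/-!
# MP_1858fb_ag, line G: every smooth variety, smooth points (assembly)
-/

set_option autoImplicit false

namespace Pool.Agent.VFG

open MvPolynomial Pool.Agent.VF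

variable {k : Type} [Field k] {M r : ℕ} {w : Fin M → Fin r → ℤ} {c : ℕ} {Y : Set (Fin M → k)}

theorem gder_congr {w' : Fin M → Fin r → ℤ} {δ δ' : Fin r → ℤ} (F : Fin M → ℕ → k)
    (h : ∀ i, deg w δ i = deg w' δ' i) (p q s t : k) :
    gder w δ F p q s t = gder w' δ' F p q s t := by
  funext i
  simp only [gder, h i]

theorem radial_chw (A : Matrix (Fin r) (Fin r) ℤ) (x : Fin M → k) (a : Fin r → k) :
    radial (chw w A) x a = radial w x (fun s => ∑ l, (A s l : k) * a l) := by
  funext i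
  simp only [radial, chw, Finset.mul_sum, Int.cast_sum, Int.cast_mul, Finset.sum_mul]
  rw [Finset.sum_comm]
  refine Finset.sum_congr rfl fun s _ => Finset.sum_congr rfl fun l _ => by ring

theorem chw_chw' (w : Fin M → Fin r → ℤ) {A B : Matrix (Fin r) (Fin r) ℤ} (hAB : A * B = 1) :
    chw (chw w A) B = w := by
  funext i l
  have h1 : ∀ s l, (A * B) s l = if s = l then 1 else 0 := by
    intro s l
    rw [hAB, Matrix.one_apply]
  simp only [chw, Finset.sum_mul]
  rw [Finset.sum_comm]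
  calc ∑ s, ∑ l', w i s * A s l' * B l' l = ∑ s, w i s * (A * B) s l := by
        refine Finset.sum_congr rfl fun s _ => ?_
        rw [Matrix.mul_apply, Finset.mul_sum]
        exact Finset.sum_congr rfl fun _ _ => by ring
    _ = w i l := by
        simp only [h1]
        simp

theorem GSmoothAt.unchange {A B : Matrix (Fin r) (Fin r) ℤ} (hAB : A * B = 1)
    {δ : Fin r → ℤ} {F : Fin M → ℕ → k} {v : Fin M → k} (h : GSmoothAt (chw w A) δ F v) :
    GSmoothAt w (A.mulVec δ) F v := by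
  obtain ⟨p, q, hpq, ⟨t, ht⟩, huniq, hder⟩ := h
  have hg : ∀ p q : k, gval w (A.mulVec δ) F p q = gval (chw w A) δ F p q :=
    fun p q => gval_congr F (deg_unchange A δ) p q
  refine ⟨p, q, hpq, ?_, ?_, ?_⟩
  · obtain ⟨t', ht'⟩ := act_change (w := w) A t v
    exact ⟨t', by rw [hg, ht, ht']⟩
  · rintro p' q' hpq' ⟨t', ht'⟩
    refine huniq p' q' hpq' ?_
    obtain ⟨t'', ht''⟩ := act_change (w := chw w A) B t' v
    rw [chw_chw' w hAB] at ht''
    exact ⟨t'', by rw [← hg, ht', ht'']⟩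
  · rintro s t' ⟨a, ha⟩
    refine hder s t' ⟨fun l => ∑ s, (B l s : k) * a s, ?_⟩
    rw [← gder_congr F (deg_unchange A δ), ha, hg]
    have h1 := radial_chw (w := chw w A) B (gval (chw w A) δ F p q) a
    rw [chw_chw' w hAB] at h1
    exact h1

theorem orbit_symm {v v' : Fin M → k} (h : ∃ t : Fin r → kˣ, v = act w t v') :
    ∃ t : Fin r → kˣ, v' = act w t v := by
  obtain ⟨t, rfl⟩ := h
  refine ⟨fun l => (t l)⁻¹, ?_⟩
  rw [act_act]
  funext i
  simp [act]

/-- **Every smooth variety, smooth points.** -/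
theorem general_smooth' [IsAlgClosed k] (h : QPTheorem k) (hs : QPSmooth k) (hY : IsTorsor w c Y)
    (hdim : c + r + 2 ≤ M) {δ : Fin r → ℤ} {F : Fin M → ℕ → k} (hF : IsGCurve w Y δ F)
    (hvf : GVeryFree w Y δ F) {m : ℕ} (v : Fin m → Fin M → k) (hv : ∀ i, v i ∈ Y)
    (hdis : ∀ i j, i ≠ j → ¬ ∃ t : Fin r → kˣ, v i = act w t (v j)) :
    ∃ (δ' : Fin r → ℤ) (F' : Fin M → ℕ → k), IsGCurve w Y δ' F' ∧ GVeryFree w Y δ' F' ∧
      ∀ i, GSmoothAt w δ' F' (v i) := by
  have hδ : δ ≠ 0 := ne_zero_of_veryFree hY (by omega) hF hvf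
  have hr : 0 < r := by
    rcases Nat.eq_zero_or_pos r with rfl | hr
    · exact absurd (funext fun l => Fin.elim0 l) hδ
    · exact hr
  obtain ⟨A, B, hAB, hBA, hpos⟩ := exists_basis δ hδ
  set w' := chw w A with hw'
  set δn : Fin r → ℕ := fun l => (B.mulVec δ l).toNat with hδn
  have hδn' : (fun l => (δn l : ℤ)) = B.mulVec δ := by
    funext l
    simp only [hδn]
    exact Int.toNat_of_nonneg (by have := hpos l; omega)
  have hδ1 : ∀ l, 1 ≤ δn l := by
    intro l
    have h1 := hpos l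
    simp only [hδn]
    omega
  have hY' : IsTorsor w' c Y := hY.change hAB hBA
  have hF' : IsGCurve w' Y (fun l => (δn l : ℤ)) F := by
    intro p q hpq
    rw [hδn', gval_congr (w' := w) (δ' := δ) F (deg_change hAB δ)]
    exact hF p q hpq
  have hvf' : GVeryFree w' Y (fun l => (δn l : ℤ)) F := by
    rw [hδn']
    exact hvf.change hAB hBA
  obtain ⟨D, hD, hDk, hDw⟩ := exists_D (k := k) w'
  set n : Fin M → Fin r → ℕ := fun i l => ((D : ℤ) - w' i l).toNat with hn0
  have hn : ∀ i l, w' i l = (D : ℤ) - n i l := by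
    intro i l
    have h1 := hDw i l
    simp only [hn0]
    rw [Int.toNat_of_nonneg (by omega)]
    ring
  obtain ⟨U, hU, hUvf⟩ := exists_lift hn hY' hDk hr δn hδ1 F hF' hvf'
  have hne : Nonempty (Idx D n) := ⟨Sum.inl fun _ => 0⟩
  have hcard : 1 + r + M ≤ Fintype.card (Idx D n) := card_idx_ge hD
  have hinf : Infinite k := IsAlgClosed.instInfinite
  have hy0 : ∀ _ : Fin r, (![1, 0] : Fin 2 → k) ≠ 0 := by
    intro _ h0
    have := congrFun h0 0
    simp at this
  have hlc := cone_locClosed hn hY' hD hr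
  have hsm : ∀ u ∈ cone D n Y, SmoothAt (c + Fintype.card (Idx D n) - (1 + r + M))
      (cone D n Y) u := fun u hu => cone_smooth hn hY' hD hr u hu _ (by omega)
  have hvc : ∀ i, emb D n (v i) (fun _ => ![1, 0]) ∈ cone D n Y :=
    fun i => ⟨v i, hv i, fun _ => ![1, 0], hy0, rfl⟩
  obtain ⟨d', U', a, ha, hU', hUvf', hpt⟩ := qp_general h
    (c := c + Fintype.card (Idx D n) - (1 + r + M)) (by omega) (cone D n Y) U
    (fun i => emb D n (v i) (fun _ => ![1, 0])) hlc (cone_irred hY'.irred) hsm hU hUvf hvc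
  obtain ⟨d'', U'', a', ha', hU'', hUvf'', hpt'', huniq, hder⟩ := qps_general hs
    (c := c + Fintype.card (Idx D n) - (1 + r + M)) (by omega) (cone D n Y) U'
    (fun i => emb D n (v i) (fun _ => ![1, 0])) a (fun i => fibEq w' D n (v i)) hlc hsm hU' hUvf'
    ha hpt (fun i g hg => fibEq_hom hg)
    (fun i g hg => fibEq_zero hn hY' (hv i) (t := fun _ => 1) (by funext j; simp [act])
      (fun _ => ![1, 0]) hD hg)
    (by
      intro l l' hll'
      by_contra hcon
      push Not at hcon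
      obtain ⟨t, ht⟩ := fibEq_orbit hn hY' (hv l) (hv l') hy0 hcon
      obtain ⟨t', ht'⟩ := act_change (w := w) A t (v l)
      exact hdis l' l hll'.symm ⟨t', by rw [ht, ht']⟩)
    (fun l z hz hzg => fibEq_rank hn hY' hDk hr hdim (hv l) hz hzg)
  obtain ⟨δ'', A'', F'', he, hA'', hFU⟩ := exists_recover hn hY' hD U'' hU''
  obtain ⟨hG, hGvf⟩ := proj_veryFree hn hY' hDk hr U'' hU'' hUvf'' δ'' A'' F'' he hA'' hFU
  refine ⟨A.mulVec fun l => (δ'' l : ℤ), F'', ?_, hGvf.unchange hAB hBA, fun i => ?_⟩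
  · intro p q hpq
    rw [gval_congr (w' := w') (δ' := fun l => (δ'' l : ℤ)) F'' (deg_unchange A _)]
    exact hG p q hpq
  · refine GSmoothAt.unchange hAB ?_
    obtain ⟨b, hb, hbi⟩ := hpt'' i
    obtain ⟨t, ht⟩ := exists_torus_root (k := k) hD hr hb
    have h1 := emb_act hn t (v i) (fun _ => ![1, 0])
    rw [ht] at h1
    have h2 : emb D n (gval w' (fun l => (δ'' l : ℤ)) F'' 1 (a' i))
        (fun l j => fval (δ'' l) (A'' l j) 1 (a' i)) =
        emb D n (act w' t (v i)) (fun l e => (t l : k) * (![1, 0] : Fin 2 → k) e) := by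
      rw [← hFU, hbi, h1]
      rfl
    obtain ⟨t', ht', -⟩ := emb_inj hn hD
      (hA'' 1 (a' i) (Or.inl one_ne_zero)) (fun l => by
        intro h0
        have := congrFun h0 0
        simp at this) h2
    rw [act_act] at ht'
    refine ⟨1, a' i, Or.inl one_ne_zero, ⟨_, ht'⟩, ?_, ?_⟩
    · rintro p' q' hpq' ⟨t'', ht''⟩
      have h3 := huniq i p' q' hpq' (fun g hg => by
        rw [hFU]
        exact fibEq_zero hn hY' (hv i) ht'' _ hD hg)
      rw [h3]
      ring
    · rintro s t'' ⟨b', hb'⟩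
      by_contra hne'
      obtain ⟨g, hg, hgne⟩ := hder i
      apply hgne
      -- the derivative in the direction `(0, 1)` is radial
      set x := gval w' (fun l => (δ'' l : ℤ)) F'' 1 (a' i) with hx
      have h4 : gder w' (fun l => (δ'' l : ℤ)) F'' 1 (a' i) s t'' =
          s • gder w' (fun l => (δ'' l : ℤ)) F'' 1 (a' i) 1 (a' i) +
          (t'' - s * a' i) • gder w' (fun l => (δ'' l : ℤ)) F'' 1 (a' i) 0 1 := by
        rw [← gder_add_smul]
        congr 1 <;> ring
      rw [gder_euler, hb', ← hx] at h4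
      have hκ : t'' - s * a' i ≠ 0 := by
        intro h5
        apply hne'
        rw [one_mul]
        exact h5
      obtain ⟨b'', hb''⟩ : ∃ b'', gder w' (fun l => (δ'' l : ℤ)) F'' 1 (a' i) 0 1 =
          radial w' x b'' := by
        refine ⟨fun l => (t'' - s * a' i)⁻¹ * (b' l - s * (δ'' l : ℤ)), ?_⟩
        funext j
        have h5 := congrFun h4 j
        simp only [Pi.add_apply, Pi.smul_apply, smul_eq_mul, radial] at h5
        simp only [radial]
        have h6 : (t'' - s * a' i) * gder w' (fun l => (δ'' l : ℤ)) F'' 1 (a' i) 0 1 j =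
            (∑ l, (w' j l : k) * (b' l - s * (δ'' l : ℤ))) * x j := by
          simp only [mul_sub, Finset.sum_sub_distrib, sub_mul]
          rw [h5]
          have h7 : ∑ l, (w' j l : k) * (s * ((δ'' l : ℤ) : k)) =
              s * ∑ l, (w' j l : k) * ((δ'' l : ℤ) : k) := by
            rw [Finset.mul_sum]
            exact Finset.sum_congr rfl fun _ _ => by ring
          rw [h7]
          ring
        have h8 : ∑ l, (w' j l : k) * ((t'' - s * a' i)⁻¹ * (b' l - s * (δ'' l : ℤ))) =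
            (t'' - s * a' i)⁻¹ * ∑ l, (w' j l : k) * (b' l - s * (δ'' l : ℤ)) := by
          rw [Finset.mul_sum]
          exact Finset.sum_congr rfl fun _ _ => by ring
        rw [h8, mul_assoc, ← h6, ← mul_assoc, inv_mul_cancel₀ hκ, one_mul]
      obtain ⟨η, hη⟩ := dval_eq_demb U'' δ'' A'' F'' hFU (a' i)
      rw [hη, hb'', hFU]
      exact fibEq_tan_radial hn hY' hD (hv i) ht' (hA'' 1 (a' i) (Or.inl one_ne_zero)) b'' η hg

end Pool.Agent.VFG
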