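import Pool.Agent.Lib_MP_1858fb_g.Defs2

/-!
# Recovery of the multidegree forms from a curve in the cone over `V#`: polynomial version
-/

set_option autoImplicit false

namespace Pool.Agent.VFG

open Polynomial Pool.Agent.VF

section Mon

variable {r : ℕ}

theorem mon_map' {R S : Type} [CommRing R] [CommRing S] (f : R →+* S) (N : Fin r → ℕ)
    (b : ∀ l, Fin (N l + 1)) (y : Fin r → Fin 2 → R) :
    f (mon N b y) = mon N b (fun l e => f (y l e)) := by
  simp [mon, map_prod]

theorem mon_smul' {R : Type} [CommRing R] (N : Fin r → ℕ) (b : ∀ l, Fin (N l + 1))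
    (t : Fin r → R) (y : Fin r → Fin 2 → R) :
    mon N b (fun l e => t l * y l e) = (∏ l, t l ^ N l) * mon N b y := by
  rw [mon, mon, ← Finset.prod_mul_distrib]
  refine Finset.prod_congr rfl fun l _ => ?_
  have h := (b l).isLt
  have h2 : N l = (N l - (b l : ℕ)) + b l := by omega
  have h3 : t l ^ N l = t l ^ (N l - (b l : ℕ)) * t l ^ (b l : ℕ) := by rw [← pow_add, ← h2]
  rw [mul_pow, mul_pow, h3]
  ring

theorem mon_cor' {R : Type} [CommRing R] (N : Fin r → ℕ) (ε : Fin r → Fin 2)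
    (y : Fin r → Fin 2 → R) : mon N (cor N ε) y = ∏ l, y l (ε l) ^ N l := by
  refine Finset.prod_congr rfl fun l _ => ?_
  rcases Fin.exists_fin_two.1 ⟨ε l, rfl⟩ with h | h
  · simp [cor, h]
  · simp [cor, h]

theorem mon_update' {R : Type} [CommRing R] (N : Fin r → ℕ) (b : ∀ l, Fin (N l + 1))
    (y : Fin r → Fin 2 → R) (l : Fin r) (j : Fin (N l + 1)) :
    mon N (Function.update b l j) y = (y l 0 ^ (N l - (j : ℕ)) * y l 1 ^ (j : ℕ)) *
      ∏ x ∈ Finset.univ \ {l}, (y x 0 ^ (N x - (b x : ℕ)) * y x 1 ^ (b x : ℕ)) := by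
  have h := Finset.prod_update_of_mem (Finset.mem_univ l)
    (fun x => y x 0 ^ (N x - (b x : ℕ)) * y x 1 ^ (b x : ℕ))
    (y l 0 ^ (N l - (j : ℕ)) * y l 1 ^ (j : ℕ))
  rw [← h]
  refine Finset.prod_congr rfl fun x _ => ?_
  exact Function.apply_update (fun x (c : Fin (N x + 1)) =>
    y x 0 ^ (N x - (c : ℕ)) * y x 1 ^ (c : ℕ)) b l j x

theorem exists_mon_comb {R : Type} [CommRing R] (N : Fin r → ℕ) (A : Fin r → Fin 2 → R)
    (hA : ∀ l, IsCoprime (A l 0) (A l 1)) :
    ∃ c : (∀ l, Fin (N l + 1)) → R, ∑ b, c b * mon N b A = 1 := by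
  have h : Ideal.span (Set.range fun b : (∀ l, Fin (N l + 1)) => mon N b A) = ⊤ := by
    by_contra hne
    obtain ⟨m, hm, hle⟩ := Ideal.exists_le_maximal _ hne
    have hp := hm.isPrime
    have h1 : ∀ l, ∃ e : Fin 2, A l e ∉ m := by
      intro l
      by_contra hcon
      push Not at hcon
      obtain ⟨a, b, hab⟩ := hA l
      apply hp.ne_top
      rw [Ideal.eq_top_iff_one, ← hab]
      exact m.add_mem (m.mul_mem_left _ (hcon 0)) (m.mul_mem_left _ (hcon 1))
    choose ε hε using h1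
    have h3 : mon N (cor N ε) A ∈ m := hle (Ideal.subset_span ⟨_, rfl⟩)
    rw [mon_cor'] at h3
    obtain ⟨l, _, hl⟩ := hp.prod_mem_iff.1 h3
    exact hε l (hp.mem_of_pow_mem _ hl)
  have h1 : (1 : R) ∈ Ideal.span (Set.range fun b : (∀ l, Fin (N l + 1)) => mon N b A) := by
    rw [h]; trivial
  exact Ideal.mem_span_range_iff_exists_fun.1 h1

end Mon

section Field

variable {k : Type} [Field k] {r : ℕ}

theorem exists_ne_zero_fin2 {y : Fin 2 → k} (hy : y ≠ 0) : ∃ e, y e ≠ 0 := by
  by_contra h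
  push Not at h
  exact hy (funext h)

/-- a scalar pair satisfying the relations is proportional to `y l` -/
theorem prop_of_rel {N : Fin r → ℕ} {l : Fin r} (hN : 0 < N l) {y : Fin r → Fin 2 → k}
    (hy : ∀ l, y l ≠ 0) {a0 a1 : k} (ha : a0 ≠ 0 ∨ a1 ≠ 0)
    (h : ∀ (b : ∀ l, Fin (N l + 1)) (j : ℕ) (hj : j < N l),
      a0 * mon N (Function.update b l ⟨j + 1, by omega⟩) y =
        a1 * mon N (Function.update b l ⟨j, by omega⟩) y) :
    ∃ τ : k, τ ≠ 0 ∧ a0 = τ * y l 0 ∧ a1 = τ * y l 1 := by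
  choose ε hε using fun l => exists_ne_zero_fin2 (hy l)
  have hρ : ∏ x ∈ Finset.univ \ {l}, (y x 0 ^ (N x - (cor N ε x : ℕ)) *
      y x 1 ^ (cor N ε x : ℕ)) ≠ 0 := by
    refine Finset.prod_ne_zero_iff.2 fun x _ => ?_
    rcases Fin.exists_fin_two.1 ⟨ε x, rfl⟩ with h | h
    · have := hε x
      rw [h] at this
      simp [cor, h, this]
    · have := hε x
      rw [h] at this
      simp [cor, h, this]
  set ρ := ∏ x ∈ Finset.univ \ {l}, (y x 0 ^ (N x - (cor N ε x : ℕ)) *
      y x 1 ^ (cor N ε x : ℕ)) with hρd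
  have key : a0 * y l 1 = a1 * y l 0 := by
    by_cases h0 : y l 0 = 0
    · have h1 : y l 1 ≠ 0 := by
        intro h1
        apply hy l
        funext e
        rcases Fin.exists_fin_two.1 ⟨e, rfl⟩ with he | he
        · rw [he, h0]; rfl
        · rw [he, h1]; rfl
      have h2 := h (cor N ε) (N l - 1) (by omega)
      rw [mon_update', mon_update'] at h2
      rw [← hρd] at h2
      have e1 : N l - (N l - 1 + 1) = 0 := by omega
      have e2 : N l - (N l - 1) = 1 := by omega
      simp only [e1, e2, pow_zero, one_mul, pow_one, h0, zero_mul, mul_zero] at h2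
      have h3 : a0 = 0 := by
        rcases mul_eq_zero.1 h2 with h4 | h4
        · exact h4
        · exact absurd h4 (mul_ne_zero (pow_ne_zero _ h1) hρ)
      rw [h3, h0]
      ring
    · have h2 := h (cor N ε) 0 hN
      rw [mon_update', mon_update'] at h2
      rw [← hρd] at h2
      have e1 : N l = (N l - (0 + 1)) + 1 := by omega
      simp only [Nat.sub_zero, pow_zero, mul_one] at h2
      rw [show y l 0 ^ N l = y l 0 ^ (N l - (0 + 1)) * y l 0 by
        conv_lhs => rw [e1]
        rw [pow_succ]] at h2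
      have h4 : y l 0 ^ (N l - (0 + 1)) * ρ ≠ 0 := mul_ne_zero (pow_ne_zero _ h0) hρ
      apply mul_right_cancel₀ h4
      simp only [zero_add, pow_one] at h2 ⊢
      linear_combination h2
  by_cases h0 : y l 0 = 0
  · have h1 : y l 1 ≠ 0 := by
      intro h1
      apply hy l
      funext e
      rcases Fin.exists_fin_two.1 ⟨e, rfl⟩ with he | he
      · rw [he, h0]; rfl
      · rw [he, h1]; rfl
    rw [h0, mul_zero] at key
    have ha0 : a0 = 0 := (mul_eq_zero.1 key).resolve_right h1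
    have ha1 : a1 ≠ 0 := ha.resolve_left (not_not.2 ha0)
    refine ⟨a1 / y l 1, div_ne_zero ha1 h1, ?_, ?_⟩
    · rw [ha0, h0, mul_zero]
    · field_simp
  · have h3 : a0 ≠ 0 := by
      intro ha0
      rw [ha0, zero_mul] at key
      have ha1 : a1 = 0 := (mul_eq_zero.1 key.symm).resolve_right h0
      rcases ha with h | h
      · exact h ha0
      · exact h ha1
    refine ⟨a0 / y l 0, div_ne_zero h3 h0, ?_, ?_⟩
    · field_simp
    · field_simp
      linear_combination -key

/-- a pair of polynomials, not both zero, is a multiple of a coprime pair -/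
theorem exists_coprime_pair {P Q : k[X]} (h : P ≠ 0 ∨ Q ≠ 0) :
    ∃ G A B : k[X], G ≠ 0 ∧ P = G * A ∧ Q = G * B ∧ IsCoprime A B := by
  obtain ⟨G, hG⟩ := (IsPrincipalIdealRing.principal (Ideal.span {P, Q})).principal
  have hP : G ∣ P := by
    rw [← Ideal.mem_span_singleton]
    have : P ∈ Ideal.span {P, Q} := Ideal.subset_span (by simp)
    rw [hG] at this
    exact this
  have hQ : G ∣ Q := by
    rw [← Ideal.mem_span_singleton]
    have : Q ∈ Ideal.span {P, Q} := Ideal.subset_span (by simp)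
    rw [hG] at this
    exact this
  obtain ⟨A, hA⟩ := hP
  obtain ⟨B, hB⟩ := hQ
  have hG0 : G ≠ 0 := by
    intro h0
    rw [h0, zero_mul] at hA hB
    rcases h with h | h
    · exact h hA
    · exact h hB
  have hmem : G ∈ Ideal.span {P, Q} := by
    rw [hG]
    exact Submodule.mem_span_singleton_self G
  obtain ⟨a, b, hab⟩ := Ideal.mem_span_pair.1 hmem
  refine ⟨G, A, B, hG0, hA, hB, a, b, ?_⟩
  apply mul_left_cancel₀ hG0
  rw [hA, hB] at hab
  linear_combination hab

end Field

section Poly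

variable {k : Type} [Field k] {M r D : ℕ} {n : Fin M → Fin r → ℕ}

/-- `z` is the value of a point of the cone -/
def IsPt (n : Fin M → Fin r → ℕ) (Y : Set (Fin M → k)) (D : ℕ) (z : Idx D n → k) : Prop :=
  ∃ x ∈ Y, ∃ y : Fin r → Fin 2 → k, (∀ l, y l ≠ 0) ∧ emb D n x y = z

/-- the coprime pairs -/
theorem exists_pair [Infinite k] {Y : Set (Fin M → k)} (hD : 0 < D) (u : Idx D n → k[X])
    (hu : ∀ c : k, IsPt n Y D (fun s => (u s).eval c)) (l : Fin r) :
    ∃ A : Fin 2 → k[X], IsCoprime (A 0) (A 1) ∧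
      ∀ (b : ∀ _ : Fin r, Fin (D + 1)) (j : ℕ) (hj : j < D),
        A 0 * u (Sum.inl (Function.update b l ⟨j + 1, by omega⟩)) =
          A 1 * u (Sum.inl (Function.update b l ⟨j, by omega⟩)) := by
  -- a nonzero corner
  obtain ⟨x, -, y, hy, hxy⟩ := hu 0
  choose ε hε using fun l => exists_ne_zero_fin2 (hy l)
  set a : ∀ _ : Fin r, Fin (D + 1) := cor (fun _ => D) ε with ha
  have hne : u (Sum.inl a) ≠ 0 := by
    intro h0
    have h1 := congrFun hxy (Sum.inl a)
    have h2 : mon (fun _ => D) a y = 0 := by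
      have : emb D n x y (Sum.inl a) = mon (fun _ => D) a y := rfl
      rw [← this, h1, h0, eval_zero]
    rw [ha, mon_cor'] at h2
    obtain ⟨l, -, hl⟩ := Finset.prod_eq_zero_iff.1 h2
    exact hε l (pow_eq_zero_iff (by omega) |>.1 hl)
  obtain ⟨j0, hj0, hPQ⟩ : ∃ (j0 : ℕ) (hj0 : j0 < D),
      u (Sum.inl (Function.update a l ⟨j0, by omega⟩)) ≠ 0 ∨
      u (Sum.inl (Function.update a l ⟨j0 + 1, by omega⟩)) ≠ 0 := by
    by_cases h0 : (a l : ℕ) = 0
    · refine ⟨0, hD, Or.inl ?_⟩
      have : Function.update a l ⟨0, by omega⟩ = a := by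
        rw [Function.update_eq_iff]
        exact ⟨Fin.ext h0.symm, fun _ _ => rfl⟩
      rw [this]
      exact hne
    · have hlt := (a l).isLt
      refine ⟨(a l : ℕ) - 1, by omega, Or.inr ?_⟩
      have : Function.update a l ⟨(a l : ℕ) - 1 + 1, by omega⟩ = a := by
        rw [Function.update_eq_iff]
        refine ⟨Fin.ext ?_, fun _ _ => rfl⟩
        simp only
        omega
      rw [this]
      exact hne
  obtain ⟨G, A, B, hG, hP, hQ, hco⟩ := exists_coprime_pair hPQ
  refine ⟨![A, B], hco, fun b j hj => ?_⟩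
  have hcross : u (Sum.inl (Function.update a l ⟨j0, by omega⟩)) *
      u (Sum.inl (Function.update b l ⟨j + 1, by omega⟩)) =
      u (Sum.inl (Function.update a l ⟨j0 + 1, by omega⟩)) *
      u (Sum.inl (Function.update b l ⟨j, by omega⟩)) := by
    apply Polynomial.funext
    intro c
    obtain ⟨x, -, y, hy, hxy⟩ := hu c
    have e : ∀ b : ∀ _ : Fin r, Fin (D + 1), (u (Sum.inl b)).eval c = mon (fun _ => D) b y :=
      fun b => (congrFun hxy (Sum.inl b)).symm
    rw [eval_mul, eval_mul, e, e, e, e, mon_update', mon_update', mon_update', mon_update']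
    have e1 : D - j0 = (D - (j0 + 1)) + 1 := by omega
    have e2 : D - j = (D - (j + 1)) + 1 := by omega
    simp only
    rw [e1, e2, pow_succ, pow_succ, pow_succ, pow_succ]
    ring
  rw [hP, hQ] at hcross
  apply mul_left_cancel₀ hG
  simp only [Matrix.cons_val_zero, Matrix.cons_val_one]
  linear_combination hcross

/-- **Recovery, polynomial version.** -/
theorem recover_poly [IsAlgClosed k] {Y : Set (Fin M → k)} (hD : 0 < D) {e : ℕ}
    (u : Idx D n → k[X]) (hdeg : ∀ s, (u s).natDegree ≤ e)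
    (hu : ∀ c : k, IsPt n Y D (fun s => (u s).eval c))
    (hinf : IsPt n Y D (fun s => (u s).coeff e)) :
    ∃ (δ : Fin r → ℕ) (A : Fin r → Fin 2 → k[X]) (P : Fin M → k[X]),
      e = D * ∑ l, δ l ∧ (∀ l j, (A l j).natDegree ≤ δ l) ∧
      (∀ l, IsCoprime (A l 0) (A l 1)) ∧ (∀ l, ∃ j, (A l j).coeff (δ l) ≠ 0) ∧
      (∀ i, P i ≠ 0 → (P i).natDegree + ∑ l, n i l * δ l ≤ e) ∧
      u = emb D n P A := by
  have : Infinite k := IsAlgClosed.instInfinite
  choose B hB using exists_pair hD u hu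
  -- proportionality
  have hprop : ∀ (c : k) (x : Fin M → k) (y : Fin r → Fin 2 → k), (∀ l, y l ≠ 0) →
      emb D n x y = (fun s => (u s).eval c) →
      ∃ τ : Fin r → k, (∀ l, τ l ≠ 0) ∧ ∀ l j, (B l j).eval c = τ l * y l j := by
    intro c x y hy hxy
    have h1 : ∀ l, ∃ τ : k, τ ≠ 0 ∧ (B l 0).eval c = τ * y l 0 ∧ (B l 1).eval c = τ * y l 1 := by
      intro l
      refine prop_of_rel (N := fun _ => D) hD hy ?_ ?_
      · obtain ⟨a, b, hab⟩ := (hB l).1
        by_contra hcon
        push Not at hcon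
        have h2 := congrArg (Polynomial.eval c) hab
        rw [eval_add, eval_mul, eval_mul, hcon.1, hcon.2, mul_zero, mul_zero, add_zero,
          eval_one] at h2
        exact zero_ne_one h2
      · intro b j hj
        have h2 := congrArg (Polynomial.eval c) ((hB l).2 b j hj)
        rw [eval_mul, eval_mul] at h2
        have e : ∀ b : ∀ _ : Fin r, Fin (D + 1),
            (u (Sum.inl b)).eval c = mon (fun _ => D) b y :=
          fun b => (congrFun hxy (Sum.inl b)).symm
        rw [e, e] at h2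
        exact h2
    choose τ h2 h3 h4 using h1
    refine ⟨τ, h2, fun l j => ?_⟩
    rcases Fin.exists_fin_two.1 ⟨j, rfl⟩ with hj | hj
    · rw [hj]; exact h3 l
    · rw [hj]; exact h4 l
  -- the cross relations
  have hev : ∀ (c : k) (N : Fin r → ℕ) (b : ∀ l, Fin (N l + 1)),
      (mon N b B).eval c = mon N b (fun l j => (B l j).eval c) := fun c N b =>
    mon_map' (Polynomial.evalRingHom c) N b B
  have hcross1 : ∀ a b : ∀ _ : Fin r, Fin (D + 1),
      u (Sum.inl a) * mon (fun _ => D) b B = u (Sum.inl b) * mon (fun _ => D) a B := by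
    intro a b
    apply Polynomial.funext
    intro c
    obtain ⟨x, -, y, hy, hxy⟩ := hu c
    obtain ⟨τ, -, hτ⟩ := hprop c x y hy hxy
    have e : ∀ b : ∀ _ : Fin r, Fin (D + 1), (u (Sum.inl b)).eval c = mon (fun _ => D) b y :=
      fun b => (congrFun hxy (Sum.inl b)).symm
    have hτ' : (fun l j => (B l j).eval c) = fun l j => τ l * y l j := by
      funext l j; exact hτ l j
    rw [eval_mul, eval_mul, e, e, hev, hev, hτ', mon_smul', mon_smul']
    ring
  have hcross2 : ∀ (i : Fin M) (b b' : ∀ l, Fin (n i l + 1)),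
      u (Sum.inr ⟨i, b⟩) * mon (n i) b' B = u (Sum.inr ⟨i, b'⟩) * mon (n i) b B := by
    intro i b b'
    apply Polynomial.funext
    intro c
    obtain ⟨x, -, y, hy, hxy⟩ := hu c
    obtain ⟨τ, -, hτ⟩ := hprop c x y hy hxy
    have e : ∀ b : ∀ l, Fin (n i l + 1), (u (Sum.inr ⟨i, b⟩)).eval c = x i * mon (n i) b y :=
      fun b => (congrFun hxy (Sum.inr ⟨i, b⟩)).symm
    have hτ' : (fun l j => (B l j).eval c) = fun l j => τ l * y l j := by
      funext l j; exact hτ l j
    rw [eval_mul, eval_mul, e, e, hev, hev, hτ', mon_smul', mon_smul']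
    ring
  obtain ⟨g, hg⟩ : ∃ g : k[X], ∀ a, u (Sum.inl a) = g * mon (fun _ => D) a B := by
    obtain ⟨c, hc⟩ := exists_mon_comb (fun _ => D) B (fun l => (hB l).1)
    refine ⟨∑ b, c b * u (Sum.inl b), fun a => ?_⟩
    calc u (Sum.inl a) = u (Sum.inl a) * ∑ b, c b * mon (fun _ => D) b B := by rw [hc, mul_one]
      _ = ∑ b, c b * (u (Sum.inl a) * mon (fun _ => D) b B) := by
        rw [Finset.mul_sum]
        exact Finset.sum_congr rfl fun b _ => by ring
      _ = ∑ b, c b * (u (Sum.inl b) * mon (fun _ => D) a B) :=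
        Finset.sum_congr rfl fun b _ => by rw [hcross1 a b]
      _ = _ := by
        rw [Finset.sum_mul]
        exact Finset.sum_congr rfl fun b _ => by ring
  obtain ⟨P', hP'⟩ : ∃ P' : Fin M → k[X], ∀ i b, u (Sum.inr ⟨i, b⟩) = P' i * mon (n i) b B := by
    choose c hc using fun i => exists_mon_comb (n i) B (fun l => (hB l).1)
    refine ⟨fun i => ∑ b, c i b * u (Sum.inr ⟨i, b⟩), fun i a => ?_⟩
    calc u (Sum.inr ⟨i, a⟩) = u (Sum.inr ⟨i, a⟩) * ∑ b, c i b * mon (n i) b B := by
          rw [hc, mul_one]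
      _ = ∑ b, c i b * (u (Sum.inr ⟨i, a⟩) * mon (n i) b B) := by
        rw [Finset.mul_sum]
        exact Finset.sum_congr rfl fun b _ => by ring
      _ = ∑ b, c i b * (u (Sum.inr ⟨i, b⟩) * mon (n i) a B) :=
        Finset.sum_congr rfl fun b _ => by rw [hcross2 i a b]
      _ = _ := by
        rw [Finset.sum_mul]
        exact Finset.sum_congr rfl fun b _ => by ring
  -- `g` is a nonzero constant
  have hg0 : ∀ c : k, g.eval c ≠ 0 := by
    intro c h0
    obtain ⟨x, -, y, hy, hxy⟩ := hu c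
    choose ε hε using fun l => exists_ne_zero_fin2 (hy l)
    have h1 := congrFun hxy (Sum.inl (cor (fun _ => D) ε))
    have h2 : mon (fun _ => D) (cor (fun _ => D) ε) y = 0 := by
      have : emb D n x y (Sum.inl (cor (fun _ => D) ε)) = mon (fun _ => D) (cor (fun _ => D) ε) y :=
        rfl
      rw [← this, h1, hg, eval_mul, h0, zero_mul]
    rw [mon_cor'] at h2
    obtain ⟨l, -, hl⟩ := Finset.prod_eq_zero_iff.1 h2
    exact hε l (pow_eq_zero_iff (by omega) |>.1 hl)
  obtain ⟨g0, hg0', hgC⟩ : ∃ g0 : k, g0 ≠ 0 ∧ g = C g0 := by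
    have h1 : g.degree = 0 := by
      by_contra hne
      obtain ⟨c, hc⟩ := IsAlgClosed.exists_root g hne
      exact hg0 c hc
    have h2 : g = C (g.coeff 0) := eq_C_of_degree_eq_zero h1
    refine ⟨g.coeff 0, fun h0 => ?_, h2⟩
    rw [h0, C_0] at h2
    apply hg0 0
    rw [h2, eval_zero]
  -- absorb the constant in the torus
  obtain ⟨t, ht0, ht⟩ : ∃ t : Fin r → k, (∀ l, t l ≠ 0) ∧ ∏ l, t l ^ D = g0 := by
    rcases Nat.eq_zero_or_pos r with hr | hr
    · subst hr
      refine ⟨fun _ => 1, fun l => one_ne_zero, ?_⟩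
      obtain ⟨x, -, y, hy, hxy⟩ := hu 0
      have h1 := congrFun hxy (Sum.inl (fun l => l.elim0))
      have h2 : emb D n x y (Sum.inl (fun l => l.elim0)) = 1 := by
        simp [emb, mon]
      rw [h2, hg, hgC, eval_mul, eval_C] at h1
      simp [mon] at h1
      simpa using h1
    · obtain ⟨s, hs⟩ := IsAlgClosed.exists_pow_nat_eq g0 hD
      refine ⟨fun l => if l = ⟨0, hr⟩ then s else 1, fun l => ?_, ?_⟩
      · by_cases hl : l = ⟨0, hr⟩
        · simp only [hl, if_true]
          intro h0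
          rw [h0, zero_pow (by omega)] at hs
          exact hg0' hs.symm
        · simp [hl]
      · rw [Finset.prod_eq_single (⟨0, hr⟩ : Fin r)]
        · simp [hs]
        · intro l _ hl
          simp [hl]
        · intro h; exact absurd (Finset.mem_univ _) h
  set A : Fin r → Fin 2 → k[X] := fun l j => C (t l) * B l j with hA
  have hAco : ∀ l, IsCoprime (A l 0) (A l 1) := by
    intro l
    obtain ⟨a, b, hab⟩ := (hB l).1
    refine ⟨C (t l)⁻¹ * a, C (t l)⁻¹ * b, ?_⟩
    have h1 : C (t l)⁻¹ * C (t l) = (1 : k[X]) := by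
      rw [← C_mul, inv_mul_cancel₀ (ht0 l), C_1]
    rw [hA]
    linear_combination hab + (a * B l 0 + b * B l 1) * h1
  have hmonA : ∀ (N : Fin r → ℕ) (b : ∀ l, Fin (N l + 1)),
      mon N b A = C (∏ l, t l ^ N l) * mon N b B := by
    intro N b
    rw [hA, mon_smul', map_prod]
    simp only [map_pow]
  have hprodt : ∀ N : Fin r → ℕ, ∏ l, t l ^ N l ≠ 0 := fun N =>
    Finset.prod_ne_zero_iff.2 fun l _ => pow_ne_zero _ (ht0 l)
  set P : Fin M → k[X] := fun i => C (∏ l, t l ^ n i l)⁻¹ * P' i with hP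
  have hu_eq : u = emb D n P A := by
    funext s
    rcases s with a | ⟨i, b⟩
    · have : emb D n P A (Sum.inl a) = mon (fun _ => D) a A := rfl
      rw [this, hmonA, hg, hgC, ← ht]
    · have h1 : emb D n P A (Sum.inr ⟨i, b⟩) = P i * mon (n i) b A := rfl
      have h2 : C (∏ l, t l ^ n i l)⁻¹ * C (∏ l, t l ^ n i l) = (1 : k[X]) := by
        rw [← C_mul, inv_mul_cancel₀ (hprodt _), C_1]
      rw [h1, hmonA, hP', hP]
      linear_combination -(P' i * mon (n i) b B) * h2
  -- degrees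
  set δ : Fin r → ℕ := fun l => max (A l 0).natDegree (A l 1).natDegree with hδ
  have hAdeg : ∀ l j, (A l j).natDegree ≤ δ l := by
    intro l j
    rcases Fin.exists_fin_two.1 ⟨j, rfl⟩ with hj | hj
    · rw [hj]; exact le_max_left _ _
    · rw [hj]; exact le_max_right _ _
  have hAtop : ∀ l, ∃ j, A l j ≠ 0 ∧ (A l j).natDegree = δ l := by
    intro l
    have hne : A l 0 ≠ 0 ∨ A l 1 ≠ 0 := by
      by_contra hcon
      push Not at hcon
      obtain ⟨a, b, hab⟩ := hAco l
      rw [hcon.1, hcon.2, mul_zero, mul_zero, add_zero] at hab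
      exact zero_ne_one hab
    by_cases h0 : A l 0 = 0
    · refine ⟨1, hne.resolve_left (not_not.2 h0), ?_⟩
      rw [hδ]
      simp [h0]
    · by_cases h1 : A l 1 = 0
      · refine ⟨0, h0, ?_⟩
        rw [hδ]
        simp [h1]
      · rcases le_total (A l 0).natDegree (A l 1).natDegree with h | h
        · exact ⟨1, h1, by rw [hδ]; simp [max_eq_right h]⟩
        · exact ⟨0, h0, by rw [hδ]; simp [max_eq_left h]⟩
  choose ε hε0 hεd using hAtop
  have hcordeg : ∀ N : Fin r → ℕ, mon N (cor N ε) A ≠ 0 ∧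
      (mon N (cor N ε) A).natDegree = ∑ l, N l * δ l := by
    intro N
    rw [mon_cor']
    refine ⟨Finset.prod_ne_zero_iff.2 fun l _ => pow_ne_zero _ (hε0 l), ?_⟩
    rw [natDegree_prod _ _ fun l _ => pow_ne_zero _ (hε0 l)]
    refine Finset.sum_congr rfl fun l _ => ?_
    rw [natDegree_pow, hεd]
  have hmondeg : ∀ (N : Fin r → ℕ) (b : ∀ l, Fin (N l + 1)),
      (mon N b A).natDegree ≤ ∑ l, N l * δ l := by
    intro N b
    refine (natDegree_prod_le _ _).trans (Finset.sum_le_sum fun l _ => ?_)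
    have h1 : (A l 0 ^ (N l - (b l : ℕ))).natDegree ≤ (N l - (b l : ℕ)) * δ l :=
      natDegree_pow_le.trans (Nat.mul_le_mul_left _ (hAdeg l 0))
    have h2 : (A l 1 ^ (b l : ℕ)).natDegree ≤ (b l : ℕ) * δ l :=
      natDegree_pow_le.trans (Nat.mul_le_mul_left _ (hAdeg l 1))
    refine natDegree_mul_le.trans ((Nat.add_le_add h1 h2).trans ?_)
    rw [← Nat.add_mul]
    have h3 := (b l).isLt
    exact Nat.mul_le_mul_right _ (by omega)
  have he : e = D * ∑ l, δ l := by
    apply le_antisymm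
    · obtain ⟨x, -, y, hy, hxy⟩ := hinf
      choose ε' hε' using fun l => exists_ne_zero_fin2 (hy l)
      have h1 := congrFun hxy (Sum.inl (cor (fun _ => D) ε'))
      have h2 : mon (fun _ => D) (cor (fun _ => D) ε') y ≠ 0 := by
        rw [mon_cor']
        exact Finset.prod_ne_zero_iff.2 fun l _ => pow_ne_zero _ (hε' l)
      have h3 : (u (Sum.inl (cor (fun _ => D) ε'))).coeff e ≠ 0 := by
        rw [← h1]
        exact h2
      have h4 := le_natDegree_of_ne_zero h3
      rw [hu_eq] at h4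
      refine h4.trans ((hmondeg (fun _ => D) _).trans ?_)
      rw [Finset.mul_sum]
    · have h1 := hdeg (Sum.inl (cor (fun _ => D) ε))
      have h2 : u (Sum.inl (cor (fun _ => D) ε)) = mon (fun _ => D) (cor (fun _ => D) ε) A := by
        rw [hu_eq]; rfl
      rw [h2, (hcordeg _).2] at h1
      rw [Finset.mul_sum]
      exact h1
  refine ⟨δ, A, P, he, hAdeg, hAco, fun l => ⟨ε l, ?_⟩, fun i hi => ?_, hu_eq⟩
  · rw [← hεd, coeff_natDegree]
    exact leadingCoeff_ne_zero.2 (hε0 l)
  · have h1 := hdeg (Sum.inr ⟨i, cor (n i) ε⟩)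
    have h2 : u (Sum.inr ⟨i, cor (n i) ε⟩) = P i * mon (n i) (cor (n i) ε) A := by
      rw [hu_eq]; rfl
    rw [h2, natDegree_mul hi (hcordeg _).1, (hcordeg _).2] at h1
    exact h1

end Poly

end Pool.Agent.VFG
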