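import Pool.Agent.Lib_MP_1858fb_g.ReindexZ

/-!
# MP_1858fb_ag, line G, piece G0: `QPTheorem` for a general index type
-/

set_option autoImplicit false

namespace Pool.Agent.VFG

open MvPolynomial Pool.Agent.VF

section

variable {k : Type} [Field k]

theorem smoothAt_reindex {σ τ : Type} [Fintype σ] [Fintype τ] (e : σ ≃ τ) {c : ℕ}
    {C : Set (σ → k)} {x : σ → k} (h : SmoothAt c C x) :
    SmoothAt c {y : τ → k | (fun i => y (e i)) ∈ C} (fun j => x (e.symm j)) := by
  apply rz_smooth e C
  rw [show (fun i => x (e.symm (e i))) = x from rz_symm_apply e x]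
  exact h

theorem qp_general (h : QPTheorem k) {σ : Type} [Fintype σ] [Nonempty σ] {c d m : ℕ}
    (hc : c + 1 < Fintype.card σ) (C : Set (σ → k)) (F : Fin (d + 1) → σ → k) (v : Fin m → σ → k) (hC : LocClosedS C)
    (hirr : Irred C) (hsm : ∀ x ∈ C, SmoothAt c C x) (hF : IsCurveS C F) (hvf : VeryFreeS C F)
    (hv : ∀ i, v i ∈ C) :
    ∃ (d' : ℕ) (F' : Fin (d' + 1) → σ → k) (a : Fin m → k), Function.Injective a ∧
      IsCurveS C F' ∧ VeryFreeS C F' ∧ ∀ i, ∃ b : k, b ≠ 0 ∧ val F' 1 (a i) = b • v i := by
  obtain ⟨N, hN⟩ := Nat.exists_eq_succ_of_ne_zero (Fintype.card_ne_zero (α := σ))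
  let e : σ ≃ Fin (N + 1) := Fintype.equivFinOfCardEq hN
  have hval : ∀ {d : ℕ} (F : Fin (d + 1) → σ → k) (p q : k),
      (fun i => val (fun j i' => F j (e.symm i')) p q (e i)) = val F p q := by
    intro d F p q
    funext i
    simp [val]
  have hsymm' : ∀ x : σ → k, (fun i => x (e.symm (e i))) = x :=
    fun x => rz_symm_apply e x
  obtain ⟨d', F', a', ha', hF', hvf', hv'⟩ := h N c d m (rzSet e C)
    (fun j i => F j (e.symm i)) (fun l i => v l (e.symm i))
    (by omega) (rz_locClosed e C hC)
    (by
      obtain ⟨⟨x, hx⟩, hp⟩ := hirr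
      refine ⟨⟨fun j => x (e.symm j), ?_⟩, fun E G hEG => ?_⟩
      · change (fun i => x (e.symm (e i))) ∈ C
        rw [hsymm']
        exact hx
      · have hr : ∀ E : MvPolynomial (Fin (N + 1)) k, rename e (rename e.symm E) = E := by
          intro E
          rw [rename_rename]
          have h3 : (e : σ → Fin (N + 1)) ∘ (e.symm : Fin (N + 1) → σ) = id := by
            funext j
            simp
          rw [h3, rename_id, AlgHom.id_apply]
        have hr' : ∀ E : MvPolynomial (Fin (N + 1)) k, E ∈ van (rzSet e C) ↔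
            rename e.symm E ∈ van C := by
          intro E
          rw [rz_van]
          constructor
          · rintro ⟨E0, hE0, rfl⟩
            rw [rename_rename]
            have h3 : (e.symm : Fin (N + 1) → σ) ∘ (e : σ → Fin (N + 1)) = id := by
              funext j
              simp
            rw [h3, rename_id, AlgHom.id_apply]
            exact hE0
          · intro h
            exact ⟨_, h, (hr E).symm⟩
        rw [hr', map_mul] at hEG
        rcases hp _ _ hEG with h1 | h1
        · exact Or.inl ((hr' E).mpr h1)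
        · exact Or.inr ((hr' G).mpr h1))
    (fun y hy => rz_smooth e C y (hsm _ hy))
    (fun p q hpq => by
      change (fun i => val (fun j i' => F j (e.symm i')) p q (e i)) ∈ C
      rw [hval]
      exact hF p q hpq)
    (by
      intro p q p' q' hpq w hw w' hw'
      rw [rz_tan, hval] at hw hw'
      obtain ⟨G', hG', ⟨b, hb⟩, ⟨b', hb'⟩⟩ := hvf p q p' q' hpq _ hw _ hw'
      refine ⟨fun j i => G' j (e.symm i), fun s t => ?_, ⟨b, ?_⟩, ⟨b', ?_⟩⟩
      · rw [rz_tan, hval, hval]
        exact hG' s t
      · funext i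
        have h1 := congrFun hb (e.symm i)
        simpa [val] using h1
      · funext i
        have h1 := congrFun hb' (e.symm i)
        simpa [val] using h1)
    (fun l => by
      change (fun i => v l (e.symm (e i))) ∈ C
      rw [hsymm']
      exact hv l)
  refine ⟨d', fun j i => F' j (e i), a', ha', fun p q hpq => hF' p q hpq, ?_, ?_⟩
  · intro p q p' q' hpq w hw w' hw'
    have h1 : (fun j => w (e.symm j)) ∈ Tan (rzSet e C) (val F' p q) := by
      rw [rz_tan, hsymm']
      exact hw
    have h2 : (fun j => w' (e.symm j)) ∈ Tan (rzSet e C) (val F' p' q') := by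
      rw [rz_tan, hsymm']
      exact hw'
    obtain ⟨G', hG', ⟨b, hb⟩, ⟨b', hb'⟩⟩ := hvf' p q p' q' hpq _ h1 _ h2
    refine ⟨fun j i => G' j (e i), fun s t => ?_, ⟨b, ?_⟩, ⟨b', ?_⟩⟩
    · have h3 := hG' s t
      rw [rz_tan] at h3
      exact h3
    · funext i
      have h3 := congrFun hb (e i)
      simpa [val] using h3
    · funext i
      have h3 := congrFun hb' (e i)
      simpa [val] using h3
  · intro l
    obtain ⟨b, hb, hb'⟩ := hv' l
    refine ⟨b, hb, ?_⟩
    funext i
    have h3 := congrFun hb' (e i)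
    simpa [val] using h3

end

end Pool.Agent.VFG
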