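import Pool.Agent.Lib_MP_1858fb_g.Defs2

/-!
# MP_1858fb_ag, line G: exact statements of the pieces (stubs, do not import in proofs)
-/

set_option autoImplicit false

namespace Pool.Agent.VFG

open MvPolynomial Pool.Agent.VF

variable {k : Type} [Field k]

/-! ## G0 Reindex.lean -/

theorem smoothAt_reindex {σ τ : Type} [Fintype σ] [Fintype τ] (e : σ ≃ τ) {c : ℕ}
    {C : Set (σ → k)} {x : σ → k} (h : SmoothAt c C x) :
    SmoothAt c {y : τ → k | (fun i => y (e i)) ∈ C} (fun j => x (e.symm j)) := by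
  sorry

theorem qp_general (h : QPTheorem k) {σ : Type} [Fintype σ] [Nonempty σ] {c d m : ℕ}
    (hc : c + 1 < Fintype.card σ) (C : Set (σ → k)) (F : Fin (d + 1) → σ → k) (v : Fin m → σ → k) (hC : LocClosedS C)
    (hirr : Irred C) (hsm : ∀ x ∈ C, SmoothAt c C x) (hF : IsCurveS C F) (hvf : VeryFreeS C F)
    (hv : ∀ i, v i ∈ C) :
    ∃ (d' : ℕ) (F' : Fin (d' + 1) → σ → k) (a : Fin m → k), Function.Injective a ∧
      IsCurveS C F' ∧ VeryFreeS C F' ∧ ∀ i, ∃ b : k, b ≠ 0 ∧ val F' 1 (a i) = b • v i := by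
  sorry

/-! ## G1 Act.lean -/

section

variable {M r D : ℕ} {w : Fin M → Fin r → ℤ} {n : Fin M → Fin r → ℕ} {c : ℕ} {Y : Set (Fin M → k)}

theorem emb_act {R : Type} [CommRing R] (hn : ∀ i l, w i l = (D : ℤ) - n i l) (t : Fin r → Rˣ)
    (x : Fin M → R) (y : Fin r → Fin 2 → R) :
    emb D n (act w t x) (fun l e => (t l : R) * y l e) =
      fun j => ((∏ l, t l ^ D : Rˣ) : R) * emb D n x y j := by
  sorry

theorem act_mem (hY : IsTorsor w c Y) (t : Fin r → kˣ) {x : Fin M → k} (hx : x ∈ Y) :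
    act w t x ∈ Y := by
  sorry

/-- `R`-valued points: the equations of `Y` are stable under the torus over `R` -/
theorem act_van [Infinite k] (hY : IsTorsor w c Y) {R : Type} [CommRing R] [Algebra k R]
    (t : Fin r → Rˣ) (x : Fin M → R) (hx : ∀ E ∈ van Y, aeval x E = 0) :
    ∀ E ∈ van Y, aeval (act w t x) E = 0 := by
  sorry

/-- normal form: a point of the cone with nonzero corner coordinate -/
theorem exists_nf (hn : ∀ i l, w i l = (D : ℤ) - n i l) (hY : IsTorsor w c Y)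
    (ε : Fin r → Fin 2) {x : Fin M → k} (hx : x ∈ Y) {y : Fin r → Fin 2 → k}
    (hy : ∀ l, y l (ε l) ≠ 0) :
    ∃ (s : k) (x' : Fin M → k) (y' : Fin r → Fin 2 → k), s ≠ 0 ∧ x' ∈ Y ∧
      (∀ l, y' l (ε l) = 1) ∧ emb D n x y = s • emb D n x' y' := by
  sorry

theorem cone_smul [IsAlgClosed k] (hn : ∀ i l, w i l = (D : ℤ) - n i l) (hY : IsTorsor w c Y)
    (hD : 0 < D) (hr : 0 < r) {u : Idx D n → k} (hu : u ∈ cone D n Y) {s : k} (hs : s ≠ 0) :
    s • u ∈ cone D n Y := by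
  sorry

theorem emb_inj (hn : ∀ i l, w i l = (D : ℤ) - n i l) (hD : 0 < D) {x x' : Fin M → k}
    {y y' : Fin r → Fin 2 → k} (hy : ∀ l, y l ≠ 0) (hy' : ∀ l, y' l ≠ 0)
    (h : emb D n x y = emb D n x' y') :
    ∃ t : Fin r → kˣ, x = act w t x' ∧ ∀ l e, y l e = (t l : k) * y' l e := by
  sorry

/-! ## G2 Homog.lean, Nfr.lean -/

/-- homogenisation of `G` at the corner `ε` -/
theorem exists_homog (ε : Fin r → Fin 2) (G : MvPolynomial (Fin M) k) :
    ∃ (G' : MvPolynomial (Idx D n) k) (e : ℕ), G'.IsHomogeneous e ∧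
      ∀ (R : Type) [CommRing R] [Algebra k R] (s : R) (x : Fin M → R) (y : Fin r → Fin 2 → R),
        (∀ l, y l (ε l) = 1) → aeval (fun j => s * emb D n x y j) G' = s ^ e * aeval x G := by
  sorry

/-- `R`-valued points of the cone with a unit as corner coordinate -/
theorem nfr [IsAlgClosed k] (hn : ∀ i l, w i l = (D : ℤ) - n i l) (hY : IsTorsor w c Y)
    (hD : 0 < D) (ε : Fin r → Fin 2) {R : Type} [CommRing R] [Algebra k R] (u : Idx D n → R)
    (hu : ∀ E ∈ van (cone D n Y), (∃ e : ℕ, E.IsHomogeneous e) → aeval u E = 0)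
    (hunit : IsUnit (u (cor0 D n ε))) :
    ∃ (s : Rˣ) (x : Fin M → R) (y : Fin r → Fin 2 → R), (∀ E ∈ van Y, aeval x E = 0) ∧
      (∀ l, y l (ε l) = 1) ∧ u = fun j => (s : R) * emb D n x y j := by
  sorry

/-! ## G3 LocClosedCone.lean (from G1, G2) -/

theorem cone_locClosed [IsAlgClosed k] (hn : ∀ i l, w i l = (D : ℤ) - n i l)
    (hY : IsTorsor w c Y) (hD : 0 < D) (hr : 0 < r) : LocClosedS (cone D n Y) := by
  sorry

/-! ## G4 IrredCone.lean -/

theorem cone_irred [Infinite k] (hY : Irred Y) : Irred (cone D n Y) := by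
  sorry

/-! ## G5 Graph.lean -/

end

theorem smoothAt_graph {σ κ : Type} [Fintype σ] [Fintype κ] (A : Set (σ → k))
    (B : Set (σ ⊕ κ → k)) (H : MvPolynomial σ k) (f : κ → MvPolynomial σ k) (K : κ → ℕ)
    (h1 : ∀ u ∈ B, ∀ j, aeval (fun i => u (Sum.inl i)) H ^ K j * u (Sum.inr j) =
      aeval (fun i => u (Sum.inl i)) (f j))
    (h2 : ∀ u ∈ B, aeval (fun i => u (Sum.inl i)) H ≠ 0 → (fun i => u (Sum.inl i)) ∈ A)
    (h3 : ∀ p ∈ A, aeval p H ≠ 0 →
      Sum.elim p (fun j => aeval p (f j) / aeval p H ^ K j) ∈ B)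
    {c : ℕ} {u : σ ⊕ κ → k} (hu : u ∈ B) (hH : aeval (fun i => u (Sum.inl i)) H ≠ 0)
    (hs : SmoothAt c A (fun i => u (Sum.inl i))) :
    SmoothAt (c + Fintype.card κ) B u := by
  sorry

/-! ## G6 ConeLem.lean -/

theorem smoothAt_coneLem {M r c : ℕ} (Y : Set (Fin M → k))
    (p : Option (Fin r ⊕ Fin M) → k) (hp : p none ≠ 0)
    (hs : SmoothAt c Y (fun i => p (some (Sum.inr i)) / p none)) [Infinite k] :
    SmoothAt c {p : Option (Fin r ⊕ Fin M) → k |
      p none ≠ 0 ∧ (fun i => p (some (Sum.inr i)) / p none) ∈ Y} p := by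
  sorry

/-! ## G7 SmoothCone.lean (from G0, G1, G5, G6) -/

section

variable {M r D : ℕ} {w : Fin M → Fin r → ℤ} {n : Fin M → Fin r → ℕ} {c : ℕ} {Y : Set (Fin M → k)}

theorem cone_smooth [IsAlgClosed k] (hn : ∀ i l, w i l = (D : ℤ) - n i l) (hY : IsTorsor w c Y)
    (hD : 0 < D) (hr : 0 < r) (u : Idx D n → k) (hu : u ∈ cone D n Y) (c' : ℕ)
    (hc : c' + (1 + r + M) = c + Fintype.card (Idx D n)) : SmoothAt c' (cone D n Y) u := by
  sorry

theorem card_idx_ge (hD : 0 < D) : 1 + r + M ≤ Fintype.card (Idx D n) := by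
  sorry

/-! ## G8 TanCone.lean (from G1, G2) -/

theorem demb_mem {x : Fin M → k} (hx : x ∈ Y) {y : Fin r → Fin 2 → k} (hy : ∀ l, y l ≠ 0)
    [Infinite k] {ξ : Fin M → k} (hξ : ξ ∈ Tan Y x) (η : Fin r → Fin 2 → k) :
    demb D n x y ξ η ∈ Tan (cone D n Y) (emb D n x y) := by
  sorry

theorem exists_demb [IsAlgClosed k] (hn : ∀ i l, w i l = (D : ℤ) - n i l) (hY : IsTorsor w c Y)
    (hD : (D : k) ≠ 0) (hr : 0 < r) {x : Fin M → k} (hx : x ∈ Y) {y : Fin r → Fin 2 → k}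
    (hy : ∀ l, y l ≠ 0) {ω : Idx D n → k} (hω : ω ∈ Tan (cone D n Y) (emb D n x y)) :
    ∃ ξ ∈ Tan Y x, ∃ η : Fin r → Fin 2 → k, ω = demb D n x y ξ η := by
  sorry

theorem demb_add (x : Fin M → k) (y : Fin r → Fin 2 → k) (ξ ξ' : Fin M → k)
    (η η' : Fin r → Fin 2 → k) :
    demb D n x y (ξ + ξ') (η + η') = demb D n x y ξ η + demb D n x y ξ' η' := by
  sorry

/-- the radial vectors -/
theorem demb_radial (hn : ∀ i l, w i l = (D : ℤ) - n i l) (x : Fin M → k)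
    (y : Fin r → Fin 2 → k) (c : Fin r → k) :
    demb D n x y (radial w x c) (fun l e => c l * y l e) =
      ((D : k) * ∑ l, c l) • emb D n x y := by
  sorry

theorem radial_mem_tan [Infinite k] (hY : IsTorsor w c Y) {x : Fin M → k} (hx : x ∈ Y)
    (a : Fin r → k) : radial w x a ∈ Tan Y x := by
  sorry

/-- the kernel of the derivative is radial -/
theorem demb_eq_zero (hn : ∀ i l, w i l = (D : ℤ) - n i l) (hD : (D : k) ≠ 0)
    {x : Fin M → k} {y : Fin r → Fin 2 → k} (hy : ∀ l, y l ≠ 0) {ξ : Fin M → k}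
    {η : Fin r → Fin 2 → k} {s : k} (h : demb D n x y ξ η = s • emb D n x y) :
    ∃ a : Fin r → k, ξ = radial w x a ∧ ∀ l e, η l e = a l * y l e := by
  sorry

end

/-! ## G9 Forms.lean: binary forms as functions -/

/-- The value of the binary form of degree `d` with the coefficients `a`. -/
def fval (d : ℕ) (a : ℕ → k) (p q : k) : k :=
  ∑ j ∈ Finset.range (d + 1), a j * (p ^ (d - j) * q ^ j)

theorem exists_fval_mul (d e : ℕ) (a b : ℕ → k) :
    ∃ c : ℕ → k, ∀ p q, fval (d + e) c p q = fval d a p q * fval e b p q := by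
  sorry

theorem exists_fval_pow (d : ℕ) (a : ℕ → k) (m : ℕ) :
    ∃ c : ℕ → k, ∀ p q, fval (m * d) c p q = fval d a p q ^ m := by
  sorry

theorem exists_fval_interp (d : ℕ) (hd : 1 ≤ d) {p q p' q' : k} (h : p * q' - p' * q ≠ 0)
    (z z' : k) : ∃ a : ℕ → k, fval d a p q = z ∧ fval d a p' q' = z' := by
  sorry

/-- homogeneous Bezout -/
theorem exists_fval_bezout [IsAlgClosed k] (d : ℕ) (a b : ℕ → k)
    (hab : ∀ p q : k, (p ≠ 0 ∨ q ≠ 0) → fval d a p q ≠ 0 ∨ fval d b p q ≠ 0) (c : ℕ → k) :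
    ∃ a' b' : ℕ → k, ∀ p q, fval d a p q * fval d b' p q - fval d b p q * fval d a' p q =
      fval (2 * d) c p q := by
  sorry

section

variable {M r D : ℕ} {w : Fin M → Fin r → ℤ} {n : Fin M → Fin r → ℕ} {c : ℕ} {Y : Set (Fin M → k)}

/-! ## G10 Lift.lean (from G8, G9) -/

theorem exists_lift [IsAlgClosed k] (hn : ∀ i l, w i l = (D : ℤ) - n i l) (hY : IsTorsor w c Y)
    (hD : (D : k) ≠ 0) (hr : 0 < r) (δ : Fin r → ℕ) (hδ : ∀ l, 1 ≤ δ l) (F : Fin M → ℕ → k)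
    (hF : IsGCurve w Y (fun l => (δ l : ℤ)) F) (hvf : GVeryFree w Y (fun l => (δ l : ℤ)) F) :
    ∃ U : Fin ((D * ∑ l, δ l) + 1) → Idx D n → k, IsCurveS (cone D n Y) U ∧
      VeryFreeS (cone D n Y) U := by
  sorry

/-! ## G11 Recover.lean (from G1, G9) -/

theorem exists_recover [IsAlgClosed k] (hn : ∀ i l, w i l = (D : ℤ) - n i l)
    (hY : IsTorsor w c Y) (hD : 0 < D) {e : ℕ} (U : Fin (e + 1) → Idx D n → k)
    (hU : IsCurveS (cone D n Y) U) :
    ∃ (δ : Fin r → ℕ) (A : Fin r → Fin 2 → ℕ → k) (F : Fin M → ℕ → k),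
      e = D * ∑ l, δ l ∧
      (∀ p q : k, (p ≠ 0 ∨ q ≠ 0) → ∀ l, (fun j => fval (δ l) (A l j) p q) ≠ 0) ∧
      ∀ p q : k, val U p q =
        emb D n (gval w (fun l => (δ l : ℤ)) F p q) (fun l j => fval (δ l) (A l j) p q) := by
  sorry

/-! ## G12 ProjVF.lean (from G8, G9, G11) -/

theorem proj_veryFree [IsAlgClosed k] (hn : ∀ i l, w i l = (D : ℤ) - n i l)
    (hY : IsTorsor w c Y) (hD : (D : k) ≠ 0) (hr : 0 < r) {e : ℕ} (U : Fin (e + 1) → Idx D n → k)
    (hU : IsCurveS (cone D n Y) U) (hvf : VeryFreeS (cone D n Y) U) (δ : Fin r → ℕ)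
    (A : Fin r → Fin 2 → ℕ → k) (F : Fin M → ℕ → k) (he : e = D * ∑ l, δ l)
    (hA : ∀ p q : k, (p ≠ 0 ∨ q ≠ 0) → ∀ l, (fun j => fval (δ l) (A l j) p q) ≠ 0)
    (hFU : ∀ p q : k, val U p q =
      emb D n (gval w (fun l => (δ l : ℤ)) F p q) (fun l j => fval (δ l) (A l j) p q)) :
    IsGCurve w Y (fun l => (δ l : ℤ)) F ∧ GVeryFree w Y (fun l => (δ l : ℤ)) F := by
  sorry

/-! ## G13 Basis.lean -/

theorem exists_basis (δ : Fin r → ℤ) (hδ : δ ≠ 0) :
    ∃ A B : Matrix (Fin r) (Fin r) ℤ, A * B = 1 ∧ B * A = 1 ∧ ∀ l, 1 ≤ (B.mulVec δ) l := by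
  sorry

/-! ## G14 Change.lean: change of the basis of the characters -/

/-- the weights in the new basis -/
def chw (w : Fin M → Fin r → ℤ) (A : Matrix (Fin r) (Fin r) ℤ) : Fin M → Fin r → ℤ :=
  fun i l => ∑ s, w i s * A s l

theorem IsTorsor.change (hY : IsTorsor w c Y) {A B : Matrix (Fin r) (Fin r) ℤ} (hAB : A * B = 1)
    (hBA : B * A = 1) : IsTorsor (chw w A) c Y := by
  sorry

theorem deg_change {A B : Matrix (Fin r) (Fin r) ℤ} (hAB : A * B = 1) (δ : Fin r → ℤ)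
    (i : Fin M) : deg (chw w A) (B.mulVec δ) i = deg w δ i := by
  sorry

theorem GVeryFree.change {A B : Matrix (Fin r) (Fin r) ℤ} (hAB : A * B = 1) (hBA : B * A = 1)
    {δ : Fin r → ℤ} {F : Fin M → ℕ → k} (h : GVeryFree w Y δ F) :
    GVeryFree (chw w A) Y (B.mulVec δ) F := by
  sorry

theorem GVeryFree.unchange {A B : Matrix (Fin r) (Fin r) ℤ} (hAB : A * B = 1) (hBA : B * A = 1)
    {δ : Fin r → ℤ} {F : Fin M → ℕ → k} (h : GVeryFree (chw w A) Y δ F) :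
    GVeryFree w Y (A.mulVec δ) F := by
  sorry

theorem act_change (A : Matrix (Fin r) (Fin r) ℤ) (t : Fin r → kˣ) (x : Fin M → k) :
    ∃ t' : Fin r → kˣ, act (chw w A) t x = act w t' x := by
  sorry

/-- dimension of the tangent space: a constant curve is not very free -/
theorem ne_zero_of_veryFree (hY : IsTorsor w c Y) (hdim : c + r < M) {δ : Fin r → ℤ}
    {F : Fin M → ℕ → k} (hF : IsGCurve w Y δ F) (hvf : GVeryFree w Y δ F) : δ ≠ 0 := by
  sorry

/-! ## G15 MainG.lean -/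

/-- **Every smooth variety.** -/
theorem general_main [IsAlgClosed k] (h : QPTheorem k) (hY : IsTorsor w c Y) (hdim : c + r < M)
    {δ : Fin r → ℤ} {F : Fin M → ℕ → k} (hF : IsGCurve w Y δ F) (hvf : GVeryFree w Y δ F)
    {m : ℕ} (v : Fin m → Fin M → k) (hv : ∀ i, v i ∈ Y) :
    ∃ (δ' : Fin r → ℤ) (F' : Fin M → ℕ → k) (a : Fin m → k), Function.Injective a ∧
      IsGCurve w Y δ' F' ∧ GVeryFree w Y δ' F' ∧
      ∀ i, ∃ t : Fin r → kˣ, gval w δ' F' 1 (a i) = act w t (v i) := by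
  sorry

end

end Pool.Agent.VFG
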