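import Pool.Agent.Lib_MP_1858fb_g.DefsZ
import Pool.Agent.Lib_MP_1858fb_g.StubG

/-!
# MP_1858fb_ag, line G: stubs of the smooth point pieces (do not import in proofs)
-/

set_option autoImplicit false

namespace Pool.Agent.VFG

open MvPolynomial Pool.Agent.VF

variable {k : Type} [Field k] {M r D : ℕ} {w : Fin M → Fin r → ℤ} {n : Fin M → Fin r → ℕ} {c : ℕ}
  {Y : Set (Fin M → k)}

/-! ## GZ0 ReindexZ.lean : QPSmooth for a general index type -/

theorem qps_general (h : QPSmooth k) {σ : Type} [Fintype σ] [Nonempty σ] {c d m : ℕ}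
    (hc : c + 2 < Fintype.card σ) (C : Set (σ → k)) (F : Fin (d + 1) → σ → k)
    (v : Fin m → σ → k) (a : Fin m → k) (G : Fin m → Set (MvPolynomial σ k))
    (hC : LocClosedS C) (hsm : ∀ x ∈ C, SmoothAt c C x) (hF : IsCurveS C F)
    (hvf : VeryFreeS C F) (ha : Function.Injective a)
    (hv : ∀ l, ∃ b : k, b ≠ 0 ∧ val F 1 (a l) = b • v l)
    (hG : ∀ l, ∀ g ∈ G l, ∃ e : ℕ, g.IsHomogeneous e)
    (hG0 : ∀ l, ∀ g ∈ G l, aeval (v l) g = 0)
    (hdis : ∀ l l', l ≠ l' → ∃ g ∈ G l, aeval (v l') g ≠ 0)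
    (hrk : ∀ l, ∀ z ∈ C, (∀ g ∈ G l, aeval z g = 0) → ∃ g ∈ G l, ∃ g' ∈ G l, ∃ ω ∈ Tan C z,
      ∃ ω' ∈ Tan C z, dif g z ω * dif g' z ω' - dif g z ω' * dif g' z ω ≠ 0) :
    ∃ (d' : ℕ) (F' : Fin (d' + 1) → σ → k) (a' : Fin m → k),
      Function.Injective a' ∧ IsCurveS C F' ∧ VeryFreeS C F' ∧
      (∀ l, ∃ b : k, b ≠ 0 ∧ val F' 1 (a' l) = b • v l) ∧
      (∀ l, ∀ p q : k, (p ≠ 0 ∨ q ≠ 0) → (∀ g ∈ G l, aeval (val F' p q) g = 0) →
        q = a' l * p) ∧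
      ∀ l, ∃ g ∈ G l, dif g (val F' 1 (a' l)) (dval F' (a' l)) ≠ 0 := by
  sorry

/-! ## GZ1 Orbit.lean : equations of a torus orbit -/

/-- the semi-invariant polynomials that vanish at `v` -/
def orbEq (w : Fin M → Fin r → ℤ) (v : Fin M → k) : Set (MvPolynomial (Fin M) k) :=
  {g | SemiInv w g ∧ aeval v g = 0}

theorem orbit_of_orbEq (hY : IsTorsor w c Y) {v x : Fin M → k} (hv : v ∈ Y) (hx : x ∈ Y)
    (h : ∀ g ∈ orbEq w v, aeval x g = 0) : ∃ t : Fin r → kˣ, x = act w t v := by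
  sorry

theorem orbEq_act {v : Fin M → k} (t : Fin r → kˣ) {g : MvPolynomial (Fin M) k}
    (hg : g ∈ orbEq w v) : aeval (act w t v) g = 0 := by
  sorry

theorem radial_of_orbEq (hY : IsTorsor w c Y) {v x : Fin M → k} (hv : v ∈ Y) (hx : x ∈ Y)
    (h : ∀ g ∈ orbEq w v, aeval x g = 0) {ξ : Fin M → k}
    (hξ : ∀ g ∈ orbEq w v, dif g x ξ = 0) : ∃ a : Fin r → k, ξ = radial w x a := by
  sorry

theorem dif_orbEq_radial {v x : Fin M → k} {g : MvPolynomial (Fin M) k} (hg : g ∈ orbEq w v)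
    (hx : aeval x g = 0) (a : Fin r → k) : dif g x (radial w x a) = 0 := by
  sorry

/-! ## GZ2 OrbCone.lean : homogeneous equations of the fibre of `V# → V` (from GZ1, exists_homog,
exists_nf, demb lemmas) -/

/-- the equations of the fibre over the orbit of `v` -/
def fibEq (w : Fin M → Fin r → ℤ) (D : ℕ) (n : Fin M → Fin r → ℕ) (v : Fin M → k) :
    Set (MvPolynomial (Idx D n) k) :=
  {g | ∃ (ε : Fin r → Fin 2) (g₀ : MvPolynomial (Fin M) k) (g' : MvPolynomial (Idx D n) k) (e : ℕ),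
    g₀ ∈ orbEq w v ∧ g'.IsHomogeneous e ∧
    (∀ (R : Type) [CommRing R] [Algebra k R] (s : R) (x : Fin M → R) (y : Fin r → Fin 2 → R),
      (∀ l, y l (ε l) = 1) → aeval (fun j => s * emb D n x y j) g' = s ^ e * aeval x g₀) ∧
    g = X (cor0 D n ε) * g'}

theorem fibEq_hom {v : Fin M → k} {g : MvPolynomial (Idx D n) k} (hg : g ∈ fibEq w D n v) :
    ∃ e : ℕ, g.IsHomogeneous e := by
  sorry

theorem fibEq_zero (hn : ∀ i l, w i l = (D : ℤ) - n i l) (hY : IsTorsor w c Y) {v x : Fin M → k}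
    (hv : v ∈ Y) {t : Fin r → kˣ} (hx : x = act w t v) (y : Fin r → Fin 2 → k)
    {g : MvPolynomial (Idx D n) k} (hD : 0 < D) (hg : g ∈ fibEq w D n v) :
    aeval (emb D n x y) g = 0 := by
  sorry

theorem fibEq_orbit (hn : ∀ i l, w i l = (D : ℤ) - n i l) (hY : IsTorsor w c Y)
    {v x : Fin M → k} (hv : v ∈ Y) (hx : x ∈ Y) {y : Fin r → Fin 2 → k} (hy : ∀ l, y l ≠ 0)
    (h : ∀ g ∈ fibEq w D n v, aeval (emb D n x y) g = 0) :
    ∃ t : Fin r → kˣ, x = act w t v := by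
  sorry

/-- the kernel of the differentials of the equations of the fibre -/
theorem fibEq_tan (hn : ∀ i l, w i l = (D : ℤ) - n i l) (hY : IsTorsor w c Y)
    (hD : (D : k) ≠ 0) {v x : Fin M → k} (hv : v ∈ Y) (hx : x ∈ Y) {y : Fin r → Fin 2 → k}
    (hy : ∀ l, y l ≠ 0) (h : ∀ g ∈ fibEq w D n v, aeval (emb D n x y) g = 0) (ξ : Fin M → k)
    (η : Fin r → Fin 2 → k) (hξ : ∀ g ∈ fibEq w D n v, dif g (emb D n x y) (demb D n x y ξ η) = 0) :
    ∃ a : Fin r → k, ξ = radial w x a := by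
  sorry

theorem fibEq_tan_radial (hn : ∀ i l, w i l = (D : ℤ) - n i l) (hY : IsTorsor w c Y)
    [Infinite k] (hD : 0 < D) {v x : Fin M → k} (hv : v ∈ Y) {t : Fin r → kˣ}
    (hx : x = act w t v) {y : Fin r → Fin 2 → k} (hy : ∀ l, y l ≠ 0) (a : Fin r → k)
    (η : Fin r → Fin 2 → k) {g : MvPolynomial (Idx D n) k} (hg : g ∈ fibEq w D n v) :
    dif g (emb D n x y) (demb D n x y (radial w x a) η) = 0 := by
  sorry

/-! ## GZ3 Rank.lean : linear algebra and dimension -/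

/-- functionals whose restrictions to `span {x, y}` have no common zero -/
theorem exists_minor {E ι : Type} [AddCommGroup E] [Module k E] (f : ι → E →ₗ[k] k) (x y : E)
    (h : ∀ α β : k, (∀ i, f i (α • x + β • y) = 0) → α = 0 ∧ β = 0) :
    ∃ i j, f i x * f j y - f i y * f j x ≠ 0 := by
  sorry

/-- two tangent vectors independent modulo the radial ones -/
theorem exists_two (hY : IsTorsor w c Y) (hdim : c + r + 2 ≤ M) {x : Fin M → k} (hx : x ∈ Y) :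
    ∃ ξ ∈ Tan Y x, ∃ ξ' ∈ Tan Y x, ∀ (α β : k) (a : Fin r → k),
      α • ξ + β • ξ' = radial w x a → α = 0 ∧ β = 0 := by
  sorry

theorem fibEq_rank [IsAlgClosed k] (hn : ∀ i l, w i l = (D : ℤ) - n i l) (hY : IsTorsor w c Y)
    (hD : (D : k) ≠ 0) (hr : 0 < r) (hdim : c + r + 2 ≤ M) {v : Fin M → k} (hv : v ∈ Y)
    {z : Idx D n → k} (hz : z ∈ cone D n Y) (h : ∀ g ∈ fibEq w D n v, aeval z g = 0) :
    ∃ g ∈ fibEq w D n v, ∃ g' ∈ fibEq w D n v, ∃ ω ∈ Tan (cone D n Y) z,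
      ∃ ω' ∈ Tan (cone D n Y) z, dif g z ω * dif g' z ω' - dif g z ω' * dif g' z ω ≠ 0 := by
  sorry

/-! ## GZ4 DerProj.lean : the derivative of the recovered curve -/

/-- Euler's relation for `gder` -/
theorem gder_euler (δ : Fin r → ℤ) (F : Fin M → ℕ → k) (p q : k) :
    gder w δ F p q p q = radial w (gval w δ F p q) (fun l => (δ l : k)) := by
  sorry

theorem gder_add_smul (δ : Fin r → ℤ) (F : Fin M → ℕ → k) (p q s t s' t' α β : k) :
    gder w δ F p q (α * s + β * s') (α * t + β * t') =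
      α • gder w δ F p q s t + β • gder w δ F p q s' t' := by
  sorry

/-- chain rule -/
theorem dval_eq_demb {e : ℕ} (U : Fin (e + 1) → Idx D n → k) (δ : Fin r → ℕ)
    (A : Fin r → Fin 2 → ℕ → k) (F : Fin M → ℕ → k) [Infinite k]
    (hFU : ∀ p q : k, val U p q =
      emb D n (gval w (fun l => (δ l : ℤ)) F p q) (fun l j => fval (δ l) (A l j) p q)) (a : k) :
    ∃ η : Fin r → Fin 2 → k, dval U a =
      demb D n (gval w (fun l => (δ l : ℤ)) F 1 a) (fun l j => fval (δ l) (A l j) 1 a)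
        (gder w (fun l => (δ l : ℤ)) F 1 a 0 1) η := by
  sorry

/-! ## GZ5 MainZ.lean -/

/-- **Every smooth variety, smooth points.** -/
theorem general_smooth [IsAlgClosed k] (h : QPTheorem k) (hs : QPSmooth k) (hY : IsTorsor w c Y)
    (hdim : c + r + 2 ≤ M) {δ : Fin r → ℤ} {F : Fin M → ℕ → k} (hF : IsGCurve w Y δ F)
    (hvf : GVeryFree w Y δ F) {m : ℕ} (v : Fin m → Fin M → k) (hv : ∀ i, v i ∈ Y)
    (hdis : ∀ i j, i ≠ j → ¬ ∃ t : Fin r → kˣ, v i = act w t (v j)) :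
    ∃ (δ' : Fin r → ℤ) (F' : Fin M → ℕ → k), IsGCurve w Y δ' F' ∧ GVeryFree w Y δ' F' ∧
      ∀ i, GSmoothAt w δ' F' (v i) := by
  sorry

end Pool.Agent.VFG
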